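import Pool.Agent.Helper75.MNA.PresDefs

set_option autoImplicit false
set_option linter.style.haveILetI false

namespace Pool.Agent.Helper75.MNA

open Subgroup Pointwise

theorem a1_formation (G : Type) [Group G] [Finite G] :
    IsFormation (fun K _ => ∃ n, Nonempty (Pres G K n)) where
  finite := by
    rintro K _ ⟨n, ⟨P⟩⟩
    exact Finite.of_surjective P.ρ P.onto
  nonempty := ⟨G, inferInstance, 1, ⟨{
    R := G
    π := fun _ => MonoidHom.id G
    ρ := MonoidHom.id G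
    surj := fun _ x => ⟨x, rfl⟩
    inj := fun r h => h 0
    onto := fun x => ⟨x, rfl⟩ }⟩⟩
  iso := by
    rintro A B _ _ ⟨e⟩ ⟨n, ⟨P⟩⟩
    exact ⟨n, ⟨{
      R := P.R
      π := P.π
      ρ := e.toMonoidHom.comp P.ρ
      surj := P.surj
      inj := P.inj
      onto := e.surjective.comp P.onto }⟩⟩
  quotient := by
    rintro A _ N _ ⟨n, ⟨P⟩⟩
    exact ⟨n, ⟨{
      R := P.R
      π := P.π
      ρ := (QuotientGroup.mk' N).comp P.ρ
      surj := P.surj
      inj := P.inj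
      onto := (QuotientGroup.mk'_surjective N).comp P.onto }⟩⟩
  subdirect := by
    rintro K _ _ M N _ _ ⟨n₁, ⟨P₁⟩⟩ ⟨n₂, ⟨P₂⟩⟩
    let qM : (K ⧸ (M ⊓ N)) →* (K ⧸ M) :=
      QuotientGroup.map (M ⊓ N) M (MonoidHom.id K) (fun x hx => (Subgroup.mem_inf.1 hx).1)
    let qN : (K ⧸ (M ⊓ N)) →* (K ⧸ N) :=
      QuotientGroup.map (M ⊓ N) N (MonoidHom.id K) (fun x hx => (Subgroup.mem_inf.1 hx).2)
    have hqM : ∀ x : K, qM (x : K ⧸ (M ⊓ N)) = (x : K ⧸ M) := fun x => rfl
    have hqN : ∀ x : K, qN (x : K ⧸ (M ⊓ N)) = (x : K ⧸ N) := fun x => rfl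
    have hq : ∀ k : K ⧸ (M ⊓ N), qM k = 1 → qN k = 1 → k = 1 := by
      intro k
      induction k using QuotientGroup.induction_on with
      | H x =>
        intro h1 h2
        have h3 : x ∈ M := (QuotientGroup.eq_one_iff (N := M) x).1 h1
        have h4 : x ∈ N := (QuotientGroup.eq_one_iff (N := N) x).1 h2
        rw [QuotientGroup.eq_one_iff]
        exact Subgroup.mem_inf.2 ⟨h3, h4⟩
    let R : Subgroup ((K ⧸ (M ⊓ N)) × (P₁.R × P₂.R)) :=
      { carrier := {t | qM t.1 = P₁.ρ t.2.1 ∧ qN t.1 = P₂.ρ t.2.2}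
        one_mem' := by simp
        mul_mem' := by
          rintro a b ⟨h1, h2⟩ ⟨h3, h4⟩
          refine ⟨?_, ?_⟩
          · simp only [Prod.fst_mul, Prod.snd_mul, map_mul, h1, h3]
          · simp only [Prod.fst_mul, Prod.snd_mul, map_mul, h2, h4]
        inv_mem' := by
          rintro a ⟨h1, h2⟩
          refine ⟨?_, ?_⟩
          · simp only [Prod.fst_inv, Prod.snd_inv, map_inv, h1]
          · simp only [Prod.fst_inv, Prod.snd_inv, map_inv, h2] }
    have hR : ∀ t, t ∈ R ↔ qM t.1 = P₁.ρ t.2.1 ∧ qN t.1 = P₂.ρ t.2.2 := fun t => Iff.rfl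
    let p₀ : R →* (K ⧸ (M ⊓ N)) := (MonoidHom.fst _ _).comp R.subtype
    let p₁ : R →* P₁.R := ((MonoidHom.fst _ _).comp (MonoidHom.snd _ _)).comp R.subtype
    let p₂ : R →* P₂.R := ((MonoidHom.snd _ _).comp (MonoidHom.snd _ _)).comp R.subtype
    have s₁ : Function.Surjective p₁ := by
      intro r₁
      obtain ⟨k₀, hk₀⟩ := QuotientGroup.mk_surjective (P₁.ρ r₁)
      obtain ⟨r₂, hr₂⟩ := P₂.onto (k₀ : K ⧸ N)
      exact ⟨⟨((k₀ : K ⧸ (M ⊓ N)), (r₁, r₂)), ⟨(hqM k₀).trans hk₀, (hqN k₀).trans hr₂.symm⟩⟩, rfl⟩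
    have s₂ : Function.Surjective p₂ := by
      intro r₂
      obtain ⟨k₀, hk₀⟩ := QuotientGroup.mk_surjective (P₂.ρ r₂)
      obtain ⟨r₁, hr₁⟩ := P₁.onto (k₀ : K ⧸ M)
      exact ⟨⟨((k₀ : K ⧸ (M ⊓ N)), (r₁, r₂)), ⟨(hqM k₀).trans hr₁.symm, (hqN k₀).trans hk₀⟩⟩, rfl⟩
    refine ⟨n₁ + n₂, ⟨{
      R := R
      π := Fin.addCases (fun i => (P₁.π i).comp p₁) (fun j => (P₂.π j).comp p₂)
      ρ := p₀
      surj := ?_
      inj := ?_
      onto := ?_ }⟩⟩
    · intro i
      refine Fin.addCases (fun i => ?_) (fun j => ?_) i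
      · rw [Fin.addCases_left]
        exact (P₁.surj i).comp s₁
      · rw [Fin.addCases_right]
        exact (P₂.surj j).comp s₂
    · intro r h
      have h1 : p₁ r = 1 := by
        apply P₁.inj
        intro i
        have := h (Fin.castAdd n₂ i)
        rw [Fin.addCases_left] at this
        exact this
      have h2 : p₂ r = 1 := by
        apply P₂.inj
        intro j
        have := h (Fin.natAdd n₁ j)
        rw [Fin.addCases_right] at this
        exact this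
      have h3 := (hR r.1).1 r.2
      have h1' : r.1.2.1 = 1 := h1
      have h2' : r.1.2.2 = 1 := h2
      rw [h1', h2', map_one, map_one] at h3
      have h4 : r.1.1 = 1 := hq _ h3.1 h3.2
      apply Subtype.ext
      exact Prod.ext h4 (Prod.ext h1' h2')
    · intro k
      obtain ⟨r₁, hr₁⟩ := P₁.onto (qM k)
      obtain ⟨r₂, hr₂⟩ := P₂.onto (qN k)
      exact ⟨⟨(k, (r₁, r₂)), ⟨hr₁.symm, hr₂.symm⟩⟩, rfl⟩

theorem exists_pres {G K : Type} [Group G] [Finite G] [Group K] (h : form G K) :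
    ∃ n, Nonempty (Pres G K n) := by
  refine h _ (a1_formation G) ⟨1, ⟨{
    R := G
    π := fun _ => MonoidHom.id G
    ρ := MonoidHom.id G
    surj := fun _ x => ⟨x, rfl⟩
    inj := fun r h => h 0
    onto := fun x => ⟨x, rfl⟩ }⟩⟩

theorem exists_min_pres {G K : Type} [Group G] [Finite G] [Group K] (h : form G K) :
    ∃ (n : ℕ) (P : Pres G K n), P.IsMin := by
  classical
  have h1 := exists_pres h
  obtain ⟨P⟩ := Nat.find_spec h1
  exact ⟨Nat.find h1, P, fun m hm => not_nonempty_iff.1 (Nat.find_min h1 hm)⟩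

theorem Pres.sep {G K : Type} [Group G] [Group K] {n : ℕ} (P : Pres G K n) (hP : P.IsMin)
    (i : Fin n) : ∃ d : P.R, (∀ j, j ≠ i → P.π j d = 1) ∧ P.ρ d ≠ 1 := by
  by_contra hcon
  push Not at hcon
  obtain _ | m := n
  · exact i.elim0
  let D : Subgroup P.R := ⨅ k : Fin m, (P.π (i.succAbove k)).ker
  haveI hD : D.Normal := Subgroup.normal_iInf_normal (fun k => inferInstance)
  have hmem : ∀ x : P.R, x ∈ D ↔ ∀ k : Fin m, P.π (i.succAbove k) x = 1 := by
    intro x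
    simp only [D, Subgroup.mem_iInf, MonoidHom.mem_ker]
  have hDρ : ∀ x ∈ D, P.ρ x = 1 := by
    intro x hx
    apply hcon
    intro j hj
    obtain ⟨k, rfl⟩ := Fin.exists_succAbove_eq hj
    exact (hmem x).1 hx k
  refine (hP m (Nat.lt_succ_self m)).false {
    R := P.R ⧸ D
    π := fun k => QuotientGroup.lift D (P.π (i.succAbove k)) (fun x hx => (hmem x).1 hx k)
    ρ := QuotientGroup.lift D P.ρ hDρ
    surj := fun k y => ?_
    inj := fun x => ?_
    onto := fun y => ?_ }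
  · obtain ⟨x, hx⟩ := P.surj (i.succAbove k) y
    exact ⟨(x : P.R ⧸ D), hx⟩
  · induction x using QuotientGroup.induction_on with
    | H x =>
      intro hx
      rw [QuotientGroup.eq_one_iff]
      exact (hmem x).2 hx
  · obtain ⟨x, hx⟩ := P.onto y
    exact ⟨(x : P.R ⧸ D), hx⟩

theorem Pres.full {G K : Type} [Group G] [Group K] {n : ℕ} (P : Pres G K n) (hP : P.IsMin)
    {M : Subgroup G} (hM : IsMonolith M) (i : Fin n) (m : G) (hm : m ∈ M) :
    ∃ d : P.R, P.π i d = m ∧ ∀ j, j ≠ i → P.π j d = 1 := by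
  obtain ⟨d₀, hd₀, hρ⟩ := P.sep hP i
  let D : Subgroup P.R := ⨅ j : {j : Fin n // j ≠ i}, (P.π j).ker
  haveI hD : D.Normal := Subgroup.normal_iInf_normal (fun k => inferInstance)
  have hmem : ∀ x : P.R, x ∈ D ↔ ∀ j : Fin n, j ≠ i → P.π j x = 1 := by
    intro x
    simp only [D, Subgroup.mem_iInf, MonoidHom.mem_ker, Subtype.forall]
  have h1 : (D.map (P.π i)).Normal := hD.map (P.π i) (P.surj i)
  have h2 : D.map (P.π i) ≠ ⊥ := by
    intro h
    have h3 : P.π i d₀ ∈ D.map (P.π i) := Subgroup.mem_map_of_mem _ ((hmem d₀).2 hd₀)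
    rw [h, Subgroup.mem_bot] at h3
    have h4 : d₀ = 1 := by
      apply P.inj
      intro j
      by_cases hj : j = i
      · rw [hj]; exact h3
      · exact hd₀ j hj
    apply hρ
    rw [h4, map_one]
  obtain ⟨d, hd, hd2⟩ := hM.le _ h1 h2 hm
  exact ⟨d, hd2, (hmem d).1 hd⟩

theorem form_of_pres {G K : Type} [Group G] [Group K] {n : ℕ} (P : Pres G K n) : form G K := by
  intro F hF hG
  have h1 : F P.R := hF.subdirect_fin n P.π P.surj (fun _ => hG) P.inj
  exact hF.surj h1 P.ρ P.onto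

end Pool.Agent.Helper75.MNA
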