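import Pool.Agent.Helper75.MNA.PresDefs

set_option autoImplicit false
set_option linter.style.haveILetI false

namespace Pool.Agent.Helper75.MNA

open Subgroup Pointwise

theorem exists_monolithic {F : GroupClass} (hF : IsFormation F)
    (h : ∃ (G : Type) (_ : Group G), F G ∧ ¬ AClass G) :
    ∃ (G : Type) (_ : Group G) (M : Subgroup G) (_ : M.Normal),
      F G ∧ ¬ AClass G ∧ IsMonolith M ∧ AClass (G ⧸ M) := by
  classical
  have hex : ∃ n : ℕ, ∃ (G : Type) (_ : Group G), F G ∧ ¬ AClass G ∧ Nat.card G = n := by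
    obtain ⟨G, iG, h1, h2⟩ := h
    exact ⟨Nat.card G, G, iG, h1, h2, rfl⟩
  obtain ⟨G, iG, hFG, hA, hn⟩ := Nat.find_spec hex
  have hmin := fun m (hm : m < Nat.find hex) => Nat.find_min hex hm
  haveI hfin : Finite G := hF.finite G hFG
  have key : ∀ (N : Subgroup G) [N.Normal], N ≠ ⊥ → AClass (G ⧸ N) := by
    intro N _ hN
    by_contra hcon
    have h1 := Subgroup.card_eq_card_quotient_mul_card_subgroup N
    have h2 : 1 < Nat.card N := Subgroup.one_lt_card_iff_ne_bot N |>.2 hN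
    have h3 : 0 < Nat.card (G ⧸ N) := Nat.card_pos
    have h4 : Nat.card (G ⧸ N) < Nat.card G := by
      rw [h1]
      exact lt_mul_of_one_lt_right h3 h2
    rw [hn] at h4
    exact hmin _ h4 ⟨G ⧸ N, inferInstance, hF.quotient G N hFG, hcon, rfl⟩
  have hinf : ∀ (N1 N2 : Subgroup G), N1.Normal → N2.Normal → N1 ≠ ⊥ → N2 ≠ ⊥ →
      N1 ⊓ N2 ≠ ⊥ := by
    intro N1 N2 h1 h2 h3 h4 h5
    apply hA
    refine AClass.joint2 (QuotientGroup.mk' N1) (QuotientGroup.mk' N2) (key N1 h3) (key N2 h4) ?_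
    intro x hx1 hx2
    have a1 : x ∈ N1 := (QuotientGroup.eq_one_iff (N := N1) x).1 hx1
    have a2 : x ∈ N2 := (QuotientGroup.eq_one_iff (N := N2) x).1 hx2
    have a3 : x ∈ N1 ⊓ N2 := Subgroup.mem_inf.2 ⟨a1, a2⟩
    rw [h5] at a3
    exact Subgroup.mem_bot.1 a3
  have htop : (⊤ : Subgroup G) ≠ ⊥ := by
    intro h
    apply hA
    refine AClass_isFormation.trivial_mem fun x => ?_
    have : x ∈ (⊤ : Subgroup G) := Subgroup.mem_top x
    rw [h] at this
    exact Subgroup.mem_bot.1 this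
  haveI : Finite (Subgroup G) := inferInstance
  obtain ⟨M, ⟨hMn, hMb⟩, hMmin⟩ := (wellFounded_lt (α := Subgroup G)).has_min
    {N : Subgroup G | N.Normal ∧ N ≠ ⊥} ⟨⊤, inferInstance, htop⟩
  refine ⟨G, iG, M, hMn, hFG, hA, ⟨hMn, hMb, ?_⟩, key M hMb⟩
  intro N hN hNb
  have h1 : (M ⊓ N).Normal := Subgroup.normal_inf_normal M N
  have h2 := hMmin (M ⊓ N) ⟨h1, hinf M N hMn hN hMb hNb⟩
  have h3 : M ⊓ N = M := by
    by_contra hne
    exact h2 (lt_of_le_of_ne inf_le_left hne)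
  exact inf_eq_left.1 h3

end Pool.Agent.Helper75.MNA
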