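import Pool.Agent.Helper75.MNA.Basic

set_option autoImplicit false
set_option linter.style.haveILetI false

namespace Pool.Agent.Helper75.MNA

open Subgroup Pointwise

/-- Abelian `p`-subgroups. -/
def AbP (p : ℕ) (G : Type) [Group G] : Prop :=
  ∀ P : Subgroup G, IsPGroup p P → ∀ x ∈ P, ∀ y ∈ P, x * y = y * x

theorem abP_iff_sylow {p : ℕ} {G : Type} [Group G] [Finite G] [Fact p.Prime] :
    AbP p G ↔ ∀ P : Sylow p G, ∀ x ∈ P, ∀ y ∈ P, x * y = y * x := by
  constructor
  · intro h P x hx y hy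
    exact h P P.isPGroup' x hx y hy
  · intro h P hP x hx y hy
    obtain ⟨Q, hQ⟩ := hP.exists_le_sylow
    exact h Q x (hQ hx) y (hQ hy)

theorem AbP.of_injective {p : ℕ} {G H : Type} [Group G] [Group H] (h : AbP p G) (f : H →* G)
    (hf : Function.Injective f) : AbP p H := by
  intro P hP x hx y hy
  have h1 : IsPGroup p (P.map f) := hP.map f
  apply hf
  rw [map_mul, map_mul]
  exact h _ h1 _ (Subgroup.mem_map_of_mem f hx) _ (Subgroup.mem_map_of_mem f hy)

theorem AbP.surj {p : ℕ} [Fact p.Prime] {G H : Type} [Group G] [Group H] [Finite G]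
    (h : AbP p G) (f : G →* H) (hf : Function.Surjective f) : AbP p H := by
  haveI : Finite H := Finite.of_surjective f hf
  rw [abP_iff_sylow]
  intro Q x hx y hy
  let P : Sylow p G := default
  let P' : Sylow p H := P.mapSurjective hf
  obtain ⟨g, hg⟩ := MulAction.exists_smul_eq H P' Q
  have h1 : ∀ z ∈ Q, ∃ u ∈ P, f u = g⁻¹ * z * g := by
    intro z hz
    rw [← hg] at hz
    have h2 : g⁻¹ * z * g ∈ (P' : Subgroup H) := by
      have h3 : z ∈ ((MulAut.conj g • (P' : Subgroup H) : Subgroup H)) := hz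
      rw [Subgroup.mem_pointwise_smul_iff_inv_smul_mem] at h3
      simpa [MulAut.smul_def, MulAut.conj_inv_apply, mul_assoc] using h3
    have h4 : g⁻¹ * z * g ∈ (P : Subgroup G).map f := h2
    obtain ⟨u, hu, hu2⟩ := h4
    exact ⟨u, hu, hu2⟩
  obtain ⟨u, hu, hu2⟩ := h1 x hx
  obtain ⟨v, hv, hv2⟩ := h1 y hy
  have h5 := h P P.isPGroup' u hu v hv
  have h6 : (g⁻¹ * x * g) * (g⁻¹ * y * g) = (g⁻¹ * y * g) * (g⁻¹ * x * g) := by
    rw [← hu2, ← hv2, ← map_mul, h5, map_mul]
  have h7 : g⁻¹ * (x * y) * g = g⁻¹ * (y * x) * g := by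
    calc g⁻¹ * (x * y) * g = (g⁻¹ * x * g) * (g⁻¹ * y * g) := by group
      _ = (g⁻¹ * y * g) * (g⁻¹ * x * g) := h6
      _ = g⁻¹ * (y * x) * g := by group
  exact mul_left_cancel (mul_right_cancel h7)

theorem AbP.joint {p : ℕ} {G : Type} [Group G] {ι : Type} {A : ι → Type} [∀ i, Group (A i)]
    (f : ∀ i, G →* A i) (hA : ∀ i, AbP p (A i)) (h : ∀ x, (∀ i, f i x = 1) → x = 1) :
    AbP p G := by
  intro P hP x hx y hy
  have h1 : (x * y) * (y * x)⁻¹ = 1 := by
    apply h
    intro i
    have h2 := hA i (P.map (f i)) (hP.map (f i)) _ (Subgroup.mem_map_of_mem (f i) hx) _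
      (Subgroup.mem_map_of_mem (f i) hy)
    rw [map_mul, map_mul, map_inv, map_mul, h2, mul_inv_cancel]
  exact mul_inv_eq_one.1 h1

theorem AClass_iff {G : Type} [Group G] : AClass G ↔ Finite G ∧ ∀ p : ℕ, p.Prime → AbP p G := by
  constructor
  · rintro ⟨h1, h2⟩
    refine ⟨h1, fun p hp => ?_⟩
    haveI : Finite G := h1
    haveI : Fact p.Prime := ⟨hp⟩
    rw [abP_iff_sylow]
    exact h2 p hp
  · rintro ⟨h1, h2⟩
    refine ⟨h1, fun p hp => ?_⟩
    haveI : Finite G := h1
    haveI : Fact p.Prime := ⟨hp⟩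
    exact abP_iff_sylow.1 (h2 p hp)

theorem AClass.finite {G : Type} [Group G] (h : AClass G) : Finite G := h.1

theorem AClass.abP {G : Type} [Group G] (h : AClass G) (p : ℕ) (hp : p.Prime) : AbP p G :=
  (AClass_iff.1 h).2 p hp

theorem AClass.of_injective {G H : Type} [Group G] [Group H] (h : AClass G) (f : H →* G)
    (hf : Function.Injective f) : AClass H := by
  haveI := h.1
  rw [AClass_iff]
  exact ⟨Finite.of_injective f hf, fun p hp => (h.abP p hp).of_injective f hf⟩

theorem AClass.surj {G H : Type} [Group G] [Group H] (h : AClass G) (f : G →* H)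
    (hf : Function.Surjective f) : AClass H := by
  haveI := h.1
  rw [AClass_iff]
  refine ⟨Finite.of_surjective f hf, fun p hp => ?_⟩
  haveI : Fact p.Prime := ⟨hp⟩
  exact (h.abP p hp).surj f hf

theorem AClass.joint {G : Type} [Group G] [Finite G] {ι : Type} {A : ι → Type}
    [∀ i, Group (A i)]
    (f : ∀ i, G →* A i) (hA : ∀ i, AClass (A i)) (h : ∀ x, (∀ i, f i x = 1) → x = 1) :
    AClass G := by
  rw [AClass_iff]
  exact ⟨inferInstance, fun p hp => AbP.joint f (fun i => (hA i).abP p hp) h⟩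

theorem AClass.joint2 {G A B : Type} [Group G] [Finite G] [Group A] [Group B]
    (f : G →* A) (g : G →* B) (hA : AClass A) (hB : AClass B)
    (h : ∀ x, f x = 1 → g x = 1 → x = 1) : AClass G := by
  rw [AClass_iff]
  refine ⟨inferInstance, fun p hp => ?_⟩
  intro P hP x hx y hy
  have h1 : (x * y) * (y * x)⁻¹ = 1 := by
    apply h
    · have h2 := hA.abP p hp (P.map f) (hP.map f) _ (Subgroup.mem_map_of_mem f hx) _
        (Subgroup.mem_map_of_mem f hy)
      rw [map_mul, map_mul, map_inv, map_mul, h2, mul_inv_cancel]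
    · have h2 := hB.abP p hp (P.map g) (hP.map g) _ (Subgroup.mem_map_of_mem g hx) _
        (Subgroup.mem_map_of_mem g hy)
      rw [map_mul, map_mul, map_inv, map_mul, h2, mul_inv_cancel]
  exact mul_inv_eq_one.1 h1

theorem AClass_isFormation : IsFormation AClass where
  finite := fun _ _ h => h.1
  nonempty := ⟨Unit, inferInstance, inferInstance, fun _ _ _ _ _ _ _ => rfl⟩
  iso := fun _ _ _ _ ⟨e⟩ h => h.surj e.toMonoidHom e.surjective
  quotient := fun _ _ N _ h => h.surj (QuotientGroup.mk' N) (QuotientGroup.mk'_surjective N)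
  subdirect := fun G _ _ M N _ _ h1 h2 => by
    refine AClass.joint2
      (QuotientGroup.map (M ⊓ N) M (MonoidHom.id G) (fun x hx => (Subgroup.mem_inf.1 hx).1))
      (QuotientGroup.map (M ⊓ N) N (MonoidHom.id G) (fun x hx => (Subgroup.mem_inf.1 hx).2)) h1 h2 ?_
    intro x
    induction x using QuotientGroup.induction_on with
    | H x =>
      intro hx1 hx2
      have h3 : x ∈ M := (QuotientGroup.eq_one_iff (N := M) x).1 hx1
      have h4 : x ∈ N := (QuotientGroup.eq_one_iff (N := N) x).1 hx2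
      rw [QuotientGroup.eq_one_iff]
      exact Subgroup.mem_inf.2 ⟨h3, h4⟩

end Pool.Agent.Helper75.MNA
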