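import Pool.Agent.Helper75.MNA.Defs

set_option autoImplicit false

namespace Pool.Agent.Helper75.MNA

open Subgroup

namespace IsFormation

variable {F : GroupClass}

theorem surj (hF : IsFormation F) {G H : Type} [Group G] [Group H] (h : F G) (f : G →* H)
    (hf : Function.Surjective f) : F H := by
  have h1 : F (G ⧸ f.ker) := hF.quotient G f.ker h
  exact hF.iso _ _ ⟨QuotientGroup.quotientKerEquivOfSurjective f hf⟩ h1

theorem subdirect_hom (hF : IsFormation F) {G A B : Type} [Group G] [Finite G] [Group A] [Group B]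
    (f : G →* A) (g : G →* B) (hf : Function.Surjective f) (hg : Function.Surjective g)
    (hA : F A) (hB : F B) (h : ∀ x, f x = 1 → g x = 1 → x = 1) : F G := by
  have h1 : F (G ⧸ f.ker) :=
    hF.iso _ _ ⟨(QuotientGroup.quotientKerEquivOfSurjective f hf).symm⟩ hA
  have h2 : F (G ⧸ g.ker) :=
    hF.iso _ _ ⟨(QuotientGroup.quotientKerEquivOfSurjective g hg).symm⟩ hB
  have h3 := hF.subdirect G f.ker g.ker h1 h2
  have h4 : f.ker ⊓ g.ker = ⊥ := by
    rw [eq_bot_iff]
    intro x hx
    exact Subgroup.mem_bot.2 (h x (MonoidHom.mem_ker.1 hx.1) (MonoidHom.mem_ker.1 hx.2))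
  let φ : (G ⧸ (f.ker ⊓ g.ker)) →* G :=
    QuotientGroup.lift (f.ker ⊓ g.ker) (MonoidHom.id G) (fun x hx => by
      rw [h4, Subgroup.mem_bot] at hx
      simpa using hx)
  exact hF.surj h3 φ (fun x => ⟨(x : G ⧸ (f.ker ⊓ g.ker)), rfl⟩)

theorem trivial_mem (hF : IsFormation F) {G : Type} [Group G] (h : ∀ x : G, x = 1) : F G := by
  obtain ⟨K, _, hK⟩ := hF.nonempty
  refine hF.surj hK (1 : K →* G) (fun x => ⟨1, ?_⟩)
  rw [h x]
  rfl

theorem subdirect_fin (hF : IsFormation F) (n : ℕ) : ∀ {G : Type} [Group G] [Finite G]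
    {A : Fin n → Type} [∀ i, Group (A i)] (f : ∀ i, G →* A i)
    (_ : ∀ i, Function.Surjective (f i)) (_ : ∀ i, F (A i))
    (_ : ∀ x, (∀ i, f i x = 1) → x = 1), F G := by
  induction n with
  | zero =>
    intro G _ _ A _ f _ _ h
    exact hF.trivial_mem (fun x => h x (fun i => i.elim0))
  | succ n ih =>
    intro G _ _ A _ f hf hA h
    let N : Subgroup G := ⨅ i : Fin n, (f i.succ).ker
    haveI hN : N.Normal := Subgroup.normal_iInf_normal (fun i => inferInstance)
    have hmem : ∀ x : G, x ∈ N ↔ ∀ i : Fin n, f i.succ x = 1 := by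
      intro x
      simp only [N, Subgroup.mem_iInf, MonoidHom.mem_ker]
    have h1 : F (G ⧸ N) := by
      refine ih (A := fun i => A i.succ)
        (fun i => QuotientGroup.lift N (f i.succ) (fun x hx => (hmem x).1 hx i)) ?_ ?_ ?_
      · intro i y
        obtain ⟨x, hx⟩ := hf i.succ y
        exact ⟨(x : G ⧸ N), hx⟩
      · intro i
        exact hA i.succ
      · intro x
        induction x using QuotientGroup.induction_on with
        | H x =>
          intro hx
          rw [QuotientGroup.eq_one_iff]
          exact (hmem x).2 hx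
    refine hF.subdirect_hom (f 0) (QuotientGroup.mk' N) (hf 0) (QuotientGroup.mk'_surjective N)
      (hA 0) h1 ?_
    intro x hx1 hx2
    refine h x (fun i => ?_)
    refine Fin.cases hx1 (fun j => ?_) i
    have h2 : x ∈ N := by
      rw [← QuotientGroup.eq_one_iff]
      exact hx2
    exact (hmem x).1 h2 j

/-- The semidirect product of a normal subgroup by the whole group (acting by conjugation). -/
theorem semidirect (hF : IsFormation F) {G : Type} [Group G] (h : F G) (N : Subgroup G)
    [N.Normal] : F (↥N ⋊[MulAut.conjNormal] G) := by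
  haveI : Finite G := hF.finite G h
  haveI : Finite (↥N ⋊[MulAut.conjNormal (H := N)] G) :=
    Finite.of_equiv _ SemidirectProduct.equivProd.symm
  let f : (↥N ⋊[MulAut.conjNormal (H := N)] G) →* G :=
    SemidirectProduct.lift N.subtype (MonoidHom.id G) (by
      intro g
      ext n
      simp)
  refine hF.subdirect_hom (SemidirectProduct.rightHom) f
    SemidirectProduct.rightHom_surjective ?_ h h ?_
  · intro g
    exact ⟨SemidirectProduct.inr g, by simp [f]⟩
  · intro x hx1 hx2
    have h1 : x.right = 1 := hx1
    have h2 : (x.left : G) * x.right = 1 := hx2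
    ext
    · rw [h1, mul_one] at h2
      rw [h2]
      rfl
    · exact h1

end IsFormation

theorem isFormation_finite : IsFormation (fun G _ => Finite G) where
  finite := fun _ _ h => h
  nonempty := ⟨Unit, inferInstance, inferInstance⟩
  iso := fun _ _ _ _ ⟨e⟩ h => by
    haveI := h
    exact Finite.of_equiv _ e.toEquiv
  quotient := fun G _ N _ h => by
    haveI : Finite G := h
    exact (inferInstance : Finite (G ⧸ N))
  subdirect := fun G _ hG M N _ _ _ _ => by
    haveI : Finite G := hG
    exact (inferInstance : Finite (G ⧸ (M ⊓ N)))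

theorem form_finite {G H : Type} [Group G] [Group H] [Finite G] (h : form G H) : Finite H :=
  h _ isFormation_finite ‹Finite G›

theorem self_mem_form (G : Type) [Group G] : form G G := fun _ _ h => h

theorem form_isFormation (G : Type) [Group G] [Finite G] : IsFormation (form G) where
  finite := fun _ _ h => form_finite h
  nonempty := ⟨G, inferInstance, self_mem_form G⟩
  iso := fun A B _ _ e h F hF hG => hF.iso A B e (h F hF hG)
  quotient := fun A _ N _ h F hF hG => hF.quotient A N (h F hF hG)
  subdirect := fun A _ _ M N _ _ h1 h2 F hF hG => hF.subdirect A M N (h1 F hF hG) (h2 F hF hG)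

end Pool.Agent.Helper75.MNA
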