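import Pool.Agent.Helper75.MNA.PresDefs
import Pool.Agent.Helper75.MNA.A1

set_option autoImplicit false
set_option linter.style.haveILetI false

namespace Pool.Agent.Helper75.MNA

open Subgroup Pointwise

/-- generic homomorphism between groups of pairings -/
def c1_map (P P' : Pairing) (l : P.H →* P'.H) (a : P.V →+ P'.V) (b : P.W →+ P'.W)
    (c : P.M →+ P'.M) (ha : ∀ h v, a (P.actV h v) = P'.actV (l h) (a v))
    (hb : ∀ h w, b (P.actW h w) = P'.actW (l h) (b w))
    (hc : ∀ h m, c (P.actM h m) = P'.actM (l h) (c m))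
    (hβ : ∀ v w, c (P.β v w) = P'.β (a v) (b w)) : P.Grp →* P'.Grp :=
  SemidirectProduct.map
    { toFun := fun x => ⟨a x.v, b x.w, c x.m⟩
      map_one' := by
        ext <;> simp
      map_mul' := fun x y => by
        ext
        · simp
        · simp
        · simp [hβ] }
    l (by
      intro h
      ext x
      · exact ha h x.v
      · exact hb h x.w
      · exact hc h x.m)

def c1_swap (P P' : Pairing) (l : P.H →* P'.H) (a : P.V →+ P'.W) (b : P.W →+ P'.V)
    (c : P.M →+ P'.M) (ha : ∀ h v, a (P.actV h v) = P'.actW (l h) (a v))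
    (hb : ∀ h w, b (P.actW h w) = P'.actV (l h) (b w))
    (hc : ∀ h m, c (P.actM h m) = P'.actM (l h) (c m))
    (hβ : ∀ v w, c (P.β v w) = -P'.β (b w) (a v)) : P.Grp →* P'.Grp :=
  SemidirectProduct.map
    { toFun := fun x => ⟨b x.w, a x.v, c x.m + P'.β (b x.w) (a x.v)⟩
      map_one' := by
        ext <;> simp
      map_mul' := fun x y => by
        ext
        · simp
        · simp
        · simp [hβ]
          abel }
    l (by
      intro h
      ext x
      · exact hb h x.w
      · exact ha h x.v
      · show c (P.actM h x.m) + P'.β (b (P.actW h x.w)) (a (P.actV h x.v)) =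
          P'.actM (l h) (c x.m + P'.β (b x.w) (a x.v))
        rw [hc, hb, ha, P'.equivariant, map_add])

/-- the pairing with values in `D.M` -/
def c1_Q (D' D : Pairing) (l : D'.H ≃* D.H) (B : D'.V →+ D'.W →+ D.M)
    (hB : ∀ h v w, B (D'.actV h v) (D'.actW h w) = D.actM (l h) (B v w)) : Pairing where
  H := D'.H
  V := D'.V
  W := D'.W
  M := D.M
  actV := D'.actV
  actW := D'.actW
  actM := D.actM.comp l.toMonoidHom
  β := B
  equivariant := hB

structure c1_Tw (D' D : Pairing) (f : D'.V →+ D'.W →+ D'.M) where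
  l : D'.H ≃* D.H
  t : D.M ≃+ D'.M
  B : D'.V →+ D'.W →+ D.M
  hB : ∀ h v w, B (D'.actV h v) (D'.actW h w) = D.actM (l h) (B v w)
  ht : ∀ h m, t (D.actM (l h) m) = D'.actM h (t m)
  hf : ∀ v w, f v w = t (B v w)
  p : (c1_Q D' D l B hB).Grp →* D.Grp
  surj : Function.Surjective p
  inj : ∀ x, p x = 1 → x = 1

def c1_negEquiv (M : Type) [AddCommGroup M] : M ≃+ M where
  toFun := fun x => -x
  invFun := fun x => -x
  left_inv := fun x => neg_neg x
  right_inv := fun x => neg_neg x
  map_add' := fun x y => neg_add x y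

theorem c1_Tw_neg {D' D : Pairing} {f : D'.V →+ D'.W →+ D'.M} (T : c1_Tw D' D f) :
    Nonempty (c1_Tw D' D (-f)) := by
  refine ⟨⟨T.l, T.t.trans (c1_negEquiv D'.M), T.B, T.hB, ?_, ?_, T.p, T.surj, T.inj⟩⟩
  · intro h m
    show -(T.t (D.actM (T.l h) m)) = D'.actM h (-(T.t m))
    rw [T.ht, map_neg]
  · intro v w
    show -(f v w) = -(T.t (T.B v w))
    rw [T.hf]

theorem c1_Tw_of_twist {D' D : Pairing} {f : D'.V →+ D'.W →+ D'.M}
    (h : Pairing.IsTwist D' D f) : Nonempty (c1_Tw D' D f) := by
  cases h with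
  | straight l a b t ha hb ht hf =>
    let B : D'.V →+ D'.W →+ D.M :=
      ((AddMonoidHom.compHom' (b : D'.W →+ D.W)).comp D.β).comp (a : D'.V →+ D.V)
    have hBv : ∀ v w, B v w = D.β (a v) (b w) := fun v w => rfl
    have hB : ∀ h v w, B (D'.actV h v) (D'.actW h w) = D.actM (l h) (B v w) := by
      intro h v w
      rw [hBv, hBv, ha, hb, D.equivariant]
    refine ⟨⟨l, t, B, hB, ht, ?_, c1_map (c1_Q D' D l B hB) D l.toMonoidHom (a : D'.V →+ D.V)
      (b : D'.W →+ D.W) (AddMonoidHom.id D.M) ha hb (fun _ _ => rfl) (fun _ _ => rfl), ?_, ?_⟩⟩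
    · intro v w
      rw [hf, hBv]
    · intro y
      refine ⟨⟨⟨a.symm y.left.v, b.symm y.left.w, y.left.m⟩, l.symm y.right⟩, ?_⟩
      ext
      · exact a.apply_symm_apply _
      · exact b.apply_symm_apply _
      · rfl
      · exact l.apply_symm_apply _
    · intro x hx
      have h1 : a x.left.v = 0 := congrArg (fun z => z.left.v) hx
      have h2 : b x.left.w = 0 := congrArg (fun z => z.left.w) hx
      have h3 : x.left.m = 0 := congrArg (fun z => z.left.m) hx
      have h4 : l x.right = 1 := congrArg (fun z => z.right) hx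
      ext
      · exact (map_eq_zero_iff a a.injective).1 h1
      · exact (map_eq_zero_iff b b.injective).1 h2
      · exact h3
      · exact (map_eq_one_iff l l.injective).1 h4
  | swapped l a b t ha hb ht hf =>
    let B : D'.V →+ D'.W →+ D.M :=
      -((AddMonoidHom.compHom' (a : D'.V →+ D.W)).comp D.β).comp (b : D'.W →+ D.V) |>.flip
    have hBv : ∀ v w, B v w = -D.β (b w) (a v) := fun v w => rfl
    have hB : ∀ h v w, B (D'.actV h v) (D'.actW h w) = D.actM (l h) (B v w) := by
      intro h v w
      rw [hBv, hBv, ha, hb, D.equivariant, map_neg]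
    refine ⟨⟨l, t.trans (c1_negEquiv D'.M), B, hB, ?_, ?_,
      c1_swap (c1_Q D' D l B hB) D l.toMonoidHom (a : D'.V →+ D.W)
      (b : D'.W →+ D.V) (AddMonoidHom.id D.M) ha hb (fun _ _ => rfl) (fun _ _ => rfl), ?_, ?_⟩⟩
    · intro h m
      show -(t (D.actM (l h) m)) = D'.actM h (-(t m))
      rw [ht, map_neg]
    · intro v w
      show f v w = -(t (B v w))
      rw [hf, hBv, map_neg, neg_neg]
    · intro y
      refine ⟨⟨⟨a.symm y.left.w, b.symm y.left.v, y.left.m - D.β y.left.v y.left.w⟩,
        l.symm y.right⟩, ?_⟩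
      ext
      · exact b.apply_symm_apply _
      · exact a.apply_symm_apply _
      · show y.left.m - D.β y.left.v y.left.w +
          D.β (b (b.symm y.left.v)) (a (a.symm y.left.w)) = y.left.m
        rw [b.apply_symm_apply, a.apply_symm_apply]
        abel
      · exact l.apply_symm_apply _
    · intro x hx
      have h1 : b x.left.w = 0 := congrArg (fun z => z.left.v) hx
      have h2 : a x.left.v = 0 := congrArg (fun z => z.left.w) hx
      have h3 : (show D.M from x.left.m) + D.β (b x.left.w) (a x.left.v) = 0 :=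
        congrArg (fun z => z.left.m) hx
      have h4 : l x.right = 1 := congrArg (fun z => z.right) hx
      rw [h1, map_zero, AddMonoidHom.zero_apply, add_zero] at h3
      ext
      · exact (map_eq_zero_iff a a.injective).1 h2
      · exact (map_eq_zero_iff b b.injective).1 h1
      · exact h3
      · exact (map_eq_one_iff l l.injective).1 h4

theorem c1_sum {D' D : Pairing} (h : D'.Comb D) :
    ∃ (n : ℕ) (F : Fin n → (D'.V →+ D'.W →+ D'.M)),
      (∀ k, Nonempty (c1_Tw D' D (F k))) ∧ D'.β = ∑ k, F k := by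
  have key : ∀ g ∈ AddSubgroup.closure {f : D'.V →+ D'.W →+ D'.M | Pairing.IsTwist D' D f},
      ∃ (n : ℕ) (F : Fin n → (D'.V →+ D'.W →+ D'.M)),
      (∀ k, Nonempty (c1_Tw D' D (F k))) ∧ g = ∑ k, F k := by
    intro g hg
    induction hg using AddSubgroup.closure_induction with
    | mem x hx =>
      exact ⟨1, fun _ => x, fun _ => c1_Tw_of_twist hx, by simp⟩
    | zero => exact ⟨0, fun k => k.elim0, fun k => k.elim0, by simp⟩
    | add x y _ _ hx hy =>
      obtain ⟨n, F, h1, h2⟩ := hx
      obtain ⟨m, G, h3, h4⟩ := hy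
      refine ⟨n + m, Fin.append F G, ?_, ?_⟩
      · intro k
        refine Fin.addCases (fun i => ?_) (fun i => ?_) k
        · rw [Fin.append_left]
          exact h1 i
        · rw [Fin.append_right]
          exact h3 i
      · rw [Fin.sum_univ_add, h2, h4]
        simp
    | neg x _ hx =>
      obtain ⟨n, F, h1, h2⟩ := hx
      refine ⟨n, fun k => -F k, fun k => ?_, ?_⟩
      · obtain ⟨T⟩ := h1 k
        exact c1_Tw_neg T
      · rw [h2, Finset.sum_neg_distrib]
  exact key _ h

/-- the big pairing -/
def c1_big (D' D : Pairing) {n : ℕ} {F : Fin n → (D'.V →+ D'.W →+ D'.M)}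
    (T : ∀ k, c1_Tw D' D (F k)) : Pairing where
  H := D'.H
  V := D'.V
  W := D'.W
  M := Fin n → D.M
  actV := D'.actV
  actW := D'.actW
  actM :=
    { toFun := fun h =>
        { toFun := fun m k => D.actM ((T k).l h) (m k)
          map_zero' := by
            funext k
            exact map_zero _
          map_add' := fun x y => by
            funext k
            exact map_add _ _ _ }
      map_one' := by
        ext m k
        simp
        rfl
      map_mul' := fun g h => by
        ext m k
        simp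
        rfl }
  β :=
    { toFun := fun v =>
        { toFun := fun w k => (T k).B v w
          map_zero' := by
            funext k
            exact map_zero _
          map_add' := fun x y => by
            funext k
            exact map_add _ _ _ }
      map_zero' := by
        ext w k
        simp
      map_add' := fun x y => by
        ext w k
        simp }
  equivariant := fun h v w => by
    funext k
    exact (T k).hB h v w

theorem Pairing.form_of_comb {p q : ℕ} {D' D : Pairing} (hD : D.IsAdmissible p)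
    (hD' : D'.IsAdmissible q) (h : D'.Comb D) : form D.Grp D'.Grp := by
  obtain ⟨n, F, hF, hsum⟩ := c1_sum h
  have hT : ∀ k, ∃ T : c1_Tw D' D (F k), True := fun k => by
    obtain ⟨T⟩ := hF k
    exact ⟨T, trivial⟩
  choose T _ using hT
  have hn : n ≠ 0 := by
    rintro rfl
    apply hD'.nonzero
    rw [hsum]
    simp
  haveI : NeZero n := ⟨hn⟩
  let R := c1_big D' D T
  let q : ∀ k : Fin n, R.Grp →* (c1_Q D' D (T k).l (T k).B (T k).hB).Grp := fun k =>
    c1_map R (c1_Q D' D (T k).l (T k).B (T k).hB) (MonoidHom.id _) (AddMonoidHom.id _)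
      (AddMonoidHom.id _) (Pi.evalAddMonoidHom (fun _ : Fin n => D.M) k)
      (fun _ _ => rfl) (fun _ _ => rfl) (fun _ _ => rfl) (fun _ _ => rfl)
  let S : (Fin n → D.M) →+ D'.M :=
    { toFun := fun m => ∑ k, (T k).t (m k)
      map_zero' := by simp
      map_add' := fun x y => by simp [Finset.sum_add_distrib] }
  have hSB : ∀ v w, S (fun k => (T k).B v w) = D'.β v w := by
    intro v w
    rw [hsum]
    show ∑ k, (T k).t ((T k).B v w) = (∑ k, F k) v w
    rw [AddMonoidHom.finsetSum_apply, AddMonoidHom.finsetSum_apply]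
    exact Finset.sum_congr rfl (fun k _ => ((T k).hf v w).symm)
  have hSact : ∀ (h : D'.H) (m : Fin n → D.M),
      S (fun k => D.actM ((T k).l h) (m k)) = D'.actM h (S m) := by
    intro h m
    show ∑ k, (T k).t (D.actM ((T k).l h) (m k)) = D'.actM h (∑ k, (T k).t (m k))
    rw [map_sum]
    exact Finset.sum_congr rfl (fun k _ => (T k).ht h (m k))
  let ρ : R.Grp →* D'.Grp :=
    c1_map R D' (MonoidHom.id _) (AddMonoidHom.id _) (AddMonoidHom.id _) S
      (fun _ _ => rfl) (fun _ _ => rfl) hSact hSB
  have e1 : ∀ k, Function.Surjective ((T k).p.comp (q k)) := by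
    intro k
    refine (T k).surj.comp ?_
    intro y
    exact ⟨⟨⟨y.left.v, y.left.w, fun _ => y.left.m⟩, y.right⟩, rfl⟩
  have e2 : ∀ r, (∀ k, ((T k).p.comp (q k)) r = 1) → r = 1 := by
    intro r hr
    have h0 : ∀ k, q k r = 1 := fun k => (T k).inj _ (hr k)
    have k0 : Fin n := 0
    have h1 : r.left.v = 0 := congrArg (fun z => z.left.v) (h0 k0)
    have h2 : r.left.w = 0 := congrArg (fun z => z.left.w) (h0 k0)
    have h3 : ∀ k, r.left.m k = 0 := fun k => congrArg (fun z => z.left.m) (h0 k)
    have h4 : r.right = 1 := congrArg (fun z => z.right) (h0 k0)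
    ext
    · exact h1
    · exact h2
    · exact funext h3
    · exact h4
  have e3 : Function.Surjective ρ := by
    intro y
    refine ⟨⟨⟨y.left.v, y.left.w, Pi.single 0 ((T 0).t.symm y.left.m)⟩, y.right⟩, ?_⟩
    ext
    · rfl
    · rfl
    · show ∑ k, (T k).t ((Pi.single 0 ((T 0).t.symm y.left.m) : Fin n → D.M) k) = y.left.m
      rw [Finset.sum_eq_single 0]
      · simp
      · intro k _ hk
        simp [hk]
      · intro h
        exact absurd (Finset.mem_univ _) h
    · rfl
  have e4 : Pres D.Grp D'.Grp n := ⟨R.Grp, fun k => (T k).p.comp (q k), ρ, e1, e2, e3⟩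
  exact form_of_pres e4

end Pool.Agent.Helper75.MNA
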