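import Pool.Agent.Helper75.MNA.PresDefs
import Pool.Agent.Helper75.MNA.A1

set_option autoImplicit false
set_option linter.style.haveILetI false

namespace Pool.Agent.Helper75.MNA

open Subgroup Pointwise

theorem c2_ker_central {D : CrossedMod} {k : D.E} (hk : D.d k = 1) (f : D.E) :
    k * f = f * k := by
  have h := D.peiffer k f
  rw [hk, map_one] at h
  have h1 : f = k * f * k⁻¹ := h
  calc k * f = k * f * k⁻¹ * k := by group
    _ = f * k := by rw [← h1]

theorem c2_min_le {p : ℕ} {D : CrossedMod} (hD : D.IsAdmissible p) (N : Subgroup D.X)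
    (hN : N.Normal) (hne : N ≠ ⊥) : D.d.range ≤ N := by
  have hLn : D.d.range.Normal := by
    constructor
    rintro _ ⟨e, rfl⟩ x
    exact ⟨D.act x e, D.equivariant x e⟩
  have hNL : (N ⊓ D.d.range).Normal := by
    haveI := hN
    haveI := hLn
    infer_instance
  rcases hD.range_min (N ⊓ D.d.range) hNL inf_le_right with h | h
  · exfalso
    apply hne
    rw [eq_bot_iff]
    intro x hx
    rw [Subgroup.mem_bot]
    have h1 : ∀ e : D.E, D.d (D.act x e * e⁻¹) = 1 := by
      intro e
      have h2 : x * D.d e * x⁻¹ * (D.d e)⁻¹ ∈ N ⊓ D.d.range := by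
        refine ⟨?_, ?_⟩
        · have h3 : D.d e * x⁻¹ * (D.d e)⁻¹ ∈ N := hN.conj_mem _ (N.inv_mem hx) _
          have h4 := N.mul_mem hx h3
          have h5 : x * (D.d e * x⁻¹ * (D.d e)⁻¹) = x * D.d e * x⁻¹ * (D.d e)⁻¹ := by group
          rw [h5] at h4
          exact h4
        · have h3 : x * D.d e * x⁻¹ ∈ D.d.range := hLn.conj_mem _ ⟨e, rfl⟩ _
          exact D.d.range.mul_mem h3 (D.d.range.inv_mem ⟨e, rfl⟩)
      rw [h, Subgroup.mem_bot] at h2
      rw [map_mul, map_inv, D.equivariant]
      exact h2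
    let φ : D.E →* D.E :=
      { toFun := fun e => D.act x e * e⁻¹
        map_one' := by simp
        map_mul' := by
          intro e f
          have h2 := c2_ker_central (h1 f) e⁻¹
          calc D.act x (e * f) * (e * f)⁻¹ = D.act x e * ((D.act x f * f⁻¹) * e⁻¹) := by
                rw [map_mul]; group
            _ = D.act x e * (e⁻¹ * (D.act x f * f⁻¹)) := by rw [h2]
            _ = D.act x e * e⁻¹ * (D.act x f * f⁻¹) := by group }
    have hφ : ∀ e, φ e = D.act x e * e⁻¹ := fun e => rfl
    have h3 : commutator D.E ≤ φ.ker := by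
      rw [commutator_def, Subgroup.commutator_le]
      intro e _ f _
      rw [MonoidHom.mem_ker, map_commutatorElement, commutatorElement_eq_one_iff_mul_comm]
      exact c2_ker_central (by rw [hφ]; exact h1 e) _
    rw [hD.perfect] at h3
    have h4 : ∀ e, D.act x e = e := by
      intro e
      have h5 : φ e = 1 := h3 (Subgroup.mem_top e)
      rw [hφ, mul_inv_eq_one] at h5
      exact h5
    apply hD.faithful
    rw [map_one]
    ext e
    rw [h4 e]; rfl
  · rw [← h]; exact inf_le_left

theorem c2_cover {p : ℕ} {D : CrossedMod} (hD : D.IsAdmissible p) (T : Subgroup D.E)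
    (hT : ∀ e : D.E, ∃ t ∈ T, D.d t = D.d e) : T = ⊤ := by
  rw [eq_top_iff, ← hD.perfect, commutator_def, Subgroup.commutator_le]
  intro e _ f _
  obtain ⟨t, ht, hte⟩ := hT e
  obtain ⟨u, hu, huf⟩ := hT f
  have h1 : D.d (t⁻¹ * e) = 1 := by rw [map_mul, map_inv, hte, inv_mul_cancel]
  have h2 : D.d (u⁻¹ * f) = 1 := by rw [map_mul, map_inv, huf, inv_mul_cancel]
  set k := t⁻¹ * e with hk
  set l := u⁻¹ * f with hl
  have he : e = t * k := by rw [hk]; group
  have hf : f = u * l := by rw [hl]; group
  have ck : ∀ x, k * x = x * k := c2_ker_central h1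
  have cl : ∀ x, l * x = x * l := c2_ker_central h2
  rw [commutatorElement_def]
  have h3 : e * f * e⁻¹ * f⁻¹ = t * u * t⁻¹ * u⁻¹ := by
    rw [he, hf]
    have e1 : t * k * (u * l) = t * u * (k * l) := by
      calc t * k * (u * l) = t * (k * u) * l := by group
        _ = t * (u * k) * l := by rw [ck]
        _ = t * u * (k * l) := by group
    have e2 : u * l * (t * k) = u * t * (k * l) := by
      calc u * l * (t * k) = u * (l * t) * k := by group
        _ = u * (t * l) * k := by rw [cl]
        _ = u * t * (l * k) := by group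
        _ = u * t * (k * l) := by rw [cl k]
    calc t * k * (u * l) * (t * k)⁻¹ * (u * l)⁻¹ = (t * k * (u * l)) * (u * l * (t * k))⁻¹ := by group
      _ = t * u * (k * l) * (u * t * (k * l))⁻¹ := by rw [e1, e2]
      _ = t * u * t⁻¹ * u⁻¹ := by group
  rw [h3]
  exact T.mul_mem (T.mul_mem (T.mul_mem ht hu) (T.inv_mem ht)) (T.inv_mem hu)

theorem c2_range_ne_bot {p : ℕ} {D : CrossedMod} (hD : D.IsAdmissible p) : D.d.range ≠ ⊥ := by
  intro h
  have h1 : ∀ e, D.d e = 1 := by
    intro e
    have : D.d e ∈ D.d.range := ⟨e, rfl⟩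
    rw [h, Subgroup.mem_bot] at this
    exact this
  have h2 : (⊥ : Subgroup D.E) = ⊤ := by
    apply c2_cover hD
    intro e
    exact ⟨1, Subgroup.mem_bot.mpr rfl, by rw [map_one, h1 e]⟩
  apply hD.ker_ne_bot
  rw [eq_bot_iff, h2]
  exact le_top

theorem c2_mu {p q : ℕ} {D' D : CrossedMod} (hD : D.IsAdmissible p)
    (hD' : D'.IsAdmissible q) (μ : D'.X ≃* D.X) (l : D'.X) :
    l ∈ D'.d.range ↔ μ l ∈ D.d.range := by
  have hLn : D.d.range.Normal := by
    constructor
    rintro _ ⟨e, rfl⟩ x
    exact ⟨D.act x e, D.equivariant x e⟩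
  have hLn' : D'.d.range.Normal := by
    constructor
    rintro _ ⟨e, rfl⟩ x
    exact ⟨D'.act x e, D'.equivariant x e⟩
  constructor
  · -- L' ≤ μ⁻¹ L
    have h1 : D'.d.range ≤ D.d.range.comap μ.toMonoidHom := by
      apply c2_min_le hD' _ (hLn.comap _)
      intro h
      apply c2_range_ne_bot hD
      rw [eq_bot_iff]
      intro x hx
      have h2 : μ.symm x ∈ D.d.range.comap μ.toMonoidHom := by
        rw [Subgroup.mem_comap]
        show μ (μ.symm x) ∈ _
        rw [MulEquiv.apply_symm_apply]; exact hx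
      rw [h, Subgroup.mem_bot] at h2
      rw [Subgroup.mem_bot]
      have := congrArg μ h2
      rwa [MulEquiv.apply_symm_apply, map_one] at this
    exact fun h => h1 h
  · have h1 : D.d.range ≤ D'.d.range.comap μ.symm.toMonoidHom := by
      apply c2_min_le hD _ (hLn'.comap _)
      intro h
      apply c2_range_ne_bot hD'
      rw [eq_bot_iff]
      intro x hx
      have h2 : μ x ∈ D'.d.range.comap μ.symm.toMonoidHom := by
        rw [Subgroup.mem_comap]
        show μ.symm (μ x) ∈ _
        rw [MulEquiv.symm_apply_apply]; exact hx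
      rw [h, Subgroup.mem_bot] at h2
      rw [Subgroup.mem_bot]
      have := congrArg μ.symm h2
      rwa [MulEquiv.symm_apply_apply, map_one] at this
    intro h
    have h2 := h1 h
    rw [Subgroup.mem_comap] at h2
    have h3 : μ.symm (μ l) ∈ D'.d.range := h2
    rwa [MulEquiv.symm_apply_apply] at h3

theorem c2_psi_mem {D' D : CrossedMod} {n : ℕ} (μ : Fin n → (D'.X ≃* D.X)) (x : D'.X)
    (z : CrossedMod.Fib D' D μ) :
    ((x * z.1.1 * x⁻¹, fun i => D.act (μ i x) (z.1.2 i)) : D'.X × (Fin n → D.E)) ∈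
      CrossedMod.Fib D' D μ := by
  obtain ⟨⟨l, e⟩, ⟨e', he'⟩, h2⟩ := z
  refine ⟨⟨D'.act x e', ?_⟩, ?_⟩
  · rw [D'.equivariant, he']
  · intro i
    show D.d (D.act (μ i x) (e i)) = μ i (x * l * x⁻¹)
    have h3 : D.d (e i) = μ i l := h2 i
    rw [D.equivariant, h3, map_mul, map_mul, map_inv]

/-- action on the fibre product -/
def c2_psi {D' D : CrossedMod} {n : ℕ} (μ : Fin n → (D'.X ≃* D.X)) :
    D'.X →* MulAut (CrossedMod.Fib D' D μ) where
  toFun x :=
    { toFun := fun z => ⟨(x * z.1.1 * x⁻¹, fun i => D.act (μ i x) (z.1.2 i)), c2_psi_mem μ x z⟩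
      invFun := fun z => ⟨(x⁻¹ * z.1.1 * x⁻¹⁻¹, fun i => D.act (μ i x⁻¹) (z.1.2 i)),
        c2_psi_mem μ x⁻¹ z⟩
      left_inv := by
        intro z
        apply Subtype.ext
        apply Prod.ext
        · show x⁻¹ * (x * z.1.1 * x⁻¹) * x⁻¹⁻¹ = z.1.1
          group
        · funext i
          show D.act (μ i x⁻¹) (D.act (μ i x) (z.1.2 i)) = z.1.2 i
          rw [map_inv, map_inv, MulAut.inv_apply_self]
      right_inv := by
        intro z
        apply Subtype.ext
        apply Prod.ext
        · show x * (x⁻¹ * z.1.1 * x⁻¹⁻¹) * x⁻¹ = z.1.1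
          group
        · funext i
          show D.act (μ i x) (D.act (μ i x⁻¹) (z.1.2 i)) = z.1.2 i
          rw [map_inv, map_inv, MulAut.apply_inv_self]
      map_mul' := by
        intro z w
        apply Subtype.ext
        apply Prod.ext
        · show x * (z.1.1 * w.1.1) * x⁻¹ = x * z.1.1 * x⁻¹ * (x * w.1.1 * x⁻¹)
          group
        · funext i
          show D.act (μ i x) (z.1.2 i * w.1.2 i) = _
          rw [map_mul]; rfl }
  map_one' := by
    ext z : 1
    apply Subtype.ext
    apply Prod.ext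
    · show 1 * z.1.1 * 1⁻¹ = z.1.1
      group
    · funext i
      show D.act (μ i 1) (z.1.2 i) = z.1.2 i
      rw [map_one, map_one]; rfl
  map_mul' := by
    intro x y
    ext z : 1
    apply Subtype.ext
    apply Prod.ext
    · show x * y * z.1.1 * (x * y)⁻¹ = x * (y * z.1.1 * y⁻¹) * x⁻¹
      group
    · funext i
      show D.act (μ i (x * y)) (z.1.2 i) = D.act (μ i x) (D.act (μ i y) (z.1.2 i))
      rw [map_mul, map_mul]; rfl

/-- coordinate of the fibre product -/
def c2_coord {D' D : CrossedMod} {n : ℕ} (μ : Fin n → (D'.X ≃* D.X)) (i : Fin n) :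
    CrossedMod.Fib D' D μ →* D.E where
  toFun z := z.1.2 i
  map_one' := rfl
  map_mul' _ _ := rfl

/-- projections -/
def c2_pi {D' D : CrossedMod} {n : ℕ} (μ : Fin n → (D'.X ≃* D.X)) (i : Fin n) :
    (CrossedMod.Fib D' D μ ⋊[c2_psi μ] D'.X) →* D.Grp :=
  SemidirectProduct.map (c2_coord μ i) (μ i).toMonoidHom (by
    intro g
    ext z
    rfl)

theorem CrossedMod.form_of_comb {p q : ℕ} {D' D : CrossedMod} (hD : D.IsAdmissible p)
    (hD' : D'.IsAdmissible q) (h : D'.Comb D) : form D.Grp D'.Grp := by
  classical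
  obtain ⟨n, μ, ε, hε1, hε2⟩ := h
  -- lifting
  have hlift : ∀ l ∈ D'.d.range, ∃ g : Fin n → D.E, ∀ i, D.d (g i) = μ i l := by
    intro l hl
    have h1 : ∀ i, ∃ e, D.d e = μ i l := fun i => (c2_mu hD hD' (μ i) l).mp hl
    choose g hg using h1
    exact ⟨g, hg⟩
  have hεonto : Function.Surjective ε := by
    rw [← MonoidHom.range_eq_top]
    apply c2_cover hD'
    intro e
    obtain ⟨g, hg⟩ := hlift (D'.d e) ⟨e, rfl⟩
    refine ⟨ε ⟨(D'.d e, g), ⟨e, rfl⟩, hg⟩, ⟨_, rfl⟩, ?_⟩
    rw [hε1]
  have hn : 0 < n := by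
    by_contra hn0
    have hn0' : n = 0 := by omega
    subst hn0'
    apply hD'.ker_ne_bot
    rw [eq_bot_iff]
    intro e he
    obtain ⟨z, rfl⟩ := hεonto e
    rw [MonoidHom.mem_ker, hε1] at he
    have hz : z = 1 := by
      apply Subtype.ext
      apply Prod.ext
      · exact he
      · funext i; exact i.elim0
    rw [hz, map_one]
    exact Subgroup.one_mem _
  haveI : Finite (CrossedMod.Fib D' D μ) := inferInstance
  haveI : Finite (CrossedMod.Fib D' D μ ⋊[c2_psi μ] D'.X) :=
    Finite.of_equiv _ SemidirectProduct.equivProd.symm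
  let P : Pres D.Grp D'.Grp n :=
    { R := CrossedMod.Fib D' D μ ⋊[c2_psi μ] D'.X
      π := c2_pi μ
      ρ := SemidirectProduct.map ε (MonoidHom.id D'.X) (by
        intro g
        ext z
        exact hε2 g z (c2_psi μ g z) rfl (fun i => rfl))
      surj := by
        rintro i ⟨e0, x0⟩
        have hl : (μ i).symm (D.d e0) ∈ D'.d.range := by
          rw [c2_mu hD hD' (μ i), MulEquiv.apply_symm_apply]
          exact ⟨e0, rfl⟩
        obtain ⟨g, hg⟩ := hlift _ hl
        refine ⟨⟨⟨((μ i).symm (D.d e0), Function.update g i e0), hl, ?_⟩, (μ i).symm x0⟩, ?_⟩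
        · intro k
          by_cases hk : k = i
          · subst hk
            show D.d (Function.update g k e0 k) = _
            rw [Function.update_self, MulEquiv.apply_symm_apply]
          · show D.d (Function.update g i e0 k) = _
            rw [Function.update_of_ne hk]
            exact hg k
        · apply SemidirectProduct.ext
          · show Function.update g i e0 i = e0
            rw [Function.update_self]
          · show μ i ((μ i).symm x0) = x0
            rw [MulEquiv.apply_symm_apply]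
      inj := by
        rintro ⟨z, x⟩ hr
        have h0 := hr ⟨0, hn⟩
        have h1 : μ ⟨0, hn⟩ x = 1 := congrArg SemidirectProduct.right h0
        have hx : x = 1 := by
          apply (μ ⟨0, hn⟩).injective
          rw [h1, map_one]
        have he : ∀ i, z.1.2 i = 1 := fun i => congrArg SemidirectProduct.left (hr i)
        have hl : z.1.1 = 1 := by
          have h2 := z.2.2 ⟨0, hn⟩
          rw [he, map_one] at h2
          apply (μ ⟨0, hn⟩).injective
          rw [← h2, map_one]
        apply SemidirectProduct.ext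
        · show z = 1
          apply Subtype.ext
          apply Prod.ext
          · exact hl
          · funext i; exact he i
        · exact hx
      onto := by
        rintro ⟨e, x⟩
        obtain ⟨z, hz⟩ := hεonto e
        refine ⟨⟨z, x⟩, ?_⟩
        apply SemidirectProduct.ext
        · exact hz
        · rfl }
  exact form_of_pres P

end Pool.Agent.Helper75.MNA
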