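import Pool.Agent.Helper75.MNA.PresDefs

set_option autoImplicit false
set_option linter.style.haveILetI false

namespace Pool.Agent.Helper75.MNA

open Subgroup Pointwise

theorem m1_right_pow {D : Pairing} (g : D.Grp) (n : ℕ) : (g ^ n).right = g.right ^ n := by
  have h : SemidirectProduct.rightHom (g ^ n) = (SemidirectProduct.rightHom g) ^ n := map_pow _ _ _
  exact h

theorem m1_H_eq_one {p : ℕ} {D : Pairing} (h : D.IsAdmissible p)
    (x : D.H) (k : ℕ) (hx : x ^ p ^ k = 1) : x = 1 := by
  have h1 : orderOf x ∣ p ^ k := orderOf_dvd_of_pow_eq_one hx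
  have h2 : orderOf x ∣ Nat.card D.H := orderOf_dvd_natCard x
  have h3 : Nat.Coprime (p ^ k) (Nat.card D.H) :=
    Nat.Coprime.pow_left k ((Nat.Prime.coprime_iff_not_dvd h.prime).2 h.coprime)
  have h4 : orderOf x = 1 := Nat.eq_one_of_dvd_coprimes h3 h1 h2
  exact orderOf_eq_one_iff.1 h4

/-- a subgroup of `p`-power order lies in the Heisenberg part. -/
theorem Pairing.IsAdmissible.right_eq_one {p : ℕ} {D : Pairing} (h : D.IsAdmissible p)
    (g : D.Grp) (k : ℕ) (hg : g ^ p ^ k = 1) : g.right = 1 := by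
  apply m1_H_eq_one h g.right k
  rw [← m1_right_pow, hg]
  rfl

theorem m1_pow_v {D : Pairing} (x : Heis D.β) (n : ℕ) : (x ^ n).v = n • x.v := by
  induction n with
  | zero => simp
  | succ n ih => rw [pow_succ, Heis.mul_v, ih, succ_nsmul]

theorem m1_pow_w {D : Pairing} (x : Heis D.β) (n : ℕ) : (x ^ n).w = n • x.w := by
  induction n with
  | zero => simp
  | succ n ih => rw [pow_succ, Heis.mul_w, ih, succ_nsmul]

theorem m1_pow_m {D : Pairing} (x : Heis D.β) (hx : x.v = 0) (n : ℕ) : (x ^ n).m = n • x.m := by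
  induction n with
  | zero => simp
  | succ n ih =>
    rw [pow_succ, Heis.mul_m, ih, succ_nsmul, m1_pow_v, hx, smul_zero, map_zero]
    simp

theorem m1_eq_inl {D : Pairing} (g : D.Grp) (hg : g.right = 1) :
    g = SemidirectProduct.inl g.left := by
  ext <;> simp [hg]

/-- elements of the Heisenberg part have `p`-power order. -/
theorem Pairing.IsAdmissible.pow_eq_one {p : ℕ} {D : Pairing} (h : D.IsAdmissible p)
    (g : D.Grp) (hg : g.right = 1) : g ^ p ^ 2 = 1 := by
  rw [m1_eq_inl g hg, ← map_pow]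
  have h1 : g.left ^ p ^ 2 = 1 := by
    rw [pow_two, pow_mul]
    have hv : (g.left ^ p).v = 0 := by rw [m1_pow_v, h.expV]
    have hw : (g.left ^ p).w = 0 := by rw [m1_pow_w, h.expW]
    apply Heis.ext
    · rw [m1_pow_v, hv, smul_zero]; rfl
    · rw [m1_pow_w, hw, smul_zero]; rfl
    · rw [m1_pow_m _ hv, h.expM]; rfl
  rw [h1, map_one]

theorem m1_isPGroup_ker {p : ℕ} {D : Pairing} (h : D.IsAdmissible p) :
    IsPGroup p (SemidirectProduct.rightHom (φ := D.act)).ker := by
  intro g
  refine ⟨2, ?_⟩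
  apply Subtype.ext
  have : (g : D.Grp).right = 1 := g.2
  exact h.pow_eq_one g this

theorem Pairing.IsAdmissible.not_abP {p : ℕ} {D : Pairing} (h : D.IsAdmissible p) :
    ¬ AbP p D.Grp := by
  intro hab
  apply h.nonzero
  ext v w
  have h1 := hab _ (m1_isPGroup_ker h) (SemidirectProduct.inl ⟨v, 0, 0⟩)
    (by simp) (SemidirectProduct.inl ⟨0, w, 0⟩) (by simp)
  rw [← map_mul, ← map_mul] at h1
  have h2 := congrArg Heis.m (SemidirectProduct.inl_injective h1)
  simpa using h2

theorem m1_coprime_eq_one {G : Type} [Group G] {p q : ℕ} (hp : p.Prime) (hq : q.Prime)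
    (hqp : q ≠ p) (c : G) (i j : ℕ) (h1 : c ^ p ^ i = 1) (h2 : c ^ q ^ j = 1) : c = 1 := by
  have h3 : orderOf c ∣ p ^ i := orderOf_dvd_of_pow_eq_one h1
  have h4 : orderOf c ∣ q ^ j := orderOf_dvd_of_pow_eq_one h2
  have h5 : Nat.Coprime (p ^ i) (q ^ j) :=
    Nat.Coprime.pow _ _ ((Nat.coprime_primes hp hq).2 hqp.symm)
  exact orderOf_eq_one_iff.1 (Nat.eq_one_of_dvd_coprimes h5 h3 h4)

theorem Pairing.IsAdmissible.abP_of_ne {p q : ℕ} {D : Pairing} (h : D.IsAdmissible p)
    (hq : q.Prime) (hqp : q ≠ p) : AbP q D.Grp := by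
  intro Q hQ x hx y hy
  have h2 := h.memA.abP q hq (Q.map SemidirectProduct.rightHom) (hQ.map _) _
    (Subgroup.mem_map_of_mem _ hx) _ (Subgroup.mem_map_of_mem _ hy)
  have hc : SemidirectProduct.rightHom ((x * y) * (y * x)⁻¹) = 1 := by
    rw [map_mul, map_inv, map_mul, map_mul, h2, mul_inv_cancel]
  have hcQ : (x * y) * (y * x)⁻¹ ∈ Q := Q.mul_mem (Q.mul_mem hx hy) (Q.inv_mem (Q.mul_mem hy hx))
  obtain ⟨k, hk⟩ := hQ ⟨_, hcQ⟩
  have hk' : ((x * y) * (y * x)⁻¹) ^ q ^ k = 1 := congrArg Subtype.val hk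
  have h3 := h.pow_eq_one ((x * y) * (y * x)⁻¹) hc
  exact mul_inv_eq_one.1 (m1_coprime_eq_one h.prime hq hqp _ _ _ h3 hk')

/-- the centre of the Heisenberg part is `M`. -/
theorem Pairing.IsAdmissible.mem_zM {p : ℕ} {D : Pairing} (h : D.IsAdmissible p)
    (g : D.Grp) (hg : g.right = 1) (hc : ∀ x : D.Grp, x.right = 1 → x * g = g * x) :
    g ∈ D.zM := by
  have key : ∀ v w, D.β v g.left.w = D.β g.left.v w := by
    intro v w
    have h1 := hc (SemidirectProduct.inl ⟨v, w, 0⟩) rfl
    rw [m1_eq_inl g hg, ← map_mul, ← map_mul] at h1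
    have h2 := congrArg Heis.m (SemidirectProduct.inl_injective h1)
    simpa using h2
  have hv : ∀ w, D.β g.left.v w = 0 := by
    intro w
    rw [← key 0 w, map_zero]; rfl
  have hw : ∀ v, D.β v g.left.w = 0 := by
    intro v
    rw [key v 0, map_zero]
  refine ⟨?_, ?_, hg⟩
  · let U : AddSubgroup D.V := D.β.ker
    have hU : ∀ (h : D.H), ∀ u ∈ U, D.actV h u ∈ U := by
      intro k u hu
      rw [AddMonoidHom.mem_ker] at hu ⊢
      ext w
      have h3 : D.β (D.actV k u) (D.actW k (D.actW k⁻¹ w)) = D.actM k (D.β u (D.actW k⁻¹ w)) :=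
        D.equivariant _ _ _
      rw [Pairing.act_inv, hu] at h3
      rw [h3]; simp
    rcases h.irrV.2 U hU with h4 | h4
    · have h5 : g.left.v ∈ U := by
        rw [AddMonoidHom.mem_ker]
        ext w
        rw [hv w]; rfl
      rw [h4] at h5
      exact h5
    · exfalso
      apply h.nonzero
      ext v w
      have h5 : v ∈ U := by rw [h4]; trivial
      rw [AddMonoidHom.mem_ker] at h5
      rw [h5]; rfl
  · let U : AddSubgroup D.W := D.β.flip.ker
    have hU : ∀ (h : D.H), ∀ u ∈ U, D.actW h u ∈ U := by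
      intro k u hu
      rw [AddMonoidHom.mem_ker] at hu ⊢
      ext v
      have h3 : D.β (D.actV k (D.actV k⁻¹ v)) (D.actW k u) = D.actM k (D.β (D.actV k⁻¹ v) u) :=
        D.equivariant _ _ _
      have h4 : D.β (D.actV k⁻¹ v) u = 0 := by
        have := DFunLike.congr_fun hu (D.actV k⁻¹ v)
        simpa using this
      rw [Pairing.act_inv, h4, map_zero] at h3
      simpa using h3
    rcases h.irrW.2 U hU with h4 | h4
    · have h5 : g.left.w ∈ U := by
        rw [AddMonoidHom.mem_ker]
        ext v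
        simpa using hw v
      rw [h4] at h5
      exact h5
    · exfalso
      apply h.nonzero
      ext v w
      have h5 : w ∈ U := by rw [h4]; trivial
      rw [AddMonoidHom.mem_ker] at h5
      have := DFunLike.congr_fun h5 v
      simpa using this

theorem m1_comm_mem {D : Pairing} (x y : D.Grp) (hx : x.right = 1) (hy : y.right = 1) :
    (x * y) * (y * x)⁻¹ ∈ D.zM := by
  rw [m1_eq_inl x hx, m1_eq_inl y hy, ← map_mul, ← map_mul, ← map_inv, ← map_mul]
  refine ⟨?_, ?_, rfl⟩
  · simp
    abel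
  · simp
    abel

theorem m1_zM_normal (D : Pairing) : D.zM.Normal := by
  refine ⟨fun n hn g => ?_⟩
  obtain ⟨h1, h2, h3⟩ := hn
  refine ⟨?_, ?_, ?_⟩
  · have : (g * n * g⁻¹).left.v = 0 := by
      simp [Pairing.act, h1, h3, Pairing.act_inv]
    exact this
  · have : (g * n * g⁻¹).left.w = 0 := by
      simp [Pairing.act, h2, h3, Pairing.act_inv]
    exact this
  · simp [h3]

theorem Pairing.IsAdmissible.monolith {p : ℕ} {D : Pairing} (h : D.IsAdmissible p) :
    IsMonolith D.zM := by
  refine ⟨m1_zM_normal D, ?_, ?_⟩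
  · intro hbot
    haveI := h.irrM.1
    obtain ⟨m, hm⟩ := exists_ne (0 : D.M)
    have h1 : (SemidirectProduct.inl ⟨0, 0, m⟩ : D.Grp) ∈ D.zM := ⟨rfl, rfl, rfl⟩
    rw [hbot, Subgroup.mem_bot, ← map_one (SemidirectProduct.inl (φ := D.act))] at h1
    exact hm (congrArg Heis.m (SemidirectProduct.inl_injective h1))
  · intro N hN hne
    -- an element of N with trivial right part
    have hA : ∃ g ∈ N, g.right = 1 ∧ g ≠ 1 := by
      by_contra hcon
      push Not at hcon
      obtain ⟨⟨x, hxN⟩, hx1⟩ := Subgroup.ne_bot_iff_exists_ne_one.1 hne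
      have hx1' : x ≠ 1 := fun h' => hx1 (Subtype.ext h')
      have hcomm : ∀ u : D.Grp, u.right = 1 → x * u = u * x := by
        intro u hu
        have h1 : x * u * (u * x)⁻¹ ∈ N := by
          have h2 : x * u * (u * x)⁻¹ = x * (u * x⁻¹ * u⁻¹) := by group
          rw [h2]
          exact N.mul_mem hxN (hN.conj_mem _ (N.inv_mem hxN) u)
        have h2 : (x * u * (u * x)⁻¹).right = 1 := by
          simp [hu]
        exact mul_inv_eq_one.1 (hcon _ h1 h2)
      have hr : x.right = 1 := by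
        apply h.faithful
        · intro v
          have h1 := hcomm (SemidirectProduct.inl ⟨v, 0, 0⟩) rfl
          have h2 := congrArg (fun z : D.Grp => z.left.v) h1
          have h3 : x.left.v + D.actV x.right v = v + x.left.v := by
            have e1 : (x * (SemidirectProduct.inl (⟨v, 0, 0⟩ : Heis D.β) : D.Grp)).left.v = x.left.v + D.actV x.right v := by
              rw [SemidirectProduct.mul_left]
              rfl
            have e2 : ((SemidirectProduct.inl (⟨v, 0, 0⟩ : Heis D.β) : D.Grp) * x).left.v = v + x.left.v := by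
              rw [SemidirectProduct.mul_left]
              simp
            rw [← e1, ← e2]
            exact h2
          rw [add_comm v] at h3
          exact add_left_cancel h3
        · intro w
          have h1 := hcomm (SemidirectProduct.inl ⟨0, w, 0⟩) rfl
          have h2 := congrArg (fun z : D.Grp => z.left.w) h1
          have h3 : x.left.w + D.actW x.right w = w + x.left.w := by
            have e1 : (x * (SemidirectProduct.inl (⟨0, w, 0⟩ : Heis D.β) : D.Grp)).left.w = x.left.w + D.actW x.right w := by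
              rw [SemidirectProduct.mul_left]
              rfl
            have e2 : ((SemidirectProduct.inl (⟨0, w, 0⟩ : Heis D.β) : D.Grp) * x).left.w = w + x.left.w := by
              rw [SemidirectProduct.mul_left]
              simp
            rw [← e1, ← e2]
            exact h2
          rw [add_comm w] at h3
          exact add_left_cancel h3
      exact hx1' (hcon x hxN hr)
    have hB : ∃ g ∈ N, g ∈ D.zM ∧ g ≠ 1 := by
      obtain ⟨g, hgN, hgr, hg1⟩ := hA
      by_cases hz : g ∈ D.zM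
      · exact ⟨g, hgN, hz, hg1⟩
      · have h1 : ¬ ∀ x : D.Grp, x.right = 1 → x * g = g * x := fun hc => hz (h.mem_zM g hgr hc)
        push Not at h1
        obtain ⟨x, hx, hxg⟩ := h1
        refine ⟨x * g * (g * x)⁻¹, ?_, m1_comm_mem x g hx hgr, fun h2 => hxg (mul_inv_eq_one.1 h2)⟩
        have h2 : x * g * (g * x)⁻¹ = (x * g * x⁻¹) * g⁻¹ := by group
        rw [h2]
        exact N.mul_mem (hN.conj_mem _ hgN x) (N.inv_mem hgN)
    obtain ⟨g, hgN, ⟨hgv, hgw, hgr⟩, hg1⟩ := hB
    let U : AddSubgroup D.M :=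
      { carrier := {m | (SemidirectProduct.inl ⟨0, 0, m⟩ : D.Grp) ∈ N}
        zero_mem' := by
          have : (SemidirectProduct.inl ⟨0, 0, 0⟩ : D.Grp) = 1 := map_one _
          show (SemidirectProduct.inl ⟨0, 0, 0⟩ : D.Grp) ∈ N
          rw [this]; exact N.one_mem
        add_mem' := by
          intro a b ha hb
          show (SemidirectProduct.inl ⟨0, 0, a + b⟩ : D.Grp) ∈ N
          have h2 : (⟨0, 0, a + b⟩ : Heis D.β) = ⟨0, 0, a⟩ * ⟨0, 0, b⟩ := by
            ext <;> simp
          rw [h2, map_mul]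
          exact N.mul_mem ha hb
        neg_mem' := by
          intro a ha
          show (SemidirectProduct.inl ⟨0, 0, -a⟩ : D.Grp) ∈ N
          have h2 : (⟨0, 0, -a⟩ : Heis D.β) = (⟨0, 0, a⟩ : Heis D.β)⁻¹ := by
            ext <;> simp
          rw [h2, map_inv]
          exact N.inv_mem ha }
    have hU : ∀ (k : D.H), ∀ u ∈ U, D.actM k u ∈ U := by
      intro k u hu
      have h1 : (SemidirectProduct.inr k : D.Grp) * SemidirectProduct.inl ⟨0, 0, u⟩ *
          (SemidirectProduct.inr k)⁻¹ ∈ N := hN.conj_mem _ hu _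
      have h2 : (SemidirectProduct.inr k : D.Grp) * SemidirectProduct.inl ⟨0, 0, u⟩ *
          (SemidirectProduct.inr k)⁻¹ = SemidirectProduct.inl ⟨0, 0, D.actM k u⟩ := by
        rw [← map_inv, ← SemidirectProduct.inl_aut]
        congr 1
        ext <;> simp [Pairing.act]
      rw [h2] at h1
      exact h1
    rcases h.irrM.2 U hU with h4 | h4
    · exfalso
      apply hg1
      have h5 : g.left.m ∈ U := by
        show (SemidirectProduct.inl ⟨0, 0, g.left.m⟩ : D.Grp) ∈ N
        have h6 : (⟨0, 0, g.left.m⟩ : Heis D.β) = g.left := by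
          ext
          · exact hgv.symm
          · exact hgw.symm
          · rfl
        rw [h6, ← m1_eq_inl g hgr]
        exact hgN
      rw [h4] at h5
      have h6 : g.left.m = 0 := h5
      rw [m1_eq_inl g hgr]
      have h7 : g.left = 1 := by
        ext
        · exact hgv
        · exact hgw
        · exact h6
      rw [h7, map_one]
    · intro z hz
      obtain ⟨hzv, hzw, hzr⟩ := hz
      have h5 : z.left.m ∈ U := by rw [h4]; trivial
      have h6 : (SemidirectProduct.inl ⟨0, 0, z.left.m⟩ : D.Grp) ∈ N := h5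
      have h7 : (⟨0, 0, z.left.m⟩ : Heis D.β) = z.left := by
        ext
        · exact hzv.symm
        · exact hzw.symm
        · rfl
      rw [h7, ← m1_eq_inl z hzr] at h6
      exact h6

theorem Pairing.IsAdmissible.quotient {p : ℕ} {D : Pairing} (h : D.IsAdmissible p)
    [D.zM.Normal] : AClass (D.Grp ⧸ D.zM) := by
  rw [AClass_iff]
  refine ⟨inferInstance, fun q hq => ?_⟩
  let f : D.Grp ⧸ D.zM →* D.H :=
    QuotientGroup.lift D.zM SemidirectProduct.rightHom (fun x hx => hx.2.2)
  have hf : ∀ x : D.Grp, f (x : D.Grp ⧸ D.zM) = x.right := fun x => rfl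
  intro Q hQ x hx y hy
  obtain ⟨a, rfl⟩ := QuotientGroup.mk_surjective x
  obtain ⟨b, rfl⟩ := QuotientGroup.mk_surjective y
  by_cases hqp : q = p
  · subst hqp
    have hr : ∀ c : D.Grp, (c : D.Grp ⧸ D.zM) ∈ Q → c.right = 1 := by
      intro c hc
      obtain ⟨k, hk⟩ := hQ ⟨_, hc⟩
      have hk' : (c : D.Grp ⧸ D.zM) ^ q ^ k = 1 := congrArg Subtype.val hk
      apply m1_H_eq_one h c.right k
      rw [← hf, ← map_pow, hk', map_one]
    have h1 := m1_comm_mem a b (hr a hx) (hr b hy)
    have h2 : (((a * b) * (b * a)⁻¹ : D.Grp) : D.Grp ⧸ D.zM) = 1 := (QuotientGroup.eq_one_iff _).2 h1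
    rw [QuotientGroup.mk_mul, QuotientGroup.mk_inv, QuotientGroup.mk_mul, QuotientGroup.mk_mul] at h2
    exact mul_inv_eq_one.1 h2
  · have h2 := h.memA.abP q hq (Q.map f) (hQ.map _) _
      (Subgroup.mem_map_of_mem _ hx) _ (Subgroup.mem_map_of_mem _ hy)
    set c : D.Grp := (a * b) * (b * a)⁻¹ with hcdef
    have hcc : (c : D.Grp ⧸ D.zM) = ((a : D.Grp ⧸ D.zM) * b) * ((b : D.Grp ⧸ D.zM) * a)⁻¹ := rfl
    have hc : c.right = 1 := by
      rw [← hf, hcc, map_mul, map_inv, map_mul, map_mul, h2, mul_inv_cancel]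
    have hcQ : (c : D.Grp ⧸ D.zM) ∈ Q := by
      rw [hcc]
      exact Q.mul_mem (Q.mul_mem hx hy) (Q.inv_mem (Q.mul_mem hy hx))
    obtain ⟨k, hk⟩ := hQ ⟨_, hcQ⟩
    have hk' : (c : D.Grp ⧸ D.zM) ^ q ^ k = 1 := congrArg Subtype.val hk
    have h3 := h.pow_eq_one c hc
    have h3' : (c : D.Grp ⧸ D.zM) ^ p ^ 2 = 1 := by
      rw [← QuotientGroup.mk_pow, h3]; rfl
    have h4 := m1_coprime_eq_one h.prime hq hqp _ _ _ h3' hk'
    rw [hcc] at h4
    exact mul_inv_eq_one.1 h4

end Pool.Agent.Helper75.MNA
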