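import Pool.Agent.Helper75.MNA.PresDefs
import Pool.Agent.Helper75.MNA.A1
import Pool.Agent.Helper75.MNA.M1

set_option autoImplicit false
set_option linter.style.haveILetI false

namespace Pool.Agent.Helper75.MNA

open Subgroup Pointwise

theorem c3_section_aux {K : Type} [Field K] {A B : Type} [AddCommGroup A] [AddCommGroup B]
    [Module K A] [Module K B] (f : A →ₗ[K] B)
    (hf : Function.Surjective f) : ∃ s : B →ₗ[K] A, ∀ b, f (s b) = b := by
  obtain ⟨g, hg⟩ := LinearMap.exists_rightInverse_of_surjective f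
    (LinearMap.range_eq_top.2 hf)
  exact ⟨g, fun b => LinearMap.congr_fun hg b⟩

theorem c3_section {p : ℕ} [Fact p.Prime] {A B : Type} [AddCommGroup A] [AddCommGroup B]
    (hA : ∀ a : A, p • a = 0) (hB : ∀ b : B, p • b = 0) (f : A →+ B)
    (hf : Function.Surjective f) : ∃ s : B →+ A, ∀ b, f (s b) = b := by
  let mA : Module (ZMod p) A := AddCommGroup.zmodModule hA
  let mB : Module (ZMod p) B := AddCommGroup.zmodModule hB
  let f' : A →ₗ[ZMod p] B := AddMonoidHom.toZModLinearMap p f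
  obtain ⟨g, hg⟩ := c3_section_aux (K := ZMod p) f' hf
  exact ⟨g.toAddMonoidHom, hg⟩

theorem c3_avg {p : ℕ} [hp : Fact p.Prime] {R T U X : Type} [Group R] [Group T] [Finite T]
    [AddCommGroup U] [AddCommGroup X] (τ : R →* T) (hT : ¬ p ∣ Nat.card T)
    (hU : ∀ u : U, p • u = 0) (hX : ∀ x : X, p • x = 0)
    (AU : R →* AddMonoid.End U) (AX : R →* AddMonoid.End X)
    (hAU : ∀ g, τ g = 1 → AU g = 1) (hAX : ∀ g, τ g = 1 → AX g = 1)
    (S : AddSubgroup (U × X)) (hS : ∀ g, ∀ z ∈ S, (AU g z.1, AX g z.2) ∈ S)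
    (hsurj : ∀ x, ∃ u, (u, x) ∈ S) :
    ∃ σ : X →+ U, (∀ x, (σ x, x) ∈ S) ∧ ∀ g x, σ (AX g x) = AU g (σ x) := by
  classical
  obtain ⟨s0, hs0⟩ := c3_section (p := p) (A := S) (B := X)
    (fun a => Subtype.ext (Prod.ext (by simpa using hU a.1.1) (by simpa using hX a.1.2))) hX
    ((AddMonoidHom.snd U X).comp S.subtype)
    (fun x => by obtain ⟨u, hu⟩ := hsurj x; exact ⟨⟨(u, x), hu⟩, rfl⟩)
  let s : X →+ U := (AddMonoidHom.fst U X).comp (S.subtype.comp s0)
  have hs : ∀ x, (s x, x) ∈ S := by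
    intro x
    have h1 : ((s0 x : S) : U × X) = (s x, x) := Prod.ext rfl (hs0 x)
    rw [← h1]; exact (s0 x).2
  letI : Fintype τ.range := Fintype.ofFinite _
  have hN : ¬ p ∣ Fintype.card τ.range := by
    intro h
    apply hT
    have h2 := Subgroup.card_subgroup_dvd_card τ.range
    rw [Nat.card_eq_fintype_card] at h2
    exact h.trans h2
  have hcop : Nat.Coprime (Fintype.card τ.range) p :=
    ((Nat.Prime.coprime_iff_not_dvd hp.out).2 hN).symm
  obtain ⟨k, -, hk⟩ := Nat.exists_mul_mod_eq_one_of_coprime hcop hp.out.one_lt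
  have hkx : ∀ x : X, k • (Fintype.card τ.range • x) = x := by
    intro x
    rw [smul_smul, mul_comm, ← Nat.div_add_mod (Fintype.card τ.range * k) p, hk, add_smul,
      mul_comm, mul_smul, hX, smul_zero, zero_add, one_smul]
  choose rep hrep using fun t : τ.range => t.2
  let F : R → (X →+ U) := fun g => (AU g : U →+ U).comp (s.comp (AX g⁻¹ : X →+ X))
  have hF : ∀ g g', τ g = τ g' → F g = F g' := by
    intro g g' h
    have h1 : AU g = AU g' := by
      have h2 := hAU (g'⁻¹ * g) (by rw [map_mul, map_inv, h, inv_mul_cancel])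
      have h3 : g = g' * (g'⁻¹ * g) := by group
      rw [h3, map_mul, h2, mul_one]
    have h4 : AX g⁻¹ = AX g'⁻¹ := by
      have h2 := hAX (g⁻¹ * g') (by rw [map_mul, map_inv, h, inv_mul_cancel])
      have h3 : g⁻¹ = (g⁻¹ * g') * g'⁻¹ := by group
      rw [h3, map_mul, h2, one_mul]
    simp only [F, h1, h4]
  have hAXinv : ∀ g x, AX g (AX g⁻¹ x) = x := by
    intro g x
    have : (AX g * AX g⁻¹) x = x := by
      rw [← map_mul, mul_inv_cancel, map_one]; rfl
    exact this
  have hFS : ∀ g x, (F g x, x) ∈ S := by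
    intro g x
    have h1 := hS g _ (hs (AX g⁻¹ x))
    simp only [hAXinv] at h1
    exact h1
  have hFg : ∀ g h x, AU g (F h x) = F (g * h) (AX g x) := by
    intro g h x
    change AU g (AU h (s (AX h⁻¹ x))) = AU (g * h) (s (AX (g * h)⁻¹ (AX g x)))
    have h1 : AX (g * h)⁻¹ (AX g x) = AX h⁻¹ x := by
      have : (AX (g * h)⁻¹ * AX g) x = AX h⁻¹ x := by
        rw [← map_mul]; congr 2; group
      exact this
    rw [h1, map_mul]
    rfl
  refine ⟨k • ∑ t : τ.range, F (rep t), ?_, ?_⟩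
  · intro x
    have h1 : k • ∑ t : τ.range, (F (rep t) x, x) ∈ S :=
      AddSubgroup.nsmul_mem _ (AddSubgroup.sum_mem _ fun t _ => hFS _ _) _
    have h2 : k • ∑ t : τ.range, (F (rep t) x, x) =
        ((k • ∑ t : τ.range, F (rep t)) x, x) := by
      apply Prod.ext
      · simp [Prod.fst_sum]
      · rw [Prod.smul_snd, Prod.snd_sum]
        simp only [Finset.sum_const, Finset.card_univ]
        exact hkx x
    rw [h2] at h1
    exact h1
  · intro g x
    rw [AddMonoidHom.smul_apply, AddMonoidHom.smul_apply, AddMonoidHom.finsetSum_apply,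
      AddMonoidHom.finsetSum_apply, map_nsmul, map_sum]
    congr 1
    rw [← Equiv.sum_comp (Equiv.mulLeft (⟨τ g, ⟨g, rfl⟩⟩ : τ.range))]
    refine Finset.sum_congr rfl fun t _ => ?_
    rw [hFg]
    congr 1
    apply hF
    rw [hrep, map_mul, hrep]
    rfl

theorem c3_schur {R H H' V V' : Type} [Group R] [Group H] [Group H'] [AddCommGroup V]
    [AddCommGroup V'] {act : H →* AddMonoid.End V} {act' : H' →* AddMonoid.End V'}
    (hV : IsIrred act) (hV' : IsIrred act') (φ : R →* H) (φ' : R →* H')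
    (hφ : Function.Surjective φ) (hφ' : Function.Surjective φ') (a : V' →+ V)
    (ha : ∀ g v, a (act' (φ' g) v) = act (φ g) (a v)) : a = 0 ∨ Function.Bijective a := by
  by_cases h0 : a = 0
  · exact Or.inl h0
  · right
    have h1 := hV'.2 a.ker (by
      intro h u hu
      obtain ⟨g, rfl⟩ := hφ' h
      rw [AddMonoidHom.mem_ker] at hu ⊢
      rw [ha, hu, map_zero])
    have h2 := hV.2 a.range (by
      rintro h u ⟨v, rfl⟩
      obtain ⟨g, rfl⟩ := hφ h
      exact ⟨act' (φ' g) v, ha g v⟩)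
    constructor
    · rcases h1 with h1 | h1
      · exact (AddMonoidHom.ker_eq_bot_iff a).1 h1
      · exfalso
        apply h0
        ext v
        have : v ∈ a.ker := by rw [h1]; trivial
        exact this
    · rcases h2 with h2 | h2
      · exfalso
        apply h0
        ext v
        have : a v ∈ a.range := ⟨v, rfl⟩
        rw [h2] at this
        exact this
      · exact AddMonoidHom.range_eq_top.1 h2

theorem c3_iso {R H H' : Type} [Group R] [Group H] [Group H'] (φ : R →* H) (φ' : R →* H')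
    (hφ : Function.Surjective φ) (hφ' : Function.Surjective φ')
    (h : ∀ g, φ' g = 1 ↔ φ g = 1) : ∃ l : H' ≃* H, ∀ g, l (φ' g) = φ g := by
  have hker : φ'.ker = φ.ker := by
    ext g
    rw [MonoidHom.mem_ker, MonoidHom.mem_ker, h]
  refine ⟨(QuotientGroup.quotientKerEquivOfSurjective φ' hφ').symm.trans
    ((QuotientGroup.quotientMulEquivOfEq hker).trans
      (QuotientGroup.quotientKerEquivOfSurjective φ hφ)), fun g => ?_⟩
  have h1 : (QuotientGroup.quotientKerEquivOfSurjective φ' hφ').symm (φ' g) =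
      (g : R ⧸ φ'.ker) := by
    rw [MulEquiv.symm_apply_eq]; rfl
  rw [MulEquiv.trans_apply, h1]
  rfl

theorem c3_twist1 {p : ℕ} {D D' : Pairing} (hD : D.IsAdmissible p) (hD' : D'.IsAdmissible p)
    {R : Type} [Group R] (φ : R →* D.H) (φ' : R →* D'.H)
    (hφ : Function.Surjective φ) (hφ' : Function.Surjective φ')
    (a : D'.V →+ D.V) (b : D'.W →+ D.W) (t : D.M →+ D'.M)
    (ha : ∀ g v, a (D'.actV (φ' g) v) = D.actV (φ g) (a v))
    (hb : ∀ g v, b (D'.actW (φ' g) v) = D.actW (φ g) (b v))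
    (ht : ∀ g m, t (D.actM (φ g) m) = D'.actM (φ' g) (t m))
    (f : D'.V →+ D'.W →+ D'.M) (hf : ∀ v w, f v w = t (D.β (a v) (b w))) :
    f ∈ AddSubgroup.closure {f : D'.V →+ D'.W →+ D'.M | Pairing.IsTwist D' D f} := by
  rcases c3_schur hD.irrV hD'.irrV φ φ' hφ hφ' a ha with rfl | ha'
  · have : f = 0 := by ext v w; rw [hf]; simp
    rw [this]; exact zero_mem _
  rcases c3_schur hD.irrW hD'.irrW φ φ' hφ hφ' b hb with rfl | hb'
  · have : f = 0 := by ext v w; rw [hf]; simp
    rw [this]; exact zero_mem _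
  rcases c3_schur hD'.irrM hD.irrM φ' φ hφ' hφ t ht with rfl | ht'
  · have : f = 0 := by ext v w; rw [hf]; simp
    rw [this]; exact zero_mem _
  obtain ⟨l, hl⟩ := c3_iso φ φ' hφ hφ' (by
    intro g
    constructor
    · intro h
      apply hD.faithful
      · intro v
        obtain ⟨v, rfl⟩ := ha'.2 v
        rw [← ha, h, map_one]; rfl
      · intro v
        obtain ⟨v, rfl⟩ := hb'.2 v
        rw [← hb, h, map_one]; rfl
    · intro h
      apply hD'.faithful
      · intro v
        apply ha'.1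
        rw [ha, h, map_one]; rfl
      · intro v
        apply hb'.1
        rw [hb, h, map_one]; rfl)
  apply AddSubgroup.subset_closure
  refine Pairing.IsTwist.straight f l (AddEquiv.ofBijective a ha') (AddEquiv.ofBijective b hb')
    (AddEquiv.ofBijective t ht') ?_ ?_ ?_ ?_
  · intro h v
    obtain ⟨g, rfl⟩ := hφ' h
    rw [hl]
    exact ha g v
  · intro h v
    obtain ⟨g, rfl⟩ := hφ' h
    rw [hl]
    exact hb g v
  · intro h v
    obtain ⟨g, rfl⟩ := hφ' h
    rw [hl]
    exact ht g v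
  · intro v w
    exact hf v w

theorem c3_twist2 {p : ℕ} {D D' : Pairing} (hD : D.IsAdmissible p) (hD' : D'.IsAdmissible p)
    {R : Type} [Group R] (φ : R →* D.H) (φ' : R →* D'.H)
    (hφ : Function.Surjective φ) (hφ' : Function.Surjective φ')
    (a : D'.V →+ D.W) (b : D'.W →+ D.V) (t : D.M →+ D'.M)
    (ha : ∀ g v, a (D'.actV (φ' g) v) = D.actW (φ g) (a v))
    (hb : ∀ g v, b (D'.actW (φ' g) v) = D.actV (φ g) (b v))
    (ht : ∀ g m, t (D.actM (φ g) m) = D'.actM (φ' g) (t m))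
    (f : D'.V →+ D'.W →+ D'.M) (hf : ∀ v w, f v w = t (D.β (b w) (a v))) :
    f ∈ AddSubgroup.closure {f : D'.V →+ D'.W →+ D'.M | Pairing.IsTwist D' D f} := by
  rcases c3_schur hD.irrW hD'.irrV φ φ' hφ hφ' a ha with rfl | ha'
  · have : f = 0 := by ext v w; rw [hf]; simp
    rw [this]; exact zero_mem _
  rcases c3_schur hD.irrV hD'.irrW φ φ' hφ hφ' b hb with rfl | hb'
  · have : f = 0 := by ext v w; rw [hf]; simp
    rw [this]; exact zero_mem _
  rcases c3_schur hD'.irrM hD.irrM φ' φ hφ' hφ t ht with rfl | ht'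
  · have : f = 0 := by ext v w; rw [hf]; simp
    rw [this]; exact zero_mem _
  obtain ⟨l, hl⟩ := c3_iso φ φ' hφ hφ' (by
    intro g
    constructor
    · intro h
      apply hD.faithful
      · intro v
        obtain ⟨v, rfl⟩ := hb'.2 v
        rw [← hb, h, map_one]; rfl
      · intro v
        obtain ⟨v, rfl⟩ := ha'.2 v
        rw [← ha, h, map_one]; rfl
    · intro h
      apply hD'.faithful
      · intro v
        apply ha'.1
        rw [ha, h, map_one]; rfl
      · intro v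
        apply hb'.1
        rw [hb, h, map_one]; rfl)
  apply AddSubgroup.subset_closure
  refine Pairing.IsTwist.swapped f l (AddEquiv.ofBijective a ha') (AddEquiv.ofBijective b hb')
    (AddEquiv.ofBijective t ht') ?_ ?_ ?_ ?_
  · intro h v
    obtain ⟨g, rfl⟩ := hφ' h
    rw [hl]
    exact ha g v
  · intro h v
    obtain ⟨g, rfl⟩ := hφ' h
    rw [hl]
    exact hb g v
  · intro h v
    obtain ⟨g, rfl⟩ := hφ' h
    rw [hl]
    exact ht g v
  · intro v w
    exact hf v w

/-- the central element attached to `m`. -/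
def c3_z (D : Pairing) (m : D.M) : D.Grp := ⟨⟨0, 0, m⟩, 1⟩

@[simp] theorem c3_z_v (D : Pairing) (m : D.M) : (c3_z D m).left.v = 0 := rfl
@[simp] theorem c3_z_w (D : Pairing) (m : D.M) : (c3_z D m).left.w = 0 := rfl
@[simp] theorem c3_z_m (D : Pairing) (m : D.M) : (c3_z D m).left.m = m := rfl
@[simp] theorem c3_z_right (D : Pairing) (m : D.M) : (c3_z D m).right = 1 := rfl

theorem c3_z_mem (D : Pairing) (m : D.M) : c3_z D m ∈ D.zM := ⟨rfl, rfl, rfl⟩

theorem c3_eq_z {D : Pairing} {x : D.Grp} (hx : x ∈ D.zM) : x = c3_z D x.left.m := by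
  obtain ⟨h1, h2, h3⟩ := hx
  ext
  · exact h1
  · exact h2
  · rfl
  · exact h3

theorem c3_z_mul (D : Pairing) (m m' : D.M) : c3_z D (m + m') = c3_z D m * c3_z D m' := by
  ext <;> simp

theorem c3_z_conj (D : Pairing) (g : D.Grp) (m : D.M) :
    g * c3_z D m * g⁻¹ = c3_z D (D.actM g.right m) := by
  ext
  · simp [Pairing.act, Pairing.act_inv]
  · simp [Pairing.act, Pairing.act_inv]
  · simp [Pairing.act, Pairing.act_inv]; abel
  · simp

theorem c3_z_comm {D : Pairing} {x : D.Grp} (hx : x.right = 1) (m : D.M) :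
    x * c3_z D m = c3_z D m * x := by
  ext
  · simp [hx]
  · simp [hx]
  · simp [hx, add_comm]
  · simp [hx]

theorem c3_comm {D : Pairing} {x y : D.Grp} (hx : x.right = 1) (hy : y.right = 1) :
    x * y = c3_z D (D.β x.left.v y.left.w - D.β y.left.v x.left.w) * (y * x) := by
  ext
  · simp [hx, hy, add_comm]
  · simp [hx, hy, add_comm]
  · simp [hx, hy]; abel
  · simp [hx, hy]

theorem c3_conj_v {D : Pairing} (g : D.Grp) {x : D.Grp} (hx : x.right = 1) :
    (g * x * g⁻¹).left.v = D.actV g.right x.left.v := by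
  simp [Pairing.act, Pairing.act_inv, hx]

theorem c3_conj_w {D : Pairing} (g : D.Grp) {x : D.Grp} (hx : x.right = 1) :
    (g * x * g⁻¹).left.w = D.actW g.right x.left.w := by
  simp [Pairing.act, Pairing.act_inv, hx]

theorem c3_conj_right {D : Pairing} (g : D.Grp) {x : D.Grp} (hx : x.right = 1) :
    (g * x * g⁻¹).right = 1 := by
  simp [hx]

theorem c3_inv_v {D : Pairing} {x : D.Grp} (hx : x.right = 1) :
    (x⁻¹).left.v = - x.left.v := by
  simp [hx]

theorem c3_inv_w {D : Pairing} {x : D.Grp} (hx : x.right = 1) :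
    (x⁻¹).left.w = - x.left.w := by
  simp [hx]

theorem c3_mul_v {D : Pairing} {x y : D.Grp} (hx : x.right = 1) :
    (x * y).left.v = x.left.v + y.left.v := by
  simp [hx]

theorem c3_mul_w {D : Pairing} {x y : D.Grp} (hx : x.right = 1) :
    (x * y).left.w = x.left.w + y.left.w := by
  simp [hx]


theorem c3_lift {p : ℕ} [hp : Fact p.Prime] {D D' : Pairing} (hD : D.IsAdmissible p)
    (hD' : D'.IsAdmissible p) {n : ℕ} (P : Pres D.Grp D'.Grp n) (y : D'.Grp) (hy : y.right = 1) :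
    ∃ r : P.R, (∀ i, (P.π i r).right = 1) ∧ P.ρ r = y := by
  obtain ⟨r0, hr0⟩ := P.onto y
  have hy2 := hD'.pow_eq_one y hy
  have hN : orderOf r0 ≠ 0 := (orderOf_pos r0).ne'
  obtain ⟨a, m, hm, hN2⟩ := Nat.exists_eq_pow_mul_and_not_dvd hN p hp.out.ne_one
  have hcop : Nat.Coprime (p ^ 2) m :=
    Nat.Coprime.pow_left 2 ((Nat.Prime.coprime_iff_not_dvd hp.out).2 hm)
  obtain ⟨t, ht1, ht2⟩ := Nat.chineseRemainder hcop 1 0
  refine ⟨r0 ^ t, ?_, ?_⟩
  · intro i
    apply hD.right_eq_one _ a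
    rw [← map_pow, ← pow_mul]
    have : orderOf r0 ∣ t * p ^ a := by
      rw [hN2, mul_comm]
      exact Nat.mul_dvd_mul_right ((Nat.modEq_zero_iff_dvd).1 ht2) _
    rw [orderOf_dvd_iff_pow_eq_one.1 this, map_one]
  · rw [map_pow, hr0]
    have h1 : y ^ t = y ^ 1 := by
      rw [pow_eq_pow_iff_modEq]
      exact ht1.of_dvd (orderOf_dvd_of_pow_eq_one hy2)
    rw [h1, pow_one]

theorem c3_right {p : ℕ} {D D' : Pairing} (hD : D.IsAdmissible p)
    (hD' : D'.IsAdmissible p) {n : ℕ} (P : Pres D.Grp D'.Grp n) (r : P.R)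
    (hr : ∀ i, (P.π i r).right = 1) : (P.ρ r).right = 1 := by
  have h1 : r ^ p ^ 2 = 1 := P.inj _ (fun i => by rw [map_pow]; exact hD.pow_eq_one _ (hr i))
  apply hD'.right_eq_one _ 2
  rw [← map_pow, h1, map_one]

theorem c3_zM {p : ℕ} [hp : Fact p.Prime] {D D' : Pairing} (hD : D.IsAdmissible p)
    (hD' : D'.IsAdmissible p) {n : ℕ} (P : Pres D.Grp D'.Grp n) (r : P.R)
    (hr : ∀ i, P.π i r ∈ D.zM) : P.ρ r ∈ D'.zM := by
  have h1 : ∀ i, (P.π i r).right = 1 := fun i => (hr i).2.2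
  apply hD'.mem_zM _ (c3_right hD hD' P r h1)
  intro x hx
  obtain ⟨s, hs, rfl⟩ := c3_lift hD hD' P x hx
  rw [← map_mul, ← map_mul]
  congr 1
  rw [← mul_inv_eq_one]
  apply P.inj
  intro i
  rw [map_mul, map_inv, map_mul, map_mul, mul_inv_eq_one, c3_eq_z (hr i)]
  exact c3_z_comm (hs i) _

theorem c3_ext {G K : Type} [Group G] [Group K] {n : ℕ} (P : Pres G K n) {r s : P.R}
    (h : ∀ i, P.π i r = P.π i s) : r = s := by
  rw [← mul_inv_eq_one]
  apply P.inj
  intro i
  rw [map_mul, map_inv, h, mul_inv_cancel]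

theorem c3_theta {p : ℕ} [hp : Fact p.Prime] {D D' : Pairing} (hD : D.IsAdmissible p)
    (hD' : D'.IsAdmissible p) {n : ℕ} (P : Pres D.Grp D'.Grp n) (hP : P.IsMin) (i : Fin n) :
    ∃ θ : D.M →+ D'.M, ∀ (m : D.M) (r : P.R), P.π i r = c3_z D m →
      (∀ j, j ≠ i → P.π j r = 1) → P.ρ r = c3_z D' (θ m) := by
  have h := fun m : D.M => P.full hP hD.monolith i (c3_z D m) (c3_z_mem D m)
  choose d hd1 hd2 using h
  have hρ : ∀ m, P.ρ (d m) ∈ D'.zM := fun m => c3_zM hD hD' P _ (fun j => by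
    by_cases hj : j = i
    · subst hj; rw [hd1]; exact c3_z_mem D m
    · rw [hd2 m j hj]; exact one_mem _)
  have huniq : ∀ m r, P.π i r = c3_z D m → (∀ j, j ≠ i → P.π j r = 1) → r = d m := by
    intro m r h1 h2
    apply c3_ext
    intro j
    by_cases hj : j = i
    · subst hj; rw [hd1, h1]
    · rw [hd2 m j hj, h2 j hj]
  refine ⟨{ toFun := fun m => (P.ρ (d m)).left.m, map_zero' := ?_, map_add' := ?_ }, ?_⟩
  · have : d 0 = 1 := (huniq 0 1 (by rw [map_one]; rfl) (fun j _ => map_one _)).symm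
    rw [this, map_one]; rfl
  · intro m m'
    have : d (m + m') = d m * d m' := (huniq _ _ (by rw [map_mul, hd1, hd1, c3_z_mul])
      (fun j hj => by rw [map_mul, hd2 m j hj, hd2 m' j hj, one_mul])).symm
    have h3 : P.ρ (d (m + m')) = c3_z D' ((P.ρ (d m)).left.m + (P.ρ (d m')).left.m) := by
      rw [this, map_mul, c3_z_mul, ← c3_eq_z (hρ m), ← c3_eq_z (hρ m')]
    rw [h3]; rfl
  · intro m r h1 h2
    rw [huniq m r h1 h2]
    exact c3_eq_z (hρ m)

theorem c3_theta_equiv {p : ℕ} {D D' : Pairing} (hD : D.IsAdmissible p)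
    {n : ℕ} (P : Pres D.Grp D'.Grp n) (hP : P.IsMin) (i : Fin n)
    (θ : D.M →+ D'.M) (hθ : ∀ (m : D.M) (r : P.R), P.π i r = c3_z D m →
      (∀ j, j ≠ i → P.π j r = 1) → P.ρ r = c3_z D' (θ m)) (g : P.R) (m : D.M) :
    θ (D.actM (P.π i g).right m) = D'.actM (P.ρ g).right (θ m) := by
  obtain ⟨d, hd1, hd2⟩ := P.full hP hD.monolith i (c3_z D m) (c3_z_mem D m)
  have h1 := hθ m d hd1 hd2
  have h2 := hθ (D.actM (P.π i g).right m) (g * d * g⁻¹)
    (by rw [map_mul, map_mul, map_inv, hd1, c3_z_conj])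
    (fun j hj => by rw [map_mul, map_mul, map_inv, hd2 j hj, mul_one, mul_inv_cancel])
  rw [map_mul, map_mul, map_inv, h1, c3_z_conj] at h2
  have h3 := congrArg (fun x : D'.Grp => x.left.m) h2
  exact h3.symm

theorem c3_sum {p : ℕ} {D D' : Pairing} (hD : D.IsAdmissible p)
    {n : ℕ} (P : Pres D.Grp D'.Grp n) (hP : P.IsMin)
    (θ : Fin n → (D.M →+ D'.M)) (hθ : ∀ i, ∀ (m : D.M) (r : P.R), P.π i r = c3_z D m →
      (∀ j, j ≠ i → P.π j r = 1) → P.ρ r = c3_z D' (θ i m)) (J : Finset (Fin n)) :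
    ∀ (r : P.R) (m : Fin n → D.M), (∀ i, P.π i r = c3_z D (m i)) → (∀ i, i ∉ J → m i = 0) →
      P.ρ r = c3_z D' (∑ i ∈ J, θ i (m i)) := by
  classical
  induction J using Finset.induction_on with
  | empty =>
    intro r m h1 h2
    have : r = 1 := P.inj _ (fun i => by rw [h1, h2 i (Finset.notMem_empty i)]; rfl)
    rw [this, map_one, Finset.sum_empty]; rfl
  | insert j J hj ih =>
    intro r m h1 h2
    obtain ⟨d, hd1, hd2⟩ := P.full hP hD.monolith j (c3_z D (m j)) (c3_z_mem D (m j))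
    have h3 := ih (r * d⁻¹) (Function.update m j 0) (by
      intro i
      by_cases hi : i = j
      · subst hi
        rw [map_mul, map_inv, hd1, h1, mul_inv_cancel, Function.update_self]; rfl
      · rw [map_mul, map_inv, hd2 i hi, h1, inv_one, mul_one, Function.update_of_ne hi]) (by
      intro i hi
      by_cases hij : i = j
      · subst hij; exact Function.update_self _ _ _
      · rw [Function.update_of_ne hij]
        exact h2 i (by simp [hij, hi]))
    have h4 : r = r * d⁻¹ * d := by group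
    have h5 : ∑ i ∈ J, θ i (Function.update m j 0 i) = ∑ i ∈ J, θ i (m i) := by
      refine Finset.sum_congr rfl fun i hi => ?_
      have hij : i ≠ j := by rintro rfl; exact hj hi
      rw [Function.update_of_ne hij]
    rw [h4, map_mul, h3, hθ j (m j) d hd1 hd2, h5, ← c3_z_mul, Finset.sum_insert hj, add_comm]

/-- the graph of the map between the abelian quotients. -/
def c3_S {D D' : Pairing} {n : ℕ} (P : Pres D.Grp D'.Grp n) :
    AddSubgroup ((Fin n → D.V × D.W) × (D'.V × D'.W)) where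
  carrier := {z | ∃ r : P.R, (∀ i, (P.π i r).right = 1) ∧ (P.ρ r).right = 1 ∧
    (∀ i, (z.1 i).1 = (P.π i r).left.v ∧ (z.1 i).2 = (P.π i r).left.w) ∧
    z.2.1 = (P.ρ r).left.v ∧ z.2.2 = (P.ρ r).left.w}
  zero_mem' := ⟨1, fun i => by rw [map_one]; rfl, by rw [map_one]; rfl,
    fun i => by rw [map_one]; exact ⟨rfl, rfl⟩, by rw [map_one]; rfl, by rw [map_one]; rfl⟩
  add_mem' := by
    rintro a b ⟨r, h1, h2, h3, h4, h5⟩ ⟨s, k1, k2, k3, k4, k5⟩
    refine ⟨r * s, fun i => ?_, ?_, fun i => ⟨?_, ?_⟩, ?_, ?_⟩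
    · rw [map_mul, SemidirectProduct.mul_right, h1, k1, one_mul]
    · rw [map_mul, SemidirectProduct.mul_right, h2, k2, one_mul]
    · rw [map_mul, c3_mul_v (h1 i), ← (h3 i).1, ← (k3 i).1]; rfl
    · rw [map_mul, c3_mul_w (h1 i), ← (h3 i).2, ← (k3 i).2]; rfl
    · rw [map_mul, c3_mul_v h2, ← h4, ← k4]; rfl
    · rw [map_mul, c3_mul_w h2, ← h5, ← k5]; rfl
  neg_mem' := by
    rintro a ⟨r, h1, h2, h3, h4, h5⟩
    refine ⟨r⁻¹, fun i => ?_, ?_, fun i => ⟨?_, ?_⟩, ?_, ?_⟩
    · rw [map_inv, SemidirectProduct.inv_right, h1, inv_one]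
    · rw [map_inv, SemidirectProduct.inv_right, h2, inv_one]
    · rw [map_inv, c3_inv_v (h1 i), ← (h3 i).1]; rfl
    · rw [map_inv, c3_inv_w (h1 i), ← (h3 i).2]; rfl
    · rw [map_inv, c3_inv_v h2, ← h4]; rfl
    · rw [map_inv, c3_inv_w h2, ← h5]; rfl

/-- action on the product. -/
def c3_act (D : Pairing) : D.H →* AddMonoid.End (D.V × D.W) where
  toFun h := AddMonoidHom.prodMap (D.actV h) (D.actW h)
  map_one' := by
    apply AddMonoidHom.ext
    rintro ⟨x, y⟩
    rw [map_one, map_one]; rfl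
  map_mul' h k := by
    apply AddMonoidHom.ext
    rintro ⟨x, y⟩
    rw [map_mul, map_mul]; rfl

/-- action on the power of the product. -/
def c3_AU {D D' : Pairing} {n : ℕ} (P : Pres D.Grp D'.Grp n) :
    P.R →* AddMonoid.End (Fin n → D.V × D.W) where
  toFun g :=
    { toFun := fun u i => c3_act D (P.π i g).right (u i)
      map_zero' := by funext i; exact map_zero (c3_act D (P.π i g).right)
      map_add' := fun u v => by funext i; exact map_add (c3_act D (P.π i g).right) _ _ }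
  map_one' := by
    apply AddMonoidHom.ext
    intro u
    funext i
    change c3_act D (P.π i 1).right (u i) = u i
    rw [map_one, SemidirectProduct.one_right, map_one]; rfl
  map_mul' g k := by
    apply AddMonoidHom.ext
    intro u
    funext i
    change c3_act D (P.π i (g * k)).right (u i) =
      c3_act D (P.π i g).right (c3_act D (P.π i k).right (u i))
    rw [map_mul, SemidirectProduct.mul_right, map_mul]; rfl

/-- composite bilinear maps. -/
def c3_bil {V W M V' W' M' : Type} [AddCommGroup V] [AddCommGroup W] [AddCommGroup M]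
    [AddCommGroup V'] [AddCommGroup W'] [AddCommGroup M'] (β : V →+ W →+ M) (a : V' →+ V)
    (b : W' →+ W) (t : M →+ M') : V' →+ W' →+ M' where
  toFun v := t.comp ((β (a v)).comp b)
  map_zero' := by ext w; simp
  map_add' v v' := by ext w; simp

theorem c3_bil_apply {V W M V' W' M' : Type} [AddCommGroup V] [AddCommGroup W] [AddCommGroup M]
    [AddCommGroup V'] [AddCommGroup W'] [AddCommGroup M'] (β : V →+ W →+ M) (a : V' →+ V)
    (b : W' →+ W) (t : M →+ M') (v : V') (w : W') : c3_bil β a b t v w = t (β (a v) (b w)) := rfl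

theorem Pairing.comb_of_form {p q : ℕ} {D' D : Pairing} (hD : D.IsAdmissible p)
    (hD' : D'.IsAdmissible q) (h : form D.Grp D'.Grp) : D'.Comb D := by
  classical
  have hqp : q = p := by
    by_contra hne
    haveI : Fact q.Prime := ⟨hD'.prime⟩
    obtain ⟨n, ⟨P⟩⟩ := exists_pres h
    have h1 : AbP q P.R := AbP.joint P.π (fun _ => hD.abP_of_ne hD'.prime hne) P.inj
    exact hD'.not_abP (h1.surj P.ρ P.onto)
  subst hqp
  haveI : Fact q.Prime := ⟨hD.prime⟩
  obtain ⟨n, P, hP⟩ := exists_min_pres h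
  let φ : Fin n → (P.R →* D.H) := fun i => SemidirectProduct.rightHom.comp (P.π i)
  let φ' : P.R →* D'.H := SemidirectProduct.rightHom.comp P.ρ
  have hφ : ∀ i, Function.Surjective (φ i) := fun i =>
    SemidirectProduct.rightHom_surjective.comp (P.surj i)
  have hφ' : Function.Surjective φ' := SemidirectProduct.rightHom_surjective.comp P.onto
  let τ : P.R →* (Fin n → D.H) := MonoidHom.pi φ
  have hT : ¬ q ∣ Nat.card (Fin n → D.H) := by
    intro hd
    rw [Nat.card_pi, Finset.prod_const] at hd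
    exact hD.coprime (hD.prime.dvd_of_dvd_pow hd)
  have hU : ∀ u : Fin n → D.V × D.W, q • u = 0 := by
    intro u
    funext i
    exact Prod.ext (hD.expV _) (hD.expW _)
  have hX : ∀ x : D'.V × D'.W, q • x = 0 := fun x => Prod.ext (hD'.expV _) (hD'.expW _)
  have hAU : ∀ g, τ g = 1 → c3_AU P g = 1 := by
    intro g hg
    apply AddMonoidHom.ext
    intro u
    funext i
    change c3_act D (P.π i g).right (u i) = u i
    have : (P.π i g).right = 1 := congrFun hg i
    rw [this, map_one]; rfl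
  have hAX : ∀ g, τ g = 1 → ((c3_act D').comp φ') g = 1 := by
    intro g hg
    have : (P.ρ g).right = 1 := c3_right hD hD' P g (fun i => congrFun hg i)
    change c3_act D' (P.ρ g).right = 1
    rw [this, map_one]
  have hS : ∀ g, ∀ z ∈ c3_S P, (c3_AU P g z.1, ((c3_act D').comp φ') g z.2) ∈ c3_S P := by
    rintro g z ⟨r, h1, h2, h3, h4, h5⟩
    refine ⟨g * r * g⁻¹, fun i => ?_, ?_, fun i => ⟨?_, ?_⟩, ?_, ?_⟩
    · rw [map_mul, map_mul, map_inv]; exact c3_conj_right _ (h1 i)
    · rw [map_mul, map_mul, map_inv]; exact c3_conj_right _ h2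
    · rw [map_mul, map_mul, map_inv, c3_conj_v _ (h1 i), ← (h3 i).1]; rfl
    · rw [map_mul, map_mul, map_inv, c3_conj_w _ (h1 i), ← (h3 i).2]; rfl
    · rw [map_mul, map_mul, map_inv, c3_conj_v _ h2, ← h4]; rfl
    · rw [map_mul, map_mul, map_inv, c3_conj_w _ h2, ← h5]; rfl
  have hsurj : ∀ x, ∃ u, (u, x) ∈ c3_S P := by
    rintro ⟨v, w⟩
    obtain ⟨r, hr1, hr2⟩ := c3_lift hD hD' P (⟨⟨v, w, 0⟩, 1⟩ : D'.Grp) rfl
    refine ⟨fun i => ((P.π i r).left.v, (P.π i r).left.w), r, hr1, ?_, fun i => ⟨rfl, rfl⟩, ?_, ?_⟩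
    · rw [hr2]
    · rw [hr2]
    · rw [hr2]
  obtain ⟨σ, hσ1, hσ2⟩ := c3_avg (p := q) τ hT hU hX (c3_AU P) ((c3_act D').comp φ') hAU hAX
    (c3_S P) hS hsurj
  choose θ hθ using fun i => c3_theta hD hD' P hP i
  have hθe := fun i => c3_theta_equiv hD P hP i (θ i) (hθ i)
  let pr : Fin n → ((Fin n → D.V × D.W) →+ D.V × D.W) := fun i => Pi.evalAddMonoidHom _ i
  let a : Fin n → (D'.V →+ D.V) := fun i =>
    (AddMonoidHom.fst D.V D.W).comp ((pr i).comp (σ.comp (AddMonoidHom.inl D'.V D'.W)))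
  let a' : Fin n → (D'.V →+ D.W) := fun i =>
    (AddMonoidHom.snd D.V D.W).comp ((pr i).comp (σ.comp (AddMonoidHom.inl D'.V D'.W)))
  let b : Fin n → (D'.W →+ D.W) := fun i =>
    (AddMonoidHom.snd D.V D.W).comp ((pr i).comp (σ.comp (AddMonoidHom.inr D'.V D'.W)))
  let b' : Fin n → (D'.W →+ D.V) := fun i =>
    (AddMonoidHom.fst D.V D.W).comp ((pr i).comp (σ.comp (AddMonoidHom.inr D'.V D'.W)))
  have hinl : ∀ g v, σ (D'.actV (φ' g) v, 0) = c3_AU P g (σ (v, 0)) := by
    intro g v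
    rw [← hσ2]
    congr 1
    change _ = (D'.actV (φ' g) v, D'.actW (φ' g) 0)
    rw [map_zero]
  have hinr : ∀ g w, σ (0, D'.actW (φ' g) w) = c3_AU P g (σ (0, w)) := by
    intro g w
    rw [← hσ2]
    congr 1
    change _ = (D'.actV (φ' g) 0, D'.actW (φ' g) w)
    rw [map_zero]
  have ha : ∀ i g v, a i (D'.actV (φ' g) v) = D.actV (φ i g) (a i v) := by
    intro i g v
    have := congrArg (fun u => (u i).1) (hinl g v)
    exact this
  have ha' : ∀ i g v, a' i (D'.actV (φ' g) v) = D.actW (φ i g) (a' i v) := by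
    intro i g v
    have := congrArg (fun u => (u i).2) (hinl g v)
    exact this
  have hb : ∀ i g v, b i (D'.actW (φ' g) v) = D.actW (φ i g) (b i v) := by
    intro i g v
    have := congrArg (fun u => (u i).2) (hinr g v)
    exact this
  have hb' : ∀ i g v, b' i (D'.actW (φ' g) v) = D.actV (φ i g) (b' i v) := by
    intro i g v
    have := congrArg (fun u => (u i).1) (hinr g v)
    exact this
  have key : D'.β = ∑ i, (c3_bil D.β (a i) (b i) (θ i) -
      c3_bil D.β.flip (a' i) (b' i) (θ i)) := by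
    ext v w
    obtain ⟨r, h1, h2, h3, h4, h5⟩ := hσ1 (v, 0)
    obtain ⟨s, k1, k2, k3, k4, k5⟩ := hσ1 (0, w)
    dsimp only at h3 h4 h5 k3 k4 k5
    have e1 : ∀ i, P.π i (r * s * (s * r)⁻¹) = c3_z D (D.β (a i v) (b i w) -
        D.β (b' i w) (a' i v)) := by
      intro i
      rw [map_mul, map_inv, map_mul, map_mul, mul_inv_eq_iff_eq_mul]
      rw [c3_comm (h1 i) (k1 i), ← (h3 i).1, ← (k3 i).2, ← (k3 i).1, ← (h3 i).2]
      rfl
    have e2 : P.ρ (r * s * (s * r)⁻¹) = c3_z D' (D'.β v w) := by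
      rw [map_mul, map_inv, map_mul, map_mul, mul_inv_eq_iff_eq_mul]
      rw [c3_comm h2 k2, ← h4, ← k5, ← k4, ← h5, map_zero, sub_zero]
    have e3 := c3_sum hD P hP θ hθ Finset.univ _ _ e1 (fun i hi => absurd (Finset.mem_univ i) hi)
    rw [e2] at e3
    have e4 := congrArg (fun x : D'.Grp => x.left.m) e3
    simp only [c3_z_m] at e4
    rw [e4, AddMonoidHom.finsetSum_apply, AddMonoidHom.finsetSum_apply]
    refine Finset.sum_congr rfl fun i _ => ?_
    rw [AddMonoidHom.sub_apply, AddMonoidHom.sub_apply, c3_bil_apply, c3_bil_apply, map_sub,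
      AddMonoidHom.flip_apply]
  unfold Pairing.Comb
  rw [key]
  refine AddSubgroup.sum_mem _ fun i _ => AddSubgroup.sub_mem _ ?_ ?_
  · exact c3_twist1 hD hD' (φ i) φ' (hφ i) hφ' (a i) (b i) (θ i) (ha i) (hb i) (hθe i) _
      (fun v w => rfl)
  · exact c3_twist2 hD hD' (φ i) φ' (hφ i) hφ' (a' i) (b' i) (θ i) (ha' i) (hb' i) (hθe i) _
      (fun v w => rfl)

end Pool.Agent.Helper75.MNA
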