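import Pool.Agent.Helper75.MNA.PresDefs

set_option autoImplicit false
set_option linter.style.haveILetI false

namespace Pool.Agent.Helper75.MNA

open Subgroup Pointwise

theorem transfer_center {J : Type} [Group J] [Finite J] {p : ℕ} (hp : p.Prime) (hab : AbP p J)
    (hperf : commutator J = ⊤) (z : J) (hz : ∀ x : J, x * z = z * x) (k : ℕ)
    (hzk : z ^ p ^ k = 1) : z = 1 := by
  classical
  haveI : Fact p.Prime := ⟨hp⟩
  have hpz : IsPGroup p (Subgroup.zpowers z) := by
    rintro ⟨y, hy⟩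
    obtain ⟨m, rfl⟩ := Subgroup.mem_zpowers_iff.mp hy
    refine ⟨k, ?_⟩
    ext
    simp only [SubmonoidClass.coe_pow, OneMemClass.coe_one]
    rw [← zpow_natCast, ← zpow_mul, mul_comm, zpow_mul, zpow_natCast, hzk, one_zpow]
  obtain ⟨Q, hQ⟩ := hpz.exists_le_sylow
  have hzQ : z ∈ (Q : Subgroup J) := hQ (Subgroup.mem_zpowers z)
  letI inst : CommGroup (Q : Subgroup J) :=
    { (inferInstance : Group (Q : Subgroup J)) with
      mul_comm := fun a b => Subtype.ext
        (hab (Q : Subgroup J) Q.isPGroup' a.1 a.2 b.1 b.2) }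
  let φ : (Q : Subgroup J) →* (Q : Subgroup J) := MonoidHom.id _
  have hzc : ∀ (m : ℕ) (g₀ : J), g₀⁻¹ * z ^ m * g₀ = z ^ m := by
    intro m g₀
    have h1 : Commute g₀ z := hz g₀
    have h2 : Commute g₀ (z ^ m) := h1.pow_right m
    rw [mul_assoc, ← h2.eq, inv_mul_cancel_left]
  have key := MonoidHom.transfer_eq_pow φ z (fun m g₀ _ => hzc m g₀)
  have h3 : z ∈ (MonoidHom.transfer φ).ker := by
    apply Abelianization.commutator_subset_ker (MonoidHom.transfer φ)
    rw [hperf]
    exact Subgroup.mem_top z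
  rw [MonoidHom.mem_ker] at h3
  rw [h3] at key
  have h4 : z ^ (Q : Subgroup J).index = 1 := by
    have := congrArg (fun u : (Q : Subgroup J) => (u : J)) key
    exact this.symm
  have h5 : ¬ p ∣ (Q : Subgroup J).index := Q.not_dvd_index
  have h6 : Nat.gcd (p ^ k) (Q : Subgroup J).index = 1 :=
    Nat.Coprime.pow_left k ((Nat.Prime.coprime_iff_not_dvd hp).mpr h5)
  have h7 := pow_gcd_eq_one.mpr ⟨hzk, h4⟩
  rw [h6, pow_one] at h7
  exact h7

end Pool.Agent.Helper75.MNA
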