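import Pool.Agent.Helper75.MNA.PresDefs
import Pool.Agent.Helper75.MNA.T0

set_option autoImplicit false
set_option linter.style.haveILetI false

namespace Pool.Agent.Helper75.MNA

open Subgroup Pointwise

/-- kernel of `d` = centre -/
theorem CrossedMod.IsAdmissible.ker_central {p : ℕ} {D : CrossedMod} (h : D.IsAdmissible p)
    (e : D.E) : D.d e = 1 ↔ ∀ f : D.E, e * f = f * e := by
  constructor
  · intro he f
    have h1 := D.peiffer e f
    rw [he, map_one, MulAut.one_apply] at h1
    calc e * f = e * f * e⁻¹ * e := by group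
      _ = f * e := by rw [← h1]
  · intro he
    apply h.faithful
    rw [map_one]
    ext f
    rw [D.peiffer, he f, MulAut.one_apply]
    group

theorem CrossedMod.IsAdmissible.not_abP_E {p : ℕ} {D : CrossedMod} (h : D.IsAdmissible p) :
    ¬ AbP p D.E := by
  intro hab
  apply h.ker_ne_bot
  rw [eq_bot_iff]
  intro z hz
  rw [Subgroup.mem_bot]
  refine transfer_center h.prime hab h.perfect z (fun x => ?_) 1 (by rw [pow_one]; exact h.ker_exp z hz)
  exact ((h.ker_central z).1 (MonoidHom.mem_ker.1 hz) x).symm

theorem CrossedMod.IsAdmissible.not_abP {p : ℕ} {D : CrossedMod} (h : D.IsAdmissible p) :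
    ¬ AbP p D.Grp := fun hab =>
  h.not_abP_E (hab.of_injective SemidirectProduct.inl SemidirectProduct.inl_injective)

theorem m2_mem_zM {D : CrossedMod} (c : D.Grp) (h1 : D.fst c = 1) (h2 : D.snd c = 1) : c ∈ D.zM := by
  rw [CrossedMod.fst_apply] at h1
  rw [CrossedMod.snd_apply, h1, mul_one] at h2
  exact ⟨h2, h1⟩

theorem m2_zM_pow {p : ℕ} {D : CrossedMod} (h : D.IsAdmissible p) (c : D.Grp) (hc : c ∈ D.zM) :
    c ^ p = 1 := by
  obtain ⟨h1, h2⟩ := hc
  have h3 : c = SemidirectProduct.inl c.left := by
    ext
    · rfl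
    · exact h2
  rw [h3, ← map_pow, h.ker_exp _ (MonoidHom.mem_ker.2 h1), map_one]

theorem CrossedMod.IsAdmissible.abP_of_ne {p q : ℕ} {D : CrossedMod} (h : D.IsAdmissible p)
    (hq : q.Prime) (hqp : q ≠ p) : AbP q D.Grp := by
  intro P hP x hx y hy
  have hc1 : D.fst ((x * y) * (y * x)⁻¹) = 1 := by
    have h2 := h.memA.abP q hq (P.map D.fst) (hP.map D.fst) _ (Subgroup.mem_map_of_mem D.fst hx) _
      (Subgroup.mem_map_of_mem D.fst hy)
    rw [map_mul, map_mul, map_inv, map_mul, h2, mul_inv_cancel]
  have hc2 : D.snd ((x * y) * (y * x)⁻¹) = 1 := by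
    have h2 := h.memA.abP q hq (P.map D.snd) (hP.map D.snd) _ (Subgroup.mem_map_of_mem D.snd hx) _
      (Subgroup.mem_map_of_mem D.snd hy)
    rw [map_mul, map_mul, map_inv, map_mul, h2, mul_inv_cancel]
  have hc3 := m2_zM_pow h _ (m2_mem_zM _ hc1 hc2)
  have hc4 : (x * y) * (y * x)⁻¹ ∈ P := P.mul_mem (P.mul_mem hx hy) (P.inv_mem (P.mul_mem hy hx))
  obtain ⟨k, hk⟩ := hP ⟨_, hc4⟩
  have hk' : ((x * y) * (y * x)⁻¹) ^ q ^ k = 1 := by
    have := congrArg Subtype.val hk
    simpa using this
  have h5 : orderOf ((x * y) * (y * x)⁻¹) ∣ p := orderOf_dvd_of_pow_eq_one hc3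
  have h6 : orderOf ((x * y) * (y * x)⁻¹) ∣ q ^ k := orderOf_dvd_of_pow_eq_one hk'
  have h7 : Nat.Coprime p (q ^ k) :=
    Nat.Coprime.pow_right k ((Nat.coprime_primes h.prime hq).2 (Ne.symm hqp))
  have h8 : orderOf ((x * y) * (y * x)⁻¹) = 1 := Nat.eq_one_of_dvd_coprimes h7 h5 h6
  exact mul_inv_eq_one.1 (orderOf_eq_one_iff.1 h8)

theorem m2_abel {D : CrossedMod} {p : ℕ} (h : D.IsAdmissible p) (hc : ∀ e f : D.E, e * f = f * e) :
    False := by
  apply h.ker_ne_bot
  have h1 : commutator D.E = ⊥ := by
    rw [commutator_def, Subgroup.commutator_eq_bot_iff_le_centralizer]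
    intro x _
    rw [Subgroup.mem_centralizer_iff]
    intro y _
    exact hc y x
  rw [eq_bot_iff, ← h1, h.perfect]
  exact le_top

theorem CrossedMod.IsAdmissible.range_perfect {p : ℕ} {D : CrossedMod} (h : D.IsAdmissible p) :
    ⁅D.d.range, D.d.range⁆ = D.d.range ∧ D.d.range ≠ ⊥ := by
  constructor
  · rw [MonoidHom.range_eq_map, ← Subgroup.map_commutator, ← commutator_def, h.perfect]
  · intro hb
    apply m2_abel h
    intro e f
    refine (h.ker_central e).1 ?_ f
    have : D.d e ∈ D.d.range := ⟨e, rfl⟩
    rw [hb, Subgroup.mem_bot] at this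
    exact this

/-- a perfect group has no nontrivial homomorphism whose values are central. -/
theorem m2_perfect_hom {E : Type} [Group E] (hE : commutator E = ⊤) (c : E → E)
    (hmul : ∀ e f, c (e * f) = c e * c f) (hcen : ∀ e f, c e * f = f * c e) : ∀ e, c e = 1 := by
  let φ : E →* E := MonoidHom.mk' c hmul
  intro e
  have h1 : commutator E ≤ φ.ker := by
    rw [commutator_def, Subgroup.commutator_le]
    intro x _ y _
    rw [MonoidHom.mem_ker, map_commutatorElement, commutatorElement_eq_one_iff_mul_comm]
    exact hcen x (c y)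
  have h2 : e ∈ φ.ker := h1 (by rw [hE]; exact Subgroup.mem_top e)
  exact MonoidHom.mem_ker.1 h2

/-- every nontrivial normal subgroup of `X` contains the image of `d`. -/
theorem CrossedMod.IsAdmissible.range_le {p : ℕ} {D : CrossedMod} (h : D.IsAdmissible p)
    (N : Subgroup D.X) (hN : N.Normal) (hne : N ≠ ⊥) : D.d.range ≤ N := by
  have hL : (D.d.range).Normal := by
    constructor
    rintro _ ⟨e, rfl⟩ x
    exact ⟨D.act x e, D.equivariant x e⟩
  have hNL : (N ⊓ D.d.range).Normal := by infer_instance
  rcases h.range_min _ hNL inf_le_right with hb | hb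
  · exfalso
    apply hne
    rw [eq_bot_iff]
    intro x hx
    rw [Subgroup.mem_bot]
    have hcomm : ∀ e : D.E, x * D.d e * x⁻¹ = D.d e := by
      intro e
      have h1 : x * D.d e * x⁻¹ * (D.d e)⁻¹ ∈ N ⊓ D.d.range := by
        constructor
        · have h2 : D.d e * x⁻¹ * (D.d e)⁻¹ ∈ N := hN.conj_mem _ (N.inv_mem hx) _
          have h3 := N.mul_mem hx h2
          have h4 : x * D.d e * x⁻¹ * (D.d e)⁻¹ = x * (D.d e * x⁻¹ * (D.d e)⁻¹) := by group
          rw [h4]; exact h3
        · exact (D.d.range).mul_mem (hL.conj_mem _ ⟨e, rfl⟩ x) ((D.d.range).inv_mem ⟨e, rfl⟩)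
      rw [hb, Subgroup.mem_bot] at h1
      exact mul_inv_eq_one.1 h1
    have hker : ∀ e : D.E, D.d (D.act x e * e⁻¹) = 1 := by
      intro e
      rw [map_mul, D.equivariant, map_inv, hcomm, mul_inv_cancel]
    have hcen : ∀ e f : D.E, (D.act x e * e⁻¹) * f = f * (D.act x e * e⁻¹) := fun e f =>
      (h.ker_central _).1 (hker e) f
    have h1 := m2_perfect_hom h.perfect (fun e => D.act x e * e⁻¹) (by
      intro e f
      show D.act x (e * f) * (e * f)⁻¹ = (D.act x e * e⁻¹) * (D.act x f * f⁻¹)
      have h2 := hcen f e⁻¹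
      calc D.act x (e * f) * (e * f)⁻¹ = D.act x e * ((D.act x f * f⁻¹) * e⁻¹) := by
            rw [map_mul]; group
        _ = D.act x e * (e⁻¹ * (D.act x f * f⁻¹)) := by rw [h2]
        _ = _ := by group) (fun e f => hcen e f)
    apply h.faithful
    rw [map_one]
    ext e
    have h2 := h1 e
    rw [MulAut.one_apply]
    exact mul_inv_eq_one.1 h2
  · intro y hy
    have : y ∈ N ⊓ D.d.range := by rw [hb]; exact hy
    exact this.1

/-- The second copy of `E` in the semidirect product. -/
def m2_k (D : CrossedMod) : D.E →* D.Grp where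
  toFun e := ⟨e⁻¹, D.d e⟩
  map_one' := by
    ext <;> simp
  map_mul' e f := by
    ext
    · show (e * f)⁻¹ = e⁻¹ * D.act (D.d e) f⁻¹
      rw [D.peiffer]; group
    · show D.d (e * f) = D.d e * D.d f
      rw [map_mul]

theorem m2_conj_inl {D : CrossedMod} (n : D.Grp) (e : D.E) :
    n * SemidirectProduct.inl e * n⁻¹ = SemidirectProduct.inl (D.act (D.snd n) e) := by
  rw [mul_inv_eq_iff_eq_mul]
  ext
  · show n.left * D.act n.right e = D.act (D.snd n) e * D.act 1 n.left
    rw [map_one, MulAut.one_apply, CrossedMod.snd_apply, map_mul, MulAut.mul_apply, D.peiffer]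
    group
  · show n.right * 1 = 1 * n.right
    rw [mul_one, one_mul]

theorem m2_conj_k {D : CrossedMod} (n : D.Grp) (e : D.E) :
    n * m2_k D e * n⁻¹ = m2_k D (D.act (D.fst n) e) := by
  rw [mul_inv_eq_iff_eq_mul]
  ext
  · show n.left * D.act n.right e⁻¹ = (D.act (D.fst n) e)⁻¹ * D.act (D.d (D.act (D.fst n) e)) n.left
    rw [D.peiffer, CrossedMod.fst_apply, map_inv]
    group
  · show n.right * D.d e = D.d (D.act (D.fst n) e) * n.right
    rw [D.equivariant, CrossedMod.fst_apply]
    group

/-- if a normal subgroup contains all commutators in the image of a perfect group, it contains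
the image. -/
theorem m2_contains {E G : Type} [Group E] [Group G] (hE : commutator E = ⊤) (j : E →* G)
    (N : Subgroup G) (hN : ∀ e f : E, j (f * e * f⁻¹ * e⁻¹) ∈ N) (e : E) : j e ∈ N := by
  have h1 : commutator E ≤ N.comap j := by
    rw [commutator_def, Subgroup.commutator_le]
    intro x _ y _
    rw [Subgroup.mem_comap, commutatorElement_def]
    exact hN y x
  have h2 : e ∈ N.comap j := h1 (by rw [hE]; exact Subgroup.mem_top e)
  exact h2

theorem CrossedMod.IsAdmissible.monolith {p : ℕ} {D : CrossedMod} (h : D.IsAdmissible p) :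
    IsMonolith D.zM := by
  refine ⟨?_, ?_, ?_⟩
  · constructor
    intro c hc g
    apply m2_mem_zM
    · rw [map_mul, map_mul, map_inv, CrossedMod.fst_apply D c, hc.2, mul_one, mul_inv_cancel]
    · rw [map_mul, map_mul, map_inv, CrossedMod.snd_apply D c, hc.1, hc.2, mul_one, mul_one,
        mul_inv_cancel]
  · intro hb
    apply h.ker_ne_bot
    rw [eq_bot_iff]
    intro e he
    have h1 : (SemidirectProduct.inl e : D.Grp) ∈ D.zM := ⟨MonoidHom.mem_ker.1 he, rfl⟩
    rw [hb, Subgroup.mem_bot] at h1
    rw [Subgroup.mem_bot]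
    apply SemidirectProduct.inl_injective (φ := D.act)
    rw [h1, map_one]
  · intro N hN hne
    by_cases hs : N.map D.snd = ⊥
    · by_cases hf : N.map D.fst = ⊥
      · -- both projections are trivial
        have hNz : N ≤ D.zM := by
          intro c hc
          apply m2_mem_zM
          · have := Subgroup.mem_map_of_mem D.fst hc
            rw [hf, Subgroup.mem_bot] at this
            exact this
          · have := Subgroup.mem_map_of_mem D.snd hc
            rw [hs, Subgroup.mem_bot] at this
            exact this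
        have hU := h.ker_irr (N.comap SemidirectProduct.inl) (by
          intro e he
          exact MonoidHom.mem_ker.2 (hNz he).1) (by
          intro x u hu
          rw [Subgroup.mem_comap] at hu ⊢
          have h1 := hN.conj_mem _ hu (SemidirectProduct.inr x)
          rw [m2_conj_inl] at h1
          have h2 : D.snd (SemidirectProduct.inr x) = x := by
            rw [CrossedMod.snd_apply]; simp
          rw [h2] at h1
          exact h1)
        rcases hU with hU | hU
        · exfalso
          apply hne
          rw [eq_bot_iff]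
          intro c hc
          have hcz := hNz hc
          have h3 : c = SemidirectProduct.inl c.left := by
            ext
            · rfl
            · exact hcz.2
          have h4 : c.left ∈ N.comap (SemidirectProduct.inl : D.E →* D.Grp) := by
            rw [Subgroup.mem_comap, ← h3]; exact hc
          rw [hU, Subgroup.mem_bot] at h4
          rw [Subgroup.mem_bot, h3, h4, map_one]
        · intro c hc
          have h3 : c = SemidirectProduct.inl c.left := by
            ext
            · rfl
            · exact hc.2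
          have h4 : c.left ∈ N.comap (SemidirectProduct.inl : D.E →* D.Grp) := by
            rw [hU]; exact MonoidHom.mem_ker.2 hc.1
          rw [Subgroup.mem_comap, ← h3] at h4
          exact h4
      · -- the first projection is nontrivial
        have hsurj : Function.Surjective D.fst := fun x => ⟨SemidirectProduct.inr x, by
          rw [CrossedMod.fst_apply]; rfl⟩
        have hnorm : (N.map D.fst).Normal := hN.map D.fst hsurj
        have hle := h.range_le _ hnorm hf
        have hk : ∀ e : D.E, m2_k D e ∈ N := by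
          apply m2_contains h.perfect
          intro e f
          obtain ⟨n, hn, hn2⟩ := hle ⟨f, rfl⟩
          have h1 : n * m2_k D e * n⁻¹ * (m2_k D e)⁻¹ ∈ N := by
            have h2 : m2_k D e * n⁻¹ * (m2_k D e)⁻¹ ∈ N := hN.conj_mem _ (N.inv_mem hn) _
            have h4 : n * m2_k D e * n⁻¹ * (m2_k D e)⁻¹ = n * (m2_k D e * n⁻¹ * (m2_k D e)⁻¹) := by
              group
            rw [h4]; exact N.mul_mem hn h2
          rw [m2_conj_k, hn2, D.peiffer, ← map_inv, ← map_mul] at h1
          exact h1
        intro c hc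
        have h3 : c = m2_k D (c.left)⁻¹ := by
          ext
          · show c.left = ((c.left)⁻¹)⁻¹
            rw [inv_inv]
          · show c.right = D.d (c.left)⁻¹
            rw [map_inv, hc.1, hc.2, inv_one]
        rw [h3]; exact hk _
    · -- the second projection is nontrivial
      have hsurj : Function.Surjective D.snd := fun x => ⟨SemidirectProduct.inr x, by
        rw [CrossedMod.snd_apply]; simp⟩
      have hnorm : (N.map D.snd).Normal := hN.map D.snd hsurj
      have hle := h.range_le _ hnorm hs
      have hk : ∀ e : D.E, (SemidirectProduct.inl e : D.Grp) ∈ N := by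
        apply m2_contains h.perfect
        intro e f
        obtain ⟨n, hn, hn2⟩ := hle ⟨f, rfl⟩
        have h1 : n * SemidirectProduct.inl e * n⁻¹ * (SemidirectProduct.inl e)⁻¹ ∈ N := by
          have h2 : SemidirectProduct.inl e * n⁻¹ * (SemidirectProduct.inl e)⁻¹ ∈ N :=
            hN.conj_mem _ (N.inv_mem hn) _
          have h4 : n * SemidirectProduct.inl e * n⁻¹ * (SemidirectProduct.inl e)⁻¹ =
            n * (SemidirectProduct.inl e * n⁻¹ * (SemidirectProduct.inl e)⁻¹) := by
            group
          rw [h4]; exact N.mul_mem hn h2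
        rw [m2_conj_inl, hn2, D.peiffer, ← map_inv, ← map_mul] at h1
        exact h1
      intro c hc
      have h3 : c = SemidirectProduct.inl c.left := by
        ext
        · rfl
        · exact hc.2
      rw [h3]; exact hk _

theorem CrossedMod.IsAdmissible.quotient {p : ℕ} {D : CrossedMod} (h : D.IsAdmissible p)
    [D.zM.Normal] : AClass (D.Grp ⧸ D.zM) := by
  refine AClass.joint2
    (QuotientGroup.lift D.zM D.fst (fun x hx => by rw [MonoidHom.mem_ker, CrossedMod.fst_apply]; exact hx.2))
    (QuotientGroup.lift D.zM D.snd (fun x hx => by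
      rw [MonoidHom.mem_ker, CrossedMod.snd_apply, hx.1, hx.2, mul_one])) h.memA h.memA ?_
  intro x
  induction x using QuotientGroup.induction_on with
  | H x =>
    intro hx1 hx2
    rw [QuotientGroup.eq_one_iff]
    exact m2_mem_zM _ hx1 hx2

end Pool.Agent.Helper75.MNA
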