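import Pool.Agent.Helper75.MNA.PresDefs
import Pool.Agent.Helper75.MNA.M2

set_option autoImplicit false
set_option linter.style.haveILetI false

namespace Pool.Agent.Helper75.MNA

open Subgroup Pointwise

/-- conjugation on `P` by elements of a subgroup of the normaliser -/
def c4_act {X : Type} [Group X] (N P : Subgroup X) (hN : N ≤ Subgroup.normalizer (P : Set X)) :
    ↥N →* Monoid.End ↥P where
  toFun n :=
    { toFun := fun x => ⟨n * x * (n : X)⁻¹, (Subgroup.mem_normalizer_iff.1 (hN n.2) x).1 x.2⟩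
      map_one' := Subtype.ext (by simp)
      map_mul' := fun x y => Subtype.ext (by
        simp only [Subgroup.coe_mul]
        group) }
  map_one' := MonoidHom.ext fun x => Subtype.ext (by
    change (1 : X) * x * (1 : X)⁻¹ = x
    simp)
  map_mul' := fun a b => MonoidHom.ext fun x => Subtype.ext (by
    change ((a : X) * b) * x * ((a : X) * b)⁻¹ = (a : X) * ((b : X) * x * (b : X)⁻¹) * (a : X)⁻¹
    group)

theorem c4_act_apply {X : Type} [Group X] (N P : Subgroup X) (hN : N ≤ Subgroup.normalizer (P : Set X))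
    (n : ↥N) (x : ↥P) : ((c4_act N P hN n x : ↥P) : X) = n * x * (n : X)⁻¹ := rfl

theorem c4_avg_inv {A N : Type} [CommGroup A] [Group N] (K : Subgroup N) [Fintype (N ⧸ K)]
    (φ : N →* Monoid.End A) (a : A) (hK : ∀ k ∈ K, φ k a = a) (n0 : N) :
    φ n0 (∏ q : N ⧸ K, φ q.out a) = ∏ q : N ⧸ K, φ q.out a := by
  have h1 : ∀ n : N, φ ((n : N ⧸ K).out) a = φ n a := by
    intro n
    obtain ⟨k, hk⟩ := QuotientGroup.mk_out_eq_mul K n
    rw [hk, map_mul]
    change φ n (φ (k : N) a) = φ n a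
    rw [hK k k.2]
  have h2 : ∀ q : N ⧸ K, φ n0 (φ q.out a) = φ (n0 • q).out a := by
    intro q
    have h3 : n0 • q = ((n0 * q.out : N) : N ⧸ K) := by
      conv_lhs => rw [← QuotientGroup.out_eq' q]
      rfl
    rw [h3, h1, map_mul]
    rfl
  rw [map_prod (φ n0)]
  simp only [h2]
  exact Fintype.prod_equiv (MulAction.toPerm n0) _ _ (fun q => rfl)

/-- the group acting -/
def c4_N {X : Type} [Group X] (L P : Subgroup X) : Subgroup X :=
  Subgroup.normalizer (P : Set X) ⊓ (L ⊔ P)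

theorem c4_N_le {X : Type} [Group X] (L P : Subgroup X) :
    c4_N L P ≤ Subgroup.normalizer (P : Set X) := inf_le_left

theorem c4_comm_mem {X : Type} [Group X] (L P : Subgroup X) [L.Normal]
    (hP : ∀ x ∈ P, ∀ y ∈ P, x * y = y * x) (n : X) (hn : n ∈ L ⊔ P) (s : X) (hs : s ∈ P) :
    s * (n * s * n⁻¹)⁻¹ ∈ L := by
  rw [← SetLike.mem_coe, Subgroup.normal_mul] at hn
  obtain ⟨l, hl, x, hx, rfl⟩ := hn
  have hl' : l ∈ L := hl
  have hx' : x ∈ P := hx
  have h1 : s * ((l * x) * s * (l * x)⁻¹)⁻¹ = (s * l * s⁻¹) * l⁻¹ := by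
    have h2 := hP x hx' s hs
    have h3 : (l * x) * s * (l * x)⁻¹ = l * s * l⁻¹ := by
      rw [mul_assoc l x s, h2]
      group
    rw [h3]
    group
  change s * ((l * x) * s * (l * x)⁻¹)⁻¹ ∈ L
  rw [h1]
  exact L.mul_mem (‹L.Normal›.conj_mem l hl' s) (L.inv_mem hl')

/-- averaging -/
theorem c4_avg {X : Type} [Group X] [Finite X] (L P : Subgroup X) [L.Normal]
    (hP : ∀ x ∈ P, ∀ y ∈ P, x * y = y * x)
    [Fintype (↥(c4_N L P) ⧸ P.subgroupOf (c4_N L P))] (s : X) (hs : s ∈ P) :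
    ((Finset.univ.toList.map (fun q : ↥(c4_N L P) ⧸ P.subgroupOf (c4_N L P) =>
        ((q.out : ↥(c4_N L P)) : X) * s * ((q.out : ↥(c4_N L P)) : X)⁻¹)).prod ∈ CC L P) ∧
      ∃ l ∈ L, l ∈ P ∧ s ^ (P.subgroupOf (c4_N L P)).index = l *
        (Finset.univ.toList.map (fun q : ↥(c4_N L P) ⧸ P.subgroupOf (c4_N L P) =>
        ((q.out : ↥(c4_N L P)) : X) * s * ((q.out : ↥(c4_N L P)) : X)⁻¹)).prod := by
  let cg : CommGroup ↥P := { (inferInstance : Group ↥P) with
    mul_comm := fun a b => Subtype.ext (hP a a.2 b b.2) }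
  let φ : ↥(c4_N L P) →* Monoid.End ↥P := c4_act (c4_N L P) P (c4_N_le L P)
  let s' : ↥P := ⟨s, hs⟩
  have hlist : (Finset.univ.toList.map (fun q : ↥(c4_N L P) ⧸ P.subgroupOf (c4_N L P) =>
        ((q.out : ↥(c4_N L P)) : X) * s * ((q.out : ↥(c4_N L P)) : X)⁻¹)).prod
        = ((∏ q : ↥(c4_N L P) ⧸ P.subgroupOf (c4_N L P), φ q.out s' : ↥P) : X) := by
    rw [← Finset.prod_map_toList, Subgroup.val_list_prod, List.map_map]
    rfl
  have hK : ∀ k ∈ P.subgroupOf (c4_N L P), φ k s' = s' := by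
    intro k hk
    have hk' : (k : X) ∈ P := Subgroup.mem_subgroupOf.1 hk
    apply Subtype.ext
    change (k : X) * s * (k : X)⁻¹ = s
    rw [hP k hk' s hs, mul_inv_cancel_right]
  rw [hlist]
  refine ⟨⟨Subtype.mem _, ?_⟩, ?_⟩
  · change _ ∈ Subgroup.centralizer _
    rw [Subgroup.mem_centralizer_iff]
    intro n hn
    have h1 := c4_avg_inv (P.subgroupOf (c4_N L P)) φ s' hK ⟨n, hn⟩
    have h2 := congrArg (fun z : ↥P => (z : X)) h1
    have h3 : n * ((∏ q : ↥(c4_N L P) ⧸ P.subgroupOf (c4_N L P), φ q.out s' : ↥P) : X) * n⁻¹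
      = ((∏ q : ↥(c4_N L P) ⧸ P.subgroupOf (c4_N L P), φ q.out s' : ↥P) : X) := h2
    exact mul_inv_eq_iff_eq_mul.1 h3
  · refine ⟨((∏ q : ↥(c4_N L P) ⧸ P.subgroupOf (c4_N L P), (s' * (φ q.out s')⁻¹) : ↥P) : X), ?_, Subtype.mem _, ?_⟩
    · have h1 : (∏ q : ↥(c4_N L P) ⧸ P.subgroupOf (c4_N L P), (s' * (φ q.out s')⁻¹) : ↥P) ∈ L.subgroupOf P := by
        refine Subgroup.prod_mem _ (fun q _ => ?_)
        rw [Subgroup.mem_subgroupOf]
        exact c4_comm_mem L P hP _ (q.out.2 : ((q.out : ↥(c4_N L P)) : X) ∈ c4_N L P).2 s hs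
      exact Subgroup.mem_subgroupOf.1 h1
    · have h2 : s' ^ (P.subgroupOf (c4_N L P)).index =
          (∏ q : ↥(c4_N L P) ⧸ P.subgroupOf (c4_N L P), (s' * (φ q.out s')⁻¹) : ↥P) *
          (∏ q : ↥(c4_N L P) ⧸ P.subgroupOf (c4_N L P), φ q.out s' : ↥P) := by
        rw [← Finset.prod_mul_distrib]
        simp only [inv_mul_cancel_right]
        rw [Finset.prod_const, Finset.card_univ, Subgroup.index, Nat.card_eq_fintype_card]
      have h3 := congrArg (fun z : ↥P => (z : X)) h2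
      exact h3

theorem c4_index {X : Type} [Group X] [Finite X] {p : ℕ} [Fact p.Prime] (L : Subgroup X) (P : Sylow p X) :
    ¬ p ∣ ((P : Subgroup X).subgroupOf (c4_N L (P : Subgroup X))).index := by
  have h1 : (P : Subgroup X) ≤ c4_N L (P : Subgroup X) := le_inf Subgroup.le_normalizer le_sup_right
  have h2 := Subgroup.relIndex_mul_index h1
  intro h
  apply P.not_dvd_index
  change p ∣ (P : Subgroup X).index
  rw [← h2]
  exact Dvd.dvd.mul_right h _

theorem c4_transfer {Y : Type} [Group Y] [Finite Y] {p : ℕ} [Fact p.Prime] (P : Sylow p Y)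
    (hP : ∀ x ∈ P, ∀ y ∈ P, x * y = y * x) (z : Y) (hz : z ∈ commutator Y) (hzP : z ∈ P)
    (hc : ∀ n ∈ Subgroup.normalizer ((P : Subgroup Y) : Set Y), n * z = z * n) : z = 1 := by
  haveI : IsMulCommutative (P : Subgroup Y) := ⟨⟨fun a b => Subtype.ext (hP a a.2 b b.2)⟩⟩
  let cg : CommGroup ↥(P : Subgroup Y) := { (inferInstance : Group ↥(P : Subgroup Y)) with
    mul_comm := fun a b => Subtype.ext (hP a a.2 b b.2) }
  have key : ∀ (k : ℕ) (g₀ : Y), g₀⁻¹ * z ^ k * g₀ ∈ (P : Subgroup Y) → g₀⁻¹ * z ^ k * g₀ = z ^ k := by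
    intro k g₀ h
    obtain ⟨n, hn, h'⟩ := P.conj_eq_normalizer_conj_of_mem (z ^ k) g₀ (pow_mem hzP k) h
    rw [h']
    have h1 : Commute n (z ^ k) := (show Commute n z from hc n hn).pow_right k
    rw [mul_assoc, ← h1.eq, inv_mul_cancel_left]
  have h1 := MonoidHom.transfer_eq_pow (H := (P : Subgroup Y)) (MonoidHom.id ↥(P : Subgroup Y)) z key
  have h2 : MonoidHom.transfer (MonoidHom.id ↥(P : Subgroup Y)) z = 1 :=
    Abelianization.commutator_subset_ker _ hz
  rw [h2] at h1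
  have h3 : z ^ (P : Subgroup Y).index = 1 := by
    have := congrArg (fun z : ↥(P : Subgroup Y) => (z : Y)) h1
    exact this.symm
  obtain ⟨k, hk⟩ := P.isPGroup' ⟨z, hzP⟩
  have hk' : z ^ p ^ k = 1 := congrArg (fun z : ↥(P : Subgroup Y) => (z : Y)) hk
  have hcop : Nat.Coprime (P : Subgroup Y).index (p ^ k) := by
    refine Nat.Coprime.pow_right k ?_
    exact ((Nat.Prime.coprime_iff_not_dvd Fact.out).2 P.not_dvd_index).symm
  have h4 : orderOf z ∣ 1 := by
    rw [← hcop.gcd_eq_one]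
    exact Nat.dvd_gcd (orderOf_dvd_of_pow_eq_one h3) (orderOf_dvd_of_pow_eq_one hk')
  exact orderOf_eq_one_iff.1 (Nat.dvd_one.1 h4)

theorem CC_decomp {X : Type} [Group X] [Finite X] {p : ℕ} [Fact p.Prime] (L : Subgroup X)
    [L.Normal] (hL : ⁅L, L⁆ = L) (P : Sylow p X) (hP : ∀ x ∈ P, ∀ y ∈ P, x * y = y * x) :
    (∀ s ∈ P, ∃ l ∈ L, l ∈ P ∧ ∃ c ∈ CC L (P : Subgroup X), s = l * c) ∧
      L ⊓ CC L (P : Subgroup X) = ⊥ := by
  have hP' : ∀ x ∈ (P : Subgroup X), ∀ y ∈ (P : Subgroup X), x * y = y * x := hP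
  constructor
  · intro s hs
    haveI := Fintype.ofFinite (↥(c4_N L (P : Subgroup X)) ⧸ (P : Subgroup X).subgroupOf (c4_N L (P : Subgroup X)))
    obtain ⟨hc, l, hl, hlP, hsm⟩ := c4_avg L (P : Subgroup X) hP' s hs
    set c := (Finset.univ.toList.map (fun q : ↥(c4_N L (P : Subgroup X)) ⧸ (P : Subgroup X).subgroupOf (c4_N L (P : Subgroup X)) =>
        ((q.out : ↥(c4_N L (P : Subgroup X))) : X) * s * ((q.out : ↥(c4_N L (P : Subgroup X))) : X)⁻¹)).prod with hcdef
    set m := ((P : Subgroup X).subgroupOf (c4_N L (P : Subgroup X))).index with hm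
    obtain ⟨k, hk⟩ := P.isPGroup' ⟨s, hs⟩
    have hk' : s ^ p ^ k = 1 := congrArg (fun z : ↥(P : Subgroup X) => (z : X)) hk
    have hcop : Nat.Coprime m (p ^ k) := by
      refine Nat.Coprime.pow_right k ?_
      exact ((Nat.Prime.coprime_iff_not_dvd Fact.out).2 (c4_index L P)).symm
    obtain ⟨a, b, hab⟩ := Nat.isCoprime_iff_coprime.2 hcop
    have hcomm : Commute l c := hP' l hlP c hc.1
    have h1 : s = l ^ a * c ^ a := by
      rw [← hcomm.mul_zpow, ← hsm, ← zpow_natCast, ← zpow_mul]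
      have h2 : s ^ ((m : ℤ) * a) * s ^ ((p ^ k : ℕ) * b : ℤ) = s := by
        rw [← zpow_add]
        have : ((m : ℤ) * a + (p ^ k : ℕ) * b : ℤ) = 1 := by rw [← hab]; ring
        rw [this, zpow_one]
      have h3 : s ^ ((p ^ k : ℕ) * b : ℤ) = 1 := by
        rw [zpow_mul, zpow_natCast, hk', one_zpow]
      rw [h3, mul_one] at h2
      exact h2.symm
    exact ⟨l ^ a, L.zpow_mem hl a, (P : Subgroup X).zpow_mem hlP a, c ^ a, Subgroup.zpow_mem _ hc a, h1⟩
  · rw [eq_bot_iff]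
    rintro z ⟨hzL, hzP, hzc⟩
    rw [Subgroup.mem_bot]
    have hzL' : z ∈ L := hzL
    have hzP' : z ∈ (P : Subgroup X) := hzP
    let Y : Subgroup X := L ⊔ (P : Subgroup X)
    have hPY : (P : Subgroup X) ≤ Y := le_sup_right
    have hLY : L ≤ Y := le_sup_left
    have h1 : (⟨z, hLY hzL'⟩ : ↥Y) = 1 := by
      refine c4_transfer (P.subtype hPY) ?_ _ ?_ ?_ ?_
      · intro x hx y hy
        exact Subtype.ext (hP' x hx y hy)
      · have h2 : z ∈ ⁅Y, Y⁆ := Subgroup.commutator_mono hLY hLY (by rw [hL]; exact hzL')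
        rw [← Subgroup.map_subtype_commutator] at h2
        obtain ⟨w, hw, hwz⟩ := h2
        have : w = (⟨z, hLY hzL'⟩ : ↥Y) := Subtype.ext hwz
        rw [← this]; exact hw
      · exact hzP'
      · intro n hn
        apply Subtype.ext
        have hn' : (n : X) ∈ Subgroup.normalizer ((P : Subgroup X) : Set X) := by
          have h3 := Subgroup.subgroupOf_normalizer_eq hPY
          have h4 : n ∈ Subgroup.normalizer (((P : Subgroup X).subgroupOf Y : Subgroup ↥Y) : Set ↥Y) := hn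
          rw [← h3] at h4
          exact h4
        exact (Subgroup.mem_centralizer_iff.1 hzc) n ⟨hn', n.2⟩
    exact congrArg (fun z : ↥Y => (z : X)) h1

theorem CrossedMod.IsAdmissible.CC_act {p : ℕ} {D : CrossedMod} (h : D.IsAdmissible p)
    [Fact p.Prime] (P : Sylow p D.X) :
    ∀ c ∈ CC D.d.range (P : Subgroup D.X), ∀ e : D.E, D.d e ∈ P → D.act c e = e := by
  intro c hc e he
  have hPc : ∀ x ∈ (P : Subgroup D.X), ∀ y ∈ (P : Subgroup D.X), x * y = y * x := h.memA.2 p h.prime P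
  haveI hnorm : D.d.range.Normal := ⟨by
    rintro _ ⟨f, rfl⟩ x
    exact ⟨D.act x f, D.equivariant x f⟩⟩
  obtain ⟨hperf, -⟩ := h.range_perfect
  have hdec := (CC_decomp D.d.range hperf P hPc).2
  let N := c4_N D.d.range (P : Subgroup D.X)
  haveI := Fintype.ofFinite (↥N ⧸ (P : Subgroup D.X).subgroupOf N)
  obtain ⟨hy, -⟩ := c4_avg D.d.range (P : Subgroup D.X) hPc (D.d e) he
  have hcP : c ∈ (P : Subgroup D.X) := hc.1
  have hcen : ∀ k, D.d k = 1 → ∀ f, k * f = f * k := fun k hk => (h.ker_central k).1 hk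
  have hκker : ∀ f, D.d f ∈ (P : Subgroup D.X) → D.d (D.act c f * f⁻¹) = 1 := by
    intro f hf
    rw [map_mul, D.equivariant, map_inv, hPc c hcP (D.d f) hf, mul_inv_cancel_right, mul_inv_cancel]
  let S : Subgroup D.E := (P : Subgroup D.X).comap D.d
  let κ : ↥S →* D.E :=
    { toFun := fun f => D.act c f * (f : D.E)⁻¹
      map_one' := by simp
      map_mul' := fun f g => by
        have h1 := hcen _ (hκker g g.2) ((f : D.E)⁻¹)
        calc D.act c (((f * g : ↥S) : D.E)) * (((f * g : ↥S) : D.E))⁻¹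
            = D.act c f * ((D.act c g * (g : D.E)⁻¹) * (f : D.E)⁻¹) := by
              rw [Subgroup.coe_mul, map_mul]
              group
          _ = D.act c f * (f : D.E)⁻¹ * (D.act c g * (g : D.E)⁻¹) := by
              rw [h1]
              group }
  have hκ : ∀ f : ↥S, κ f = D.act c f * (f : D.E)⁻¹ := fun f => rfl
  let T : Subgroup D.X :=
    { carrier := {x | ∀ k, D.d k = 1 → D.act x k = k}
      one_mem' := fun k _ => by simp
      mul_mem' := fun {a b} ha hb k hk => by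
        rw [map_mul, MulAut.mul_apply, hb k hk, ha k hk]
      inv_mem' := fun {a} ha k hk => by
        have h1 : D.act a⁻¹ (D.act a k) = k := by
          rw [← MulAut.mul_apply, ← map_mul, inv_mul_cancel, map_one, MulAut.one_apply]
        rwa [ha k hk] at h1 }
  have hT : D.d.range ⊔ (P : Subgroup D.X) ≤ T := by
    refine sup_le ?_ ?_
    · rintro _ ⟨f, rfl⟩ k hk
      rw [D.peiffer, ← hcen k hk f, mul_inv_cancel_right]
    · intro x hx k hk
      obtain ⟨j, hj⟩ := P.isPGroup' ⟨x, hx⟩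
      have hj' : x ^ p ^ j = 1 := congrArg (fun z : ↥(P : Subgroup D.X) => (z : D.X)) hj
      exact h.ker_triv x j hj' k hk
  have hNP : ∀ n ∈ N, ∀ f, D.d f ∈ (P : Subgroup D.X) → D.d (D.act n f) ∈ (P : Subgroup D.X) := by
    intro n hn f hf
    rw [D.equivariant]
    exact (Subgroup.mem_normalizer_iff.1 hn.1 _).1 hf
  have hκn : ∀ n ∈ N, ∀ f, D.d f ∈ (P : Subgroup D.X) →
      D.act c (D.act n f) * (D.act n f)⁻¹ = D.act c f * f⁻¹ := by
    intro n hn f hf
    have h1 : n * c = c * n := (Subgroup.mem_centralizer_iff.1 hc.2) n hn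
    rw [← MulAut.mul_apply, ← map_mul, ← h1, map_mul, MulAut.mul_apply, ← map_inv, ← map_mul]
    exact hT hn.2 _ (hκker f hf)
  let g : ↥N ⧸ (P : Subgroup D.X).subgroupOf N → ↥S := fun q =>
    ⟨D.act ((q.out : ↥N) : D.X) e, hNP _ q.out.2 e he⟩
  let y : ↥S := (Finset.univ.toList.map g).prod
  have hyval : (y : D.E) = (Finset.univ.toList.map (fun q : ↥N ⧸ (P : Subgroup D.X).subgroupOf N =>
      D.act ((q.out : ↥N) : D.X) e)).prod := by
    change ((Finset.univ.toList.map g).prod : D.E) = _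
    rw [Subgroup.val_list_prod, List.map_map]
    rfl
  have hdy : D.d (y : D.E) = (Finset.univ.toList.map (fun q : ↥N ⧸ (P : Subgroup D.X).subgroupOf N =>
      ((q.out : ↥N) : D.X) * D.d e * ((q.out : ↥N) : D.X)⁻¹)).prod := by
    rw [hyval, map_list_prod, List.map_map]
    congr 1
    refine List.map_congr_left fun q _ => ?_
    exact D.equivariant _ _
  have hdy1 : D.d (y : D.E) = 1 := by
    have h1 : D.d (y : D.E) ∈ D.d.range ⊓ CC D.d.range (P : Subgroup D.X) := by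
      refine ⟨⟨y, rfl⟩, ?_⟩
      rw [hdy]
      exact hy
    rw [hdec, Subgroup.mem_bot] at h1
    exact h1
  have hκy : κ y = 1 := by
    rw [hκ, hT (le_sup_right (a := D.d.range) hcP) _ hdy1, mul_inv_cancel]
  have hκe : κ y = (κ ⟨e, he⟩) ^ ((P : Subgroup D.X).subgroupOf N).index := by
    change κ (Finset.univ.toList.map g).prod = _
    rw [map_list_prod, List.map_map]
    have h1 : (Finset.univ.toList.map (κ ∘ g)) = Finset.univ.toList.map (fun _ => κ ⟨e, he⟩) :=
      List.map_congr_left fun q _ => hκn _ q.out.2 e he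
    rw [h1, List.map_const', List.prod_replicate, Finset.length_toList, Finset.card_univ,
      Subgroup.index, Nat.card_eq_fintype_card]
  have hκp : (κ ⟨e, he⟩) ^ p = 1 := h.ker_exp _ (hκker e he)
  have hcop : Nat.Coprime p ((P : Subgroup D.X).subgroupOf N).index :=
    (Nat.Prime.coprime_iff_not_dvd Fact.out).2 (c4_index D.d.range P)
  have h4 : orderOf (κ ⟨e, he⟩) ∣ 1 := by
    rw [← hcop.gcd_eq_one]
    exact Nat.dvd_gcd (orderOf_dvd_of_pow_eq_one hκp) (orderOf_dvd_of_pow_eq_one (hκe.symm.trans hκy))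
  have h5 := orderOf_eq_one_iff.1 (Nat.dvd_one.1 h4)
  exact mul_inv_eq_one.1 h5

end Pool.Agent.Helper75.MNA
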