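import Pool.Agent.Helper75.MNA.PresDefs

set_option autoImplicit false
set_option linter.style.haveILetI false

namespace Pool.Agent.Helper75.MNA

open Subgroup Pointwise

theorem c5_not_le {R X : Type} [Group R] [Group X] [Finite X] (f g : R →* X)
    (hf : Function.Surjective f) (hg : Function.Surjective g) (h : f.ker ≠ g.ker) :
    ¬ f.ker ≤ g.ker := by
  intro hle
  apply h
  have h1 : f.ker.relIndex g.ker * g.ker.index = f.ker.index := Subgroup.relIndex_mul_index hle
  have h2 : f.ker.index = Nat.card X := by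
    rw [Subgroup.index_ker, MonoidHom.range_eq_top.mpr hf]
    exact Nat.card_congr (Subgroup.topEquiv).toEquiv
  have h3 : g.ker.index = Nat.card X := by
    rw [Subgroup.index_ker, MonoidHom.range_eq_top.mpr hg]
    exact Nat.card_congr (Subgroup.topEquiv).toEquiv
  rw [h2, h3] at h1
  have h4 : 0 < Nat.card X := Nat.card_pos
  have h5 : f.ker.relIndex g.ker = 1 := by
    have : f.ker.relIndex g.ker * Nat.card X = 1 * Nat.card X := by rw [h1, one_mul]
    exact Nat.eq_of_mul_eq_mul_right h4 this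
  exact le_antisymm hle (Subgroup.relIndex_eq_one.mp h5)

theorem c5_aux {R X ι : Type} [Group R] [Group X] (χ : ι → R →* X) [DecidableEq ι]
    (L : Subgroup X) (hL : ⁅L, L⁆ = L) (i : ι) (hs : Function.Surjective (χ i)) (s : Finset ι)
    (h : ∀ j ∈ s, L ≤ ((χ j).ker).map (χ i)) :
    ∃ N : Subgroup R, N.Normal ∧ (∀ j ∈ s, N ≤ (χ j).ker) ∧ L ≤ N.map (χ i) := by
  induction s using Finset.induction_on with
  | empty =>
    refine ⟨⊤, inferInstance, by simp, ?_⟩
    rw [← MonoidHom.range_eq_map, MonoidHom.range_eq_top.mpr hs]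
    exact le_top
  | insert a s ha ih =>
    obtain ⟨N, hN, h1, h2⟩ := ih (fun j hj => h j (Finset.mem_insert_of_mem hj))
    have h3 := h a (Finset.mem_insert_self _ _)
    refine ⟨N ⊓ (χ a).ker, inferInstance, ?_, ?_⟩
    · intro j hj
      rcases Finset.mem_insert.mp hj with rfl | hj
      · exact inf_le_right
      · exact inf_le_left.trans (h1 j hj)
    · calc L = ⁅L, L⁆ := hL.symm
        _ ≤ ⁅N.map (χ i), ((χ a).ker).map (χ i)⁆ := Subgroup.commutator_mono h2 h3
        _ = (⁅N, (χ a).ker⁆).map (χ i) := (Subgroup.map_commutator _ _ _).symm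
        _ ≤ (N ⊓ (χ a).ker).map (χ i) := Subgroup.map_mono (Subgroup.commutator_le_inf _ _)

theorem kernel_indep {R X ι : Type} [Group R] [Group X] [Finite X] [Finite ι] (χ : ι → R →* X)
    (hχ : ∀ i, Function.Surjective (χ i)) (L : Subgroup X) (hL : ⁅L, L⁆ = L) (hL1 : L ≠ ⊥)
    (hmin : ∀ N : Subgroup X, N.Normal → N ≠ ⊥ → L ≤ N) (i : ι) (l : X) (hl : l ∈ L) :
    ∃ r : R, χ i r = l ∧ ∀ j, (χ j).ker ≠ (χ i).ker → χ j r = 1 := by
  classical
  haveI := Fintype.ofFinite ι
  obtain ⟨N, hN, h1, h2⟩ := c5_aux χ L hL i (hχ i)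
    (Finset.univ.filter fun j => (χ j).ker ≠ (χ i).ker) (by
      intro j hj
      have hj' := (Finset.mem_filter.mp hj).2
      apply hmin
      · exact Subgroup.Normal.map inferInstance _ (hχ i)
      · intro h0
        rw [Subgroup.map_eq_bot_iff] at h0
        exact c5_not_le (χ j) (χ i) (hχ j) (hχ i) hj' h0)
  obtain ⟨r, hr, hr2⟩ := h2 hl
  exact ⟨r, hr2, fun j hj => h1 j (Finset.mem_filter.mpr ⟨Finset.mem_univ _, hj⟩) hr⟩

end Pool.Agent.Helper75.MNA
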