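import Pool.Agent.Helper75.MNA.PresDefs
import Pool.Agent.Helper75.MNA.M2
import Pool.Agent.Helper75.MNA.C4

set_option autoImplicit false
set_option linter.style.haveILetI false

namespace Pool.Agent.Helper75.MNA

open Subgroup Pointwise

theorem c6_conj {G X : Type} [Group G] [Group X] (φ : G →* X) (S0 S : Subgroup G) (g : G)
    (hg : ∀ s, s ∈ S ↔ g⁻¹ * s * g ∈ S0) (P : Subgroup X) (hP : S0.map φ = P) (y : X) :
    y ∈ S.map φ ↔ (φ g)⁻¹ * y * φ g ∈ P := by
  constructor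
  · rintro ⟨s, hs, rfl⟩
    rw [← hP]
    exact ⟨g⁻¹ * s * g, (hg s).1 hs, by simp⟩
  · intro hy
    rw [← hP] at hy
    obtain ⟨s0, hs0, h⟩ := hy
    refine ⟨g * s0 * g⁻¹, (hg _).2 ?_, ?_⟩
    · have : g⁻¹ * (g * s0 * g⁻¹) * g = s0 := by group
      rw [this]; exact hs0
    · rw [map_mul, map_mul, map_inv, h]; group

theorem c6_CC {X : Type} [Group X] (L : Subgroup X) (hL : L.Normal) (P P' : Subgroup X) (x : X)
    (h : ∀ y, y ∈ P' ↔ x⁻¹ * y * x ∈ P) (a : X) (ha : a ∈ CC L P') :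
    x⁻¹ * a * x ∈ CC L P := by
  obtain ⟨ha1, ha2⟩ := ha
  refine Subgroup.mem_inf.2 ⟨(h a).1 ha1, ?_⟩
  rw [Subgroup.mem_centralizer_iff]
  intro b hb
  obtain ⟨hb1, hb2⟩ := hb
  have hc1 : x * b * x⁻¹ ∈ Subgroup.normalizer (P' : Set X) := by
    rw [Subgroup.mem_normalizer_iff]
    intro k
    rw [h, h]
    have h3 := (Subgroup.mem_normalizer_iff.1 hb1) (x⁻¹ * k * x)
    have h4 : x⁻¹ * (x * b * x⁻¹ * k * (x * b * x⁻¹)⁻¹) * x = b * (x⁻¹ * k * x) * b⁻¹ := by group
    rw [h4]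
    exact h3
  have hc2 : x * b * x⁻¹ ∈ L ⊔ P' := by
    have h5 : L ⊔ P ≤ (L ⊔ P').comap (MulAut.conj x).toMonoidHom := by
      apply sup_le
      · intro l hl
        apply (le_sup_left : L ≤ L ⊔ P')
        exact hL.conj_mem l hl x
      · intro q hq
        apply (le_sup_right : P' ≤ L ⊔ P')
        rw [h]
        have : x⁻¹ * (MulAut.conj x).toMonoidHom q * x = q := by
          show x⁻¹ * (x * q * x⁻¹) * x = q
          group
        rw [this]
        exact hq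
    exact h5 hb2
  have h6 := (Subgroup.mem_centralizer_iff.1 ha2) (x * b * x⁻¹) ⟨hc1, hc2⟩
  -- (x b x⁻¹) a = a (x b x⁻¹)
  calc b * (x⁻¹ * a * x) = x⁻¹ * (x * b * x⁻¹ * a) * x := by group
    _ = x⁻¹ * (a * (x * b * x⁻¹)) * x := by rw [h6]
    _ = x⁻¹ * a * x * b := by group

theorem CrossedMod.IsAdmissible.commute_of_CC {p : ℕ} {D : CrossedMod} (h : D.IsAdmissible p)
    [Fact p.Prime] (S : Sylow p D.Grp) (z : D.Grp)
    (h1 : D.fst z ∈ CC D.d.range ((S : Subgroup D.Grp).map D.fst))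
    (h2 : D.snd z ∈ CC D.d.range ((S : Subgroup D.Grp).map D.snd)) :
    ∀ s ∈ S, s * z = z * s := by
  have hLn : D.d.range.Normal := ⟨by
    rintro _ ⟨e, rfl⟩ x
    exact ⟨D.act x e, D.equivariant x e⟩⟩
  let P : Sylow p D.X := default
  let Q : Subgroup D.Grp := (P : Subgroup D.X).map (SemidirectProduct.inr : D.X →* D.Grp)
  have hQ : IsPGroup p Q := P.isPGroup'.map _
  obtain ⟨S0, hS0⟩ := hQ.exists_le_sylow
  have hfst : (S0 : Subgroup D.Grp).map D.fst = P := by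
    apply P.is_maximal' (S0.isPGroup'.map _)
    intro x hx
    exact ⟨SemidirectProduct.inr x, hS0 ⟨x, hx, rfl⟩, rfl⟩
  have hsnd : (S0 : Subgroup D.Grp).map D.snd = P := by
    apply P.is_maximal' (S0.isPGroup'.map _)
    intro x hx
    refine ⟨SemidirectProduct.inr x, hS0 ⟨x, hx, rfl⟩, ?_⟩
    rw [D.snd_apply]
    simp
  obtain ⟨g, hg⟩ := MulAction.exists_smul_eq D.Grp S0 S
  have hmem : ∀ s, s ∈ (S : Subgroup D.Grp) ↔ g⁻¹ * s * g ∈ (S0 : Subgroup D.Grp) := by
    intro s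
    rw [← hg]
    have h3 : s ∈ ((g • S0 : Sylow p D.Grp) : Subgroup D.Grp) ↔
        s ∈ ((MulAut.conj g • (S0 : Subgroup D.Grp) : Subgroup D.Grp)) := Iff.rfl
    rw [h3, Subgroup.mem_pointwise_smul_iff_inv_smul_mem]
    have h4 : (MulAut.conj g)⁻¹ • s = g⁻¹ * s * g := by
      simp [MulAut.smul_def, MulAut.conj_inv_apply, mul_assoc]
    rw [h4]
  have hPab : ∀ x ∈ P, ∀ y ∈ P, x * y = y * x := h.memA.2 p h.prime P
  obtain ⟨z', hz'⟩ : ∃ z' : D.Grp, z' = g⁻¹ * z * g := ⟨_, rfl⟩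
  have hf : D.fst z' ∈ CC D.d.range (P : Subgroup D.X) := by
    have h3 := c6_CC D.d.range hLn P ((S : Subgroup D.Grp).map D.fst) (D.fst g)
      (c6_conj D.fst S0 S g hmem P hfst) _ h1
    rw [hz', map_mul, map_mul, map_inv]
    exact h3
  have hs : D.snd z' ∈ CC D.d.range (P : Subgroup D.X) := by
    have h3 := c6_CC D.d.range hLn P ((S : Subgroup D.Grp).map D.snd) (D.snd g)
      (c6_conj D.snd S0 S g hmem P hsnd) _ h2
    rw [hz', map_mul, map_mul, map_inv]
    exact h3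
  rw [D.fst_apply] at hf
  rw [D.snd_apply] at hs
  have hd : D.d z'.left ∈ CC D.d.range (P : Subgroup D.X) := by
    have h3 := mul_mem hs (inv_mem hf)
    rwa [mul_inv_cancel_right] at h3
  have hd1 : D.d z'.left = 1 := by
    have h3 := (CC_decomp D.d.range h.range_perfect.1 P hPab).2
    have h4 : D.d z'.left ∈ D.d.range ⊓ CC D.d.range (P : Subgroup D.X) :=
      ⟨⟨z'.left, rfl⟩, hd⟩
    rw [h3, Subgroup.mem_bot] at h4
    exact h4
  have hcomm : ∀ s ∈ (S0 : Subgroup D.Grp), s * z' = z' * s := by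
    intro s hs0
    have hr : s.right ∈ P := by
      have : D.fst s ∈ (S0 : Subgroup D.Grp).map D.fst := ⟨s, hs0, rfl⟩
      rw [hfst] at this
      exact this
    have hr2 : D.d s.left * s.right ∈ P := by
      have : D.snd s ∈ (S0 : Subgroup D.Grp).map D.snd := ⟨s, hs0, rfl⟩
      rw [hsnd] at this
      exact this
    have hl : D.d s.left ∈ P := by
      have h3 := P.mul_mem hr2 (P.inv_mem hr)
      rwa [mul_inv_cancel_right] at h3
    have ha : D.act z'.right s.left = s.left := h.CC_act P _ hf _ hl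
    obtain ⟨k, hk⟩ := P.isPGroup' ⟨s.right, hr⟩
    have hk' : s.right ^ p ^ k = 1 := congrArg Subtype.val hk
    have hb : D.act s.right z'.left = z'.left :=
      h.ker_triv s.right k hk' _ (MonoidHom.mem_ker.2 hd1)
    have hc := (h.ker_central z'.left).1 hd1 s.left
    have hcr : s.right * z'.right = z'.right * s.right := hPab _ hr _ hf.1
    ext
    · rw [SemidirectProduct.mul_left, SemidirectProduct.mul_left, ha, hb, hc]
    · rw [SemidirectProduct.mul_right, SemidirectProduct.mul_right, hcr]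
  intro s hsS
  have h5 := hcomm _ ((hmem s).1 hsS)
  rw [hz'] at h5
  have h6 : g⁻¹ * (s * z) * g = g⁻¹ * (z * s) * g := by
    calc g⁻¹ * (s * z) * g = (g⁻¹ * s * g) * (g⁻¹ * z * g) := by group
      _ = (g⁻¹ * z * g) * (g⁻¹ * s * g) := h5
      _ = g⁻¹ * (z * s) * g := by group
  exact mul_left_cancel (mul_right_cancel h6)

end Pool.Agent.Helper75.MNA
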