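import Pool.Agent.Helper75.MNA.PresDefs
import Pool.Agent.Helper75.MNA.M2
import Pool.Agent.Helper75.MNA.C4
import Pool.Agent.Helper75.MNA.C5
import Pool.Agent.Helper75.MNA.C6

set_option autoImplicit false
set_option linter.style.haveILetI false

namespace Pool.Agent.Helper75.MNA

open Subgroup Pointwise

theorem c8_normalizer {X Y : Type} [Group X] [Group Y] (μ : X ≃* Y) (P : Subgroup X) (x : X)
    (hx : μ x ∈ Subgroup.normalizer ((P.map μ.toMonoidHom : Subgroup Y) : Set Y)) :
    x ∈ Subgroup.normalizer (P : Set X) := by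
  rw [← Subgroup.map_equiv_normalizer_eq] at hx
  obtain ⟨x', hx', h⟩ := hx
  have h' : μ x' = μ x := h
  rw [← μ.injective h']
  exact hx'

theorem c8_CC {X Y : Type} [Group X] [Group Y] (μ : X ≃* Y) (L P : Subgroup X) (x : X)
    (hx : x ∈ CC L P) : μ x ∈ CC (L.map μ.toMonoidHom) (P.map μ.toMonoidHom) := by
  obtain ⟨h1, h2⟩ := Subgroup.mem_inf.1 hx
  refine Subgroup.mem_inf.2 ⟨Subgroup.mem_map_of_mem μ.toMonoidHom h1, ?_⟩
  rw [Subgroup.mem_centralizer_iff] at h2 ⊢
  intro y hy
  obtain ⟨hy1, hy2⟩ := Subgroup.mem_inf.1 hy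
  obtain ⟨y', rfl⟩ := μ.surjective y
  rw [← Subgroup.map_sup] at hy2
  obtain ⟨y'', hy'', he⟩ := hy2
  have he' : μ y'' = μ y' := he
  have hyy := μ.injective he'
  rw [hyy] at hy''
  have := h2 y' (Subgroup.mem_inf.2 ⟨c8_normalizer μ P y' hy1, hy''⟩)
  rw [← map_mul, ← map_mul, this]

theorem c8_uniq {X : Type} [Group X] (L C : Subgroup X) (h : L ⊓ C = ⊥) {l l' c c' : X}
    (hl : l ∈ L) (hl' : l' ∈ L) (hc : c ∈ C) (hc' : c' ∈ C) (he : l * c = l' * c') : l = l' := by
  have h1 : l'⁻¹ * l = c' * c⁻¹ := by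
    rw [inv_mul_eq_iff_eq_mul, ← mul_assoc, ← he, mul_inv_cancel_right]
  have h2 : l'⁻¹ * l ∈ L ⊓ C :=
    Subgroup.mem_inf.2 ⟨L.mul_mem (L.inv_mem hl') hl, by rw [h1]; exact C.mul_mem hc' (C.inv_mem hc)⟩
  rw [h, Subgroup.mem_bot] at h2
  exact (inv_mul_eq_one.1 h2).symm

/-- the isomorphism relating two surjections with the same kernel -/
theorem c8_iso {R X Y : Type} [Group R] [Group X] [Group Y] (f : R →* X) (g : R →* Y)
    (hf : Function.Surjective f) (hg : Function.Surjective g) (h : g.ker = f.ker) :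
    ∃ μ : X ≃* Y, ∀ r, μ (f r) = g r := by
  have key : ∀ r r' : R, f r = f r' → g r = g r' := by
    intro r r' hr
    have h1 : r⁻¹ * r' ∈ f.ker := by rw [MonoidHom.mem_ker, map_mul, map_inv, hr, inv_mul_cancel]
    rw [← h, MonoidHom.mem_ker, map_mul, map_inv, inv_mul_eq_one] at h1
    exact h1
  have key' : ∀ r r' : R, g r = g r' → f r = f r' := by
    intro r r' hr
    have h1 : r⁻¹ * r' ∈ g.ker := by rw [MonoidHom.mem_ker, map_mul, map_inv, hr, inv_mul_cancel]
    rw [h, MonoidHom.mem_ker, map_mul, map_inv, inv_mul_eq_one] at h1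
    exact h1
  let φ : X → Y := fun x => g (hf x).choose
  have hφ : ∀ r, φ (f r) = g r := fun r => key _ _ (hf (f r)).choose_spec
  let φh : X →* Y :=
    { toFun := φ
      map_one' := by rw [← map_one f, hφ, map_one]
      map_mul' := by
        intro x y
        obtain ⟨a, rfl⟩ := hf x
        obtain ⟨b, rfl⟩ := hf y
        rw [← map_mul, hφ, hφ, hφ, map_mul] }
  have hbij : Function.Bijective φh := by
    constructor
    · intro x y hxy
      obtain ⟨a, rfl⟩ := hf x
      obtain ⟨b, rfl⟩ := hf y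
      have h1 : φ (f a) = φ (f b) := hxy
      rw [hφ, hφ] at h1
      exact key' _ _ h1
    · intro y
      obtain ⟨a, rfl⟩ := hg y
      exact ⟨f a, hφ a⟩
  exact ⟨MulEquiv.ofBijective φh hbij, fun r => hφ r⟩

theorem lemmaZ {p : ℕ} {D : CrossedMod} (h : D.IsAdmissible p) [Fact p.Prime] {K : Type}
    [Group K] {n : ℕ} (P : Pres D.Grp K n) (S : Sylow p P.R) :
    ∀ s ∈ S, ∃ y ∈ (⨆ k, P.Y k : Subgroup P.R), ∃ z : P.R, s = y * z ∧ ∀ t ∈ S, t * z = z * t := by
  classical
  intro s hs
  set L : Subgroup D.X := D.d.range with hL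
  have hLn : L.Normal := ⟨by
    rintro _ ⟨e, rfl⟩ x
    exact ⟨D.act x e, D.equivariant x e⟩⟩
  have hLp := h.range_perfect.1
  have hL1 := h.range_perfect.2
  have hfst : Function.Surjective D.fst := fun x => ⟨⟨1, x⟩, rfl⟩
  have hsnd : Function.Surjective D.snd := fun x => ⟨⟨1, x⟩, by rw [D.snd_apply]; simp⟩
  have hχ : ∀ k, Function.Surjective (P.chi k) := by
    rintro ⟨i, b⟩
    have hb : Function.Surjective (if b then D.snd else D.fst : D.Grp →* D.X) := by
      cases b
      · simpa using hfst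
      · simpa using hsnd
    exact hb.comp (P.surj i)
  have hab : ∀ Q : Sylow p D.X, ∀ x ∈ Q, ∀ y ∈ Q, x * y = y * x :=
    fun Q => h.memA.2 p h.prime Q
  have hdec : ∀ k, (∀ s ∈ S.mapSurjective (hχ k), ∃ l ∈ L, l ∈ S.mapSurjective (hχ k) ∧
      ∃ c ∈ CC L ((S.mapSurjective (hχ k) : Sylow p D.X) : Subgroup D.X), s = l * c) ∧
      L ⊓ CC L ((S.mapSurjective (hχ k) : Sylow p D.X) : Subgroup D.X) = ⊥ :=
    fun k => CC_decomp L hLp (S.mapSurjective (hχ k)) (hab _)
  have hsk : ∀ k, P.chi k s ∈ S.mapSurjective (hχ k) := fun k =>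
    Subgroup.mem_map_of_mem (P.chi k) hs
  choose l hl hlP c hc hlc using fun k => (hdec k).1 _ (hsk k)
  -- compatibility
  have hcompat : ∀ k k', (P.chi k').ker = (P.chi k).ker → ∀ r : P.R, P.chi k r = l k →
      P.chi k' r = l k' := by
    intro k k' hkk r hr
    obtain ⟨μ, hμ⟩ := c8_iso (P.chi k) (P.chi k') (hχ k) (hχ k') hkk
    have hmapP : (S : Subgroup P.R).map (P.chi k') =
        ((S : Subgroup P.R).map (P.chi k)).map μ.toMonoidHom := by
      rw [Subgroup.map_map]
      congr 1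
      ext r
      exact (hμ r).symm
    have hmapL : L.map μ.toMonoidHom = L := by
      have hsur : Function.Surjective μ.toMonoidHom := μ.surjective
      have hsur' : Function.Surjective μ.symm.toMonoidHom := μ.symm.surjective
      apply le_antisymm
      · have h1 : L ≤ L.map μ.symm.toMonoidHom := by
          refine h.range_le _ (hLn.map _ hsur') ?_
          intro h0
          rw [Subgroup.map_eq_bot_iff_of_injective _ μ.symm.injective] at h0
          exact hL1 h0
        rintro _ ⟨x, hx, rfl⟩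
        obtain ⟨y, hy, rfl⟩ := h1 hx
        have : μ (μ.symm y) = y := μ.apply_symm_apply y
        show μ (μ.symm y) ∈ L
        rw [this]; exact hy
      · refine h.range_le _ (hLn.map _ hsur) ?_
        intro h0
        rw [Subgroup.map_eq_bot_iff_of_injective _ μ.injective] at h0
        exact hL1 h0
    have h1 : μ (l k) ∈ L := by
      rw [← hmapL]; exact Subgroup.mem_map_of_mem μ.toMonoidHom (hl k)
    have h2 : μ (c k) ∈ CC L ((S.mapSurjective (hχ k') : Sylow p D.X) : Subgroup D.X) := by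
      have h3 := c8_CC μ L _ (c k) (hc k)
      rw [hmapL] at h3
      have h4 : (((S.mapSurjective (hχ k') : Sylow p D.X) : Subgroup D.X)) =
        (((S.mapSurjective (hχ k) : Sylow p D.X) : Subgroup D.X)).map μ.toMonoidHom := hmapP
      rw [h4]; exact h3
    have h3 : μ (l k) * μ (c k) = l k' * c k' := by
      rw [← map_mul, ← hlc k, hμ, hlc k']
    have h4 := c8_uniq L _ (hdec k').2 h1 (hl k') h2 (hc k') h3
    rw [← hμ r, hr, h4]
  -- the elements y_k
  have hy : ∀ k, ∃ y ∈ P.Y k, ∀ k', ((P.chi k').ker = (P.chi k).ker → P.chi k' y = l k') ∧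
      ((P.chi k').ker ≠ (P.chi k).ker → P.chi k' y = 1) := by
    intro k
    obtain ⟨r, hr1, hr2⟩ := kernel_indep P.chi hχ L hLp hL1 (fun N hN hne => h.range_le N hN hne)
      k (l k) (hl k)
    refine ⟨r, ?_, fun k' => ⟨fun hk => hcompat k k' hk r hr1, fun hk => hr2 k' hk⟩⟩
    intro k'
    exact ⟨fun hk => by rw [hcompat k k' hk r hr1]; exact hl k', fun hk => hr2 k' hk⟩
  -- product over classes
  have hprod : ∀ T : Finset (Subgroup P.R), ∃ y ∈ (⨆ k, P.Y k : Subgroup P.R), ∀ k',
      ((P.chi k').ker ∈ T → P.chi k' y = l k') ∧ ((P.chi k').ker ∉ T → P.chi k' y = 1) := by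
    intro T
    induction T using Finset.induction_on with
    | empty => exact ⟨1, Subgroup.one_mem _, fun k' => ⟨fun hk => by simp at hk, fun _ => map_one _⟩⟩
    | insert κ T hκ ih =>
      obtain ⟨y, hyY, hyy⟩ := ih
      by_cases hex : ∃ k, (P.chi k).ker = κ
      · obtain ⟨k, hk⟩ := hex
        obtain ⟨yk, hykY, hyk⟩ := hy k
        refine ⟨yk * y, Subgroup.mul_mem _ (Subgroup.mem_iSup_of_mem k hykY) hyY, fun k' => ⟨?_, ?_⟩⟩
        · intro hk'
          rw [Finset.mem_insert] at hk'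
          by_cases hkk : (P.chi k').ker = κ
          · rw [map_mul, (hyk k').1 (by rw [hkk, hk]), (hyy k').2 (by rw [hkk]; exact hκ), mul_one]
          · have hT : (P.chi k').ker ∈ T := hk'.resolve_left hkk
            rw [map_mul, (hyk k').2 (by rw [hk]; exact hkk), (hyy k').1 hT, one_mul]
        · intro hk'
          rw [Finset.mem_insert, not_or] at hk'
          rw [map_mul, (hyk k').2 (by rw [hk]; exact hk'.1), (hyy k').2 hk'.2, one_mul]
      · refine ⟨y, hyY, fun k' => ⟨?_, ?_⟩⟩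
        · intro hk'
          rw [Finset.mem_insert] at hk'
          rcases hk' with hk' | hk'
          · exact absurd ⟨k', hk'⟩ hex
          · exact (hyy k').1 hk'
        · intro hk'
          rw [Finset.mem_insert, not_or] at hk'
          exact (hyy k').2 hk'.2
  obtain ⟨y, hyY, hyy⟩ := hprod (Finset.univ.image fun k => (P.chi k).ker)
  have hyl : ∀ k, P.chi k y = l k := fun k =>
    (hyy k).1 (Finset.mem_image_of_mem _ (Finset.mem_univ k))
  refine ⟨y, hyY, y⁻¹ * s, by group, ?_⟩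
  have hz : ∀ k, P.chi k (y⁻¹ * s) = c k := by
    intro k
    rw [map_mul, map_inv, hyl, hlc k, inv_mul_cancel_left]
  intro t ht
  rw [← mul_inv_eq_one]
  apply P.inj
  intro i
  rw [map_mul, map_inv, mul_inv_eq_one, map_mul (P.π i) t, map_mul (P.π i) (y⁻¹ * s) t]
  have h1 : D.fst (P.π i (y⁻¹ * s)) ∈
      CC D.d.range (((S.mapSurjective (P.surj i) : Sylow p D.Grp) : Subgroup D.Grp).map D.fst) := by
    have e1 : D.fst (P.π i (y⁻¹ * s)) = P.chi (i, false) (y⁻¹ * s) := rfl
    have e2 : (((S.mapSurjective (P.surj i) : Sylow p D.Grp) : Subgroup D.Grp).map D.fst) =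
        ((S.mapSurjective (hχ (i, false)) : Sylow p D.X) : Subgroup D.X) := by
      show ((S : Subgroup P.R).map (P.π i)).map D.fst = (S : Subgroup P.R).map (P.chi (i, false))
      rw [Subgroup.map_map]; rfl
    rw [e1, e2, hz]
    exact hc _
  have h2 : D.snd (P.π i (y⁻¹ * s)) ∈
      CC D.d.range (((S.mapSurjective (P.surj i) : Sylow p D.Grp) : Subgroup D.Grp).map D.snd) := by
    have e1 : D.snd (P.π i (y⁻¹ * s)) = P.chi (i, true) (y⁻¹ * s) := rfl
    have e2 : (((S.mapSurjective (P.surj i) : Sylow p D.Grp) : Subgroup D.Grp).map D.snd) =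
        ((S.mapSurjective (hχ (i, true)) : Sylow p D.X) : Subgroup D.X) := by
      show ((S : Subgroup P.R).map (P.π i)).map D.snd = (S : Subgroup P.R).map (P.chi (i, true))
      rw [Subgroup.map_map]; rfl
    rw [e1, e2, hz]
    exact hc _
  exact h.commute_of_CC (S.mapSurjective (P.surj i)) (P.π i (y⁻¹ * s)) h1 h2 (P.π i t)
    (Subgroup.mem_map_of_mem (P.π i) ht)

end Pool.Agent.Helper75.MNA
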