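import Pool.Agent.Helper75.MNA.PresDefs
import Pool.Agent.Helper75.MNA.A1
import Pool.Agent.Helper75.MNA.M2
import Pool.Agent.Helper75.MNA.C5
import Pool.Agent.Helper75.MNA.C8

set_option autoImplicit false
set_option linter.style.haveILetI false

namespace Pool.Agent.Helper75.MNA

open Subgroup Pointwise

/-- the two projections, uniformly -/
def c7_pr (D : CrossedMod) (b : Bool) : D.Grp →* D.X := if b then D.snd else D.fst

/-- the embedding onto the kernel of the second projection -/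
def c7_kap (D : CrossedMod) : D.E →* D.Grp where
  toFun e := ⟨e⁻¹, D.d e⟩
  map_one' := by ext <;> simp
  map_mul' e f := by
    ext
    · simp [D.peiffer, mul_assoc]
    · simp

/-- the embeddings onto the kernels of the two projections, uniformly -/
def c7_j (D : CrossedMod) (b : Bool) : D.E →* D.Grp :=
  if b then SemidirectProduct.inl else c7_kap D

theorem c7_pr_true (D : CrossedMod) : c7_pr D true = D.snd := by simp [c7_pr]
theorem c7_pr_false (D : CrossedMod) : c7_pr D false = D.fst := by simp [c7_pr]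
theorem c7_j_true (D : CrossedMod) : c7_j D true = SemidirectProduct.inl := by simp [c7_j]
theorem c7_j_false (D : CrossedMod) : c7_j D false = c7_kap D := by simp [c7_j]

theorem c7_pr_j (D : CrossedMod) (b : Bool) (e : D.E) : c7_pr D b (c7_j D b e) = D.d e := by
  cases b
  · rw [c7_pr_false, c7_j_false]; rfl
  · rw [c7_pr_true, c7_j_true, CrossedMod.snd_apply]; simp

theorem c7_pr_not_j (D : CrossedMod) (b : Bool) (e : D.E) : c7_pr D (!b) (c7_j D b e) = 1 := by
  cases b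
  · rw [Bool.not_false, c7_pr_true, c7_j_false, CrossedMod.snd_apply]; simp [c7_kap]
  · rw [Bool.not_true, c7_pr_false, c7_j_true, CrossedMod.fst_apply]; simp

theorem c7_conj_j (D : CrossedMod) (b : Bool) (g : D.Grp) (e : D.E) :
    g * c7_j D b e * g⁻¹ = c7_j D b (D.act (c7_pr D b g) e) := by
  cases b
  · rw [c7_pr_false, c7_j_false, CrossedMod.fst_apply, mul_inv_eq_iff_eq_mul]
    ext
    · simp only [c7_kap, MonoidHom.coe_mk, OneHom.coe_mk, SemidirectProduct.mul_left]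
      rw [D.peiffer, map_inv]
      group
    · simp only [c7_kap, MonoidHom.coe_mk, OneHom.coe_mk, SemidirectProduct.mul_right]
      rw [D.equivariant]
      group
  · rw [c7_pr_true, c7_j_true, CrossedMod.snd_apply, mul_inv_eq_iff_eq_mul]
    ext
    · simp only [SemidirectProduct.mul_left, SemidirectProduct.left_inl,
        SemidirectProduct.right_inl, map_mul, MulAut.mul_apply, map_one, MulAut.one_apply]
      rw [D.peiffer]; group
    · simp

theorem c7_exists_j (D : CrossedMod) (b : Bool) (g : D.Grp) (h : c7_pr D (!b) g = 1) :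
    ∃ e, g = c7_j D b e := by
  cases b
  · rw [Bool.not_false, c7_pr_true, CrossedMod.snd_apply] at h
    refine ⟨g.left⁻¹, ?_⟩
    rw [c7_j_false]
    ext
    · simp [c7_kap]
    · simp only [c7_kap, MonoidHom.coe_mk, OneHom.coe_mk, map_inv]
      exact eq_inv_of_mul_eq_one_right h
  · rw [Bool.not_true, c7_pr_false, CrossedMod.fst_apply] at h
    refine ⟨g.left, ?_⟩
    rw [c7_j_true]
    ext
    · simp
    · simp [h]

theorem c7_pr_surj (D : CrossedMod) (b : Bool) : Function.Surjective (c7_pr D b) := by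
  intro x
  refine ⟨SemidirectProduct.inr x, ?_⟩
  cases b
  · rw [c7_pr_false]; rfl
  · rw [c7_pr_true, CrossedMod.snd_apply]; simp

theorem c7_mem_zM (D : CrossedMod) (g : D.Grp) : g ∈ D.zM ↔ ∀ b, c7_pr D b g = 1 := by
  have h0 : g ∈ D.zM ↔ D.d g.left = 1 ∧ g.right = 1 := Iff.rfl
  rw [h0]
  constructor
  · rintro ⟨h1, h2⟩ b
    cases b
    · rw [c7_pr_false]; exact h2
    · rw [c7_pr_true, CrossedMod.snd_apply, h1, h2, one_mul]
  · intro h
    have h1 := h false
    have h2 := h true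
    rw [c7_pr_false, CrossedMod.fst_apply] at h1
    rw [c7_pr_true, CrossedMod.snd_apply, h1, mul_one] at h2
    exact ⟨h2, h1⟩

theorem c7_j_mem_zM (D : CrossedMod) (b : Bool) (e : D.E) (h : D.d e = 1) : c7_j D b e ∈ D.zM := by
  rw [c7_mem_zM]
  intro b'
  by_cases hb : b' = b
  · subst hb; rw [c7_pr_j, h]
  · have : b' = !b := by cases b <;> cases b' <;> simp_all
    subst this; exact c7_pr_not_j D b e

/-- elements of `zM` commute with the kernel of `fst` -/
theorem c7_zM_comm {p : ℕ} {D : CrossedMod} (h : D.IsAdmissible p) (z : D.Grp) (hz : z ∈ D.zM)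
    (e : D.E) : z * SemidirectProduct.inl e = SemidirectProduct.inl e * z := by
  obtain ⟨h1, h2⟩ := hz
  have hc := (h.ker_central z.left).1 h1
  ext
  · simp [h2, hc]
  · simp

/-- `zM` is abelian -/
theorem c7_zM_abel {p : ℕ} {D : CrossedMod} (h : D.IsAdmissible p) (z w : D.Grp) (hz : z ∈ D.zM)
    (hw : w ∈ D.zM) : z * w = w * z := by
  have : w = SemidirectProduct.inl w.left := by
    ext
    · simp
    · simp [hw.2]
  rw [this]
  exact c7_zM_comm h z hz _

/-- an abelian normal subgroup of `X` is trivial -/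
theorem c7_abel_normal {p : ℕ} {D : CrossedMod} (h : D.IsAdmissible p) (N : Subgroup D.X)
    (hN : N.Normal) (hab : ∀ x ∈ N, ∀ y ∈ N, x * y = y * x) : N = ⊥ := by
  by_contra hne
  have h1 := h.range_le N hN hne
  obtain ⟨h2, h3⟩ := h.range_perfect
  apply h3
  rw [← h2, eq_bot_iff, Subgroup.commutator_le]
  intro a ha b hb
  rw [Subgroup.mem_bot, commutatorElement_eq_one_iff_mul_comm]
  exact hab a (h1 ha) b (h1 hb)

/-- an element of `X` commuting with the image of `d` is trivial -/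
theorem c7_centr {p : ℕ} {D : CrossedMod} (h : D.IsAdmissible p) (c : D.X)
    (hc : ∀ l ∈ D.d.range, c * l = l * c) : c = 1 := by
  haveI hLn : D.d.range.Normal := by
    refine ⟨?_⟩
    rintro _ ⟨e, rfl⟩ g
    exact ⟨D.act g e, D.equivariant g e⟩
  by_contra hne
  have h1 : D.d.range ≤ Subgroup.centralizer (D.d.range : Set D.X) := by
    apply h.range_le _ inferInstance
    intro h0
    have : c ∈ Subgroup.centralizer (D.d.range : Set D.X) := by
      rw [Subgroup.mem_centralizer_iff]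
      intro l hl
      exact (hc l hl).symm
    rw [h0, Subgroup.mem_bot] at this
    exact hne this
  obtain ⟨h2, h3⟩ := h.range_perfect
  apply h3
  apply c7_abel_normal h _ hLn
  intro x hx y hy
  exact (Subgroup.mem_centralizer_iff.1 (h1 hy) x hx)

/-- an element of `X` acting trivially on `E` modulo the kernel of `d` is trivial -/
theorem c7_act_triv {p : ℕ} {D : CrossedMod} (h : D.IsAdmissible p) (s : D.X)
    (hs : ∀ e : D.E, D.d (D.act s e * e⁻¹) = 1) : s = 1 := by
  apply h.faithful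
  rw [map_one]
  let φ : D.E →* D.E :=
    { toFun := fun e => D.act s e * e⁻¹
      map_one' := by simp
      map_mul' := fun e f => by
        have hc := (h.ker_central (D.act s f * f⁻¹)).1 (hs f) e⁻¹
        calc D.act s (e * f) * (e * f)⁻¹ = D.act s e * (D.act s f * f⁻¹ * e⁻¹) := by
              rw [map_mul]; group
          _ = D.act s e * (e⁻¹ * (D.act s f * f⁻¹)) := by rw [hc]
          _ = _ := by group }
  have hφ : commutator D.E ≤ φ.ker := by
    rw [commutator_def, Subgroup.commutator_le]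
    intro a _ b _
    rw [MonoidHom.mem_ker, map_commutatorElement, commutatorElement_eq_one_iff_mul_comm]
    exact (h.ker_central (φ a)).1 (hs a) (φ b)
  rw [h.perfect] at hφ
  ext e
  have : φ e = 1 := hφ (Subgroup.mem_top e)
  exact mul_inv_eq_one.1 this

theorem c7_chi {D : CrossedMod} {K : Type} [Group K] {n : ℕ} (P : Pres D.Grp K n) (i : Fin n)
    (b : Bool) (r : P.R) : P.chi (i, b) r = c7_pr D b (P.π i r) := rfl

theorem c7_chi_surj {D : CrossedMod} {K : Type} [Group K] {n : ℕ} (P : Pres D.Grp K n)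
    (k : Fin n × Bool) : Function.Surjective (P.chi k) := by
  intro x
  obtain ⟨g, hg⟩ := c7_pr_surj D k.2 x
  obtain ⟨r, hr⟩ := P.surj k.1 g
  refine ⟨r, ?_⟩
  have := c7_chi P k.1 k.2 r
  rw [hr, hg] at this
  exact this

/-- the subgroup `A` -/
def c7_A {D : CrossedMod} {K : Type} [Group K] {n : ℕ} (P : Pres D.Grp K n) : Subgroup P.R :=
  ⨅ k, (P.chi k).ker

theorem c7_mem_A {D : CrossedMod} {K : Type} [Group K] {n : ℕ} (P : Pres D.Grp K n) (r : P.R) :
    r ∈ c7_A P ↔ ∀ k, P.chi k r = 1 := by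
  simp only [c7_A, Subgroup.mem_iInf, MonoidHom.mem_ker]

theorem c7_A_normal {D : CrossedMod} {K : Type} [Group K] {n : ℕ} (P : Pres D.Grp K n) :
    (c7_A P).Normal := Subgroup.normal_iInf_normal (fun _ => inferInstance)

theorem c7_mem_A' {D : CrossedMod} {K : Type} [Group K] {n : ℕ} (P : Pres D.Grp K n) (r : P.R) :
    r ∈ c7_A P ↔ ∀ i, P.π i r ∈ D.zM := by
  rw [c7_mem_A]
  constructor
  · intro h i
    rw [c7_mem_zM]
    intro b
    exact h (i, b)
  · rintro h ⟨i, b⟩
    exact (c7_mem_zM D _).1 (h i) b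

theorem c7_eq_of {D : CrossedMod} {K : Type} [Group K] {n : ℕ} (P : Pres D.Grp K n) (r s : P.R)
    (h : ∀ i, P.π i r = P.π i s) : r = s := by
  have : r * s⁻¹ = 1 := P.inj _ (fun i => by rw [map_mul, map_inv, h i, mul_inv_cancel])
  exact mul_inv_eq_one.1 this

theorem c7_A_abel {p : ℕ} {D : CrossedMod} (h : D.IsAdmissible p) {K : Type} [Group K] {n : ℕ}
    (P : Pres D.Grp K n) (r s : P.R) (hr : r ∈ c7_A P) (hs : s ∈ c7_A P) : r * s = s * r := by
  apply c7_eq_of
  intro i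
  rw [map_mul, map_mul]
  exact c7_zM_abel h _ _ ((c7_mem_A' P r).1 hr i) ((c7_mem_A' P s).1 hs i)

theorem c7_range_normal (D : CrossedMod) : D.d.range.Normal := by
  refine ⟨?_⟩
  rintro _ ⟨e, rfl⟩ g
  exact ⟨D.act g e, D.equivariant g e⟩

theorem c7_Y_normal {D : CrossedMod} {K : Type} [Group K] {n : ℕ} (P : Pres D.Grp K n)
    (k : Fin n × Bool) : (P.Y k).Normal := by
  refine ⟨fun r hr g k' => ⟨fun hk => ?_, fun hk => ?_⟩⟩
  · rw [map_mul, map_mul, map_inv]
    exact (c7_range_normal D).conj_mem _ ((hr k').1 hk) _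
  · rw [map_mul, map_mul, map_inv, (hr k').2 hk]; simp

theorem c7_A_le_Y {D : CrossedMod} {K : Type} [Group K] {n : ℕ} (P : Pres D.Grp K n)
    (k : Fin n × Bool) : c7_A P ≤ P.Y k := by
  intro r hr k'
  rw [c7_mem_A] at hr
  refine ⟨fun _ => ?_, fun _ => hr k'⟩
  rw [hr k']; exact one_mem _

/-- dichotomy for normal subgroups of `R` inside `Y k` -/
theorem c7_dich {p : ℕ} {D : CrossedMod} (h : D.IsAdmissible p) {K : Type} [Group K] {n : ℕ}
    (P : Pres D.Grp K n) (k : Fin n × Bool) (N : Subgroup P.R) (hN : N.Normal) (hle : N ≤ P.Y k) :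
    N ≤ c7_A P ∨ ((∀ l ∈ D.d.range, ∃ r ∈ N, P.chi k r = l) ∧
      ∀ y ∈ P.Y k, ∃ r ∈ N, ∃ a ∈ c7_A P, y = r * a) := by
  have hNn : (N.map (P.chi k)).Normal := hN.map _ (c7_chi_surj P k)
  have hNle : N.map (P.chi k) ≤ D.d.range := by
    rw [Subgroup.map_le_iff_le_comap]
    intro r hr
    exact (hle hr k).1 rfl
  rcases h.range_min _ hNn hNle with h0 | h0
  · left
    intro r hr
    rw [c7_mem_A]
    have h1 : P.chi k r = 1 := by
      have : P.chi k r ∈ N.map (P.chi k) := Subgroup.mem_map_of_mem _ hr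
      rwa [h0, Subgroup.mem_bot] at this
    intro k'
    by_cases hk : (P.chi k').ker = (P.chi k).ker
    · rw [← MonoidHom.mem_ker, hk]; exact h1
    · exact (hle hr k').2 hk
  · right
    have hl : ∀ l ∈ D.d.range, ∃ r ∈ N, P.chi k r = l := by
      intro l hl
      rw [← h0] at hl
      obtain ⟨r, hr, hr2⟩ := hl
      exact ⟨r, hr, hr2⟩
    refine ⟨hl, ?_⟩
    intro y hy
    obtain ⟨r, hr, hr2⟩ := hl _ ((hy k).1 rfl)
    refine ⟨r, hr, r⁻¹ * y, ?_, by group⟩
    rw [c7_mem_A]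
    have h1 : r⁻¹ * y ∈ (P.chi k).ker := by
      rw [MonoidHom.mem_ker, map_mul, map_inv, hr2, inv_mul_cancel]
    intro k'
    by_cases hk : (P.chi k').ker = (P.chi k).ker
    · rw [← MonoidHom.mem_ker, hk]; exact h1
    · rw [map_mul, map_inv, (hle hr k').2 hk, (hy k').2 hk]; simp

theorem c7_full {p : ℕ} {D : CrossedMod} (h : D.IsAdmissible p) {K : Type} [Group K] {n : ℕ}
    (P : Pres D.Grp K n) (hP : P.IsMin) (f : Fin n → D.Grp) (hf : ∀ i, f i ∈ D.zM) :
    ∃ a : P.R, ∀ i, P.π i a = f i := by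
  classical
  have key : ∀ s : Finset (Fin n), ∃ a : P.R, (∀ i ∈ s, P.π i a = f i) ∧
      ∀ i, i ∉ s → P.π i a = 1 := by
    intro s
    induction s using Finset.induction_on with
    | empty => exact ⟨1, by simp, by simp⟩
    | insert j s hj ih =>
      obtain ⟨a, ha1, ha2⟩ := ih
      obtain ⟨d, hd1, hd2⟩ := P.full hP h.monolith j (f j) (hf j)
      refine ⟨a * d, ?_, ?_⟩
      · intro i hi
        rw [Finset.mem_insert] at hi
        rcases hi with rfl | hi
        · rw [map_mul, ha2 _ hj, hd1, one_mul]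
        · have : i ≠ j := by rintro rfl; exact hj hi
          rw [map_mul, ha1 i hi, hd2 i this, mul_one]
      · intro i hi
        rw [Finset.mem_insert, not_or] at hi
        rw [map_mul, ha2 i hi.2, hd2 i hi.1, mul_one]
  obtain ⟨a, ha, -⟩ := key Finset.univ
  exact ⟨a, fun i => ha i (Finset.mem_univ i)⟩

section rho

variable {p : ℕ} {D D' : CrossedMod} (hD : D.IsAdmissible p) (hD' : D'.IsAdmissible p) {n : ℕ}
  (P : Pres D.Grp D'.Grp n)

include hD hD' in
theorem c7_rhoA (a : P.R) (ha : a ∈ c7_A P) : P.ρ a ∈ D'.zM := by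
  rw [c7_mem_zM]
  intro b
  let φ : P.R →* D'.X := (c7_pr D' b).comp P.ρ
  have hφ : Function.Surjective φ := (c7_pr_surj D' b).comp P.onto
  have h1 : (c7_A P).map φ = ⊥ := by
    apply c7_abel_normal hD' _ ((c7_A_normal P).map _ hφ)
    rintro _ ⟨x, hx, rfl⟩ _ ⟨y, hy, rfl⟩
    rw [← map_mul, ← map_mul, c7_A_abel hD P x y hx hy]
  have h2 : φ a ∈ (c7_A P).map φ := Subgroup.mem_map_of_mem _ ha
  rwa [h1, Subgroup.mem_bot] at h2

include hD hD' in
/-- Step (3) -/
theorem c7_step3 : ∃ k, ∃ y ∈ P.Y k, ∃ e : D'.E,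
    P.ρ y * SemidirectProduct.inl e ≠ SemidirectProduct.inl e * P.ρ y := by
  haveI : Fact p.Prime := ⟨hD.prime⟩
  by_contra hcon
  push Not at hcon
  apply hD'.not_abP_E
  intro Q hQ x hx y hy
  -- lift to a Sylow subgroup
  have hQ1 : IsPGroup p (Q.map (SemidirectProduct.inl : D'.E →* D'.Grp)) := hQ.map _
  obtain ⟨S', hS'⟩ := hQ1.exists_le_sylow
  let S0 : Sylow p P.R := default
  let S0' : Sylow p D'.Grp := S0.mapSurjective P.onto
  obtain ⟨g, hg⟩ := MulAction.exists_smul_eq D'.Grp S0' S'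
  have h1 : ∀ z : D'.E, z ∈ Q → ∃ u ∈ S0, P.ρ u = g⁻¹ * SemidirectProduct.inl z * g := by
    intro z hz
    have hz' : (SemidirectProduct.inl z : D'.Grp) ∈ S' := hS' (Subgroup.mem_map_of_mem _ hz)
    rw [← hg] at hz'
    have h2 : g⁻¹ * SemidirectProduct.inl z * g ∈ (S0' : Subgroup D'.Grp) := by
      have h3 : (SemidirectProduct.inl z : D'.Grp) ∈
        ((MulAut.conj g • (S0' : Subgroup D'.Grp) : Subgroup D'.Grp)) := hz'
      rw [Subgroup.mem_pointwise_smul_iff_inv_smul_mem] at h3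
      simpa [MulAut.smul_def, MulAut.conj_inv_apply, mul_assoc] using h3
    have h4 : g⁻¹ * SemidirectProduct.inl z * g ∈ (S0 : Subgroup P.R).map P.ρ := h2
    obtain ⟨u, hu, hu2⟩ := h4
    exact ⟨u, hu, hu2⟩
  obtain ⟨t, ht, htx⟩ := h1 x hx
  obtain ⟨t', ht', hty⟩ := h1 y hy
  obtain ⟨w, hw, z, htz, hz⟩ := lemmaZ hD P S0 t ht
  -- `ρ w` commutes with the first factor
  have h5 : (⨆ k, P.Y k : Subgroup P.R) ≤
      (Subgroup.centralizer {(g⁻¹ * SemidirectProduct.inl y * g : D'.Grp)}).comap P.ρ := by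
    apply iSup_le
    intro k r hr
    rw [Subgroup.mem_comap, Subgroup.mem_centralizer_singleton_iff]
    have h6 := c7_conj_j D' true g⁻¹ y
    rw [c7_j_true, inv_inv] at h6
    rw [h6]
    exact hcon k r hr _
  have h6 := h5 hw
  rw [Subgroup.mem_comap, Subgroup.mem_centralizer_singleton_iff, ← hty] at h6
  have h7 : P.ρ t * P.ρ t' = P.ρ t' * P.ρ t := by
    have h8 : P.ρ t' * P.ρ z = P.ρ z * P.ρ t' := by rw [← map_mul, ← map_mul, hz t' ht']
    rw [htz, map_mul, mul_assoc, ← h8, ← mul_assoc, h6, mul_assoc]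
  rw [htx, hty] at h7
  have h8 : (SemidirectProduct.inl (x * y) : D'.Grp) = SemidirectProduct.inl (y * x) := by
    rw [map_mul, map_mul]
    have h9 : g⁻¹ * (SemidirectProduct.inl x * SemidirectProduct.inl y) * g =
        g⁻¹ * (SemidirectProduct.inl y * SemidirectProduct.inl x) * g := by
      calc g⁻¹ * (SemidirectProduct.inl x * SemidirectProduct.inl y) * g
          = g⁻¹ * SemidirectProduct.inl x * g * (g⁻¹ * SemidirectProduct.inl y * g) := by group
        _ = _ := h7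
        _ = _ := by group
    exact mul_left_cancel (mul_right_cancel h9)
  exact SemidirectProduct.inl_injective h8

include hD hD' in
/-- Step (4) -/
theorem c7_step4 (k : Fin n × Bool) (y0 : P.R) (hy0 : y0 ∈ P.Y k) (e0 : D'.E)
    (hne : P.ρ y0 * SemidirectProduct.inl e0 ≠ SemidirectProduct.inl e0 * P.ρ y0) :
    ∀ y ∈ P.Y k, c7_pr D' false (P.ρ y) = 1 := by
  haveI := c7_Y_normal P k
  set N : Subgroup P.R := P.Y k ⊓ ((c7_pr D' false).comp P.ρ).ker with hNdef
  have hN : N.Normal := inferInstance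
  have hmemN : ∀ r, r ∈ N ↔ r ∈ P.Y k ∧ c7_pr D' false (P.ρ r) = 1 := by
    intro r
    rw [hNdef, Subgroup.mem_inf, MonoidHom.mem_ker, MonoidHom.comp_apply]
  rcases c7_dich hD P k N hN inf_le_left with h0 | ⟨-, h0⟩
  · exfalso
    apply hne
    -- snd' (ρ y0) = 1
    have hs : c7_pr D' true (P.ρ y0) = 1 := by
      apply c7_act_triv hD'
      intro e
      obtain ⟨r, hr⟩ := P.onto (SemidirectProduct.inl e)
      have h1 : y0 * r * y0⁻¹ * r⁻¹ ∈ N := by
        rw [hmemN]
        refine ⟨?_, ?_⟩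
        · have : y0 * r * y0⁻¹ * r⁻¹ = y0 * (r * y0⁻¹ * r⁻¹) := by group
          rw [this]
          exact mul_mem hy0 (Subgroup.Normal.conj_mem inferInstance _ (inv_mem hy0) _)
        · have h7 : c7_pr D' false (SemidirectProduct.inl e) = 1 := by
            rw [c7_pr_false, CrossedMod.fst_apply]; simp
          have h8 : c7_pr D' false (P.ρ r) = 1 := by rw [hr]; exact h7
          simp [h8]
      have h2 := c7_rhoA hD hD' P _ (h0 h1)
      rw [map_mul, map_mul, map_mul, map_inv, map_inv, hr] at h2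
      have h3 := c7_conj_j D' true (P.ρ y0) e
      rw [c7_j_true] at h3
      rw [h3, ← map_inv, ← map_mul] at h2
      have h4 := h2.1
      simpa using h4
    have h3 := c7_conj_j D' true (P.ρ y0) e0
    rw [c7_j_true, hs, map_one, MulAut.one_apply] at h3
    exact mul_inv_eq_iff_eq_mul.1 h3
  · intro y hy
    obtain ⟨r, hr, a, ha, rfl⟩ := h0 y hy
    rw [map_mul, map_mul, ((hmemN r).1 hr).2, one_mul]
    exact (c7_mem_zM D' _).1 (c7_rhoA hD hD' P a ha) false

end rho

theorem c7_exists_ne {p : ℕ} {D : CrossedMod} (h : D.IsAdmissible p) : ∃ e : D.E, D.d e ≠ 1 := by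
  by_contra hcon
  push Not at hcon
  apply h.range_perfect.2
  rw [eq_bot_iff]
  rintro _ ⟨e, rfl⟩
  exact Subgroup.mem_bot.2 (hcon e)

theorem c7_not_both {p : ℕ} {D : CrossedMod} (h : D.IsAdmissible p) {K : Type} [Group K] {n : ℕ}
    (P : Pres D.Grp K n) (i : Fin n) (b : Bool) : (P.chi (i, !b)).ker ≠ (P.chi (i, b)).ker := by
  intro heq
  obtain ⟨e, he⟩ := c7_exists_ne h
  obtain ⟨r, hr⟩ := P.surj i (c7_j D b e)
  have h1 : r ∈ (P.chi (i, !b)).ker := by
    rw [MonoidHom.mem_ker, c7_chi, hr, c7_pr_not_j]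
  rw [heq, MonoidHom.mem_ker, c7_chi, hr, c7_pr_j] at h1
  exact he h1

/-- the elements of `Y k` without components outside the block -/
def c7_Yt {D : CrossedMod} {K : Type} [Group K] {n : ℕ} (P : Pres D.Grp K n)
    (k : Fin n × Bool) : Subgroup P.R :=
  P.Y k ⊓ ⨅ i, ⨅ (_ : ∀ b, (P.chi (i, b)).ker ≠ (P.chi k).ker), (P.π i).ker

theorem c7_mem_Yt {D : CrossedMod} {K : Type} [Group K] {n : ℕ} (P : Pres D.Grp K n)
    (k : Fin n × Bool) (r : P.R) : r ∈ c7_Yt P k ↔ r ∈ P.Y k ∧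
      ∀ i, (∀ b, (P.chi (i, b)).ker ≠ (P.chi k).ker) → P.π i r = 1 := by
  rw [c7_Yt, Subgroup.mem_inf]
  simp only [Subgroup.mem_iInf, MonoidHom.mem_ker]

theorem c7_Yt_normal {D : CrossedMod} {K : Type} [Group K] {n : ℕ} (P : Pres D.Grp K n)
    (k : Fin n × Bool) : (c7_Yt P k).Normal := by
  haveI := c7_Y_normal P k
  refine ⟨fun r hr g => ?_⟩
  rw [c7_mem_Yt] at hr ⊢
  refine ⟨Subgroup.Normal.conj_mem inferInstance _ hr.1 _, fun i hi => ?_⟩
  rw [map_mul, map_mul, map_inv, hr.2 i hi]; simp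

theorem c7_comp {p : ℕ} {D : CrossedMod} (h : D.IsAdmissible p) {K : Type} [Group K] {n : ℕ}
    (P : Pres D.Grp K n) (k : Fin n × Bool) (i : Fin n) (b : Bool)
    (hk : (P.chi (i, b)).ker = (P.chi k).ker) (r : P.R) (hr : r ∈ P.Y k) :
    ∃ e, P.π i r = c7_j D b e := by
  apply c7_exists_j
  have h1 : (P.chi (i, !b)).ker ≠ (P.chi k).ker := by
    rw [← hk]; exact c7_not_both h P i b
  exact (hr (i, !b)).2 h1

theorem c7_Y_le {p : ℕ} {D : CrossedMod} (h : D.IsAdmissible p) {K : Type} [Group K] {n : ℕ}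
    (P : Pres D.Grp K n) (hP : P.IsMin) (k : Fin n × Bool) (r : P.R) (hr : r ∈ P.Y k) :
    ∃ r1 ∈ c7_Yt P k, ∃ a ∈ c7_A P, r = r1 * a := by
  classical
  obtain ⟨a, ha⟩ := c7_full h P hP
    (fun i => if ∃ b, (P.chi (i, b)).ker = (P.chi k).ker then 1 else P.π i r) (by
      intro i
      split_ifs with hi
      · exact one_mem _
      · push Not at hi
        rw [c7_mem_zM]
        intro b
        exact (hr (i, b)).2 (hi b))
  have haA : a ∈ c7_A P := by
    rw [c7_mem_A']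
    intro i
    rw [ha i]
    split_ifs with hi
    · exact one_mem _
    · push Not at hi
      rw [c7_mem_zM]
      intro b
      exact (hr (i, b)).2 (hi b)
  refine ⟨r * a⁻¹, ?_, a, haA, by group⟩
  rw [c7_mem_Yt]
  refine ⟨mul_mem hr (inv_mem (c7_A_le_Y P k haA)), ?_⟩
  intro i hi
  rw [map_mul, map_inv, ha i, if_neg (by push Not; exact hi), mul_inv_cancel]

section rho2

variable {p : ℕ} {D D' : CrossedMod} (hD : D.IsAdmissible p) (hD' : D'.IsAdmissible p) {n : ℕ}
  (P : Pres D.Grp D'.Grp n) (hP : P.IsMin) (k : Fin n × Bool) (y0 : P.R) (hy0 : y0 ∈ P.Y k)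
  (e0 : D'.E)
  (hne : P.ρ y0 * SemidirectProduct.inl e0 ≠ SemidirectProduct.inl e0 * P.ρ y0)

include hD hD' hy0 hne in
theorem c7_contr (N : Subgroup P.R) (h : ∀ y ∈ P.Y k, ∃ r ∈ N, ∃ a ∈ c7_A P, y = r * a)
    (hz : ∀ r ∈ N, P.ρ r ∈ D'.zM) : False := by
  obtain ⟨r, hr, a, ha, rfl⟩ := h y0 hy0
  apply hne
  apply c7_zM_comm hD'
  rw [map_mul]
  exact mul_mem (hz r hr) (c7_rhoA hD hD' P a ha)

include hD hD' hP hy0 hne in
/-- Step (6) -/
theorem c7_step6 (e : D'.E) : ∃ r ∈ c7_Yt P k, P.ρ r = SemidirectProduct.inl e := by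
  haveI hYn := c7_Yt_normal P k
  have h4 := c7_step4 hD hD' P k y0 hy0 e0 hne
  let U : Subgroup D'.E := ((c7_Yt P k).map P.ρ).comap SemidirectProduct.inl
  have hU : ∀ e : D'.E, e ∈ U ↔ ∃ r ∈ c7_Yt P k, P.ρ r = SemidirectProduct.inl e := by
    intro e
    simp only [U, Subgroup.mem_comap, Subgroup.mem_map]
  have hUact : ∀ (x : D'.X) (e : D'.E), e ∈ U → D'.act x e ∈ U := by
    intro x e he
    rw [hU] at he ⊢
    obtain ⟨r, hr, hr2⟩ := he
    obtain ⟨g', hg'⟩ := c7_pr_surj D' true x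
    obtain ⟨g, hg⟩ := P.onto g'
    refine ⟨g * r * g⁻¹, hYn.conj_mem _ hr _, ?_⟩
    have h5 := c7_conj_j D' true g' e
    rw [c7_j_true, hg'] at h5
    rw [map_mul, map_mul, map_inv, hr2, hg, h5]
  have hdn : (U.map D'.d).Normal := by
    refine ⟨?_⟩
    rintro _ ⟨e, he, rfl⟩ x
    refine ⟨D'.act x e, hUact x e he, D'.equivariant x e⟩
  rcases hD'.range_min _ hdn (Subgroup.map_le_range _ _) with h0 | h0
  · exfalso
    refine c7_contr hD hD' P k y0 hy0 e0 hne (c7_Yt P k) (c7_Y_le hD P hP k) ?_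
    intro r hr
    obtain ⟨e, he⟩ := c7_exists_j D' true (P.ρ r) (h4 r ((c7_mem_Yt P k r).1 hr).1)
    have h5 : D'.d e ∈ U.map D'.d := by
      apply Subgroup.mem_map_of_mem
      rw [hU]
      refine ⟨r, hr, ?_⟩
      rw [he, c7_j_true]
    rw [h0, Subgroup.mem_bot] at h5
    rw [he]
    exact c7_j_mem_zM D' true e h5
  · have htop : U = ⊤ := by
      rw [eq_top_iff, ← hD'.perfect, commutator_def, Subgroup.commutator_le]
      have hdec : ∀ a : D'.E, ∃ u ∈ U, ∃ z : D'.E, (∀ f : D'.E, z * f = f * z) ∧ a = u * z := by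
        intro a
        have h5 : D'.d a ∈ U.map D'.d := by rw [h0]; exact ⟨a, rfl⟩
        obtain ⟨u, hu, hu2⟩ := h5
        refine ⟨u, hu, u⁻¹ * a, ?_, by group⟩
        rw [← hD'.ker_central, map_mul, map_inv, hu2, inv_mul_cancel]
      intro a _ b _
      obtain ⟨u, hu, z, hz, rfl⟩ := hdec a
      obtain ⟨v, hv, w, hw, rfl⟩ := hdec b
      have h6 : u * z * (v * w) * (u * z)⁻¹ * (v * w)⁻¹ = u * v * u⁻¹ * v⁻¹ := by
        calc u * z * (v * w) * (u * z)⁻¹ * (v * w)⁻¹
            = u * (z * (v * w * z⁻¹ * u⁻¹)) * w⁻¹ * v⁻¹ := by group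
          _ = u * ((v * w * z⁻¹ * u⁻¹) * z) * w⁻¹ * v⁻¹ := by rw [hz]
          _ = u * v * (w * (z⁻¹ * (u⁻¹ * z))) * w⁻¹ * v⁻¹ := by group
          _ = u * v * (w * (z⁻¹ * (z * u⁻¹))) * w⁻¹ * v⁻¹ := by rw [hz]
          _ = u * v * (w * u⁻¹) * w⁻¹ * v⁻¹ := by group
          _ = u * v * (u⁻¹ * w) * w⁻¹ * v⁻¹ := by rw [hw]
          _ = _ := by group
      rw [commutatorElement_def, h6]
      exact mul_mem (mul_mem (mul_mem hu hv) (inv_mem hu)) (inv_mem hv)
    rw [← hU, htop]; trivial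

include hD hD' hP hy0 hne in
/-- Step (7) -/
theorem c7_step7 (r : P.R) : P.chi k r = 1 ↔ c7_pr D' true (P.ρ r) = 1 := by
  haveI hYn := c7_Yt_normal P k
  have h6 := c7_step6 hD hD' P hP k y0 hy0 e0 hne
  constructor
  · intro hr
    have hcomm : ∀ y ∈ c7_Yt P k, r * y * r⁻¹ = y := by
      intro y hy
      apply c7_eq_of
      intro i
      rw [map_mul, map_mul, map_inv]
      by_cases hi : ∃ b, (P.chi (i, b)).ker = (P.chi k).ker
      · obtain ⟨b, hb⟩ := hi
        obtain ⟨e, he⟩ := c7_comp hD P k i b hb y ((c7_mem_Yt P k y).1 hy).1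
        have h7 : c7_pr D b (P.π i r) = 1 := by
          rw [← c7_chi, ← MonoidHom.mem_ker, hb]; exact hr
        rw [he, c7_conj_j, h7, map_one, MulAut.one_apply]
      · push Not at hi
        rw [((c7_mem_Yt P k y).1 hy).2 i hi]; simp
    apply hD'.faithful
    rw [map_one]
    ext e
    obtain ⟨y, hy, hye⟩ := h6 e
    have h8 := congrArg P.ρ (hcomm y hy)
    rw [map_mul, map_mul, map_inv, hye] at h8
    have h9 := c7_conj_j D' true (P.ρ r) e
    rw [c7_j_true, h8] at h9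
    exact (SemidirectProduct.inl_injective h9).symm
  · intro hr
    have hcomm : ∀ y ∈ c7_Yt P k, P.ρ r * P.ρ y * (P.ρ r)⁻¹ = P.ρ y := by
      intro y hy
      obtain ⟨e, he⟩ := c7_exists_j D' true (P.ρ y)
        (c7_step4 hD hD' P k y0 hy0 e0 hne y ((c7_mem_Yt P k y).1 hy).1)
      rw [he, c7_conj_j, hr, map_one, MulAut.one_apply]
    have hB : (c7_Yt P k ⊓ P.ρ.ker) ≤ c7_A P := by
      rcases c7_dich hD P k (c7_Yt P k ⊓ P.ρ.ker) inferInstance
        (fun x hx => ((c7_mem_Yt P k x).1 hx.1).1) with h0 | ⟨-, h0⟩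
      · exact h0
      · exfalso
        refine c7_contr hD hD' P k y0 hy0 e0 hne _ h0 ?_
        intro x hx
        have : P.ρ x = 1 := hx.2
        rw [this]; exact one_mem _
    have hL : ∀ l ∈ D.d.range, ∃ y ∈ c7_Yt P k, P.chi k y = l := by
      rcases c7_dich hD P k (c7_Yt P k) hYn (fun x hx => ((c7_mem_Yt P k x).1 hx).1) with h0 | h0
      · exfalso
        exact c7_contr hD hD' P k y0 hy0 e0 hne _ (c7_Y_le hD P hP k)
          (fun x hx => c7_rhoA hD hD' P x (h0 hx))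
      · exact h0.1
    apply c7_centr hD
    intro l hl
    obtain ⟨y, hy, rfl⟩ := hL l hl
    have h7 : r * y * r⁻¹ * y⁻¹ ∈ c7_Yt P k ⊓ P.ρ.ker := by
      refine ⟨(c7_Yt P k).mul_mem (hYn.conj_mem _ hy _) ((c7_Yt P k).inv_mem hy), ?_⟩
      show P.ρ (r * y * r⁻¹ * y⁻¹) = 1
      rw [map_mul, map_mul, map_mul, map_inv, map_inv, hcomm y hy, mul_inv_cancel]
    have h8 := (c7_mem_A P _).1 (hB h7) k
    rw [map_mul, map_mul, map_mul, map_inv, map_inv, mul_inv_eq_one] at h8
    exact mul_inv_eq_iff_eq_mul.1 h8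

end rho2

theorem c7_mu {R X Y : Type} [Group R] [Group X] [Group Y] (f : R →* X) (g : R →* Y)
    (hf : Function.Surjective f) (hg : Function.Surjective g) (h : f.ker = g.ker) :
    ∃ μ : X ≃* Y, ∀ r, μ (f r) = g r := by
  let e1 := QuotientGroup.quotientKerEquivOfSurjective f hf
  let e2 := QuotientGroup.quotientKerEquivOfSurjective g hg
  let e3 := QuotientGroup.quotientMulEquivOfEq h
  refine ⟨e1.symm.trans (e3.trans e2), ?_⟩
  intro r
  have h1 : e1.symm (f r) = (r : R ⧸ f.ker) := by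
    rw [MulEquiv.symm_apply_eq]; rfl
  show e2 (e3 (e1.symm (f r))) = g r
  rw [h1]; rfl

theorem CrossedMod.comb_of_form {p q : ℕ} {D' D : CrossedMod} (hD : D.IsAdmissible p)
    (hD' : D'.IsAdmissible q) (h : form D.Grp D'.Grp) : D'.Comb D := by
  classical
  -- q = p
  have hqp : q = p := by
    by_contra hqp
    haveI : Fact q.Prime := ⟨hD'.prime⟩
    obtain ⟨n, ⟨P⟩⟩ := exists_pres h
    have h1 : AbP q P.R := AbP.joint P.π (fun _ => hD.abP_of_ne hD'.prime hqp) P.inj
    exact hD'.not_abP (h1.surj P.ρ P.onto)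
  subst hqp
  obtain ⟨n, P, hP⟩ := exists_min_pres h
  obtain ⟨k, y0, hy0, e0, hne⟩ := c7_step3 hD hD' P
  have h4 := c7_step4 hD hD' P k y0 hy0 e0 hne
  have h6 := c7_step6 hD hD' P hP k y0 hy0 e0 hne
  have h7 := c7_step7 hD hD' P hP k y0 hy0 e0 hne
  -- the isomorphisms
  have hμ : ∀ k', (P.chi k').ker = (P.chi k).ker → ∃ μ : D'.X ≃* D.X,
      ∀ r, μ (c7_pr D' true (P.ρ r)) = P.chi k' r := by
    intro k' hk'
    apply c7_mu ((c7_pr D' true).comp P.ρ) (P.chi k') ((c7_pr_surj D' true).comp P.onto)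
      (c7_chi_surj P k')
    rw [hk']
    ext r
    rw [MonoidHom.mem_ker, MonoidHom.mem_ker, MonoidHom.comp_apply]
    exact (h7 r).symm
  -- the index set
  let J : Type := {i : Fin n // ∃ b, (P.chi (i, b)).ker = (P.chi k).ker}
  haveI : Fintype J := inferInstance
  let m := Fintype.card J
  let en : J ≃ Fin m := Fintype.equivFin J
  have hb : ∀ i : J, ∃ b, (P.chi (i.1, b)).ker = (P.chi k).ker := fun i => i.2
  choose b hb using hb
  have hμ2 : ∀ i : J, ∃ μ : D'.X ≃* D.X, ∀ r, μ (c7_pr D' true (P.ρ r)) = P.chi (i.1, b i) r :=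
    fun i => hμ _ (hb i)
  choose μ hμ3 using hμ2
  let μ' : Fin m → (D'.X ≃* D.X) := fun j => μ (en.symm j)
  -- the target elements
  let t : (Fib D' D μ') → Fin n → D.Grp := fun z i =>
    if hi : ∃ b, (P.chi (i, b)).ker = (P.chi k).ker then c7_j D (b ⟨i, hi⟩) (z.1.2 (en ⟨i, hi⟩))
    else 1
  have ht : ∀ z, ∃ r ∈ P.Y k, ∀ i, P.π i r = t z i := by
    intro z
    obtain ⟨⟨l, e⟩, ⟨⟨e', he'⟩, hz2⟩⟩ := z
    dsimp only at he' hz2
    obtain ⟨r1, hr1, hr1e⟩ := h6 e'
    have hr1Y := ((c7_mem_Yt P k r1).1 hr1).1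
    have hl : c7_pr D' true (P.ρ r1) = l := by
      have h8 := c7_pr_j D' true e'
      rw [c7_j_true] at h8
      rw [hr1e, h8, he']
    obtain ⟨a, ha⟩ := c7_full hD P hP (fun i =>
      if hi : ∃ b, (P.chi (i, b)).ker = (P.chi k).ker then
        (P.π i r1)⁻¹ * c7_j D (b ⟨i, hi⟩) (e (en ⟨i, hi⟩)) else 1) (by
      intro i
      split_ifs with hi
      · obtain ⟨e1, he1⟩ := c7_comp hD P k i (b ⟨i, hi⟩) (hb ⟨i, hi⟩) r1 hr1Y
        rw [he1, ← map_inv, ← map_mul]
        apply c7_j_mem_zM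
        have h9 := hμ3 ⟨i, hi⟩ r1
        rw [hl, c7_chi, he1, c7_pr_j] at h9
        have h10 := hz2 (en ⟨i, hi⟩)
        simp only [μ', Equiv.symm_apply_apply] at h10
        rw [map_mul, map_inv, h10, ← h9, inv_mul_cancel]
      · exact one_mem _)
    have haA : a ∈ c7_A P := by
      rw [c7_mem_A']
      intro i
      rw [ha i]
      split_ifs with hi
      · obtain ⟨e1, he1⟩ := c7_comp hD P k i (b ⟨i, hi⟩) (hb ⟨i, hi⟩) r1 hr1Y
        rw [he1, ← map_inv, ← map_mul]
        apply c7_j_mem_zM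
        have h9 := hμ3 ⟨i, hi⟩ r1
        rw [hl, c7_chi, he1, c7_pr_j] at h9
        have h10 := hz2 (en ⟨i, hi⟩)
        simp only [μ', Equiv.symm_apply_apply] at h10
        rw [map_mul, map_inv, h10, ← h9, inv_mul_cancel]
      · exact one_mem _
    refine ⟨r1 * a, mul_mem hr1Y (c7_A_le_Y P k haA), ?_⟩
    intro i
    rw [map_mul, ha i]
    by_cases hi : ∃ b, (P.chi (i, b)).ker = (P.chi k).ker
    · simp only [t, dif_pos hi]; group
    · simp only [t, dif_neg hi, mul_one]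
      push Not at hi
      exact ((c7_mem_Yt P k r1).1 hr1).2 i hi
  choose rr hrY hrπ using ht
  have htmul : ∀ z w i, t (z * w) i = t z i * t w i := by
    intro z w i
    by_cases hi : ∃ b, (P.chi (i, b)).ker = (P.chi k).ker
    · simp only [t, dif_pos hi]
      rw [← map_mul]; rfl
    · simp only [t, dif_neg hi, mul_one]
  have hrmul : ∀ z w, rr (z * w) = rr z * rr w := by
    intro z w
    apply c7_eq_of
    intro i
    rw [map_mul, hrπ, hrπ, hrπ, htmul]
  have hεex : ∀ z, ∃ e : D'.E, P.ρ (rr z) = SemidirectProduct.inl e := by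
    intro z
    obtain ⟨e, he⟩ := c7_exists_j D' true (P.ρ (rr z)) (h4 _ (hrY z))
    exact ⟨e, by rw [he, c7_j_true]⟩
  choose ε hε using hεex
  have hεmul : ∀ z w, ε (z * w) = ε z * ε w := by
    intro z w
    apply SemidirectProduct.inl_injective (φ := D'.act)
    rw [← hε, hrmul, map_mul, hε, hε, map_mul]
  have hkJ : ∃ b, (P.chi (k.1, b)).ker = (P.chi k).ker := ⟨k.2, rfl⟩
  refine ⟨m, μ', MonoidHom.mk' ε hεmul, ?_, ?_⟩
  · intro z
    show D'.d (ε z) = z.1.1
    have h8 := c7_pr_j D' true (ε z)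
    rw [c7_j_true, ← hε z] at h8
    rw [← h8]
    apply (μ ⟨k.1, hkJ⟩).injective
    rw [hμ3, c7_chi, hrπ z]
    simp only [t, dif_pos hkJ]
    rw [c7_pr_j]
    have h10 := z.2.2 (en ⟨k.1, hkJ⟩)
    simp only [μ', Equiv.symm_apply_apply] at h10
    exact h10
  · intro x z z' _ hz2
    show ε z' = D'.act x (ε z)
    obtain ⟨g', hg'⟩ := c7_pr_surj D' true x
    obtain ⟨g, hg⟩ := P.onto g'
    have h8 : rr z' = g * rr z * g⁻¹ := by
      apply c7_eq_of
      intro i
      rw [map_mul, map_mul, map_inv, hrπ, hrπ]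
      by_cases hi : ∃ b, (P.chi (i, b)).ker = (P.chi k).ker
      · simp only [t, dif_pos hi]
        rw [c7_conj_j, ← c7_chi, ← hμ3 ⟨i, hi⟩, hg, hg', hz2]
        simp only [μ', Equiv.symm_apply_apply]
      · simp only [t, dif_neg hi]; simp
    apply SemidirectProduct.inl_injective (φ := D'.act)
    rw [← hε, h8, map_mul, map_mul, map_inv, hε, hg]
    have h9 := c7_conj_j D' true g' (ε z)
    rw [c7_j_true, hg'] at h9
    exact h9

end Pool.Agent.Helper75.MNA
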