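import Pool.Agent.Helper75.MNA.PresDefs

set_option autoImplicit false
set_option linter.style.haveILetI false

/-! Canonical pairings and canonical crossed modules. -/

namespace Pool.Agent.Helper75.MNA

open Subgroup

/-- The data `(H, V, W)` of a pairing. -/
structure Base where
  H : Type
  V : Type
  W : Type
  [grpH : Group H]
  [finH : Finite H]
  [addV : AddCommGroup V]
  [finV : Finite V]
  [addW : AddCommGroup W]
  [finW : Finite W]
  actV : H →* AddMonoid.End V
  actW : H →* AddMonoid.End W

attribute [instance] Base.grpH Base.finH Base.addV Base.finV Base.addW Base.finW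

/-- The data `(H, V, W)` of a pairing. -/
abbrev Pairing.base (D : Pairing) : Base where
  H := D.H
  V := D.V
  W := D.W
  actV := D.actV
  actW := D.actW

/-- An isomorphism of such data, possibly exchanging `V` and `W`. -/
inductive Tri (B B' : Base) : Type
  | straight (l : B.H ≃* B'.H) (a : B.V ≃+ B'.V) (b : B.W ≃+ B'.W)
      (ha : ∀ h v, a (B.actV h v) = B'.actV (l h) (a v))
      (hb : ∀ h w, b (B.actW h w) = B'.actW (l h) (b w)) : Tri B B'
  | swapped (l : B.H ≃* B'.H) (a : B.V ≃+ B'.W) (b : B.W ≃+ B'.V)
      (ha : ∀ h v, a (B.actV h v) = B'.actW (l h) (a v))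
      (hb : ∀ h w, b (B.actW h w) = B'.actV (l h) (b w)) : Tri B B'

namespace Tri

variable {B B' B'' : Base} {A : Type} [AddCommGroup A]

/-- the isomorphism of groups -/
def l : Tri B B' → (B.H ≃* B'.H)
  | straight l _ _ _ _ => l
  | swapped l _ _ _ _ => l

/-- the map on pairs -/
def map : Tri B B' → B.V × B.W → B'.V × B'.W
  | straight _ a b _ _, x => (a x.1, b x.2)
  | swapped _ a b _ _, x => (b x.2, a x.1)

/-- The biadditive map obtained from `g` by transport. -/
def pull : Tri B B' → (B'.V →+ B'.W →+ A) → (B.V →+ B.W →+ A)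
  | straight _ a b _ _, g =>
    ((AddMonoidHom.compHom' (b : B.W →+ B'.W)).comp g).comp (a : B.V →+ B'.V)
  | swapped _ a b _ _, g =>
    ((AddMonoidHom.compHom' (b : B.W →+ B'.V)).comp g.flip).comp (a : B.V →+ B'.W)

theorem pull_apply (γ : Tri B B') (g : B'.V →+ B'.W →+ A) (v : B.V) (w : B.W) :
    γ.pull g v w = g (γ.map (v, w)).1 (γ.map (v, w)).2 := by
  cases γ <;> rfl

/-- the identity -/
def refl (B : Base) : Tri B B :=
  straight (MulEquiv.refl _) (AddEquiv.refl _) (AddEquiv.refl _) (fun _ _ => rfl) (fun _ _ => rfl)

/-- the inverse -/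
def symm : Tri B B' → Tri B' B
  | straight l a b ha hb => straight l.symm a.symm b.symm
      (by
        intro h v
        rw [AddEquiv.symm_apply_eq, ha, MulEquiv.apply_symm_apply, AddEquiv.apply_symm_apply])
      (by
        intro h v
        rw [AddEquiv.symm_apply_eq, hb, MulEquiv.apply_symm_apply, AddEquiv.apply_symm_apply])
  | swapped l a b ha hb => swapped l.symm b.symm a.symm
      (by
        intro h v
        rw [AddEquiv.symm_apply_eq, hb, MulEquiv.apply_symm_apply, AddEquiv.apply_symm_apply])
      (by
        intro h v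
        rw [AddEquiv.symm_apply_eq, ha, MulEquiv.apply_symm_apply, AddEquiv.apply_symm_apply])

/-- the composition -/
def trans : Tri B B' → Tri B' B'' → Tri B B''
  | straight l a b ha hb, straight l' a' b' ha' hb' =>
    straight (l.trans l') (a.trans a') (b.trans b')
      (fun h v => by
        rw [AddEquiv.trans_apply, ha, ha']
        rfl)
      (fun h v => by
        rw [AddEquiv.trans_apply, hb, hb']
        rfl)
  | straight l a b ha hb, swapped l' a' b' ha' hb' =>
    swapped (l.trans l') (a.trans a') (b.trans b')
      (fun h v => by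
        rw [AddEquiv.trans_apply, ha, ha']
        rfl)
      (fun h v => by
        rw [AddEquiv.trans_apply, hb, hb']
        rfl)
  | swapped l a b ha hb, straight l' a' b' ha' hb' =>
    swapped (l.trans l') (a.trans b') (b.trans a')
      (fun h v => by
        rw [AddEquiv.trans_apply, ha, hb']
        rfl)
      (fun h v => by
        rw [AddEquiv.trans_apply, hb, ha']
        rfl)
  | swapped l a b ha hb, swapped l' a' b' ha' hb' =>
    straight (l.trans l') (a.trans b') (b.trans a')
      (fun h v => by
        rw [AddEquiv.trans_apply, ha, hb']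
        rfl)
      (fun h v => by
        rw [AddEquiv.trans_apply, hb, ha']
        rfl)

@[simp] theorem map_refl (x : B.V × B.W) : (refl B).map x = x := rfl

@[simp] theorem map_trans (γ : Tri B B') (δ : Tri B' B'') (x : B.V × B.W) :
    (γ.trans δ).map x = δ.map (γ.map x) := by
  cases γ <;> cases δ <;> rfl

@[simp] theorem map_symm_map (γ : Tri B B') (x : B.V × B.W) : γ.symm.map (γ.map x) = x := by
  cases γ with
  | straight l a b ha hb =>
    exact Prod.ext (a.symm_apply_apply x.1) (b.symm_apply_apply x.2)
  | swapped l a b ha hb =>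
    exact Prod.ext (a.symm_apply_apply x.1) (b.symm_apply_apply x.2)

@[simp] theorem map_map_symm (γ : Tri B B') (x : B'.V × B'.W) : γ.map (γ.symm.map x) = x := by
  cases γ with
  | straight l a b ha hb =>
    exact Prod.ext (a.apply_symm_apply x.1) (b.apply_symm_apply x.2)
  | swapped l a b ha hb =>
    exact Prod.ext (b.apply_symm_apply x.1) (a.apply_symm_apply x.2)

theorem l_refl (h : B.H) : (refl B).l h = h := rfl

theorem l_trans (γ : Tri B B') (δ : Tri B' B'') (h : B.H) : (γ.trans δ).l h = δ.l (γ.l h) := by
  cases γ <;> cases δ <;> rfl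

theorem l_symm (γ : Tri B B') (h : B'.H) : γ.symm.l h = γ.l.symm h := by
  cases γ <;> rfl

theorem map_act (γ : Tri B B') (h : B.H) (v : B.V) (w : B.W) :
    γ.map (B.actV h v, B.actW h w) =
      (B'.actV (γ.l h) (γ.map (v, w)).1, B'.actW (γ.l h) (γ.map (v, w)).2) := by
  cases γ with
  | straight l a b ha hb => exact Prod.ext (ha h v) (hb h w)
  | swapped l a b ha hb => exact Prod.ext (hb h w) (ha h v)

/-- The automorphism of the data given by an element of `H`. -/
def ofH (B : Base) (h : B.H) : Tri B B :=
  straight (MulAut.conj h)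
    { toFun := fun v => B.actV h v
      invFun := fun v => B.actV h⁻¹ v
      left_inv := Pairing.inv_act B.actV h
      right_inv := Pairing.act_inv B.actV h
      map_add' := fun v w => map_add _ _ _ }
    { toFun := fun v => B.actW h v
      invFun := fun v => B.actW h⁻¹ v
      left_inv := Pairing.inv_act B.actW h
      right_inv := Pairing.act_inv B.actW h
      map_add' := fun v w => map_add _ _ _ }
    (fun k v => by
      show B.actV h (B.actV k v) = B.actV (h * k * h⁻¹) (B.actV h v)
      rw [map_mul, map_mul]
      show _ = B.actV h (B.actV k (B.actV h⁻¹ (B.actV h v)))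
      rw [Pairing.inv_act])
    (fun k v => by
      show B.actW h (B.actW k v) = B.actW (h * k * h⁻¹) (B.actW h v)
      rw [map_mul, map_mul]
      show _ = B.actW h (B.actW k (B.actW h⁻¹ (B.actW h v)))
      rw [Pairing.inv_act])

@[simp] theorem ofH_map (B : Base) (h : B.H) (x : B.V × B.W) :
    (ofH B h).map x = (B.actV h x.1, B.actW h x.2) := rfl

instance : Finite (Tri B B') := by
  have f : ∃ f : Tri B B' → Bool × (B.H → B'.H) × (B.V × B.W → B'.V × B'.W),
      Function.Injective f := by
    refine ⟨fun γ => (match γ with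
      | straight _ _ _ _ _ => true
      | swapped _ _ _ _ _ => false, fun h => γ.l h, fun x => γ.map x), ?_⟩
    intro γ δ h
    cases γ with
    | straight l a b ha hb =>
      cases δ with
      | straight l' a' b' ha' hb' =>
        have h1 := congrArg (fun z => z.2.1) h
        have h2 := congrArg (fun z => z.2.2) h
        have hl : l = l' := MulEquiv.ext (fun x => congrFun h1 x)
        have hA : a = a' := AddEquiv.ext (fun x =>
          congrArg Prod.fst (congrFun h2 (x, (0 : B.W))))
        have hB : b = b' := AddEquiv.ext (fun x =>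
          congrArg Prod.snd (congrFun h2 ((0 : B.V), x)))
        subst hl hA hB
        rfl
      | swapped l' a' b' ha' hb' => exact absurd (congrArg Prod.fst h) (by simp)
    | swapped l a b ha hb =>
      cases δ with
      | straight l' a' b' ha' hb' => exact absurd (congrArg Prod.fst h) (by simp)
      | swapped l' a' b' ha' hb' =>
        have h1 := congrArg (fun z => z.2.1) h
        have h2 := congrArg (fun z => z.2.2) h
        have hl : l = l' := MulEquiv.ext (fun x => congrFun h1 x)
        have hA : a = a' := AddEquiv.ext (fun x =>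
          congrArg Prod.snd (congrFun h2 (x, (0 : B.W))))
        have hB : b = b' := AddEquiv.ext (fun x =>
          congrArg Prod.fst (congrFun h2 ((0 : B.V), x)))
        subst hl hA hB
        rfl
  obtain ⟨f, hf⟩ := f
  exact Finite.of_injective f hf

end Tri

namespace Pairing

/-- `t` lifts the isomorphism `γ` of the data. -/
def Lift (D D' : Pairing) (γ : Tri D.base D'.base) (t : D.M →+ D'.M) : Prop :=
  ∀ v w, t (D.β v w) = γ.pull D'.β v w

/-- The conditions on a pairing except those on the submodules of `M`. -/
structure IsPre (p : ℕ) (D : Pairing) : Prop where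
  prime : p.Prime
  coprime : ¬ p ∣ Nat.card D.H
  memA : AClass D.H
  expV : ∀ v : D.V, p • v = 0
  expW : ∀ w : D.W, p • w = 0
  expM : ∀ m : D.M, p • m = 0
  irrV : IsIrred D.actV
  irrW : IsIrred D.actW
  nonzero : D.β ≠ 0
  faithful : ∀ h : D.H, (∀ v, D.actV h v = v) → (∀ w, D.actW h w = w) → h = 1
  span : ∀ U : AddSubgroup D.M, (∀ v w, D.β v w ∈ U) → U = ⊤

/-- All isomorphisms of the data lift to `M`. -/
def HasLifts (D : Pairing) : Prop := ∀ γ : Tri D.base D.base, ∃ t : D.M →+ D.M, D.Lift D γ t

/-- Canonical pairings. -/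
structure IsCanon (p : ℕ) (D : Pairing) : Prop where
  pre : D.IsPre p
  lifts : D.HasLifts
  irr : ∀ U : AddSubgroup D.M, (∀ (γ : Tri D.base D.base) (t : D.M →+ D.M), D.Lift D γ t →
    ∀ u ∈ U, t u ∈ U) → U = ⊥ ∨ U = ⊤

/-- The quotient of a pairing by an invariant subgroup of `M`. -/
def quot (D : Pairing) (K : AddSubgroup D.M) (hK : ∀ h, ∀ m ∈ K, D.actM h m ∈ K) : Pairing where
  H := D.H
  V := D.V
  W := D.W
  M := D.M ⧸ K
  actV := D.actV
  actW := D.actW
  actM :=
    { toFun := fun h => QuotientAddGroup.map K K (D.actM h) (hK h)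
      map_one' := by
        apply AddMonoidHom.ext
        intro m
        induction m using QuotientAddGroup.induction_on with
        | _ m =>
          show ((D.actM 1 m : D.M) : D.M ⧸ K) = (m : D.M ⧸ K)
          rw [map_one]
          rfl
      map_mul' := fun h k => by
        apply AddMonoidHom.ext
        intro m
        induction m using QuotientAddGroup.induction_on with
        | _ m =>
          show ((D.actM (h * k) m : D.M) : D.M ⧸ K) = ((D.actM h (D.actM k m) : D.M) : D.M ⧸ K)
          rw [map_mul]
          rfl }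
  β := D.β.compr₂ (QuotientAddGroup.mk' K)
  equivariant := by
    intro h v w
    show ((D.β (D.actV h v) (D.actW h w) : D.M) : D.M ⧸ K) =
      ((D.actM h (D.β v w) : D.M) : D.M ⧸ K)
    rw [D.equivariant]

@[simp] theorem quot_β (D : Pairing) (K : AddSubgroup D.M) (hK : ∀ h, ∀ m ∈ K, D.actM h m ∈ K)
    (v : D.V) (w : D.W) : (D.quot K hK).β v w = ((D.β v w : D.M) : D.M ⧸ K) := rfl

@[simp] theorem quot_actM (D : Pairing) (K : AddSubgroup D.M)
    (hK : ∀ h, ∀ m ∈ K, D.actM h m ∈ K) (h : D.H) (m : D.M) :
    (D.quot K hK).actM h ((m : D.M) : D.M ⧸ K) = ((D.actM h m : D.M) : D.M ⧸ K) := rfl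

end Pairing

namespace CrossedMod

/-- The homomorphism `ε` lifts the homomorphism `μ`. -/
def Lift (D D' : CrossedMod) (μ : D.X →* D'.X) (ε : D.E →* D'.E) : Prop :=
  ∀ e, D'.d (ε e) = μ (D.d e)

/-- The conditions on a crossed module except those on the subgroups of the kernel. -/
structure IsPre (p : ℕ) (D : CrossedMod) : Prop where
  prime : p.Prime
  perfect : commutator D.E = ⊤
  memA : AClass D.X
  faithful : Function.Injective D.act
  ker_ne_bot : D.d.ker ≠ ⊥
  ker_exp : ∀ e ∈ D.d.ker, e ^ p = 1
  ker_triv : ∀ (x : D.X) (k : ℕ), x ^ p ^ k = 1 → ∀ e ∈ D.d.ker, D.act x e = e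
  range_min : ∀ N : Subgroup D.X, N.Normal → N ≤ D.d.range → N = ⊥ ∨ N = D.d.range

/-- All automorphisms of `X` lift to `E`. -/
def HasLifts (D : CrossedMod) : Prop :=
  ∀ μ : D.X ≃* D.X, ∃ ε : D.E →* D.E, D.Lift D μ.toMonoidHom ε

/-- Canonical crossed modules. -/
structure IsCanon (p : ℕ) (D : CrossedMod) : Prop where
  pre : D.IsPre p
  lifts : D.HasLifts
  irr : ∀ U : Subgroup D.E, U ≤ D.d.ker → (∀ (μ : D.X ≃* D.X) (ε : D.E →* D.E),
    D.Lift D μ.toMonoidHom ε → ∀ u ∈ U, ε u ∈ U) → U = ⊥ ∨ U = D.d.ker

theorem ker_comm {D : CrossedMod} {k : D.E} (hk : D.d k = 1) (f : D.E) : k * f = f * k := by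
  have h := D.peiffer k f
  rw [hk, map_one] at h
  have h1 : f = k * f * k⁻¹ := h
  calc k * f = k * f * k⁻¹ * k := by group
    _ = f * k := by rw [← h1]

theorem sub_normal {D : CrossedMod} {K : Subgroup D.E} (hK : K ≤ D.d.ker) : K.Normal := by
  refine ⟨fun k hk g => ?_⟩
  have h1 := ker_comm (hK hk) g
  rw [← h1, mul_inv_cancel_right]
  exact hk

/-- The quotient of a crossed module by an invariant subgroup of the kernel. -/
def quot (D : CrossedMod) (K : Subgroup D.E) (hK : K ≤ D.d.ker)
    (hinv : ∀ x, ∀ k ∈ K, D.act x k ∈ K) : CrossedMod :=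
  haveI : K.Normal := sub_normal hK
  { E := D.E ⧸ K
    X := D.X
    act :=
      { toFun := fun x =>
          { toFun := QuotientGroup.map K K (D.act x).toMonoidHom (hinv x)
            invFun := QuotientGroup.map K K (D.act x⁻¹).toMonoidHom (hinv x⁻¹)
            left_inv := by
              intro e
              induction e using QuotientGroup.induction_on with
              | _ e =>
                show ((D.act x⁻¹ (D.act x e) : D.E) : D.E ⧸ K) = e
                rw [map_inv, MulAut.inv_apply_self]
            right_inv := by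
              intro e
              induction e using QuotientGroup.induction_on with
              | _ e =>
                show ((D.act x (D.act x⁻¹ e) : D.E) : D.E ⧸ K) = e
                rw [map_inv, MulAut.apply_inv_self]
            map_mul' := fun e f => map_mul _ _ _ }
        map_one' := by
          apply MulEquiv.ext
          intro e
          induction e using QuotientGroup.induction_on with
          | _ e =>
            show ((D.act 1 e : D.E) : D.E ⧸ K) = e
            rw [map_one]
            rfl
        map_mul' := fun x y => by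
          apply MulEquiv.ext
          intro e
          induction e using QuotientGroup.induction_on with
          | _ e =>
            show ((D.act (x * y) e : D.E) : D.E ⧸ K) = ((D.act x (D.act y e) : D.E) : D.E ⧸ K)
            rw [map_mul]
            rfl }
    d := QuotientGroup.lift K D.d hK
    equivariant := by
      intro x e
      induction e using QuotientGroup.induction_on with
      | _ e => exact D.equivariant x e
    peiffer := by
      intro e f
      induction e using QuotientGroup.induction_on with
      | _ e =>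
        induction f using QuotientGroup.induction_on with
        | _ f =>
          show ((D.act (D.d e) f : D.E) : D.E ⧸ K) = ((e * f * e⁻¹ : D.E) : D.E ⧸ K)
          rw [D.peiffer] }

/-- the projection to the quotient -/
def quotMk (D : CrossedMod) (K : Subgroup D.E) (hK : K ≤ D.d.ker)
    (hinv : ∀ x, ∀ k ∈ K, D.act x k ∈ K) : D.E →* (D.quot K hK hinv).E :=
  haveI : K.Normal := sub_normal hK
  QuotientGroup.mk' K

theorem quotMk_surj (D : CrossedMod) (K : Subgroup D.E) (hK : K ≤ D.d.ker)
    (hinv : ∀ x, ∀ k ∈ K, D.act x k ∈ K) : Function.Surjective (D.quotMk K hK hinv) :=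
  haveI : K.Normal := sub_normal hK
  QuotientGroup.mk'_surjective K

theorem quotMk_eq_one (D : CrossedMod) (K : Subgroup D.E) (hK : K ≤ D.d.ker)
    (hinv : ∀ x, ∀ k ∈ K, D.act x k ∈ K) (e : D.E) : D.quotMk K hK hinv e = 1 ↔ e ∈ K :=
  haveI : K.Normal := sub_normal hK
  QuotientGroup.eq_one_iff e

theorem quot_d (D : CrossedMod) (K : Subgroup D.E) (hK : K ≤ D.d.ker)
    (hinv : ∀ x, ∀ k ∈ K, D.act x k ∈ K) (e : D.E) :
    (D.quot K hK hinv).d (D.quotMk K hK hinv e) = D.d e := rfl

theorem quot_act (D : CrossedMod) (K : Subgroup D.E) (hK : K ≤ D.d.ker)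
    (hinv : ∀ x, ∀ k ∈ K, D.act x k ∈ K) (x : D.X) (e : D.E) :
    (D.quot K hK hinv).act x (D.quotMk K hK hinv e) = D.quotMk K hK hinv (D.act x e) := rfl

end CrossedMod

end Pool.Agent.Helper75.MNA
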