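import Pool.Agent.Helper75.MNA.CanDefs

set_option autoImplicit false
set_option linter.style.haveILetI false

namespace Pool.Agent.Helper75.MNA

open Subgroup Pointwise

open scoped commutatorElement in
theorem k0_comm {D : CrossedMod} {e f t u : D.E} (h1 : D.d t = D.d e) (h2 : D.d u = D.d f) :
    ⁅e, f⁆ = ⁅t, u⁆ := by
  have e1 : e * f * e⁻¹ = t * f * t⁻¹ := by rw [← D.peiffer, ← D.peiffer, h1]
  have e2 : f * t⁻¹ * f⁻¹ = u * t⁻¹ * u⁻¹ := by rw [← D.peiffer, ← D.peiffer, h2]
  calc ⁅e, f⁆ = e * f * e⁻¹ * f⁻¹ := commutatorElement_def e f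
    _ = t * (f * t⁻¹ * f⁻¹) := by rw [e1]; group
    _ = t * u * t⁻¹ * u⁻¹ := by rw [e2]; group
    _ = ⁅t, u⁆ := (commutatorElement_def t u).symm

open scoped commutatorElement in
theorem CrossedMod.cover_top {D : CrossedMod} (hp : commutator D.E = ⊤) (T : Subgroup D.E)
    (hT : ∀ e : D.E, ∃ t ∈ T, D.d t = D.d e) : T = ⊤ := by
  rw [eq_top_iff, ← hp, commutator_def, Subgroup.commutator_le]
  intro e _ f _
  obtain ⟨t, ht, h1⟩ := hT e
  obtain ⟨u, hu, h2⟩ := hT f
  rw [k0_comm h1 h2, commutatorElement_def]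
  exact T.mul_mem (T.mul_mem (T.mul_mem ht hu) (T.inv_mem ht)) (T.inv_mem hu)

open scoped commutatorElement in
theorem CrossedMod.lift_unique {G : Type} [Group G] (hG : commutator G = ⊤) {D : CrossedMod}
    (φ ψ : G →* D.E) (h : ∀ g, D.d (φ g) = D.d (ψ g)) : φ = ψ := by
  have h1 : φ.eqLocus ψ = ⊤ := by
    rw [eq_top_iff, ← hG, commutator_def, Subgroup.commutator_le]
    intro a _ b _
    change φ ⁅a, b⁆ = ψ ⁅a, b⁆
    rw [map_commutatorElement, map_commutatorElement]
    exact k0_comm (h a).symm (h b).symm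
  ext g
  have h2 : g ∈ φ.eqLocus ψ := by rw [h1]; exact Subgroup.mem_top g
  exact h2

theorem CrossedMod.lift_equivariant {D D' : CrossedMod} (hp : commutator D.E = ⊤)
    (μ : D.X →* D'.X) (ε : D.E →* D'.E) (h : D.Lift D' μ ε) (x : D.X) (e : D.E) :
    ε (D.act x e) = D'.act (μ x) (ε e) := by
  have h1 : ε.comp (D.act x).toMonoidHom = (D'.act (μ x)).toMonoidHom.comp ε := by
    refine CrossedMod.lift_unique hp _ _ (fun e => ?_)
    change D'.d (ε (D.act x e)) = D'.d (D'.act (μ x) (ε e))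
    rw [h, D.equivariant, D'.equivariant, h, map_mul, map_mul, map_inv]
  exact DFunLike.congr_fun h1 e

theorem CrossedMod.IsPre.range_le {p : ℕ} {D : CrossedMod} (h : D.IsPre p) (N : Subgroup D.X)
    (hN : N.Normal) (hne : N ≠ ⊥) : D.d.range ≤ N := by
  have hR : D.d.range.Normal := by
    refine ⟨?_⟩
    rintro _ ⟨e, rfl⟩ x
    exact ⟨D.act x e, D.equivariant x e⟩
  have hNR : (N ⊓ D.d.range).Normal := Subgroup.normal_inf_normal N D.d.range
  rcases h.range_min (N ⊓ D.d.range) hNR inf_le_right with h0 | h0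
  · exfalso
    apply hne
    rw [Subgroup.eq_bot_iff_forall]
    intro x hx
    have h1 : (D.act x).toMonoidHom = MonoidHom.id D.E := by
      refine CrossedMod.lift_unique h.perfect _ _ (fun e => ?_)
      change D.d (D.act x e) = D.d e
      have h2 : D.d (D.act x e) * (D.d e)⁻¹ ∈ N ⊓ D.d.range := by
        refine ⟨?_, ?_⟩
        · rw [D.equivariant]
          have h3 : x * D.d e * x⁻¹ * (D.d e)⁻¹ = x * (D.d e * x⁻¹ * (D.d e)⁻¹) := by group
          rw [h3]
          exact N.mul_mem hx (hN.conj_mem _ (N.inv_mem hx) _)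
        · exact D.d.range.mul_mem ⟨_, rfl⟩ (D.d.range.inv_mem ⟨_, rfl⟩)
      rw [h0, Subgroup.mem_bot, mul_inv_eq_one] at h2
      exact h2
    apply h.faithful
    rw [map_one]
    ext e
    exact DFunLike.congr_fun h1 e
  · rw [← h0]
    exact inf_le_left

open scoped commutatorElement in
theorem k0_range_ne {p : ℕ} {D : CrossedMod} (h : D.IsPre p) : D.d.range ≠ ⊥ := by
  intro h0
  have h1 : ∀ e, D.d e = 1 := by
    intro e
    have : D.d e ∈ D.d.range := ⟨e, rfl⟩
    rw [h0, Subgroup.mem_bot] at this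
    exact this
  have h2 : commutator D.E = ⊥ := by
    rw [eq_bot_iff, commutator_def, Subgroup.commutator_le]
    intro e _ f _
    rw [k0_comm (D := D) (e := e) (f := f) (t := 1) (u := 1) (by rw [h1, h1]) (by rw [h1, h1]),
      Subgroup.mem_bot, commutatorElement_self]
  apply h.ker_ne_bot
  rw [eq_bot_iff]
  intro e _
  have : e ∈ (⊤ : Subgroup D.E) := Subgroup.mem_top e
  rw [← h.perfect, h2] at this
  exact this

theorem k0_mem {p q : ℕ} {D D' : CrossedMod} (h : D.IsPre p)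
    (h' : D'.IsPre q) (μ : D.X ≃* D'.X) (x : D.X) (hx : x ∈ D.d.range) : μ x ∈ D'.d.range := by
  have hR : D'.d.range.Normal := by
    refine ⟨?_⟩
    rintro _ ⟨e, rfl⟩ x
    exact ⟨D'.act x e, D'.equivariant x e⟩
  have hN : (D'.d.range.comap μ.toMonoidHom).Normal := hR.comap _
  refine h.range_le _ hN ?_ hx
  intro h0
  apply k0_range_ne h'
  rw [Subgroup.eq_bot_iff_forall] at h0 ⊢
  intro y hy
  have h1 := h0 (μ.symm y) (by
    rw [Subgroup.mem_comap]
    change μ (μ.symm y) ∈ _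
    rw [MulEquiv.apply_symm_apply]
    exact hy)
  rw [← MulEquiv.apply_symm_apply μ y, h1, map_one]

theorem CrossedMod.IsPre.mem_range_iff {p q : ℕ} {D D' : CrossedMod} (h : D.IsPre p)
    (h' : D'.IsPre q) (μ : D.X ≃* D'.X) (x : D.X) : x ∈ D.d.range ↔ μ x ∈ D'.d.range := by
  refine ⟨k0_mem h h' μ x, fun hx => ?_⟩
  have := k0_mem h' h μ.symm (μ x) hx
  rwa [MulEquiv.symm_apply_apply] at this

end Pool.Agent.Helper75.MNA
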