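import Pool.Agent.Helper75.MNA.K0

set_option autoImplicit false
set_option linter.style.haveILetI false

namespace Pool.Agent.Helper75.MNA

open Subgroup Pointwise

theorem CrossedMod.exists_hom {D D' : CrossedMod} (hp : commutator D.E = ⊤)
    (μ : D.X →* D'.X) (ε : D.E →* D'.E) (h : D.Lift D' μ ε) :
    ∃ Φ : D.Grp →* D'.Grp, ∀ x, (Φ x).left = ε x.left ∧ (Φ x).right = μ x.right := by
  refine ⟨{ toFun := fun x => ⟨ε x.left, μ x.right⟩, map_one' := ?_, map_mul' := ?_ },
    fun x => ⟨rfl, rfl⟩⟩
  · ext
    · simp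
    · simp
  · intro x y
    ext
    · simp only [SemidirectProduct.mul_left, map_mul]
      rw [CrossedMod.lift_equivariant hp μ ε h]
    · simp only [SemidirectProduct.mul_right, map_mul]

end Pool.Agent.Helper75.MNA
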