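import Pool.Agent.Helper75.MNA.N1
import Pool.Agent.Helper75.MNA.K1
import Pool.Agent.Helper75.MNA.K0

set_option autoImplicit false
set_option linter.style.haveILetI false

namespace Pool.Agent.Helper75.MNA

open Subgroup Pointwise

theorem CrossedMod.k2_surj {p : ℕ} {D : CrossedMod} (hD : D.IsCanon p)
    (ν : D.X ≃* D.X) (s : D.E →* D.E) (hs : D.Lift D ν.toMonoidHom s) :
    Function.Surjective s := by
  have h := CrossedMod.cover_top hD.pre.perfect s.range (fun e => by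
    have h1 : ν.symm (D.d e) ∈ D.d.range := by
      rw [hD.pre.mem_range_iff hD.pre ν, MulEquiv.apply_symm_apply]
      exact ⟨e, rfl⟩
    obtain ⟨f, hf⟩ := h1
    refine ⟨s f, ⟨f, rfl⟩, ?_⟩
    rw [hs f, hf]
    exact ν.apply_symm_apply _)
  exact MonoidHom.range_eq_top.1 h

theorem CrossedMod.k2_hom {p : ℕ} {D D' : CrossedMod} (hD : D.IsCanon p)
    (μ : D.X ≃* D'.X) (ε : D.E →* D'.E) (hε : D.Lift D' μ.toMonoidHom ε)
    (hsurj : Function.Surjective ε) (ν : D.X ≃* D.X) (s : D.E →* D.E)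
    (hs : D.Lift D ν.toMonoidHom s) :
    ∃ Φ : D.Grp →* D'.Grp, Function.Surjective Φ ∧
      ∀ x, (Φ x).left = ε (s x.left) ∧ (Φ x).right = μ (ν x.right) := by
  obtain ⟨Φ, hΦ⟩ := CrossedMod.exists_hom (D' := D') hD.pre.perfect
    (μ.toMonoidHom.comp ν.toMonoidHom) (ε.comp s) (fun e => by
      have h1 := hε (s e)
      rw [hs e] at h1
      exact h1)
  refine ⟨Φ, ?_, hΦ⟩
  intro y
  obtain ⟨e, he⟩ := hsurj y.left
  obtain ⟨f, hf⟩ := CrossedMod.k2_surj hD ν s hs e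
  refine ⟨⟨f, ν.symm (μ.symm y.right)⟩, ?_⟩
  have h1 := hΦ ⟨f, ν.symm (μ.symm y.right)⟩
  apply SemidirectProduct.ext
  · rw [h1.1]
    show ε (s f) = y.left
    rw [hf, he]
  · rw [h1.2]
    show μ (ν (ν.symm (μ.symm y.right))) = y.right
    rw [MulEquiv.apply_symm_apply, MulEquiv.apply_symm_apply]

theorem CrossedMod.k2_refl (D : CrossedMod) :
    D.Lift D (MulEquiv.refl D.X).toMonoidHom (MonoidHom.id D.E) := fun _ => rfl

theorem CrossedMod.IsCanon.form_mem {p : ℕ} {D D' : CrossedMod} (hD : D.IsCanon p)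
    (μ : D.X ≃* D'.X) (ε : D.E →* D'.E) (hε : D.Lift D' μ.toMonoidHom ε)
    (hsurj : Function.Surjective ε) (hne : ∃ e, D.d e = 1 ∧ ε e ≠ 1) : form D'.Grp D.Grp := by
  apply (form_isFormation D'.Grp).sep (self_mem_form _)
  intro x hx
  by_contra hcon
  have key : ∀ (ν : D.X ≃* D.X) (s : D.E →* D.E), D.Lift D ν.toMonoidHom s →
      ε (s x.left) = 1 ∧ μ (ν x.right) = 1 := by
    intro ν s hs
    obtain ⟨Φ, h1, h2⟩ := CrossedMod.k2_hom hD μ ε hε hsurj ν s hs
    have h3 : Φ x = 1 := by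
      by_contra h4
      exact hcon ⟨Φ, h1, h4⟩
    rw [← (h2 x).1, ← (h2 x).2, h3]
    exact ⟨rfl, rfl⟩
  have hr : x.right = 1 := by
    have h1 := (key (MulEquiv.refl D.X) (MonoidHom.id D.E) (CrossedMod.k2_refl D)).2
    exact (map_eq_one_iff μ μ.injective).1 h1
  have hl : D.d x.left = 1 := by
    have h1 : ε x.left = 1 := (key (MulEquiv.refl D.X) (MonoidHom.id D.E) (CrossedMod.k2_refl D)).1
    have h2 := hε x.left
    rw [h1, map_one] at h2
    exact (map_eq_one_iff μ μ.injective).1 h2.symm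
  let U : Subgroup D.E :=
    { carrier := {e | D.d e = 1 ∧ ∀ (ν : D.X ≃* D.X) (s : D.E →* D.E),
        D.Lift D ν.toMonoidHom s → ε (s e) = 1}
      one_mem' := ⟨map_one _, fun ν s _ => by rw [map_one, map_one]⟩
      mul_mem' := fun {a b} ha hb => ⟨by rw [map_mul, ha.1, hb.1, one_mul], fun ν s hs => by
        rw [map_mul, map_mul, ha.2 ν s hs, hb.2 ν s hs, one_mul]⟩
      inv_mem' := fun {a} ha => ⟨by rw [map_inv, ha.1, inv_one], fun ν s hs => by
        rw [map_inv, map_inv, ha.2 ν s hs, inv_one]⟩ }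
  have hxU : x.left ∈ U := ⟨hl, fun ν s hs => (key ν s hs).1⟩
  have hU := hD.irr U (fun e he => he.1) (fun ν' s' hs' u hu => ⟨by
    rw [hs' u, hu.1, map_one], fun ν s hs => hu.2 (ν'.trans ν) (s.comp s') (fun e => by
      show D.d (s (s' e)) = ν (ν' (D.d e))
      rw [hs (s' e), hs' e]
      rfl)⟩)
  rcases hU with h | h
  · apply hx
    rw [h, Subgroup.mem_bot] at hxU
    exact SemidirectProduct.ext hxU hr
  · obtain ⟨e, he1, he2⟩ := hne
    have h1 : e ∈ U := by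
      rw [h]
      exact he1
    exact he2 (h1.2 (MulEquiv.refl D.X) (MonoidHom.id D.E) (CrossedMod.k2_refl D))

end Pool.Agent.Helper75.MNA
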