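import Pool.Agent.Helper75.MNA.K0

set_option autoImplicit false
set_option linter.style.haveILetI false

namespace Pool.Agent.Helper75.MNA

open Subgroup Pointwise

theorem k3_comm_top {G H : Type} [Group G] [Group H] (f : G →* H) (hf : Function.Surjective f)
    (hG : commutator G = ⊤) : commutator H = ⊤ := by
  have h1 : (commutator G).map f = commutator H := by
    rw [commutator_def, Subgroup.map_commutator, commutator_def]
    rw [Subgroup.map_top_of_surjective f hf]
  rw [← h1, hG, Subgroup.map_top_of_surjective f hf]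

theorem CrossedMod.IsAdmissible.pre {p : ℕ} {D : CrossedMod} (hD : D.IsAdmissible p) :
    D.IsPre p where
  prime := hD.prime
  perfect := hD.perfect
  memA := hD.memA
  faithful := hD.faithful
  ker_ne_bot := hD.ker_ne_bot
  ker_exp := hD.ker_exp
  ker_triv := hD.ker_triv
  range_min := hD.range_min

theorem CrossedMod.IsPre.quot {p : ℕ} {D : CrossedMod} (hD : D.IsPre p) (K : Subgroup D.E)
    (hK : K ≤ D.d.ker) (hinv : ∀ x, ∀ k ∈ K, D.act x k ∈ K) (hne : K ≠ D.d.ker) :
    (D.quot K hK hinv).IsPre p where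
  prime := hD.prime
  perfect := k3_comm_top (D.quotMk K hK hinv) (D.quotMk_surj K hK hinv) hD.perfect
  memA := hD.memA
  faithful := by
    rw [injective_iff_map_eq_one]
    intro x hx
    have hx' : D.act x = 1 := by
      have h1 : (D.act x).toMonoidHom = MonoidHom.id D.E := by
        apply CrossedMod.lift_unique hD.perfect (D := D)
        intro e
        have h2 : (D.quot K hK hinv).act x (D.quotMk K hK hinv e) = D.quotMk K hK hinv e := by
          rw [hx]; rfl
        have h3 := congrArg (D.quot K hK hinv).d h2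
        exact h3
      apply MulEquiv.ext
      intro e
      exact DFunLike.congr_fun h1 e
    have := hD.faithful (a₁ := x) (a₂ := 1) (by rw [hx', map_one])
    exact this
  ker_ne_bot := by
    intro hbot
    apply hne
    apply le_antisymm hK
    intro e he
    have h1 : D.quotMk K hK hinv e ∈ (D.quot K hK hinv).d.ker := by
      rw [MonoidHom.mem_ker, D.quot_d K hK hinv]
      exact he
    rw [hbot, Subgroup.mem_bot, D.quotMk_eq_one K hK hinv] at h1
    exact h1
  ker_exp := by
    intro e' he'
    obtain ⟨e, rfl⟩ := D.quotMk_surj K hK hinv e'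
    rw [MonoidHom.mem_ker, D.quot_d K hK hinv] at he'
    rw [← map_pow, hD.ker_exp e he', map_one]
  ker_triv := by
    intro x k hx e' he'
    obtain ⟨e, rfl⟩ := D.quotMk_surj K hK hinv e'
    rw [MonoidHom.mem_ker, D.quot_d K hK hinv] at he'
    refine (D.quot_act K hK hinv x e).trans ?_
    rw [hD.ker_triv x k hx e he']
  range_min := by
    have hr : (D.quot K hK hinv).d.range = D.d.range := by
      apply le_antisymm
      · rintro _ ⟨e', rfl⟩
        obtain ⟨e, rfl⟩ := D.quotMk_surj K hK hinv e'
        exact ⟨e, rfl⟩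
      · rintro _ ⟨e, rfl⟩
        exact ⟨D.quotMk K hK hinv e, rfl⟩
    intro N hN hle
    rw [hr] at hle ⊢
    exact hD.range_min N hN hle

theorem CrossedMod.IsPre.exists_adm {p : ℕ} {D : CrossedMod} (hD : D.IsPre p) :
    ∃ (K : Subgroup D.E) (hK : K ≤ D.d.ker) (hinv : ∀ x, ∀ k ∈ K, D.act x k ∈ K),
      (D.quot K hK hinv).IsAdmissible p := by
  let S : Set (Subgroup D.E) := {K | K ≤ D.d.ker ∧ (∀ x, ∀ k ∈ K, D.act x k ∈ K) ∧ K ≠ D.d.ker}
  have hfin : S.Finite := Set.toFinite S
  have hne : S.Nonempty := by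
    refine ⟨⊥, bot_le, ?_, fun h => hD.ker_ne_bot h.symm⟩
    intro x k hk
    rw [Subgroup.mem_bot] at hk ⊢
    rw [hk, map_one]
  obtain ⟨K, hKS⟩ := hfin.exists_maximal hne
  obtain ⟨hK, hinv, hKne⟩ := hKS.prop
  refine ⟨K, hK, hinv, ?_⟩
  have hpre := hD.quot K hK hinv hKne
  refine { prime := hpre.prime, perfect := hpre.perfect, memA := hpre.memA,
           faithful := hpre.faithful, ker_ne_bot := hpre.ker_ne_bot, ker_exp := hpre.ker_exp,
           ker_irr := ?_, ker_triv := hpre.ker_triv, range_min := hpre.range_min }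
  intro U hU hUinv
  let U' : Subgroup D.E := U.comap (D.quotMk K hK hinv)
  have hKU : K ≤ U' := by
    intro k hk
    show D.quotMk K hK hinv k ∈ U
    rw [(D.quotMk_eq_one K hK hinv k).2 hk]
    exact U.one_mem
  have hU'ker : U' ≤ D.d.ker := by
    intro e he
    have h1 := hU he
    rw [MonoidHom.mem_ker, D.quot_d K hK hinv] at h1
    exact h1
  by_cases hcase : U' = D.d.ker
  · right
    apply le_antisymm hU
    intro e' he'
    obtain ⟨e, rfl⟩ := D.quotMk_surj K hK hinv e'
    rw [MonoidHom.mem_ker, D.quot_d K hK hinv] at he'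
    have : e ∈ U' := by rw [hcase]; exact he'
    exact this
  · left
    have hmem : U' ∈ S := by
      refine ⟨hU'ker, ?_, hcase⟩
      intro x k hk
      show D.quotMk K hK hinv (D.act x k) ∈ U
      rw [← D.quot_act K hK hinv]
      exact hUinv x _ hk
    have hle : U' ≤ K := hKS.le_of_ge hmem hKU
    rw [eq_bot_iff]
    intro e' he'
    obtain ⟨e, rfl⟩ := D.quotMk_surj K hK hinv e'
    rw [Subgroup.mem_bot, D.quotMk_eq_one K hK hinv]
    exact hle he'

end Pool.Agent.Helper75.MNA
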