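import Pool.Agent.Helper75.MNA.CanDefs

set_option autoImplicit false
set_option linter.style.haveILetI false

namespace Pool.Agent.Helper75.MNA

open Subgroup Pointwise

theorem CrossedMod.form_quot (D : CrossedMod) (K : Subgroup D.E) (hK : K ≤ D.d.ker)
    (hinv : ∀ x, ∀ k ∈ K, D.act x k ∈ K) : form D.Grp (D.quot K hK hinv).Grp := by
  refine IsFormation.surj (form_isFormation D.Grp) (self_mem_form _)
    (SemidirectProduct.map (D.quotMk K hK hinv) (MonoidHom.id D.X) (by
      intro x
      ext e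
      rfl)) ?_
  rintro ⟨e, x⟩
  obtain ⟨e', he'⟩ := D.quotMk_surj K hK hinv e
  refine ⟨⟨e', x⟩, ?_⟩
  subst he'
  rfl

end Pool.Agent.Helper75.MNA
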