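import Pool.Agent.Helper75.MNA.K2
import Pool.Agent.Helper75.MNA.K3
import Pool.Agent.Helper75.MNA.K5
import Pool.Agent.Helper75.MNA.C7
import Pool.Agent.Helper75.MNA.K0

set_option autoImplicit false
set_option linter.style.haveILetI false

namespace Pool.Agent.Helper75.MNA

open Subgroup Pointwise

theorem k7_n_ne {q : ℕ} {D1 D' : CrossedMod} (hD' : D'.IsAdmissible q)
    (μ : Fin 0 → (D'.X ≃* D1.X)) (ε : CrossedMod.Fib D' D1 μ →* D'.E)
    (hε : ∀ z : CrossedMod.Fib D' D1 μ, D'.d (ε z) = z.1.1) : False := by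
  have hT : ε.range = ⊤ := by
    apply CrossedMod.cover_top hD'.perfect
    intro e
    refine ⟨ε ⟨(D'.d e, fun i => i.elim0), ⟨⟨e, rfl⟩, fun i => i.elim0⟩⟩, ⟨_, rfl⟩, ?_⟩
    rw [hε]
  apply hD'.ker_ne_bot
  rw [eq_bot_iff]
  intro k hk
  have hk1 : k ∈ ε.range := by rw [hT]; trivial
  obtain ⟨z, hz⟩ := hk1
  have hz1 : z.1.1 = 1 := by
    rw [← hε, hz]
    exact hk
  have hz2 : z = 1 := by
    apply Subtype.ext
    apply Prod.ext
    · exact hz1
    · funext i
      exact i.elim0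
  rw [Subgroup.mem_bot, ← hz, hz2, map_one]

theorem k7_main {p q : ℕ} {D D1 D' : CrossedMod} (hD : D.IsCanon p)
    (hadm : D1.IsAdmissible p) (ν : D.X ≃* D1.X) (g : D.E →* D1.E)
    (hg : D.Lift D1 ν.toMonoidHom g) (hgs : Function.Surjective g)
    (hD' : D'.IsAdmissible q) (h : form D.Grp D'.Grp) :
    ∃ (μ : D.X ≃* D'.X) (ε : D.E →* D'.E), D.Lift D' μ.toMonoidHom ε ∧
      Function.Surjective ε := by
  have hg' : ∀ e, D1.d (g e) = ν (D.d e) := hg
  obtain ⟨e0, he0, he0'⟩ : ∃ e, D.d e = 1 ∧ g e ≠ 1 := by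
    by_contra hcon
    push Not at hcon
    apply hadm.ker_ne_bot
    rw [eq_bot_iff]
    intro y hy
    obtain ⟨e, rfl⟩ := hgs y
    rw [MonoidHom.mem_ker, hg'] at hy
    rw [Subgroup.mem_bot]
    exact hcon e (ν.injective (by rw [hy, map_one]))
  have hform : form D1.Grp D.Grp := hD.form_mem ν g hg hgs ⟨e0, he0, he0'⟩
  have hform' : form D1.Grp D'.Grp := h _ (form_isFormation D1.Grp) hform
  obtain ⟨n, μ, ε, hε1, hε2⟩ := CrossedMod.comb_of_form hadm hD' hform'
  rcases Nat.eq_zero_or_pos n with hn | hn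
  · subst hn
    exact (k7_n_ne hD' μ ε hε1).elim
  · let μ0 : D'.X ≃* D1.X := μ ⟨0, hn⟩
    have hlift : ∀ i, ∃ s : D.E →* D.E, ∀ e, D.d (s e) =
        ν.symm (μ i (μ0.symm (ν (D.d e)))) := by
      intro i
      obtain ⟨s, hs⟩ := hD.lifts (ν.trans (μ0.symm.trans ((μ i).trans ν.symm)))
      exact ⟨s, fun e => hs e⟩
    choose s hs using hlift
    have hmem : ∀ x : D'.X, x ∈ D'.d.range ↔ μ0 x ∈ D1.d.range :=
      fun x => CrossedMod.IsPre.mem_range_iff hD'.pre hadm.pre μ0 x
    let Ψ : D.E →* CrossedMod.Fib D' D1 μ :=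
      { toFun := fun e => ⟨(μ0.symm (ν (D.d e)), fun i => g (s i e)), by
          refine ⟨?_, fun i => ?_⟩
          · show μ0.symm (ν (D.d e)) ∈ D'.d.range
            rw [hmem, MulEquiv.apply_symm_apply]
            exact ⟨g e, hg' e⟩
          · show D1.d (g (s i e)) = μ i (μ0.symm (ν (D.d e)))
            rw [hg', hs, MulEquiv.apply_symm_apply]⟩
        map_one' := by
          apply Subtype.ext
          apply Prod.ext
          · show μ0.symm (ν (D.d 1)) = 1
            rw [map_one, map_one, map_one]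
          · funext i
            show g (s i 1) = 1
            rw [map_one, map_one]
        map_mul' := by
          intro a b
          apply Subtype.ext
          apply Prod.ext
          · show μ0.symm (ν (D.d (a * b))) = μ0.symm (ν (D.d a)) * μ0.symm (ν (D.d b))
            rw [map_mul, map_mul, map_mul]
          · funext i
            show g (s i (a * b)) = g (s i a) * g (s i b)
            rw [map_mul, map_mul] }
    have hφ : ∀ e, D'.d (ε (Ψ e)) = μ0.symm (ν (D.d e)) := by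
      intro e
      rw [hε1]
      rfl
    refine ⟨ν.trans μ0.symm, ε.comp Ψ, fun e => hφ e, ?_⟩
    have hT : (ε.comp Ψ).range = ⊤ := by
      apply CrossedMod.cover_top hD'.perfect
      intro e'
      have h1 : μ0 (D'.d e') ∈ D1.d.range := (hmem _).1 ⟨e', rfl⟩
      obtain ⟨y, hy⟩ := h1
      obtain ⟨e, rfl⟩ := hgs y
      refine ⟨ε (Ψ e), ⟨e, rfl⟩, ?_⟩
      rw [hφ, ← hg', hy, MulEquiv.symm_apply_apply]
    exact MonoidHom.range_eq_top.1 hT

theorem CrossedMod.IsCanon.lift_of_form {p q : ℕ} {D D' : CrossedMod} (hD : D.IsCanon p)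
    (hD' : D'.IsAdmissible q) (h : form D.Grp D'.Grp) :
    ∃ (μ : D.X ≃* D'.X) (ε : D.E →* D'.E), D.Lift D' μ.toMonoidHom ε ∧
      Function.Surjective ε := by
  obtain ⟨K, hK, hinv, hadm⟩ := hD.pre.exists_adm
  exact k7_main (D1 := D.quot K hK hinv) hD hadm (MulEquiv.refl D.X) (D.quotMk K hK hinv)
    (fun e => D.quot_d K hK hinv e) (D.quotMk_surj K hK hinv) hD' h

end Pool.Agent.Helper75.MNA
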