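import Pool.Agent.Helper75.MNA.N1
import Pool.Agent.Helper75.MNA.K1
import Pool.Agent.Helper75.MNA.K3
import Pool.Agent.Helper75.MNA.K0

set_option autoImplicit false
set_option linter.style.haveILetI false

namespace Pool.Agent.Helper75.MNA

open Subgroup Pointwise

/-- the compatible families -/
def k8_P (D : CrossedMod) : Subgroup ((D.X ≃* D.X) → D.E) where
  carrier := {z | ∀ μ : D.X ≃* D.X, D.d (z μ) = μ (D.d (z (MulEquiv.refl _)))}
  mul_mem' := by
    intro a b ha hb μ
    have h1 := ha μ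
    have h2 := hb μ
    rw [Pi.mul_apply, Pi.mul_apply, map_mul, map_mul, map_mul, h1, h2]
  one_mem' := by
    intro μ
    simp
  inv_mem' := by
    intro a ha μ
    have h1 := ha μ
    rw [Pi.inv_apply, Pi.inv_apply, map_inv, map_inv, map_inv, h1]

theorem k8_mem_P {D : CrossedMod} {z : (D.X ≃* D.X) → D.E} (hz : z ∈ k8_P D) (μ : D.X ≃* D.X) :
    D.d (z μ) = μ (D.d (z (MulEquiv.refl _))) := hz μ

/-- the perfect core -/
def k8_E (D : CrossedMod) : Subgroup ((D.X ≃* D.X) → D.E) := ⁅k8_P D, k8_P D⁆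

theorem k8_E_le (D : CrossedMod) : k8_E D ≤ k8_P D := by
  rw [k8_E, Subgroup.commutator_le]
  intro g₁ h₁ g₂ h₂
  rw [commutatorElement_def]
  exact (k8_P D).mul_mem ((k8_P D).mul_mem ((k8_P D).mul_mem h₁ h₂) ((k8_P D).inv_mem h₁))
    ((k8_P D).inv_mem h₂)

theorem k8_map_le {D : CrossedMod} (f : ((D.X ≃* D.X) → D.E) →* ((D.X ≃* D.X) → D.E))
    (h : ∀ z ∈ k8_P D, f z ∈ k8_P D) : ∀ z ∈ k8_E D, f z ∈ k8_E D := by
  have h1 : (k8_E D).map f ≤ k8_E D := by
    rw [k8_E, Subgroup.map_commutator]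
    refine Subgroup.commutator_mono ?_ ?_
    · rintro _ ⟨z, hz, rfl⟩
      exact h z hz
    · rintro _ ⟨z, hz, rfl⟩
      exact h z hz
  intro z hz
  exact h1 ⟨z, hz, rfl⟩

/-- the action of `X` on families -/
def k8_actF (D : CrossedMod) (x : D.X) : ((D.X ≃* D.X) → D.E) →* ((D.X ≃* D.X) → D.E) where
  toFun z := fun μ => D.act (μ x) (z μ)
  map_one' := by
    funext μ
    simp
  map_mul' a b := by
    funext μ
    simp

theorem k8_actF_P (D : CrossedMod) (x : D.X) : ∀ z ∈ k8_P D, k8_actF D x z ∈ k8_P D := by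
  intro z hz μ
  show D.d (D.act (μ x) (z μ)) = μ (D.d (D.act x (z (MulEquiv.refl _))))
  rw [D.equivariant, D.equivariant, k8_mem_P hz μ, map_mul, map_mul, map_inv]

/-- the shift by an automorphism -/
def k8_sh (D : CrossedMod) (ν : D.X ≃* D.X) :
    ((D.X ≃* D.X) → D.E) →* ((D.X ≃* D.X) → D.E) where
  toFun z := fun μ => z (ν.trans μ)
  map_one' := rfl
  map_mul' _ _ := rfl

theorem k8_sh_P (D : CrossedMod) (ν : D.X ≃* D.X) : ∀ z ∈ k8_P D, k8_sh D ν z ∈ k8_P D := by
  intro z hz μ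
  show D.d (z (ν.trans μ)) = μ (D.d (z (ν.trans (MulEquiv.refl _))))
  rw [k8_mem_P hz, k8_mem_P hz (ν.trans (MulEquiv.refl _))]
  rfl

instance k8_fin (D : CrossedMod) : Finite (D.X ≃* D.X) :=
  Finite.of_injective (fun μ : D.X ≃* D.X => (μ : D.X → D.X)) DFunLike.coe_injective

/-- the covering crossed module -/
def k8_C (D : CrossedMod) : CrossedMod where
  E := k8_E D
  X := D.X
  finE := inferInstance
  act :=
    { toFun := fun x =>
        { toFun := fun z => ⟨k8_actF D x z.1, k8_map_le _ (k8_actF_P D x) z.1 z.2⟩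
          invFun := fun z => ⟨k8_actF D x⁻¹ z.1, k8_map_le _ (k8_actF_P D x⁻¹) z.1 z.2⟩
          left_inv := by
            intro z
            apply Subtype.ext
            funext μ
            show D.act (μ x⁻¹) (D.act (μ x) (z.1 μ)) = z.1 μ
            rw [map_inv, map_inv, MulAut.inv_apply_self]
          right_inv := by
            intro z
            apply Subtype.ext
            funext μ
            show D.act (μ x) (D.act (μ x⁻¹) (z.1 μ)) = z.1 μ
            rw [map_inv, map_inv, MulAut.apply_inv_self]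
          map_mul' := fun a b => by
            apply Subtype.ext
            exact map_mul (k8_actF D x) a.1 b.1 }
      map_one' := by
        apply MulEquiv.ext
        intro z
        apply Subtype.ext
        funext μ
        show D.act (μ 1) (z.1 μ) = z.1 μ
        rw [map_one, map_one]
        rfl
      map_mul' := fun x y => by
        apply MulEquiv.ext
        intro z
        apply Subtype.ext
        funext μ
        show D.act (μ (x * y)) (z.1 μ) = D.act (μ x) (D.act (μ y) (z.1 μ))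
        rw [map_mul, map_mul]
        rfl }
  d := (D.d.comp (Pi.evalMonoidHom _ (MulEquiv.refl D.X))).comp (k8_E D).subtype
  equivariant := by
    intro x e
    exact D.equivariant x (e.1 (MulEquiv.refl D.X))
  peiffer := by
    intro e f
    apply Subtype.ext
    funext μ
    show D.act (μ (D.d (e.1 (MulEquiv.refl D.X)))) (f.1 μ) = e.1 μ * f.1 μ * (e.1 μ)⁻¹
    rw [← k8_mem_P (k8_E_le D e.2) μ, D.peiffer]

theorem k8_C_d (D : CrossedMod) (z : k8_E D) :
    (k8_C D).d z = D.d (z.1 (MulEquiv.refl D.X)) := rfl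

theorem k8_C_act (D : CrossedMod) (x : D.X) (z : k8_E D) (μ : D.X ≃* D.X) :
    ((k8_C D).act x z : k8_E D).1 μ = D.act (μ x) (z.1 μ) := rfl

open scoped commutatorElement in
theorem k8_comm {D : CrossedMod} {a b c c' : D.E} (h : D.d a = D.d c) (h' : D.d b = D.d c') :
    ⁅a, b⁆ = ⁅c, c'⁆ := by
  have e1 : a * b * a⁻¹ = c * b * c⁻¹ := by rw [← D.peiffer, ← D.peiffer, h]
  have e2 : b * c⁻¹ * b⁻¹ = c' * c⁻¹ * c'⁻¹ := by rw [← D.peiffer, ← D.peiffer, h']
  calc ⁅a, b⁆ = a * b * a⁻¹ * b⁻¹ := commutatorElement_def _ _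
    _ = c * b * c⁻¹ * b⁻¹ := by rw [e1]
    _ = c * (b * c⁻¹ * b⁻¹) := by group
    _ = c * (c' * c⁻¹ * c'⁻¹) := by rw [e2]
    _ = ⁅c, c'⁆ := by rw [commutatorElement_def]; group

theorem k8_surj {p : ℕ} {D : CrossedMod} (hD : D.IsAdmissible p) (μ : D.X ≃* D.X) (e : D.E) :
    ∃ z ∈ k8_E D, z μ = e := by
  have hP : (k8_P D).map (Pi.evalMonoidHom _ μ) = ⊤ := by
    refine CrossedMod.cover_top hD.perfect _ (fun e => ?_)
    have hr : ∀ ν : D.X ≃* D.X, ∃ f : D.E, D.d f = ν (μ.symm (D.d e)) := by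
      intro ν
      have h1 : (μ.symm.trans ν) (D.d e) ∈ D.d.range :=
        (CrossedMod.IsPre.mem_range_iff hD.pre hD.pre (μ.symm.trans ν) (D.d e)).1 ⟨e, rfl⟩
      obtain ⟨f, hf⟩ := h1
      exact ⟨f, hf⟩
    choose z hz using hr
    refine ⟨z μ, ⟨z, ?_, rfl⟩, ?_⟩
    · intro ν
      rw [hz ν, hz (MulEquiv.refl _)]
      rfl
    · rw [hz μ, MulEquiv.apply_symm_apply]
  have hE : (k8_E D).map (Pi.evalMonoidHom _ μ) = ⊤ := by
    rw [k8_E, Subgroup.map_commutator, hP]
    exact hD.perfect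
  have h1 : e ∈ (k8_E D).map (Pi.evalMonoidHom _ μ) := by
    rw [hE]
    exact Subgroup.mem_top e
  obtain ⟨z, hz, hze⟩ := h1
  exact ⟨z, hz, hze⟩

open scoped commutatorElement in
theorem k8_perfect {p : ℕ} {D : CrossedMod} (hD : D.IsAdmissible p) :
    commutator (k8_E D) = ⊤ := by
  have h1 : ⁅k8_E D, k8_E D⁆ = k8_E D := by
    apply le_antisymm
    · exact Subgroup.commutator_mono (k8_E_le D) (k8_E_le D)
    · conv_lhs => rw [k8_E]
      rw [Subgroup.commutator_le]
      intro g hg g' hg'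
      obtain ⟨c, hc, hcg⟩ := k8_surj hD (MulEquiv.refl _) (g (MulEquiv.refl _))
      obtain ⟨c', hc', hcg'⟩ := k8_surj hD (MulEquiv.refl _) (g' (MulEquiv.refl _))
      have e : ⁅g, g'⁆ = ⁅c, c'⁆ := by
        funext μ
        show ⁅g μ, g' μ⁆ = ⁅c μ, c' μ⁆
        apply k8_comm
        · rw [k8_mem_P hg, k8_mem_P (k8_E_le D hc), hcg]
        · rw [k8_mem_P hg', k8_mem_P (k8_E_le D hc'), hcg']
      rw [e]
      exact Subgroup.commutator_mem_commutator hc hc'
  apply Subgroup.map_injective (k8_E D).subtype_injective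
  rw [Subgroup.map_subtype_commutator, h1, ← MonoidHom.range_eq_map, Subgroup.range_subtype]

theorem CrossedMod.IsAdmissible.exists_cover {p : ℕ} {D : CrossedMod} (hD : D.IsAdmissible p) :
    ∃ D' : CrossedMod, D'.IsPre p ∧ D'.HasLifts ∧ form D.Grp D'.Grp := by
  have hpre := hD.pre
  have hrange : (k8_C D).d.range = D.d.range := by
    ext x
    constructor
    · rintro ⟨z, hz⟩
      exact ⟨z.1 (MulEquiv.refl D.X), hz⟩
    · rintro ⟨e, he⟩
      obtain ⟨z, hz, hze⟩ := k8_surj hD (MulEquiv.refl _) e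
      refine ⟨⟨z, hz⟩, ?_⟩
      show D.d (z (MulEquiv.refl D.X)) = x
      rw [hze, he]
  refine ⟨k8_C D, ⟨hpre.prime, k8_perfect hD, hpre.memA, ?_, ?_, ?_, ?_, ?_⟩, ?_, ?_⟩
  · -- faithful
    intro x y hxy
    apply hpre.faithful
    apply MulEquiv.ext
    intro e
    obtain ⟨z, hz, hze⟩ := k8_surj hD (MulEquiv.refl _) e
    have h1 : ((k8_C D).act x ⟨z, hz⟩ : k8_E D).1 (MulEquiv.refl _) =
        ((k8_C D).act y ⟨z, hz⟩ : k8_E D).1 (MulEquiv.refl _) := by rw [hxy]
    rw [← hze]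
    exact h1
  · -- kernel nontrivial
    intro h
    apply hpre.ker_ne_bot
    rw [Subgroup.eq_bot_iff_forall] at h ⊢
    intro k hk
    obtain ⟨z, hz, hze⟩ := k8_surj hD (MulEquiv.refl _) k
    have h1 := h ⟨z, hz⟩ (by
      show D.d (z (MulEquiv.refl D.X)) = 1
      rw [hze]
      exact hk)
    have h2 : z = 1 := congrArg Subtype.val h1
    rw [← hze, h2]
    rfl
  · -- exponent
    intro z hz
    have hz0 : D.d (z.1 (MulEquiv.refl D.X)) = 1 := hz
    apply Subtype.ext
    funext μ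
    show (z.1 μ) ^ p = 1
    apply hpre.ker_exp
    show D.d (z.1 μ) = 1
    rw [k8_mem_P (k8_E_le D z.2), hz0, map_one]
  · -- trivial action
    intro x k hx z hz
    have hz0 : D.d (z.1 (MulEquiv.refl D.X)) = 1 := hz
    apply Subtype.ext
    funext μ
    show D.act (μ x) (z.1 μ) = z.1 μ
    refine hpre.ker_triv (μ x) k ?_ _ ?_
    · have hx' : ∀ y : D.X, y ^ p ^ k = 1 → (μ y) ^ p ^ k = 1 := by
        intro y hy
        rw [← map_pow, hy, map_one]
      exact hx' x hx
    · show D.d (z.1 μ) = 1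
      rw [k8_mem_P (k8_E_le D z.2), hz0, map_one]
  · -- minimality
    rw [hrange]
    exact hpre.range_min
  · -- lifts
    intro ν
    refine ⟨(((k8_sh D ν).comp (k8_E D).subtype).codRestrict (k8_E D)
      (fun z => k8_map_le _ (k8_sh_P D ν) z.1 z.2)), ?_⟩
    intro z
    have h1 : ∀ (ν : D.X ≃* D.X) (z : k8_E D),
        D.d (z.1 (ν.trans (MulEquiv.refl _))) = ν (D.d (z.1 (MulEquiv.refl _))) := by
      intro ν z
      rw [k8_mem_P (k8_E_le D z.2) (ν.trans (MulEquiv.refl _))]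
      rfl
    exact h1 ν z
  · -- formation
    have key : ∀ μ : D.X ≃* D.X, ∃ Φ : (k8_C D).Grp →* D.Grp, Function.Surjective Φ ∧
        ∀ x, (Φ x).left = (show k8_E D from x.left).1 μ ∧ (Φ x).right = μ x.right := by
      intro μ
      obtain ⟨Φ, hΦ⟩ := CrossedMod.exists_hom (D := k8_C D) (D' := D) (k8_perfect hD)
        (μ.toMonoidHom) ((Pi.evalMonoidHom _ μ).comp (k8_E D).subtype) (by
          intro z
          exact k8_mem_P (k8_E_le D z.2) μ)
      refine ⟨Φ, ?_, hΦ⟩
      intro y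
      obtain ⟨z, hz, hze⟩ := k8_surj hD μ y.left
      refine ⟨⟨⟨z, hz⟩, μ.symm y.right⟩, ?_⟩
      have h2 := hΦ ⟨⟨z, hz⟩, μ.symm y.right⟩
      apply SemidirectProduct.ext
      · rw [h2.1]
        exact hze
      · rw [h2.2]
        exact MulEquiv.apply_symm_apply μ y.right
    refine (form_isFormation D.Grp).sep (self_mem_form _) (fun x hx => ?_)
    by_cases hr : x.right = 1
    · have hl : (show k8_E D from x.left).1 ≠ 1 := by
        intro h
        apply hx
        apply SemidirectProduct.ext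
        · exact Subtype.ext h
        · exact hr
      obtain ⟨μ, hμ⟩ := Function.ne_iff.1 hl
      obtain ⟨Φ, hs, hΦ⟩ := key μ
      refine ⟨Φ, hs, fun h => hμ ?_⟩
      rw [← (hΦ x).1, h]
      rfl
    · obtain ⟨Φ, hs, hΦ⟩ := key (MulEquiv.refl _)
      refine ⟨Φ, hs, fun h => hr ?_⟩
      have h1 := (hΦ x).2
      rw [h] at h1
      exact h1.symm

end Pool.Agent.Helper75.MNA
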