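import Pool.Agent.Helper75.MNA.K3
import Pool.Agent.Helper75.MNA.K5
import Pool.Agent.Helper75.MNA.K7
import Pool.Agent.Helper75.MNA.K0

set_option autoImplicit false
set_option linter.style.haveILetI false

namespace Pool.Agent.Helper75.MNA

open Subgroup Pointwise

/-- the fibre product of two crossed modules over a third -/
def k9_P {D D' D1 : CrossedMod} (μ0 : D.X ≃* D1.X) (μ1 : D'.X ≃* D1.X) :
    Subgroup (D.E × D'.E) :=
  MonoidHom.eqLocus ((μ0.toMonoidHom.comp D.d).comp (MonoidHom.fst D.E D'.E))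
    ((μ1.toMonoidHom.comp D'.d).comp (MonoidHom.snd D.E D'.E))

theorem k9_mem_P {D D' D1 : CrossedMod} {μ0 : D.X ≃* D1.X} {μ1 : D'.X ≃* D1.X}
    {z : D.E × D'.E} : z ∈ k9_P μ0 μ1 ↔ μ0 (D.d z.1) = μ1 (D'.d z.2) := Iff.rfl

theorem k9_mapfst_P {p q : ℕ} {D D' D1 : CrossedMod} (hD : D.IsPre p) (hD' : D'.IsPre q)
    (μ0 : D.X ≃* D1.X) (μ1 : D'.X ≃* D1.X) :
    (k9_P μ0 μ1).map (MonoidHom.fst D.E D'.E) = ⊤ := by
  rw [eq_top_iff]
  intro e _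
  have h : (μ0.trans μ1.symm) (D.d e) ∈ D'.d.range := (hD.mem_range_iff hD' _ _).1 ⟨e, rfl⟩
  obtain ⟨e', he'⟩ := h
  refine ⟨(e, e'), ?_, rfl⟩
  rw [SetLike.mem_coe, k9_mem_P]
  show μ0 (D.d e) = μ1 (D'.d e')
  rw [he']
  exact (μ1.apply_symm_apply _).symm

/-- the perfect residual of the fibre product -/
def k9_R {D D' D1 : CrossedMod} (μ0 : D.X ≃* D1.X) (μ1 : D'.X ≃* D1.X) :
    Subgroup (D.E × D'.E) := ⁅k9_P μ0 μ1, k9_P μ0 μ1⁆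

theorem k9_R_le_P {D D' D1 : CrossedMod} (μ0 : D.X ≃* D1.X) (μ1 : D'.X ≃* D1.X) :
    k9_R μ0 μ1 ≤ k9_P μ0 μ1 := Subgroup.commutator_le_self _

theorem k9_mapfst_R {p q : ℕ} {D D' D1 : CrossedMod} (hD : D.IsPre p) (hD' : D'.IsPre q)
    (μ0 : D.X ≃* D1.X) (μ1 : D'.X ≃* D1.X) :
    (k9_R μ0 μ1).map (MonoidHom.fst D.E D'.E) = ⊤ := by
  rw [k9_R, map_commutator, k9_mapfst_P hD hD', ← commutator_def]
  exact hD.perfect

theorem k9_swap {D D' D1 : CrossedMod} {μ0 : D.X ≃* D1.X} {μ1 : D'.X ≃* D1.X}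
    {z : D.E × D'.E} (hz : z ∈ k9_R μ0 μ1) : (z.2, z.1) ∈ k9_R μ1 μ0 := by
  have h1 : (k9_P μ0 μ1).map
      ((MonoidHom.snd D.E D'.E).prod (MonoidHom.fst D.E D'.E)) ≤ k9_P μ1 μ0 := by
    rintro _ ⟨w, hw, rfl⟩
    have hw' : μ0 (D.d w.1) = μ1 (D'.d w.2) := hw
    exact hw'.symm
  have h2 : (k9_R μ0 μ1).map
      ((MonoidHom.snd D.E D'.E).prod (MonoidHom.fst D.E D'.E)) ≤ k9_R μ1 μ0 := by
    rw [k9_R, map_commutator]
    exact commutator_mono h1 h1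
  exact h2 ⟨z, hz, rfl⟩

theorem k9_perfect {p q : ℕ} {D D' D1 : CrossedMod} (hD : D.IsPre p) (hD' : D'.IsPre q)
    (μ0 : D.X ≃* D1.X) (μ1 : D'.X ≃* D1.X) : commutator ↥(k9_R μ0 μ1) = ⊤ := by
  have hfst : ∀ z : D.E × D'.E, z ∈ k9_P μ0 μ1 → ∃ r ∈ k9_R μ0 μ1,
      ∃ c : D.E × D'.E, (∀ x, c * x = x * c) ∧ z = r * c := by
    intro z hz
    have h1 : z.1 ∈ (k9_R μ0 μ1).map (MonoidHom.fst D.E D'.E) := by
      rw [k9_mapfst_R hD hD']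
      exact mem_top _
    obtain ⟨r, hr, hrz⟩ := h1
    have hrz' : r.1 = z.1 := hrz
    refine ⟨r, hr, r⁻¹ * z, ?_, by group⟩
    have hc : r⁻¹ * z ∈ k9_P μ0 μ1 := mul_mem (inv_mem (k9_R_le_P _ _ hr)) hz
    have hc1 : (r⁻¹ * z).1 = 1 := by
      show r.1⁻¹ * z.1 = 1
      rw [hrz', inv_mul_cancel]
    have hc2 : D'.d (r⁻¹ * z).2 = 1 := by
      have h3 := k9_mem_P.1 hc
      rw [hc1, map_one, map_one] at h3
      exact (MulEquiv.map_eq_one_iff μ1).1 h3.symm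
    intro x
    refine Prod.ext ?_ ?_
    · show (r⁻¹ * z).1 * x.1 = x.1 * (r⁻¹ * z).1
      rw [hc1, one_mul, mul_one]
    · show (r⁻¹ * z).2 * x.2 = x.2 * (r⁻¹ * z).2
      exact CrossedMod.ker_comm hc2 _
  have key : k9_R μ0 μ1 ≤ ⁅k9_R μ0 μ1, k9_R μ0 μ1⁆ := by
    conv_lhs => rw [k9_R]
    rw [commutator_le]
    intro z hz w hw
    obtain ⟨r, hr, c, hc, rfl⟩ := hfst z hz
    obtain ⟨s, hs, e, he, rfl⟩ := hfst w hw
    have h5 : r * c * (s * e) * (r * c)⁻¹ * (s * e)⁻¹ = r * s * r⁻¹ * s⁻¹ := by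
      calc r * c * (s * e) * (r * c)⁻¹ * (s * e)⁻¹
          = r * (c * (s * e)) * c⁻¹ * r⁻¹ * e⁻¹ * s⁻¹ := by group
        _ = r * ((s * e) * c) * c⁻¹ * r⁻¹ * e⁻¹ * s⁻¹ := by rw [hc]
        _ = r * s * (e * r⁻¹) * e⁻¹ * s⁻¹ := by group
        _ = r * s * (r⁻¹ * e) * e⁻¹ * s⁻¹ := by rw [he]
        _ = r * s * r⁻¹ * s⁻¹ := by group
    rw [commutatorElement_def, h5, ← commutatorElement_def]
    exact commutator_mem_commutator hr hs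
  apply map_injective (k9_R μ0 μ1).subtype_injective
  rw [map_subtype_commutator, ← MonoidHom.range_eq_map, Subgroup.range_subtype]
  exact le_antisymm (Subgroup.commutator_le_self _) key

theorem k9_agree {p q : ℕ} {D D' D1 : CrossedMod} (hD : D.IsPre p) (hD' : D'.IsPre q)
    {μ0 : D.X ≃* D1.X} {μ1 : D'.X ≃* D1.X} {ε0 : D.E →* D1.E} {ε1 : D'.E →* D1.E}
    (h0 : D.Lift D1 μ0.toMonoidHom ε0) (h1 : D'.Lift D1 μ1.toMonoidHom ε1)
    {z : D.E × D'.E} (hz : z ∈ k9_R μ0 μ1) : ε0 z.1 = ε1 z.2 := by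
  have h2 := CrossedMod.lift_unique (k9_perfect hD hD' μ0 μ1) (D := D1)
    ((ε0.comp (MonoidHom.fst D.E D'.E)).comp (k9_R μ0 μ1).subtype)
    ((ε1.comp (MonoidHom.snd D.E D'.E)).comp (k9_R μ0 μ1).subtype) (fun g => by
      show D1.d (ε0 g.1.1) = D1.d (ε1 g.1.2)
      rw [h0, h1]
      exact k9_mem_P.1 (k9_R_le_P _ _ g.2))
  exact DFunLike.congr_fun h2 ⟨z, hz⟩

theorem k9_trivial {p q : ℕ} {D D' D1 : CrossedMod} (hD : D.IsCanon p) (hD' : D'.IsCanon q)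
    {μ0 : D.X ≃* D1.X} {μ1 : D'.X ≃* D1.X} {ε0 : D.E →* D1.E} {ε1 : D'.E →* D1.E}
    (h0 : D.Lift D1 μ0.toMonoidHom ε0) (h1 : D'.Lift D1 μ1.toMonoidHom ε1)
    (hε0 : Function.Surjective ε0) (hne : D1.d.ker ≠ ⊥)
    {e : D.E} (he : (e, (1 : D'.E)) ∈ k9_R μ0 μ1) : e = 1 := by
  have hR1 : (k9_R μ0 μ1).comap (MonoidHom.inl D.E D'.E) ≤ D.d.ker := by
    intro u hu
    have h3 : μ0 (D.d u) = μ1 (D'.d 1) := k9_mem_P.1 (k9_R_le_P _ _ hu)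
    rw [map_one, map_one] at h3
    exact (MulEquiv.map_eq_one_iff μ0).1 h3
  have hst : ∀ (μ : D.X ≃* D.X) (ε : D.E →* D.E), D.Lift D μ.toMonoidHom ε →
      ∀ u ∈ (k9_R μ0 μ1).comap (MonoidHom.inl D.E D'.E),
        ε u ∈ (k9_R μ0 μ1).comap (MonoidHom.inl D.E D'.E) := by
    intro μ ε hε u hu
    obtain ⟨s', hs'⟩ := hD'.lifts ((μ1.trans μ0.symm).trans (μ.trans (μ0.trans μ1.symm)))
    have hP : (k9_P μ0 μ1).map (ε.prodMap s') ≤ k9_P μ0 μ1 := by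
      rintro _ ⟨z, hz, rfl⟩
      have hz' : μ0 (D.d z.1) = μ1 (D'.d z.2) := hz
      show μ0 (D.d (ε z.1)) = μ1 (D'.d (s' z.2))
      rw [hε, hs']
      show μ0 (μ (D.d z.1)) = μ1 (μ1.symm (μ0 (μ (μ0.symm (μ1 (D'.d z.2))))))
      rw [μ1.apply_symm_apply, ← hz', μ0.symm_apply_apply]
    have hR : (k9_R μ0 μ1).map (ε.prodMap s') ≤ k9_R μ0 μ1 := by
      rw [k9_R, map_commutator]
      exact commutator_mono hP hP
    have h4 : (ε u, s' 1) ∈ k9_R μ0 μ1 := hR ⟨(u, 1), hu, rfl⟩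
    rw [map_one] at h4
    exact h4
  rcases hD.irr _ hR1 hst with h | h
  · have h5 : e ∈ (k9_R μ0 μ1).comap (MonoidHom.inl D.E D'.E) := he
    rw [h] at h5
    exact mem_bot.1 h5
  · exfalso
    apply hne
    rw [eq_bot_iff]
    intro k hk
    obtain ⟨u, rfl⟩ := hε0 k
    have hu : u ∈ D.d.ker := by
      rw [MonoidHom.mem_ker] at hk ⊢
      rw [h0 u] at hk
      exact (MulEquiv.map_eq_one_iff μ0).1 hk
    rw [← h] at hu
    have h6 : ε0 u = ε1 1 := k9_agree hD.pre hD'.pre h0 h1 (z := (u, 1)) hu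
    rw [map_one] at h6
    exact mem_bot.2 h6

theorem k9_core {p q : ℕ} {D D' D1 : CrossedMod} (hD : D.IsCanon p) (hD' : D'.IsCanon q)
    {μ0 : D.X ≃* D1.X} {μ1 : D'.X ≃* D1.X} {ε0 : D.E →* D1.E} {ε1 : D'.E →* D1.E}
    (h0 : D.Lift D1 μ0.toMonoidHom ε0) (h1 : D'.Lift D1 μ1.toMonoidHom ε1)
    (hε0 : Function.Surjective ε0) (hε1 : Function.Surjective ε1) (hne : D1.d.ker ≠ ⊥) :
    ∃ (μ : D.X ≃* D'.X) (ε : D.E ≃* D'.E), D.Lift D' μ.toMonoidHom ε.toMonoidHom := by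
  have hb1 : Function.Bijective ((MonoidHom.fst D.E D'.E).comp (k9_R μ0 μ1).subtype) := by
    constructor
    · intro x y hxy
      have hxy' : x.1.1 = y.1.1 := hxy
      have h3 : (x.1⁻¹ * y.1) ∈ k9_R μ0 μ1 := mul_mem (inv_mem x.2) y.2
      have h4 := k9_swap h3
      have h5 : (x.1⁻¹ * y.1).1 = 1 := by
        show x.1.1⁻¹ * y.1.1 = 1
        rw [hxy', inv_mul_cancel]
      rw [h5] at h4
      have h6 := k9_trivial hD' hD h1 h0 hε1 hne h4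
      have h7 : x.1⁻¹ * y.1 = 1 := Prod.ext h5 h6
      exact Subtype.ext (inv_mul_eq_one.1 h7)
    · intro e
      have h3 : e ∈ (k9_R μ0 μ1).map (MonoidHom.fst D.E D'.E) := by
        rw [k9_mapfst_R hD.pre hD'.pre]
        exact mem_top _
      obtain ⟨r, hr, hre⟩ := h3
      exact ⟨⟨r, hr⟩, hre⟩
  have hb2 : Function.Bijective ((MonoidHom.snd D.E D'.E).comp (k9_R μ0 μ1).subtype) := by
    constructor
    · intro x y hxy
      have hxy' : x.1.2 = y.1.2 := hxy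
      have h3 : (x.1⁻¹ * y.1) ∈ k9_R μ0 μ1 := mul_mem (inv_mem x.2) y.2
      have h5 : (x.1⁻¹ * y.1).2 = 1 := by
        show x.1.2⁻¹ * y.1.2 = 1
        rw [hxy', inv_mul_cancel]
      have h4 : ((x.1⁻¹ * y.1).1, (1 : D'.E)) ∈ k9_R μ0 μ1 := by
        rw [← h5]
        exact h3
      have h6 := k9_trivial hD hD' h0 h1 hε0 hne h4
      have h7 : x.1⁻¹ * y.1 = 1 := Prod.ext h6 h5
      exact Subtype.ext (inv_mul_eq_one.1 h7)
    · intro e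
      have h3 : e ∈ (k9_R μ1 μ0).map (MonoidHom.fst D'.E D.E) := by
        rw [k9_mapfst_R hD'.pre hD.pre]
        exact mem_top _
      obtain ⟨r, hr, hre⟩ := h3
      exact ⟨⟨(r.2, r.1), k9_swap hr⟩, hre⟩
  refine ⟨μ0.trans μ1.symm,
    (MulEquiv.ofBijective _ hb1).symm.trans (MulEquiv.ofBijective _ hb2), ?_⟩
  intro e
  obtain ⟨r, hr⟩ := (MulEquiv.ofBijective _ hb1).surjective e
  subst hr
  show D'.d ((MulEquiv.ofBijective _ hb2) ((MulEquiv.ofBijective _ hb1).symm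
    ((MulEquiv.ofBijective _ hb1) r))) = μ1.symm (μ0 (D.d ((MulEquiv.ofBijective _ hb1) r)))
  rw [MulEquiv.symm_apply_apply]
  show D'.d r.1.2 = μ1.symm (μ0 (D.d r.1.1))
  rw [k9_mem_P.1 (k9_R_le_P _ _ r.2), MulEquiv.symm_apply_apply]

theorem CrossedMod.IsCanon.iso_of_form {p q : ℕ} {D D' : CrossedMod} (hD : D.IsCanon p)
    (hD' : D'.IsCanon q) (h : form D'.Grp D.Grp) :
    ∃ (μ : D.X ≃* D'.X) (ε : D.E ≃* D'.E), D.Lift D' μ.toMonoidHom ε.toMonoidHom := by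
  obtain ⟨K, hK, hinv, hadm⟩ := hD.pre.exists_adm
  have h2 : form D'.Grp (D.quot K hK hinv).Grp := fun F hF hFD' =>
    CrossedMod.form_quot D K hK hinv F hF (h F hF hFD')
  obtain ⟨μ1, ε1, h1, hε1⟩ := hD'.lift_of_form hadm h2
  exact k9_core (D1 := D.quot K hK hinv) hD hD' (μ0 := MulEquiv.refl D.X) (μ1 := μ1)
    (ε0 := D.quotMk K hK hinv) (ε1 := ε1) (fun e => rfl) h1
    (D.quotMk_surj K hK hinv) hε1 hadm.ker_ne_bot

end Pool.Agent.Helper75.MNA
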