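import Pool.Agent.Helper75.MNA.CanDefs

set_option autoImplicit false
set_option linter.style.haveILetI false

namespace Pool.Agent.Helper75.MNA

open Subgroup Pointwise

/-- A finite group with enough homomorphisms onto `A` is in every formation that contains `A`. -/
theorem IsFormation.sep {F : GroupClass} (hF : IsFormation F) {G A : Type} [Group G] [Finite G]
    [Group A] (hA : F A)
    (h : ∀ x : G, x ≠ 1 → ∃ Φ : G →* A, Function.Surjective Φ ∧ Φ x ≠ 1) : F G := by
  by_cases ht : ∀ x : G, x = 1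
  · exact hF.trivial_mem ht
  · push Not at ht
    obtain ⟨x0, hx0⟩ := ht
    obtain ⟨Φ0, h0, _⟩ := h x0 hx0
    have hall : ∀ x : G, ∃ Φ : G →* A, Function.Surjective Φ ∧ (x ≠ 1 → Φ x ≠ 1) := by
      intro x
      by_cases hx : x = 1
      · exact ⟨Φ0, h0, fun hc => absurd hx hc⟩
      · obtain ⟨Φ, h1, h2⟩ := h x hx
        exact ⟨Φ, h1, fun _ => h2⟩
    choose Φ hΦ1 hΦ2 using hall
    obtain ⟨n, ⟨e⟩⟩ := Finite.exists_equiv_fin G
    refine hF.subdirect_fin n (A := fun _ => A) (fun i => Φ (e.symm i)) (fun i => hΦ1 _)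
      (fun _ => hA) ?_
    intro x hx
    by_contra hc
    have := hx (e x)
    rw [e.symm_apply_apply] at this
    exact hΦ2 x hc this

end Pool.Agent.Helper75.MNA
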