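import Pool.Agent.Helper75.MNA.CanDefs

set_option autoImplicit false
set_option linter.style.haveILetI false

namespace Pool.Agent.Helper75.MNA

open Subgroup Pointwise

theorem Pairing.IsAdmissible.pre {p : ℕ} {D : Pairing} (hD : D.IsAdmissible p) : D.IsPre p := by
  refine ⟨hD.prime, hD.coprime, hD.memA, hD.expV, hD.expW, hD.expM, hD.irrV, hD.irrW, hD.nonzero,
    hD.faithful, ?_⟩
  intro U hU
  set U0 : AddSubgroup D.M := AddSubgroup.closure {m | ∃ v w, D.β v w = m} with hU0
  have hinv : ∀ (h : D.H), ∀ u ∈ U0, D.actM h u ∈ U0 := by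
    intro h u hu
    have hle : U0 ≤ U0.comap (D.actM h) := by
      rw [hU0, AddSubgroup.closure_le]
      rintro m ⟨v, w, rfl⟩
      show D.actM h (D.β v w) ∈ U0
      rw [← D.equivariant]
      exact AddSubgroup.subset_closure ⟨_, _, rfl⟩
    exact hle hu
  rcases hD.irrM.2 U0 hinv with h | h
  · exfalso
    apply hD.nonzero
    ext v w
    have h1 : D.β v w ∈ U0 := AddSubgroup.subset_closure ⟨_, _, rfl⟩
    rw [h] at h1
    exact (AddSubgroup.mem_bot).1 h1
  · rw [eq_top_iff, ← h, hU0, AddSubgroup.closure_le]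
    rintro m ⟨v, w, rfl⟩
    exact hU v w

theorem Pairing.IsPre.quot {p : ℕ} {D : Pairing} (hD : D.IsPre p) (K : AddSubgroup D.M)
    (hK : ∀ h, ∀ m ∈ K, D.actM h m ∈ K) (hne : K ≠ ⊤) : (D.quot K hK).IsPre p := by
  refine ⟨hD.prime, hD.coprime, hD.memA, hD.expV, hD.expW, ?_, hD.irrV, hD.irrW, ?_,
    hD.faithful, ?_⟩
  · intro m
    have h1 : ∀ m : D.M ⧸ K, p • m = 0 := by
      intro m
      induction m using QuotientAddGroup.induction_on with
      | _ m =>
        rw [← QuotientAddGroup.mk_nsmul, hD.expM]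
        rfl
    exact h1 m
  · intro h0
    apply hne
    apply hD.span K
    intro v w
    rw [← QuotientAddGroup.eq_zero_iff, ← D.quot_β K hK, h0]
    rfl
  · intro U hU
    let mk : D.M →+ (D.quot K hK).M := QuotientAddGroup.mk' K
    have hmk : Function.Surjective mk := QuotientAddGroup.mk'_surjective K
    have h1 : U.comap mk = ⊤ := hD.span _ (fun v w => hU v w)
    rw [eq_top_iff]
    intro x _
    obtain ⟨m, rfl⟩ := hmk x
    have h2 : m ∈ U.comap mk := by
      rw [h1]
      exact AddSubgroup.mem_top m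
    exact h2

theorem Pairing.IsPre.exists_adm {p : ℕ} {D : Pairing} (hD : D.IsPre p) :
    ∃ (K : AddSubgroup D.M) (hK : ∀ h, ∀ m ∈ K, D.actM h m ∈ K),
      (D.quot K hK).IsAdmissible p := by
  classical
  let S : Set (AddSubgroup D.M) := {K | (∀ h, ∀ m ∈ K, D.actM h m ∈ K) ∧ K ≠ ⊤}
  have hfin : S.Finite := Set.toFinite S
  have hne : S.Nonempty := by
    refine ⟨⊥, ?_, ?_⟩
    · intro h m hm
      rw [AddSubgroup.mem_bot] at hm
      rw [hm, map_zero]
      exact AddSubgroup.zero_mem _
    · intro h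
      apply hD.nonzero
      ext v w
      have h1 : D.β v w ∈ (⊥ : AddSubgroup D.M) := by
        rw [h]
        exact AddSubgroup.mem_top _
      exact AddSubgroup.mem_bot.1 h1
  obtain ⟨K, hKmax⟩ := hfin.exists_maximal hne
  obtain ⟨hK, hKt⟩ := hKmax.prop
  refine ⟨K, hK, ?_⟩
  have hq := hD.quot K hK hKt
  refine ⟨hq.prime, hq.coprime, hq.memA, hq.expV, hq.expW, hq.expM, hq.irrV, hq.irrW, ?_,
    hq.nonzero, hq.faithful⟩
  let mk : D.M →+ (D.quot K hK).M := QuotientAddGroup.mk' K
  have hmk : Function.Surjective mk := QuotientAddGroup.mk'_surjective K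
  have hmk0 : ∀ m, mk m = 0 ↔ m ∈ K := fun m => QuotientAddGroup.eq_zero_iff m
  have hmka : ∀ h m, (D.quot K hK).actM h (mk m) = mk (D.actM h m) := fun h m => rfl
  refine ⟨?_, ?_⟩
  · by_contra hnt
    rw [not_nontrivial_iff_subsingleton] at hnt
    apply hKt
    rw [eq_top_iff]
    intro m _
    rw [← hmk0]
    exact Subsingleton.elim _ _
  · intro U hU
    by_cases hUt : U.comap mk = ⊤
    · right
      rw [eq_top_iff]
      intro x _
      obtain ⟨m, rfl⟩ := hmk x
      have h2 : m ∈ U.comap mk := by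
        rw [hUt]
        exact AddSubgroup.mem_top m
      exact h2
    · left
      have hle : K ≤ U.comap mk := by
        intro m hm
        show mk m ∈ U
        rw [(hmk0 m).2 hm]
        exact U.zero_mem
      have hS : U.comap mk ∈ S := by
        refine ⟨?_, hUt⟩
        intro h m hm
        exact hU h _ hm
      have heq : U.comap mk ≤ K := hKmax.le_of_ge hS hle
      rw [eq_bot_iff]
      intro x hx
      obtain ⟨m, rfl⟩ := hmk x
      rw [AddSubgroup.mem_bot, hmk0]
      exact heq hx

end Pool.Agent.Helper75.MNA
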