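import Pool.Agent.Helper75.MNA.CanDefs
import Pool.Agent.Helper75.MNA.C1

set_option autoImplicit false
set_option linter.style.haveILetI false

namespace Pool.Agent.Helper75.MNA

open Subgroup Pointwise

theorem Pairing.form_quot (D : Pairing) (K : AddSubgroup D.M)
    (hK : ∀ h, ∀ m ∈ K, D.actM h m ∈ K) : form D.Grp (D.quot K hK).Grp := by
  haveI : Finite D.Grp := inferInstance
  refine IsFormation.surj (form_isFormation D.Grp) (self_mem_form _)
    (c1_map D (D.quot K hK) (MonoidHom.id _) (AddMonoidHom.id _) (AddMonoidHom.id _)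
      (QuotientAddGroup.mk' K) (fun _ _ => rfl) (fun _ _ => rfl) (fun _ _ => rfl)
      (fun _ _ => rfl)) ?_
  rintro ⟨⟨v, w, m⟩, h⟩
  obtain ⟨m', hm'⟩ := QuotientAddGroup.mk'_surjective K m
  refine ⟨⟨⟨v, w, m'⟩, h⟩, ?_⟩
  subst hm'
  rfl

end Pool.Agent.Helper75.MNA
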