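import Pool.Agent.Helper75.MNA.CanDefs
import Pool.Agent.Helper75.MNA.C1

set_option autoImplicit false
set_option linter.style.haveILetI false

namespace Pool.Agent.Helper75.MNA

open Subgroup Pointwise

theorem n2_equiv {D D' : Pairing}
    (hspan : ∀ U : AddSubgroup D.M, (∀ v w, D.β v w ∈ U) → U = ⊤)
    (γ : Tri D.base D'.base) (t : D.M →+ D'.M) (ht : D.Lift D' γ t) (h : D.H) (m : D.M) :
    t (D.actM h m) = D'.actM (γ.l h) (t m) := by
  let f : D.M →+ D'.M := t.comp (D.actM h) - (D'.actM (γ.l h) : D'.M →+ D'.M).comp t
  have h1 : f.ker = ⊤ := by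
    apply hspan
    intro v w
    rw [AddMonoidHom.mem_ker]
    show t (D.actM h (D.β v w)) - D'.actM (γ.l h) (t (D.β v w)) = 0
    rw [sub_eq_zero, ← D.equivariant, ht, ht, Tri.pull_apply, Tri.pull_apply]
    have h2 := γ.map_act h v w
    have h3 : γ.map (D.actV h v, D.actW h w) =
      (D'.actV (γ.l h) (γ.map (v, w)).1, D'.actW (γ.l h) (γ.map (v, w)).2) := h2
    rw [h3]
    exact D'.equivariant (γ.l h) _ _
  have h4 : m ∈ f.ker := by
    rw [h1]
    exact AddSubgroup.mem_top m
  have h5 : t (D.actM h m) - D'.actM (γ.l h) (t m) = 0 := (AddMonoidHom.mem_ker).1 h4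
  exact sub_eq_zero.1 h5

/-- Compatible maps induce a homomorphism of the groups of the pairings. -/
theorem Pairing.exists_hom {D D' : Pairing}
    (hspan : ∀ U : AddSubgroup D.M, (∀ v w, D.β v w ∈ U) → U = ⊤)
    (γ : Tri D.base D'.base) (t : D.M →+ D'.M) (ht : D.Lift D' γ t) :
    (∀ h m, t (D.actM h m) = D'.actM (γ.l h) (t m)) ∧
    ∃ Φ : D.Grp →* D'.Grp, (Function.Surjective t → Function.Surjective Φ) ∧
      ∀ x, Φ x = 1 ↔ x ∈ D.zM ∧ t x.left.m = 0 := by
  have heq : ∀ h m, t (D.actM h m) = D'.actM (γ.l h) (t m) := n2_equiv hspan γ t ht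
  refine ⟨heq, ?_⟩
  cases γ with
  | straight l a b ha hb =>
    refine ⟨c1_map D D' l.toMonoidHom a.toAddMonoidHom b.toAddMonoidHom t ha hb heq ht, ?_, ?_⟩
    · intro hs y
      obtain ⟨m, hm⟩ := hs y.left.m
      refine ⟨⟨⟨a.symm y.left.v, b.symm y.left.w, m⟩, l.symm y.right⟩, ?_⟩
      refine SemidirectProduct.ext ?_ ?_
      · refine Heis.ext ?_ ?_ ?_
        · exact a.apply_symm_apply _
        · exact b.apply_symm_apply _
        · exact hm
      · exact l.apply_symm_apply _
    · intro x
      constructor
      · intro hx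
        have h1 : a x.left.v = 0 := congrArg (fun z : D'.Grp => z.left.v) hx
        have h2 : b x.left.w = 0 := congrArg (fun z : D'.Grp => z.left.w) hx
        have h3 : t x.left.m = 0 := congrArg (fun z : D'.Grp => z.left.m) hx
        have h4 : l x.right = 1 := congrArg (fun z : D'.Grp => z.right) hx
        refine ⟨⟨?_, ?_, ?_⟩, h3⟩
        · exact a.map_eq_zero_iff.1 h1
        · exact b.map_eq_zero_iff.1 h2
        · exact l.map_eq_one_iff.1 h4
      · rintro ⟨⟨h1, h2, h3⟩, h4⟩
        refine SemidirectProduct.ext ?_ ?_
        · refine Heis.ext ?_ ?_ ?_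
          · show a x.left.v = 0
            rw [h1]
            exact map_zero a
          · show b x.left.w = 0
            rw [h2]
            exact map_zero b
          · exact h4
        · show l x.right = 1
          rw [h3]
          exact map_one l
  | swapped l a b ha hb =>
    refine ⟨c1_swap D D' l.toMonoidHom a.toAddMonoidHom b.toAddMonoidHom (-t) ha hb ?_ ?_, ?_, ?_⟩
    · intro h m
      show -(t (D.actM h m)) = D'.actM (l h) (-(t m))
      rw [map_neg]
      exact congrArg Neg.neg (heq h m)
    · intro v w
      show -(t (D.β v w)) = -(D'.β (b w) (a v))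
      exact congrArg Neg.neg (ht v w)
    · intro hs y
      obtain ⟨m, hm⟩ := hs (D'.β y.left.v y.left.w - y.left.m)
      refine ⟨⟨⟨a.symm y.left.w, b.symm y.left.v, m⟩, l.symm y.right⟩, ?_⟩
      refine SemidirectProduct.ext ?_ ?_
      · refine Heis.ext ?_ ?_ ?_
        · exact b.apply_symm_apply _
        · exact a.apply_symm_apply _
        · show -(t m) + D'.β (b (b.symm y.left.v)) (a (a.symm y.left.w)) = y.left.m
          have e1 : b (b.symm y.left.v) = y.left.v := b.apply_symm_apply _
          have e2 : a (a.symm y.left.w) = y.left.w := a.apply_symm_apply _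
          rw [e1, e2, hm]
          abel
      · exact l.apply_symm_apply _
    · intro x
      constructor
      · intro hx
        have h1 : b x.left.w = 0 := congrArg (fun z : D'.Grp => z.left.v) hx
        have h2 : a x.left.v = 0 := congrArg (fun z : D'.Grp => z.left.w) hx
        have h3 : -(t x.left.m) + D'.β (b x.left.w) (a x.left.v) = 0 :=
          congrArg (fun z : D'.Grp => z.left.m) hx
        have h4 : l x.right = 1 := congrArg (fun z : D'.Grp => z.right) hx
        refine ⟨⟨?_, ?_, ?_⟩, ?_⟩
        · exact a.map_eq_zero_iff.1 h2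
        · exact b.map_eq_zero_iff.1 h1
        · exact l.map_eq_one_iff.1 h4
        · have h5 : D'.β (b x.left.w) (a x.left.v) = 0 := by
            have e1 : D'.β (b x.left.w) = 0 := by
              have e2 : D'.β (b x.left.w) = D'.β 0 := congrArg (fun z => D'.β z) h1
              rw [e2, map_zero]
            rw [e1]
            rfl
          rw [h5, add_zero, neg_eq_zero] at h3
          exact h3
      · rintro ⟨⟨h1, h2, h3⟩, h4⟩
        refine SemidirectProduct.ext ?_ ?_
        · refine Heis.ext ?_ ?_ ?_
          · show b x.left.w = 0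
            rw [h2]
            exact map_zero b
          · show a x.left.v = 0
            rw [h1]
            exact map_zero a
          · show -(t x.left.m) + D'.β (b x.left.w) (a x.left.v) = 0
            have e0 : b x.left.w = 0 := by
              rw [h2]
              exact map_zero b
            have e1 : D'.β (b x.left.w) = 0 := by
              have e2 : D'.β (b x.left.w) = D'.β 0 := congrArg (fun z => D'.β z) e0
              rw [e2, map_zero]
            rw [h4, e1, neg_zero, zero_add]
            rfl
        · show l x.right = 1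
          rw [h3]
          exact map_one l

end Pool.Agent.Helper75.MNA
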