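import Pool.Agent.Helper75.MNA.N1
import Pool.Agent.Helper75.MNA.N2

set_option autoImplicit false
set_option linter.style.haveILetI false

namespace Pool.Agent.Helper75.MNA

open Subgroup Pointwise

theorem n3_lift_trans {D D' D'' : Pairing} (γ : Tri D.base D'.base) (δ : Tri D'.base D''.base)
    (t : D.M →+ D'.M) (s : D'.M →+ D''.M) (ht : D.Lift D' γ t) (hs : D'.Lift D'' δ s) :
    D.Lift D'' (γ.trans δ) (s.comp t) := by
  intro v w
  rw [AddMonoidHom.comp_apply, ht v w, Tri.pull_apply, Tri.pull_apply, Tri.map_trans]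
  rw [hs, Tri.pull_apply]

theorem n3_lift_refl (D : Pairing) : D.Lift D (Tri.refl D.base) (AddMonoidHom.id D.M) := by
  intro v w
  rw [Tri.pull_apply, Tri.map_refl]
  rfl

theorem n3_surj {D : Pairing} (hspan : ∀ U : AddSubgroup D.M, (∀ v w, D.β v w ∈ U) → U = ⊤)
    (hl : D.HasLifts) (δ : Tri D.base D.base) (s : D.M →+ D.M) (hs : D.Lift D δ s) :
    Function.Surjective s := by
  obtain ⟨s2, hs2⟩ := hl δ.symm
  have h1 := n3_lift_trans δ.symm δ s2 s hs2 hs
  have h2 : ({ carrier := {m | s (s2 m) = m}
               zero_mem' := by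
                 change s (s2 0) = 0
                 rw [map_zero, map_zero]
               add_mem' := by
                 intro a b ha hb
                 change s (s2 (a + b)) = a + b
                 rw [map_add, map_add, show s (s2 a) = a from ha, show s (s2 b) = b from hb]
               neg_mem' := by
                 intro a ha
                 change s (s2 (-a)) = -a
                 rw [map_neg, map_neg, show s (s2 a) = a from ha] } : AddSubgroup D.M) = ⊤ := by
    apply hspan
    intro v w
    change s (s2 (D.β v w)) = D.β v w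
    have h3 := h1 v w
    rw [AddMonoidHom.comp_apply, Tri.pull_apply, Tri.map_trans, Tri.map_map_symm] at h3
    exact h3
  intro m
  have h3 : m ∈ (⊤ : AddSubgroup D.M) := AddSubgroup.mem_top m
  rw [← h2] at h3
  exact ⟨s2 m, h3⟩

theorem Pairing.IsCanon.form_mem {p : ℕ} {D D' : Pairing} (hD : D.IsCanon p)
    (γ : Tri D.base D'.base) (t : D.M →+ D'.M) (ht : D.Lift D' γ t)
    (hsurj : Function.Surjective t) (hne : ∃ m, t m ≠ 0) : form D'.Grp D.Grp := by
  apply IsFormation.sep (form_isFormation D'.Grp) (self_mem_form _)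
  intro x hx
  by_cases hxM : x ∈ D.zM
  swap
  · obtain ⟨-, Φ, hΦs, hΦ⟩ := Pairing.exists_hom hD.pre.span γ t ht
    exact ⟨Φ, hΦs hsurj, fun h => hxM ((hΦ x).1 h).1⟩
  have hm : x.left.m ≠ 0 := by
    intro h
    apply hx
    obtain ⟨h1, h2, h3⟩ := hxM
    apply SemidirectProduct.ext
    · apply Heis.ext
      · exact h1
      · exact h2
      · exact h
    · exact h3
  let U : AddSubgroup D.M :=
    { carrier := {m | ∀ (δ : Tri D.base D.base) (s : D.M →+ D.M), D.Lift D δ s → t (s m) = 0}
      zero_mem' := by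
        intro δ s _
        rw [map_zero, map_zero]
      add_mem' := by
        intro a b ha hb δ s hs
        rw [map_add, map_add, ha δ s hs, hb δ s hs, add_zero]
      neg_mem' := by
        intro a ha δ s hs
        rw [map_neg, map_neg, ha δ s hs, neg_zero] }
  have hUmem : ∀ m, m ∈ U ↔ ∀ (δ : Tri D.base D.base) (s : D.M →+ D.M), D.Lift D δ s →
      t (s m) = 0 := fun m => Iff.rfl
  have hU := hD.irr U (by
    intro δ' s' hs' u hu
    rw [hUmem] at hu ⊢
    intro δ s hs
    exact hu (δ'.trans δ) (s.comp s') (n3_lift_trans δ' δ s' s hs' hs))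
  have hxU : x.left.m ∉ U := by
    rcases hU with hU | hU
    · rw [hU, AddSubgroup.mem_bot]
      exact hm
    · exfalso
      obtain ⟨m, hmt⟩ := hne
      apply hmt
      have h1 : m ∈ U := by rw [hU]; exact AddSubgroup.mem_top m
      exact (hUmem m).1 h1 _ _ (n3_lift_refl D)
  rw [hUmem] at hxU
  push Not at hxU
  obtain ⟨δ, s, hs, hts⟩ := hxU
  obtain ⟨-, Φ, hΦs, hΦ⟩ := Pairing.exists_hom hD.pre.span (δ.trans γ) (t.comp s)
    (n3_lift_trans δ γ s t hs ht)
  refine ⟨Φ, hΦs (hsurj.comp (n3_surj hD.pre.span hD.lifts δ s hs)), fun h => hts ?_⟩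
  exact ((hΦ x).1 h).2

end Pool.Agent.Helper75.MNA
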