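import Pool.Agent.Helper75.MNA.N2
import Pool.Agent.Helper75.MNA.N3
import Pool.Agent.Helper75.MNA.N4
import Pool.Agent.Helper75.MNA.N6
import Pool.Agent.Helper75.MNA.C3

set_option autoImplicit false
set_option linter.style.haveILetI false

namespace Pool.Agent.Helper75.MNA

open Subgroup Pointwise

theorem Pairing.n8_twist {D' D : Pairing} (K : AddSubgroup D.M)
    (hK : ∀ h, ∀ m ∈ K, D.actM h m ∈ K) (f : D'.V →+ D'.W →+ D'.M)
    (hf : IsTwist D' (D.quot K hK) f) :
    ∃ (γ : Tri D'.base D.base) (t : (D.M ⧸ K) →+ D'.M),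
      ∀ v w, f v w = t (QuotientAddGroup.mk' K (γ.pull D.β v w)) := by
  cases hf with
  | straight l a b t ha hb ht hf =>
    exact ⟨Tri.straight l a b ha hb, (t : (D.M ⧸ K) ≃+ D'.M).toAddMonoidHom, fun v w => hf v w⟩
  | swapped l a b t ha hb ht hf =>
    exact ⟨Tri.swapped l a b ha hb, (t : (D.M ⧸ K) ≃+ D'.M).toAddMonoidHom, fun v w => hf v w⟩

theorem Pairing.IsCanon.lift_of_form {p q : ℕ} {D D' : Pairing} (hD : D.IsCanon p)
    (hD' : D'.IsAdmissible q) (h : form D.Grp D'.Grp) :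
    ∃ (γ : Tri D.base D'.base) (t : D.M →+ D'.M), D.Lift D' γ t ∧ Function.Surjective t := by
  obtain ⟨K, hK, hadm⟩ := hD.pre.exists_adm
  have hne : ∃ m, (QuotientAddGroup.mk' K) m ≠ 0 := by
    by_contra hcon
    push Not at hcon
    apply hadm.nonzero
    apply AddMonoidHom.ext
    intro v
    apply AddMonoidHom.ext
    intro w
    exact hcon (D.β v w)
  have h1 : form (D.quot K hK).Grp D.Grp :=
    hD.form_mem (D' := D.quot K hK) (Tri.refl D.base) (QuotientAddGroup.mk' K)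
      (fun v w => rfl) (QuotientAddGroup.mk'_surjective K) hne
  have h2 : form (D.quot K hK).Grp D'.Grp :=
    h (form (D.quot K hK).Grp) (form_isFormation (D.quot K hK).Grp) h1
  have hcomb : D'.Comb (D.quot K hK) := Pairing.comb_of_form hadm hD' h2
  have hex : ∃ f, IsTwist D' (D.quot K hK) f := by
    by_contra hcon
    push Not at hcon
    apply hD'.nonzero
    have he : {f : D'.V →+ D'.W →+ D'.M | IsTwist D' (D.quot K hK) f} = ∅ := by
      ext f
      simp [hcon f]
    unfold Pairing.Comb at hcomb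
    rw [he, AddSubgroup.closure_empty, AddSubgroup.mem_bot] at hcomb
    exact hcomb
  obtain ⟨f0, hf0⟩ := hex
  obtain ⟨γ0, _, _⟩ := Pairing.n8_twist K hK f0 hf0
  have claim : ∀ f ∈ AddSubgroup.closure {f : D'.V →+ D'.W →+ D'.M | IsTwist D' (D.quot K hK) f},
      ∃ φ : D.M →+ D'.M, ∀ v w, f v w = φ (γ0.pull D.β v w) := by
    intro f hf
    induction hf using AddSubgroup.closure_induction with
    | mem f hf =>
      obtain ⟨γ, t, ht⟩ := Pairing.n8_twist K hK f hf
      obtain ⟨s, hs⟩ := hD.lifts (γ0.symm.trans γ)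
      refine ⟨(t.comp (QuotientAddGroup.mk' K)).comp s, ?_⟩
      intro v w
      rw [ht]
      have e : s (γ0.pull D.β v w) = γ.pull D.β v w := by
        rw [Tri.pull_apply, hs, Tri.pull_apply, Tri.pull_apply, Tri.map_trans]
        have e2 : γ0.symm.map ((γ0.map (v, w)).1, (γ0.map (v, w)).2) = (v, w) :=
          Tri.map_symm_map γ0 (v, w)
        rw [e2]
      rw [AddMonoidHom.comp_apply, AddMonoidHom.comp_apply, e]
    | zero => exact ⟨0, fun v w => rfl⟩
    | add f g _ _ hf hg =>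
      obtain ⟨φ, hφ⟩ := hf
      obtain ⟨ψ, hψ⟩ := hg
      refine ⟨φ + ψ, fun v w => ?_⟩
      rw [AddMonoidHom.add_apply, AddMonoidHom.add_apply, hφ, hψ, AddMonoidHom.add_apply]
    | neg f _ hf =>
      obtain ⟨φ, hφ⟩ := hf
      refine ⟨-φ, fun v w => ?_⟩
      rw [AddMonoidHom.neg_apply, AddMonoidHom.neg_apply, hφ, AddMonoidHom.neg_apply]
  obtain ⟨φ, hφ⟩ := claim _ hcomb
  refine ⟨γ0.symm, φ, ?_, ?_⟩
  · intro x y
    rw [Tri.pull_apply, hφ, Tri.pull_apply]
    have e2 : γ0.map ((γ0.symm.map (x, y)).1, (γ0.symm.map (x, y)).2) = (x, y) :=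
      Tri.map_map_symm γ0 (x, y)
    rw [e2]
  · have htop : φ.range = ⊤ := hD'.pre.span _ (fun v w => ⟨_, (hφ v w).symm⟩)
    exact AddMonoidHom.range_eq_top.1 htop

end Pool.Agent.Helper75.MNA
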