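import Pool.Agent.Helper75.MNA.N2
import Pool.Agent.Helper75.MNA.N4
import Pool.Agent.Helper75.MNA.N6
import Pool.Agent.Helper75.MNA.N8

set_option autoImplicit false
set_option linter.style.haveILetI false

namespace Pool.Agent.Helper75.MNA

open Subgroup Pointwise

/-- the graph relation -/
def n10_R {D D' : Pairing} (γ1 : Tri D'.base D.base) : AddSubgroup (D.M × D'.M) :=
  AddSubgroup.closure {z : D.M × D'.M | ∃ (v : D'.V) (w : D'.W), z = (γ1.pull D.β v w, D'.β v w)}

theorem n10_stab {D D' : Pairing} (γ1 : Tri D'.base D.base) (δ : Tri D.base D.base)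
    (δ' : Tri D'.base D'.base) (hδ : ∀ x, γ1.map (δ'.map x) = δ.map (γ1.map x))
    (s : D.M →+ D.M) (hs : D.Lift D δ s) (s' : D'.M →+ D'.M) (hs' : D'.Lift D' δ' s')
    (z : D.M × D'.M) (hz : z ∈ n10_R γ1) : (s z.1, s' z.2) ∈ n10_R γ1 := by
  have h : n10_R γ1 ≤ (n10_R γ1).comap (AddMonoidHom.prodMap s s') := by
    unfold n10_R
    rw [AddSubgroup.closure_le]
    rintro _ ⟨v, w, rfl⟩
    apply AddSubgroup.subset_closure
    refine ⟨(δ'.map (v, w)).1, (δ'.map (v, w)).2, ?_⟩
    apply Prod.ext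
    · change s (γ1.pull D.β v w) = γ1.pull D.β (δ'.map (v, w)).1 (δ'.map (v, w)).2
      rw [Tri.pull_apply, Tri.pull_apply]
      have h1 : ((δ'.map (v, w)).1, (δ'.map (v, w)).2) = δ'.map (v, w) := rfl
      rw [h1, hδ (v, w)]
      have h2 := hs (γ1.map (v, w)).1 (γ1.map (v, w)).2
      rw [Tri.pull_apply] at h2
      exact h2
    · change s' (D'.β v w) = D'.β (δ'.map (v, w)).1 (δ'.map (v, w)).2
      have h2 := hs' v w
      rw [Tri.pull_apply] at h2
      exact h2
  exact h hz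

theorem Pairing.IsCanon.iso_of_form {p q : ℕ} {D D' : Pairing} (hD : D.IsCanon p)
    (hD' : D'.IsCanon q) (h : form D'.Grp D.Grp) :
    ∃ (γ : Tri D.base D'.base) (t : D.M ≃+ D'.M), D.Lift D' γ t.toAddMonoidHom := by
  obtain ⟨K, hK, hadm⟩ := hD.pre.exists_adm
  have hform : form D'.Grp (D.quot K hK).Grp := fun F hF hF' =>
    Pairing.form_quot D K hK F hF (h F hF hF')
  obtain ⟨γ, t, ht, htsurj⟩ := hD'.lift_of_form hadm hform
  let γ1 : Tri D'.base D.base := γ
  let t1 : D'.M →+ D.M ⧸ K := t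
  have ht1 : ∀ v w, t1 (D'.β v w) = ((γ1.pull D.β v w : D.M) : D.M ⧸ K) := by
    intro v w
    have h1 := ht v w
    rw [Tri.pull_apply] at h1
    rw [Tri.pull_apply]
    exact h1
  have ht1surj : Function.Surjective t1 := htsurj
  have hnt : Nontrivial (D.M ⧸ K) := hadm.irrM.1
  have h1 : ∀ z ∈ n10_R γ1, ((z.1 : D.M) : D.M ⧸ K) = t1 z.2 := by
    have h2 : n10_R γ1 ≤ AddMonoidHom.eqLocus
        ((QuotientAddGroup.mk' K).comp (AddMonoidHom.fst D.M D'.M))
        (t1.comp (AddMonoidHom.snd D.M D'.M)) := by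
      unfold n10_R
      rw [AddSubgroup.closure_le]
      rintro _ ⟨v, w, rfl⟩
      exact (ht1 v w).symm
    intro z hz
    exact h2 hz
  have hgen : ∀ v w, (γ1.pull D.β v w, D'.β v w) ∈ n10_R γ1 := fun v w =>
    AddSubgroup.subset_closure ⟨v, w, rfl⟩
  have hβ : ∀ v w, D.β v w = γ1.pull D.β (γ1.symm.map (v, w)).1 (γ1.symm.map (v, w)).2 := by
    intro v w
    rw [Tri.pull_apply]
    have h3 : ((γ1.symm.map (v, w)).1, (γ1.symm.map (v, w)).2) = γ1.symm.map (v, w) := rfl
    rw [h3, Tri.map_map_symm]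
  have hfst : (n10_R γ1).map (AddMonoidHom.fst D.M D'.M) = ⊤ := by
    apply hD.pre.span
    intro v w
    refine ⟨_, hgen (γ1.symm.map (v, w)).1 (γ1.symm.map (v, w)).2, ?_⟩
    exact (hβ v w).symm
  have hsnd : (n10_R γ1).map (AddMonoidHom.snd D.M D'.M) = ⊤ := by
    apply hD'.pre.span
    intro v w
    exact ⟨_, hgen v w, rfl⟩
  -- first kernel
  have hR1 : (n10_R γ1).comap (AddMonoidHom.inl D.M D'.M) = ⊥ := by
    rcases hD.irr ((n10_R γ1).comap (AddMonoidHom.inl D.M D'.M)) (by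
      intro δ s hs u hu
      obtain ⟨s', hs'⟩ := hD'.lifts ((γ1.trans δ).trans γ1.symm)
      have h3 := n10_stab γ1 δ ((γ1.trans δ).trans γ1.symm) (by
        intro x
        rw [Tri.map_trans, Tri.map_trans, Tri.map_map_symm]) s hs s' hs' _ hu
      have h4 : (s u, (0 : D'.M)) ∈ n10_R γ1 := by
        have h5 : (s (AddMonoidHom.inl D.M D'.M u).1, s' (AddMonoidHom.inl D.M D'.M u).2) =
            (s u, (0 : D'.M)) := by
          simp
        rw [← h5]
        exact h3
      exact h4) with h3 | h3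
    · exact h3
    · exfalso
      obtain ⟨a, ha⟩ := exists_ne (0 : D.M ⧸ K)
      obtain ⟨m, rfl⟩ := QuotientAddGroup.mk_surjective a
      apply ha
      have h4 : m ∈ (n10_R γ1).comap (AddMonoidHom.inl D.M D'.M) := by
        rw [h3]; exact AddSubgroup.mem_top m
      have h5 := h1 _ h4
      have h6 : t1 (AddMonoidHom.inl D.M D'.M m).2 = 0 := by
        simp
      rw [h6] at h5
      exact h5
  have hR2 : (n10_R γ1).comap (AddMonoidHom.inr D.M D'.M) = ⊥ := by
    rcases hD'.irr ((n10_R γ1).comap (AddMonoidHom.inr D.M D'.M)) (by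
      intro δ' s' hs' u hu
      obtain ⟨s, hs⟩ := hD.lifts ((γ1.symm.trans δ').trans γ1)
      have h3 := n10_stab γ1 ((γ1.symm.trans δ').trans γ1) δ' (by
        intro x
        rw [Tri.map_trans, Tri.map_trans, Tri.map_symm_map]) s hs s' hs' _ hu
      have h4 : ((0 : D.M), s' u) ∈ n10_R γ1 := by
        have h5 : (s (AddMonoidHom.inr D.M D'.M u).1, s' (AddMonoidHom.inr D.M D'.M u).2) =
            ((0 : D.M), s' u) := by
          simp
        rw [← h5]
        exact h3
      exact h4) with h3 | h3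
    · exact h3
    · exfalso
      obtain ⟨a, ha⟩ := exists_ne (0 : D.M ⧸ K)
      obtain ⟨m, rfl⟩ := ht1surj a
      apply ha
      have h4 : m ∈ (n10_R γ1).comap (AddMonoidHom.inr D.M D'.M) := by
        rw [h3]; exact AddSubgroup.mem_top m
      have h5 := h1 _ h4
      have h6 : (((AddMonoidHom.inr D.M D'.M m).1 : D.M) : D.M ⧸ K) = 0 := by
        simp
      rw [h6] at h5
      exact h5.symm
  let e1 : n10_R γ1 →+ D.M := (AddMonoidHom.fst D.M D'.M).comp (n10_R γ1).subtype
  let e2 : n10_R γ1 →+ D'.M := (AddMonoidHom.snd D.M D'.M).comp (n10_R γ1).subtype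
  have he1 : Function.Bijective e1 := by
    constructor
    · rw [injective_iff_map_eq_zero]
      rintro ⟨⟨a, b⟩, hab⟩ h0
      have ha : a = 0 := h0
      subst ha
      have h3 : b ∈ (n10_R γ1).comap (AddMonoidHom.inr D.M D'.M) := hab
      rw [hR2, AddSubgroup.mem_bot] at h3
      subst h3
      rfl
    · intro a
      have h3 : a ∈ (n10_R γ1).map (AddMonoidHom.fst D.M D'.M) := by
        rw [hfst]; exact AddSubgroup.mem_top a
      obtain ⟨z, hz, hza⟩ := h3
      exact ⟨⟨z, hz⟩, hza⟩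
  have he2 : Function.Bijective e2 := by
    constructor
    · rw [injective_iff_map_eq_zero]
      rintro ⟨⟨a, b⟩, hab⟩ h0
      have hb : b = 0 := h0
      subst hb
      have h3 : a ∈ (n10_R γ1).comap (AddMonoidHom.inl D.M D'.M) := hab
      rw [hR1, AddSubgroup.mem_bot] at h3
      subst h3
      rfl
    · intro a
      have h3 : a ∈ (n10_R γ1).map (AddMonoidHom.snd D.M D'.M) := by
        rw [hsnd]; exact AddSubgroup.mem_top a
      obtain ⟨z, hz, hza⟩ := h3
      exact ⟨⟨z, hz⟩, hza⟩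
  let T : D.M ≃+ D'.M := (AddEquiv.ofBijective e1 he1).symm.trans (AddEquiv.ofBijective e2 he2)
  have hT : ∀ v w, T (γ1.pull D.β v w) = D'.β v w := by
    intro v w
    have h3 : (AddEquiv.ofBijective e1 he1).symm (γ1.pull D.β v w) =
        ⟨(γ1.pull D.β v w, D'.β v w), hgen v w⟩ := by
      rw [AddEquiv.symm_apply_eq]
      rfl
    change (AddEquiv.ofBijective e2 he2) ((AddEquiv.ofBijective e1 he1).symm
      (γ1.pull D.β v w)) = D'.β v w
    rw [h3]
    rfl
  refine ⟨γ1.symm, T, ?_⟩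
  intro x y
  rw [Tri.pull_apply]
  change T (D.β x y) = _
  rw [hβ x y, hT]

end Pool.Agent.Helper75.MNA
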