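import Pool.Agent.Helper75.MNA.N4

set_option autoImplicit false
set_option linter.style.haveILetI false

namespace Pool.Agent.Helper75.MNA

open Subgroup Pointwise

def n5_Stab (D : Pairing) (K : AddSubgroup D.M) : Prop :=
  ∀ (γ : Tri D.base D.base) (t : D.M →+ D.M), D.Lift D γ t → ∀ m ∈ K, t m ∈ K

theorem n5_act {D : Pairing} {K : AddSubgroup D.M} (hK : n5_Stab D K) :
    ∀ h, ∀ m ∈ K, D.actM h m ∈ K := by
  intro h m hm
  refine hK (Tri.ofH D.base h) (D.actM h) ?_ m hm
  intro v w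
  rw [Tri.pull_apply, Tri.ofH_map]
  exact (D.equivariant h v w).symm

theorem n5_lift {D : Pairing} {K : AddSubgroup D.M} (hK : n5_Stab D K)
    (γ : Tri D.base D.base) (t : D.M →+ D.M) (ht : D.Lift D γ t) :
    (D.quot K (n5_act hK)).Lift (D.quot K (n5_act hK)) γ (QuotientAddGroup.map K K t (hK γ t ht)) := by
  intro v w
  rw [Tri.pull_apply]
  have h1 := ht v w
  rw [Tri.pull_apply] at h1
  have h2 : QuotientAddGroup.map K K t (hK γ t ht) ((D.quot K (n5_act hK)).β v w)
      = ((t (D.β v w) : D.M) : D.M ⧸ K) := rfl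
  refine h2.trans ?_
  rw [h1]
  rfl

theorem Pairing.IsPre.exists_canon {p : ℕ} {D : Pairing} (hD : D.IsPre p) (hl : D.HasLifts) :
    ∃ (K : AddSubgroup D.M) (hK : ∀ h, ∀ m ∈ K, D.actM h m ∈ K), (D.quot K hK).IsCanon p := by
  have hfin : (({K : AddSubgroup D.M | n5_Stab D K ∧ K ≠ ⊤}) : Set (AddSubgroup D.M)).Finite := Set.toFinite _
  have hne : ({K : AddSubgroup D.M | n5_Stab D K ∧ K ≠ ⊤} : Set (AddSubgroup D.M)).Nonempty := by
    refine ⟨⊥, ?_, ?_⟩
    · intro γ t _ m hm
      rw [AddSubgroup.mem_bot] at hm ⊢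
      rw [hm, map_zero]
    · intro h
      apply hD.nonzero
      ext v w
      have h1 : D.β v w ∈ (⊥ : AddSubgroup D.M) := by rw [h]; trivial
      rw [AddSubgroup.mem_bot] at h1
      rw [h1]; rfl
  obtain ⟨K, hKmax⟩ := hfin.exists_maximal hne
  obtain ⟨⟨hK, hKne⟩, hmax⟩ := hKmax
  refine ⟨K, n5_act hK, hD.quot K (n5_act hK) hKne, ?_, ?_⟩
  · intro γ
    obtain ⟨t, ht⟩ := hl γ
    exact ⟨_, n5_lift hK γ t ht⟩
  · intro U hU
    have hU' : n5_Stab D (AddSubgroup.comap (QuotientAddGroup.mk' K) U) := by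
      intro γ t ht m hm
      rw [AddSubgroup.mem_comap] at hm ⊢
      exact hU γ _ (n5_lift hK γ t ht) _ hm
    have hKU : K ≤ AddSubgroup.comap (QuotientAddGroup.mk' K) U := by
      intro k hk
      rw [AddSubgroup.mem_comap]
      have : QuotientAddGroup.mk' K k = 0 := (QuotientAddGroup.eq_zero_iff k).mpr hk
      rw [this]
      exact U.zero_mem
    by_cases htop : AddSubgroup.comap (QuotientAddGroup.mk' K) U = ⊤
    · right
      rw [eq_top_iff]
      intro x _
      obtain ⟨m, rfl⟩ := QuotientAddGroup.mk_surjective x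
      have : m ∈ AddSubgroup.comap (QuotientAddGroup.mk' K) U := by rw [htop]; trivial
      exact this
    · left
      rw [eq_bot_iff]
      intro x hx
      obtain ⟨m, rfl⟩ := QuotientAddGroup.mk_surjective x
      have h1 : m ∈ AddSubgroup.comap (QuotientAddGroup.mk' K) U := hx
      have h2 := hmax ⟨hU', htop⟩ hKU h1
      rw [AddSubgroup.mem_bot]
      exact (QuotientAddGroup.eq_zero_iff m).mpr h2

end Pool.Agent.Helper75.MNA
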