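import Pool.Agent.Helper75.MNA.N1
import Pool.Agent.Helper75.MNA.N2
import Pool.Agent.Helper75.MNA.N4

set_option autoImplicit false
set_option linter.style.haveILetI false

namespace Pool.Agent.Helper75.MNA

open Subgroup Pointwise

/-- the family of all transports of the biadditive map -/
def n9_b (D : Pairing) : D.V →+ D.W →+ (Tri D.base D.base → D.M) :=
  AddMonoidHom.mk' (fun v => AddMonoidHom.mk' (fun w γ => γ.pull D.β v w) (by
      intro w w'
      funext γ
      exact map_add _ _ _)) (by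
    intro v v'
    apply AddMonoidHom.ext
    intro w
    funext γ
    show γ.pull D.β (v + v') w = γ.pull D.β v w + γ.pull D.β v' w
    rw [map_add]
    rfl)

theorem n9_b_apply (D : Pairing) (v : D.V) (w : D.W) (γ : Tri D.base D.base) :
    n9_b D v w γ = γ.pull D.β v w := rfl

/-- the action on the power of `M` -/
def n9_act (D : Pairing) : D.H →* AddMonoid.End (Tri D.base D.base → D.M) where
  toFun h := AddMonoidHom.mk' (fun x γ => D.actM (γ.l h) (x γ)) (by
    intro x y
    funext γ
    exact map_add _ _ _)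
  map_one' := by
    apply AddMonoidHom.ext
    intro x
    funext γ
    show D.actM (γ.l 1) (x γ) = x γ
    rw [map_one, map_one]
    rfl
  map_mul' h k := by
    apply AddMonoidHom.ext
    intro x
    funext γ
    show D.actM (γ.l (h * k)) (x γ) = D.actM (γ.l h) (D.actM (γ.l k) (x γ))
    rw [map_mul, map_mul]
    rfl

theorem n9_act_apply (D : Pairing) (h : D.H) (x : Tri D.base D.base → D.M)
    (γ : Tri D.base D.base) : n9_act D h x γ = D.actM (γ.l h) (x γ) := rfl

theorem n9_act_b (D : Pairing) (h : D.H) (v : D.V) (w : D.W) :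
    n9_act D h (n9_b D v w) = n9_b D (D.actV h v) (D.actW h w) := by
  funext γ
  rw [n9_act_apply, n9_b_apply, n9_b_apply, Tri.pull_apply, Tri.pull_apply]
  have h1 := γ.map_act h v w
  rw [show γ.map (D.actV h v, D.actW h w) =
    (D.actV (γ.l h) (γ.map (v, w)).1, D.actW (γ.l h) (γ.map (v, w)).2) from h1]
  exact (D.equivariant _ _ _).symm

/-- the subgroup generated by the values -/
def n9_M (D : Pairing) : AddSubgroup (Tri D.base D.base → D.M) :=
  AddSubgroup.closure {x | ∃ v w, x = n9_b D v w}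

theorem n9_b_mem (D : Pairing) (v : D.V) (w : D.W) : n9_b D v w ∈ n9_M D :=
  AddSubgroup.subset_closure ⟨v, w, rfl⟩

theorem n9_act_mem (D : Pairing) (h : D.H) (x : Tri D.base D.base → D.M) (hx : x ∈ n9_M D) :
    n9_act D h x ∈ n9_M D := by
  have h1 : n9_M D ≤ (n9_M D).comap (n9_act D h) := by
    rw [n9_M, AddSubgroup.closure_le]
    rintro _ ⟨v, w, rfl⟩
    show n9_act D h (n9_b D v w) ∈ n9_M D
    rw [n9_act_b]
    exact n9_b_mem D _ _
  exact h1 hx

/-- the covering pairing -/
def n9_D (D : Pairing) : Pairing where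
  H := D.H
  V := D.V
  W := D.W
  M := ↥(n9_M D)
  actV := D.actV
  actW := D.actW
  actM :=
    { toFun := fun h => AddMonoidHom.mk' (fun x => ⟨n9_act D h x.1, n9_act_mem D h x.1 x.2⟩) (by
        intro x y
        apply Subtype.ext
        exact map_add (n9_act D h) _ _)
      map_one' := by
        apply AddMonoidHom.ext
        intro x
        apply Subtype.ext
        show n9_act D 1 x.1 = x.1
        rw [map_one]
        rfl
      map_mul' := fun h k => by
        apply AddMonoidHom.ext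
        intro x
        apply Subtype.ext
        show n9_act D (h * k) x.1 = n9_act D h (n9_act D k x.1)
        rw [map_mul]
        rfl }
  β := AddMonoidHom.mk' (fun v => AddMonoidHom.mk' (fun w => ⟨n9_b D v w, n9_b_mem D v w⟩) (by
      intro w w'
      apply Subtype.ext
      exact map_add (n9_b D v) _ _)) (by
    intro v v'
    apply AddMonoidHom.ext
    intro w
    apply Subtype.ext
    show n9_b D (v + v') w = n9_b D v w + n9_b D v' w
    rw [map_add]
    rfl)
  equivariant := by
    intro h v w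
    apply Subtype.ext
    exact (n9_act_b D h v w).symm

theorem n9_span (D : Pairing) (U : AddSubgroup (n9_D D).M) (hU : ∀ v w, (n9_D D).β v w ∈ U) :
    U = ⊤ := by
  have h1 : n9_M D ≤ AddSubgroup.map (n9_M D).subtype (show AddSubgroup ↥(n9_M D) from U) := by
    refine (AddSubgroup.closure_le _).2 ?_
    rintro _ ⟨v, w, rfl⟩
    exact ⟨(n9_D D).β v w, hU v w, rfl⟩
  rw [eq_top_iff]
  rintro x -
  obtain ⟨u, hu, hux⟩ := h1 (Subtype.property (p := fun y => y ∈ n9_M D) x)
  have : u = x := Subtype.ext hux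
  rw [← this]
  exact hu

theorem n9_pre {p : ℕ} {D : Pairing} (hD : D.IsAdmissible p) : (n9_D D).IsPre p where
  prime := hD.prime
  coprime := hD.coprime
  memA := hD.memA
  expV := hD.expV
  expW := hD.expW
  expM := by
    intro m
    apply Subtype.ext
    funext γ
    exact hD.expM _
  irrV := hD.irrV
  irrW := hD.irrW
  nonzero := by
    intro h
    apply hD.nonzero
    apply AddMonoidHom.ext
    intro v
    apply AddMonoidHom.ext
    intro w
    have h1 : (n9_D D).β v w = 0 := by
      rw [h]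
      rfl
    have h2 := congrFun (congrArg Subtype.val h1) (Tri.refl D.base)
    exact h2
  faithful := hD.faithful
  span := n9_span D

/-- the shift of the coordinates -/
def n9_s (D : Pairing) (δ : Tri D.base D.base) :
    (Tri D.base D.base → D.M) →+ (Tri D.base D.base → D.M) :=
  AddMonoidHom.mk' (fun x γ => x (δ.trans γ)) (fun _ _ => rfl)

theorem n9_s_b (D : Pairing) (δ : Tri D.base D.base) (v : D.V) (w : D.W) :
    n9_s D δ (n9_b D v w) = n9_b D (δ.map (v, w)).1 (δ.map (v, w)).2 := by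
  funext γ
  show (δ.trans γ).pull D.β v w = γ.pull D.β (δ.map (v, w)).1 (δ.map (v, w)).2
  rw [Tri.pull_apply, Tri.pull_apply, Tri.map_trans]

theorem n9_s_mem (D : Pairing) (δ : Tri D.base D.base) (x : Tri D.base D.base → D.M)
    (hx : x ∈ n9_M D) : n9_s D δ x ∈ n9_M D := by
  have h1 : n9_M D ≤ (n9_M D).comap (n9_s D δ) := by
    rw [n9_M, AddSubgroup.closure_le]
    rintro _ ⟨v, w, rfl⟩
    show n9_s D δ (n9_b D v w) ∈ n9_M D
    rw [n9_s_b]
    exact n9_b_mem D _ _
  exact h1 hx

theorem n9_lifts (D : Pairing) : (n9_D D).HasLifts := by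
  intro δ
  refine ⟨AddMonoidHom.mk' (fun x => ⟨n9_s D δ x.1, n9_s_mem D δ x.1 x.2⟩) (fun x y =>
    Subtype.ext (map_add (n9_s D δ) _ _)), ?_⟩
  intro v w
  rw [Tri.pull_apply]
  apply Subtype.ext
  exact n9_s_b D δ v w

/-- a coordinate -/
def n9_t (D : Pairing) (γ : Tri D.base D.base) : (n9_D D).M →+ D.M :=
  AddMonoidHom.mk' (fun x : ↥(n9_M D) => x.1 γ) (fun _ _ => rfl)

theorem n9_t_lift (D : Pairing) (γ : Tri D.base D.base) :
    (n9_D D).Lift D (show Tri (n9_D D).base D.base from γ) (n9_t D γ) := by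
  intro v w
  rfl

theorem n9_t_surj {D : Pairing} (hs : ∀ U : AddSubgroup D.M, (∀ v w, D.β v w ∈ U) → U = ⊤)
    (γ : Tri D.base D.base) : Function.Surjective (n9_t D γ) := by
  rw [← AddMonoidHom.range_eq_top]
  apply hs
  intro v w
  refine ⟨(n9_D D).β (γ.symm.map (v, w)).1 (γ.symm.map (v, w)).2, ?_⟩
  show γ.pull D.β (γ.symm.map (v, w)).1 (γ.symm.map (v, w)).2 = D.β v w
  rw [Tri.pull_apply]
  have h1 : γ.map ((γ.symm.map (v, w)).1, (γ.symm.map (v, w)).2) = (v, w) :=
    γ.map_map_symm (v, w)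
  rw [h1]

theorem n9_form {p : ℕ} {D : Pairing} (hD : D.IsAdmissible p) : form D.Grp (n9_D D).Grp := by
  refine (form_isFormation D.Grp).sep (self_mem_form _) ?_
  intro x hx
  have key : ∀ γ : Tri D.base D.base, ∃ Φ : (n9_D D).Grp →* D.Grp, Function.Surjective Φ ∧
      ∀ x, Φ x = 1 ↔ x ∈ (n9_D D).zM ∧ n9_t D γ x.left.m = 0 := by
    intro γ
    obtain ⟨-, Φ, h1, h2⟩ := Pairing.exists_hom (n9_span D)
      (show Tri (n9_D D).base D.base from γ) (n9_t D γ) (n9_t_lift D γ)
    exact ⟨Φ, h1 (n9_t_surj hD.pre.span γ), h2⟩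
  by_cases hz : x ∈ (n9_D D).zM
  · have hm : ∃ γ : Tri D.base D.base, n9_t D γ x.left.m ≠ 0 := by
      by_contra hcon
      push Not at hcon
      apply hx
      have hm0 : x.left.m = 0 := Subtype.ext (funext hcon)
      obtain ⟨h1, h2, h3⟩ := hz
      apply SemidirectProduct.ext
      · apply Heis.ext
        · exact h1
        · exact h2
        · exact hm0
      · exact h3
    obtain ⟨γ, hγ⟩ := hm
    obtain ⟨Φ, h1, h2⟩ := key γ
    exact ⟨Φ, h1, fun h => hγ ((h2 x).1 h).2⟩
  · obtain ⟨Φ, h1, h2⟩ := key (Tri.refl D.base)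
    exact ⟨Φ, h1, fun h => hz ((h2 x).1 h).1⟩

theorem Pairing.IsAdmissible.exists_cover {p : ℕ} {D : Pairing} (hD : D.IsAdmissible p) :
    ∃ D' : Pairing, D'.IsPre p ∧ D'.HasLifts ∧ form D.Grp D'.Grp :=
  ⟨n9_D D, n9_pre hD, n9_lifts D, n9_form hD⟩

end Pool.Agent.Helper75.MNA
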