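import Pool.Agent.Helper75.MNA.Main
import Pool.Agent.Helper75.MNA.N1
import Pool.Agent.Helper75.MNA.N2
import Pool.Agent.Helper75.MNA.N3
import Pool.Agent.Helper75.MNA.N4
import Pool.Agent.Helper75.MNA.N5
import Pool.Agent.Helper75.MNA.N6
import Pool.Agent.Helper75.MNA.N8
import Pool.Agent.Helper75.MNA.N9
import Pool.Agent.Helper75.MNA.N10
import Pool.Agent.Helper75.MNA.K0
import Pool.Agent.Helper75.MNA.K1
import Pool.Agent.Helper75.MNA.K2
import Pool.Agent.Helper75.MNA.K3
import Pool.Agent.Helper75.MNA.K4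
import Pool.Agent.Helper75.MNA.K5
import Pool.Agent.Helper75.MNA.K7
import Pool.Agent.Helper75.MNA.K8
import Pool.Agent.Helper75.MNA.K9

set_option autoImplicit false
set_option linter.style.haveILetI false

namespace Pool.Agent.Helper75.MNA

open Subgroup

theorem Pairing.IsCanon.not_memA {p : ℕ} {D : Pairing} (hD : D.IsCanon p) :
    ¬ AClass D.Grp := by
  obtain ⟨K, hK, hadm⟩ := hD.pre.exists_adm
  intro h
  exact hadm.not_memA (D.form_quot K hK AClass AClass_isFormation h)

theorem Pairing.IsCanon.minimal {p : ℕ} {D : Pairing} (hD : D.IsCanon p) :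
    IsMinimalNonA (form D.Grp) := by
  obtain ⟨K, hK, hadm⟩ := hD.pre.exists_adm
  have h0 : form (D.quot K hK).Grp D.Grp := by
    refine hD.form_mem (Tri.refl D.base) (QuotientAddGroup.mk' K) ?_
      (QuotientAddGroup.mk'_surjective K) ?_
    · intro v w
      rfl
    · by_contra hcon
      push Not at hcon
      apply hadm.nonzero
      ext v w
      exact hcon (D.β v w)
  have h1 : ∀ (H : Type) [Group H], form D.Grp H → form (D.quot K hK).Grp H :=
    fun H _ hH => form_le (form_isFormation _) h0 H hH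
  refine isMinimalNonA_form hD.not_memA (fun E hE hle hne => ?_)
  rcases extraction hE hne with ⟨K', _, hK1, hK2⟩ | ⟨q, D', hD', hD2⟩ | ⟨q, D', hD', hD2⟩
  · exact absurd (h1 K' (hle K' hK1)) (pairing_no_primitive hadm hK2)
  · obtain ⟨γ, t, ht, hs⟩ := hD.lift_of_form hD' (hle _ hD2)
    have h3 : form D'.Grp D.Grp := by
      refine hD.form_mem γ t ht hs ?_
      by_contra hcon
      push Not at hcon
      apply hD'.nonzero
      ext v w
      obtain ⟨m, hm⟩ := hs (D'.β v w)
      rw [← hm, hcon m]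
      rfl
    exact h3 E hE hD2
  · exact absurd (h1 _ (hle _ hD2)) (crossed_not_in_pairing hadm hD')

theorem CrossedMod.IsCanon.not_memA {p : ℕ} {D : CrossedMod} (hD : D.IsCanon p) :
    ¬ AClass D.Grp := by
  obtain ⟨K, hK, hinv, hadm⟩ := hD.pre.exists_adm
  intro h
  exact hadm.not_memA (D.form_quot K hK hinv AClass AClass_isFormation h)

/-- a surjective lift between crossed modules with nontrivial kernel is nontrivial on the kernel -/
theorem CrossedMod.lift_ne {D D' : CrossedMod} (hne : D'.d.ker ≠ ⊥) (μ : D.X ≃* D'.X)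
    (ε : D.E →* D'.E) (hε : D.Lift D' μ.toMonoidHom ε) (hs : Function.Surjective ε) :
    ∃ e, D.d e = 1 ∧ ε e ≠ 1 := by
  by_contra hcon
  push Not at hcon
  apply hne
  rw [eq_bot_iff]
  intro e' he'
  obtain ⟨e, rfl⟩ := hs e'
  have h1 : μ (D.d e) = 1 := by
    have h2 := hε e
    rw [he'] at h2
    exact h2.symm
  have h3 : D.d e = 1 := (map_eq_one_iff μ μ.injective).1 h1
  rw [Subgroup.mem_bot]
  exact hcon e h3

theorem CrossedMod.IsCanon.form_quot_mem {p : ℕ} {D : CrossedMod} (hD : D.IsCanon p)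
    (K : Subgroup D.E) (hK : K ≤ D.d.ker) (hinv : ∀ x, ∀ k ∈ K, D.act x k ∈ K)
    (hne : (D.quot K hK hinv).d.ker ≠ ⊥) : form (D.quot K hK hinv).Grp D.Grp := by
  let μ : D.X ≃* (D.quot K hK hinv).X := MulEquiv.refl D.X
  have hl : D.Lift (D.quot K hK hinv) μ.toMonoidHom (D.quotMk K hK hinv) :=
    fun e => rfl
  exact hD.form_mem μ (D.quotMk K hK hinv) hl (D.quotMk_surj K hK hinv)
    (CrossedMod.lift_ne hne μ _ hl (D.quotMk_surj K hK hinv))

theorem CrossedMod.IsCanon.minimal {p : ℕ} {D : CrossedMod} (hD : D.IsCanon p) :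
    IsMinimalNonA (form D.Grp) := by
  obtain ⟨K, hK, hinv, hadm⟩ := hD.pre.exists_adm
  have h0 : form (D.quot K hK hinv).Grp D.Grp := hD.form_quot_mem K hK hinv hadm.ker_ne_bot
  have h1 : ∀ (H : Type) [Group H], form D.Grp H → form (D.quot K hK hinv).Grp H :=
    fun H _ hH => form_le (form_isFormation _) h0 H hH
  refine isMinimalNonA_form hD.not_memA (fun E hE hle hne => ?_)
  rcases extraction hE hne with ⟨K', _, hK1, hK2⟩ | ⟨q, D', hD', hD2⟩ | ⟨q, D', hD', hD2⟩
  · exact absurd (h1 K' (hle K' hK1)) (crossed_no_primitive hadm hK2)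
  · exact absurd (h1 _ (hle _ hD2)) (pairing_not_in_crossed hadm hD')
  · obtain ⟨μ, ε, hε, hs⟩ := hD.lift_of_form hD' (hle _ hD2)
    have h3 : form D'.Grp D.Grp :=
      hD.form_mem μ ε hε hs (CrossedMod.lift_ne hD'.ker_ne_bot μ ε hε hs)
    exact h3 E hE hD2

theorem main_canon (F : GroupClass) :
    IsMinimalNonA F ↔
      (∃ (G : Type) (_ : Group G), IsPrimitiveType G ∧ F = form G) ∨
      (∃ (p : ℕ) (D : Pairing), D.IsCanon p ∧ F = form D.Grp) ∨
      (∃ (p : ℕ) (D : CrossedMod), D.IsCanon p ∧ F = form D.Grp) := by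
  constructor
  · intro hF
    rcases (main F).1 hF with ⟨G, _, h1, h2⟩ | ⟨p, D, h1, _, h2⟩ | ⟨p, D, h1, _, h2⟩
    · exact Or.inl ⟨G, _, h1, h2⟩
    · obtain ⟨D1, h3, h4, h5⟩ := h1.exists_cover
      obtain ⟨K, hK, h6⟩ := h3.exists_canon h4
      have h7 : F (D1.quot K hK).Grp := by
        rw [h2]
        exact form_le (form_isFormation _) h5 _ (D1.form_quot K hK)
      exact Or.inr (Or.inl ⟨p, _, h6, hF.eq_form h7 h6.not_memA⟩)
    · obtain ⟨D1, h3, h4, h5⟩ := h1.exists_cover
      obtain ⟨K, hK, hinv, h6⟩ := h3.exists_canon h4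
      have h7 : F (D1.quot K hK hinv).Grp := by
        rw [h2]
        exact form_le (form_isFormation _) h5 _ (D1.form_quot K hK hinv)
      exact Or.inr (Or.inr ⟨p, _, h6, hF.eq_form h7 h6.not_memA⟩)
  · rintro (⟨G, _, hG, rfl⟩ | ⟨p, D, hD, rfl⟩ | ⟨p, D, hD, rfl⟩)
    · exact (main _).2 (Or.inl ⟨G, _, hG, rfl⟩)
    · exact hD.minimal
    · exact hD.minimal

/-- Isomorphic pairings, possibly after exchanging the two arguments. -/
def Pairing.Iso (D D' : Pairing) : Prop :=
  ∃ (γ : Tri D.base D'.base) (t : D.M ≃+ D'.M), D.Lift D' γ t.toAddMonoidHom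

/-- Isomorphic crossed modules. -/
def CrossedMod.Iso (D D' : CrossedMod) : Prop :=
  ∃ (μ : D.X ≃* D'.X) (ε : D.E ≃* D'.E), D.Lift D' μ.toMonoidHom ε.toMonoidHom

theorem canon_pairing_eq {p q : ℕ} {D D' : Pairing} (hD : D.IsCanon p) (hD' : D'.IsCanon q) :
    form D.Grp = form D'.Grp ↔ D.Iso D' := by
  constructor
  · intro h
    refine hD.iso_of_form hD' ?_
    rw [← h]
    exact self_mem_form _
  · rintro ⟨γ, t, ht⟩
    have hne : ∀ {D : Pairing}, D.β ≠ 0 → ∃ m : D.M, m ≠ 0 := by
      intro D h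
      by_contra hcon
      push Not at hcon
      apply h
      ext v w
      exact hcon _
    have h1 : form D'.Grp D.Grp := by
      refine hD.form_mem γ t.toAddMonoidHom ht t.surjective ?_
      obtain ⟨m, hm⟩ := hne hD.pre.nonzero
      exact ⟨m, fun h0 => hm ((map_eq_zero_iff t t.injective).1 h0)⟩
    have h2 : form D.Grp D'.Grp := by
      refine hD'.form_mem γ.symm t.symm.toAddMonoidHom ?_ t.symm.surjective ?_
      · intro v w
        show t.symm (D'.β v w) = γ.symm.pull D.β v w
        rw [AddEquiv.symm_apply_eq, Tri.pull_apply]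
        have h3 := ht (γ.symm.map (v, w)).1 (γ.symm.map (v, w)).2
        rw [Tri.pull_apply] at h3
        have h4 : γ.map ((γ.symm.map (v, w)).1, (γ.symm.map (v, w)).2) = (v, w) :=
          Tri.map_map_symm γ (v, w)
        rw [h4] at h3
        exact h3.symm
      · obtain ⟨m, hm⟩ := hne hD'.pre.nonzero
        exact ⟨m, fun h0 => hm ((map_eq_zero_iff t.symm t.symm.injective).1 h0)⟩
    funext H _
    exact propext ⟨form_le (form_isFormation _) h1 H, form_le (form_isFormation _) h2 H⟩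

theorem canon_crossed_eq {p q : ℕ} {D D' : CrossedMod} (hD : D.IsCanon p)
    (hD' : D'.IsCanon q) : form D.Grp = form D'.Grp ↔ D.Iso D' := by
  constructor
  · intro h
    refine hD.iso_of_form hD' ?_
    rw [← h]
    exact self_mem_form _
  · rintro ⟨μ, ε, hε⟩
    have h1 : form D'.Grp D.Grp :=
      hD.form_mem μ ε.toMonoidHom hε ε.surjective
        (CrossedMod.lift_ne hD'.pre.ker_ne_bot μ _ hε ε.surjective)
    have hε' : D'.Lift D μ.symm.toMonoidHom ε.symm.toMonoidHom := by
      intro e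
      show D.d (ε.symm e) = μ.symm (D'.d e)
      rw [MulEquiv.eq_symm_apply]
      have h3 := hε (ε.symm e)
      have h4 : ε (ε.symm e) = e := ε.apply_symm_apply e
      have h5 : D'.d (ε (ε.symm e)) = μ (D.d (ε.symm e)) := h3
      rw [h4] at h5
      exact h5.symm
    have h2 : form D.Grp D'.Grp :=
      hD'.form_mem μ.symm ε.symm.toMonoidHom hε' ε.symm.surjective
        (CrossedMod.lift_ne hD.pre.ker_ne_bot μ.symm _ hε' ε.symm.surjective)
    funext H _
    exact propext ⟨form_le (form_isFormation _) h1 H, form_le (form_isFormation _) h2 H⟩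

theorem canon_exclusion {p q : ℕ} {D : Pairing} {D' : CrossedMod} (hD : D.IsCanon p)
    (hD' : D'.IsCanon q) (G : Type) [Group G] (hG : IsPrimitiveType G) :
    form G ≠ form D.Grp ∧ form G ≠ form D'.Grp ∧ form D.Grp ≠ form D'.Grp := by
  obtain ⟨K, hK, hadm⟩ := hD.pre.exists_adm
  obtain ⟨K', hK', hinv', hadm'⟩ := hD'.pre.exists_adm
  have e1 : form D.Grp = form (D.quot K hK).Grp :=
    hD.minimal.eq_form (D.form_quot K hK) hadm.not_memA
  have e2 : form D'.Grp = form (D'.quot K' hK' hinv').Grp :=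
    hD'.minimal.eq_form (D'.form_quot K' hK' hinv') hadm'.not_memA
  haveI := hG.finite
  rw [e1, e2]
  refine ⟨?_, ?_, ?_⟩
  · intro h
    exact pairing_no_primitive hadm hG (by rw [← h]; exact self_mem_form G)
  · intro h
    exact crossed_no_primitive hadm' hG (by rw [← h]; exact self_mem_form G)
  · intro h
    exact crossed_not_in_pairing hadm hadm' (by rw [h]; exact self_mem_form _)

end Pool.Agent.Helper75.MNA
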