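import Pool.Agent.Helper75.MNA.LiteBase

set_option autoImplicit false

/-! Canonical pairings and canonical crossed modules: the generating data of the families II and
III of minimal non-A-formations. -/

namespace Pool.Agent.Helper75.MNA.Lite

/-- `g` is the map of `D'` transported along an isomorphism from `(D.H, D.V, D.W)` to
`(D'.H, D'.V, D'.W)` or to `(D'.H, D'.W, D'.V)`. -/
inductive Pairing.IsPull (D D' : Pairing) (g : D.V → D.W → D'.M) : Prop
  | straight (l : D.H → D'.H) (a : D.V → D'.V) (b : D.W → D'.W) (hl : IsGrpIso l)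
      (ha : IsModIso l D.actV D'.actV a) (hb : IsModIso l D.actW D'.actW b)
      (hg : ∀ v w, g v w = D'.β (a v) (b w))
  | swapped (l : D.H → D'.H) (a : D.V → D'.W) (b : D.W → D'.V) (hl : IsGrpIso l)
      (ha : IsModIso l D.actV D'.actW a) (hb : IsModIso l D.actW D'.actV b)
      (hg : ∀ v w, g v w = D'.β (b w) (a v))

/-- `t` is a homomorphism from `D.M` to `D'.M` that carries the map of `D` to the map of `D'`
transported along such an isomorphism. -/
structure Pairing.IsLift (D D' : Pairing) (t : D.M → D'.M) : Prop where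
  add : ∀ x y, t (x + y) = t x + t y
  pull : D.IsPull D' (fun v w => t (D.β v w))

/-- Family II, canonical pairings: `p` is a prime, `H` is a group in the class `A` of order prime
to `p`, the group `M` is finite, `V`, `W`, `M` have exponent `p`, `V` and `W` are irreducible under
`H`, `H` acts faithfully on `V × W`, and `M` is nonzero and is generated by the values of the
pairing. Every automorphism of `(H, V, W)`, possibly exchanging `V` and `W`, lifts to `M`, and `M`
has no proper nonzero subgroup that is invariant under all these lifts. -/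
structure Pairing.IsCanonical (p : ℕ) (D : Pairing) : Prop where
  prime : p.Prime
  coprime : ¬ p ∣ Nat.card D.H
  memA : AClass D.H
  finM : Finite D.M
  expV : ∀ v : D.V, p • v = 0
  expW : ∀ w : D.W, p • w = 0
  expM : ∀ m : D.M, p • m = 0
  irrV : IsIrred D.actV
  irrW : IsIrred D.actW
  faithful : ∀ h : D.H, (∀ v, D.actV h v = v) → (∀ w, D.actW h w = w) → h = 1
  nonzero : ∃ v w, D.β v w ≠ 0
  span : ∀ U : AddSubgroup D.M, (∀ v w, D.β v w ∈ U) → U = ⊤
  lifts : ∀ g, D.IsPull D g → ∃ t : D.M → D.M,
    (∀ x y, t (x + y) = t x + t y) ∧ ∀ v w, t (D.β v w) = g v w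
  irr : ∀ U : AddSubgroup D.M, (∀ t, D.IsLift D t → ∀ u ∈ U, t u ∈ U) → U = ⊥ ∨ U = ⊤

/-- The pairings `D` and `D'` are isomorphic, possibly after exchanging the two arguments. -/
def Pairing.Iso (D D' : Pairing) : Prop := ∃ t, Function.Bijective t ∧ D.IsLift D' t

/-- `μ` is an isomorphism from `D.X` to `D'.X`, and `ε` is a homomorphism from `D.E` to `D'.E`
that lifts it. -/
structure CrossedMod.IsLift (D D' : CrossedMod) (ε : D.E → D'.E) (μ : D.X → D'.X) : Prop where
  iso : IsGrpIso μ
  mul : ∀ e f, ε (e * f) = ε e * ε f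
  comm : ∀ e, D'.d (ε e) = μ (D.d e)

/-- Family III, canonical crossed modules: `p` is a prime, `E` is finite and perfect, `X` is in the
class `A` and acts faithfully on `E`, the image of `d` is a minimal normal subgroup of `X`, the
kernel of `d` is a nontrivial group of exponent `p` on which the elements of `p`-power order of `X`
act trivially. Every automorphism of `X` lifts to `E`, and the kernel of `d` has no proper
nontrivial subgroup that is invariant under all these lifts. -/
structure CrossedMod.IsCanonical (p : ℕ) (D : CrossedMod) : Prop where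
  prime : p.Prime
  finE : Finite D.E
  perfect : commutator D.E = ⊤
  memA : AClass D.X
  faithful : ∀ x : D.X, (∀ e, D.act x e = e) → x = 1
  range_min : ∀ N : Subgroup D.X, N.Normal → (∀ x ∈ N, ∃ e, D.d e = x) →
    N = ⊥ ∨ ∀ e, D.d e ∈ N
  ker_ne_one : ∃ e, D.d e = 1 ∧ e ≠ 1
  ker_exp : ∀ e, D.d e = 1 → e ^ p = 1
  ker_triv : ∀ (x : D.X) (k : ℕ), x ^ p ^ k = 1 → ∀ e, D.d e = 1 → D.act x e = e
  lifts : ∀ μ : D.X → D.X, IsGrpIso μ → ∃ ε, D.IsLift D ε μ
  irr : ∀ U : Subgroup D.E, (∀ e ∈ U, D.d e = 1) →
    (∀ ε μ, D.IsLift D ε μ → ∀ e ∈ U, ε e ∈ U) → U = ⊥ ∨ ∀ e, D.d e = 1 → e ∈ U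

/-- The crossed modules `D` and `D'` are isomorphic. -/
def CrossedMod.Iso (D D' : CrossedMod) : Prop :=
  ∃ ε μ, D.IsLift D' ε μ ∧ Function.Bijective ε ∧ ∀ x e, ε (D.act x e) = D'.act (μ x) (ε e)

end Pool.Agent.Helper75.MNA.Lite
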