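import Mathlib

set_option autoImplicit false

/-! Definitions for the classification of the minimal non-A-formations. -/

namespace Pool.Agent.Helper75.MNA

open Subgroup

/-- A class of groups. -/
abbrev GroupClass : Type 1 := (G : Type) → [Group G] → Prop

/-- A formation: a nonempty class of finite groups closed under isomorphic images and quotients,
and containing `G / (M ∩ N)` whenever it contains `G / M` and `G / N`. -/
structure IsFormation (F : GroupClass) : Prop where
  finite : ∀ (G : Type) [Group G], F G → Finite G
  nonempty : ∃ (G : Type) (_ : Group G), F G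
  iso : ∀ (G H : Type) [Group G] [Group H], Nonempty (G ≃* H) → F G → F H
  quotient : ∀ (G : Type) [Group G] (N : Subgroup G) [N.Normal], F G → F (G ⧸ N)
  subdirect : ∀ (G : Type) [Group G] [Finite G] (M N : Subgroup G) [M.Normal] [N.Normal],
    F (G ⧸ M) → F (G ⧸ N) → F (G ⧸ (M ⊓ N))

/-- `form G` is the smallest formation containing the finite group `G`. -/
def form (G : Type) [Group G] : GroupClass :=
  fun H _ => ∀ F : GroupClass, IsFormation F → F G → F H

/-- The class of finite groups all of whose Sylow subgroups are abelian. -/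
def AClass : GroupClass :=
  fun G _ => Finite G ∧
    ∀ (p : ℕ), p.Prime → ∀ P : Sylow p G, ∀ x ∈ P, ∀ y ∈ P, x * y = y * x

/-- A minimal non-A-formation: a formation that is not contained in the class of finite groups
with abelian Sylow subgroups, although each of its proper subformations is. -/
structure IsMinimalNonA (F : GroupClass) : Prop where
  formation : IsFormation F
  not_le : ¬ ∀ (G : Type) [Group G], F G → AClass G
  proper : ∀ E : GroupClass, IsFormation E → (∀ (G : Type) [Group G], E G → F G) → E ≠ F →
    ∀ (G : Type) [Group G], E G → AClass G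

/-- `M` is the monolith of `G`: a nontrivial normal subgroup that is contained in every
nontrivial normal subgroup. -/
structure IsMonolith {G : Type} [Group G] (M : Subgroup G) : Prop where
  normal : M.Normal
  ne_bot : M ≠ ⊥
  le : ∀ N : Subgroup G, N.Normal → N ≠ ⊥ → M ≤ N

/-- Family I: the finite groups `G` outside the class `A` that have a monolith `M` with `G / M`
in the class `A`, where `M` is nonabelian or `M` has a complement in `G`. -/
structure IsPrimitiveType (G : Type) [Group G] : Prop where
  finite : Finite G
  not_mem : ¬ AClass G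
  monolith : ∃ (M : Subgroup G) (_ : M.Normal), IsMonolith M ∧ AClass (G ⧸ M) ∧
    ((∃ x ∈ M, ∃ y ∈ M, x * y ≠ y * x) ∨ ∃ H : Subgroup G, M.IsComplement' H)

/-- The Heisenberg group of a biadditive map `β : V × W → M`. -/
@[ext]
structure Heis {V W M : Type} [AddCommGroup V] [AddCommGroup W] [AddCommGroup M]
    (β : V →+ W →+ M) where
  v : V
  w : W
  m : M

namespace Heis

variable {V W M : Type} [AddCommGroup V] [AddCommGroup W] [AddCommGroup M] {β : V →+ W →+ M}

instance : Mul (Heis β) := ⟨fun x y => ⟨x.v + y.v, x.w + y.w, x.m + y.m + β x.v y.w⟩⟩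
instance : One (Heis β) := ⟨⟨0, 0, 0⟩⟩
instance : Inv (Heis β) := ⟨fun x => ⟨-x.v, -x.w, -x.m + β x.v x.w⟩⟩

@[simp] theorem mul_v (x y : Heis β) : (x * y).v = x.v + y.v := rfl
@[simp] theorem mul_w (x y : Heis β) : (x * y).w = x.w + y.w := rfl
@[simp] theorem mul_m (x y : Heis β) : (x * y).m = x.m + y.m + β x.v y.w := rfl
@[simp] theorem one_v : (1 : Heis β).v = 0 := rfl
@[simp] theorem one_w : (1 : Heis β).w = 0 := rfl
@[simp] theorem one_m : (1 : Heis β).m = 0 := rfl
@[simp] theorem inv_v (x : Heis β) : (x⁻¹).v = -x.v := rfl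
@[simp] theorem inv_w (x : Heis β) : (x⁻¹).w = -x.w := rfl
@[simp] theorem inv_m (x : Heis β) : (x⁻¹).m = -x.m + β x.v x.w := rfl

instance : Group (Heis β) :=
  Group.ofLeftAxioms
    (by
      intro x y z
      ext
      · simp [add_assoc]
      · simp [add_assoc]
      · simp [add_assoc, add_comm, add_left_comm])
    (by
      intro x
      ext <;> simp)
    (by
      intro x
      ext <;> simp)

end Heis

/-- A pairing: a finite group `H` acting on finite abelian groups `V`, `W`, `M`, and an
`H`-equivariant biadditive map `β : V × W → M`. -/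
structure Pairing where
  H : Type
  V : Type
  W : Type
  M : Type
  [grpH : Group H]
  [finH : Finite H]
  [addV : AddCommGroup V]
  [finV : Finite V]
  [addW : AddCommGroup W]
  [finW : Finite W]
  [addM : AddCommGroup M]
  [finM : Finite M]
  actV : H →* AddMonoid.End V
  actW : H →* AddMonoid.End W
  actM : H →* AddMonoid.End M
  β : V →+ W →+ M
  equivariant : ∀ (h : H) (v : V) (w : W), β (actV h v) (actW h w) = actM h (β v w)

attribute [instance] Pairing.grpH Pairing.finH Pairing.addV Pairing.finV Pairing.addW
  Pairing.finW Pairing.addM Pairing.finM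

/-- The action of `H` on a finite abelian group `V` is irreducible. -/
def IsIrred {H V : Type} [Group H] [AddCommGroup V] (act : H →* AddMonoid.End V) : Prop :=
  Nontrivial V ∧
    ∀ U : AddSubgroup V, (∀ (h : H), ∀ u ∈ U, act h u ∈ U) → U = ⊥ ∨ U = ⊤

namespace Pairing

theorem inv_act {H V : Type} [Group H] [AddCommGroup V] (a : H →* AddMonoid.End V) (h : H) (v : V) :
    a h⁻¹ (a h v) = v := by
  have h1 : (a h⁻¹ * a h) v = v := by
    rw [← map_mul, inv_mul_cancel, map_one]
    rfl
  exact h1

theorem act_inv {H V : Type} [Group H] [AddCommGroup V] (a : H →* AddMonoid.End V) (h : H) (v : V) :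
    a h (a h⁻¹ v) = v := by
  have h1 : (a h * a h⁻¹) v = v := by
    rw [← map_mul, mul_inv_cancel, map_one]
    rfl
  exact h1

/-- `H` acts on the Heisenberg group of the pairing componentwise. -/
def act (D : Pairing) : D.H →* MulAut (Heis D.β) where
  toFun h :=
    { toFun := fun x => ⟨D.actV h x.v, D.actW h x.w, D.actM h x.m⟩
      invFun := fun x => ⟨D.actV h⁻¹ x.v, D.actW h⁻¹ x.w, D.actM h⁻¹ x.m⟩
      left_inv := fun x => by ext <;> simp [inv_act]
      right_inv := fun x => by ext <;> simp [act_inv]
      map_mul' := fun x y => by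
        ext
        · simp
        · simp
        · simp [D.equivariant] }
  map_one' := by
    ext x <;> simp
  map_mul' h k := by
    ext x <;> simp

/-- The semidirect product of the Heisenberg group of the pairing by `H`. -/
abbrev Grp (D : Pairing) : Type := Heis D.β ⋊[D.act] D.H

/-- The conditions of Family II: `p` is a prime not dividing the order of `H`, the group `H` is in
the class `A`, the groups `V`, `W`, `M` have exponent `p` and are irreducible under `H`, the
pairing is not zero, and `H` acts faithfully on `V × W`. -/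
structure IsAdmissible (p : ℕ) (D : Pairing) : Prop where
  prime : p.Prime
  coprime : ¬ p ∣ Nat.card D.H
  memA : AClass D.H
  expV : ∀ v : D.V, p • v = 0
  expW : ∀ w : D.W, p • w = 0
  expM : ∀ m : D.M, p • m = 0
  irrV : IsIrred D.actV
  irrW : IsIrred D.actW
  irrM : IsIrred D.actM
  nonzero : D.β ≠ 0
  faithful : ∀ h : D.H, (∀ v, D.actV h v = v) → (∀ w, D.actW h w = w) → h = 1

/-- `f` is a twist of the pairing `D` along `D'`: it is obtained from the biadditive map of `D` by
transport along isomorphisms that are compatible with the actions, possibly after exchanging the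
two arguments. -/
inductive IsTwist (D' D : Pairing) : (D'.V →+ D'.W →+ D'.M) → Prop
  | straight (f : D'.V →+ D'.W →+ D'.M) (l : D'.H ≃* D.H) (a : D'.V ≃+ D.V) (b : D'.W ≃+ D.W)
      (t : D.M ≃+ D'.M)
      (ha : ∀ h v, a (D'.actV h v) = D.actV (l h) (a v))
      (hb : ∀ h w, b (D'.actW h w) = D.actW (l h) (b w))
      (ht : ∀ h m, t (D.actM (l h) m) = D'.actM h (t m))
      (hf : ∀ v w, f v w = t (D.β (a v) (b w))) : IsTwist D' D f
  | swapped (f : D'.V →+ D'.W →+ D'.M) (l : D'.H ≃* D.H) (a : D'.V ≃+ D.W) (b : D'.W ≃+ D.V)
      (t : D.M ≃+ D'.M)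
      (ha : ∀ h v, a (D'.actV h v) = D.actW (l h) (a v))
      (hb : ∀ h w, b (D'.actW h w) = D.actV (l h) (b w))
      (ht : ∀ h m, t (D.actM (l h) m) = D'.actM h (t m))
      (hf : ∀ v w, f v w = t (D.β (b w) (a v))) : IsTwist D' D f

/-- `D'` is a combination of twists of `D`: its biadditive map is a sum of twists of the
biadditive map of `D` and of their negatives. -/
def Comb (D' D : Pairing) : Prop :=
  D'.β ∈ AddSubgroup.closure {f : D'.V →+ D'.W →+ D'.M | IsTwist D' D f}

/-- `D` is pure: every admissible combination `D'` of twists of `D` has `D` as a combination of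
its twists. -/
def IsPure (D : Pairing) : Prop :=
  ∀ (q : ℕ) (D' : Pairing), IsAdmissible q D' → Comb D' D → Comb D D'

/-- The pairing with the same groups and actions as `D` and with the biadditive map `f`. -/
def withForm (D : Pairing) (f : D.V →+ D.W →+ D.M)
    (hf : ∀ (h : D.H) (v : D.V) (w : D.W), f (D.actV h v) (D.actW h w) = D.actM h (f v w)) :
    Pairing :=
  { D with
    β := f
    equivariant := hf }

/-- The twists of the biadditive map of `D` span a minimal nonzero subgroup: every nonzero
equivariant biadditive map `f` on the same groups that is a combination of twists of the map of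
`D` has the map of `D` as a combination of its twists. -/
def IsSimple (D : Pairing) : Prop :=
  ∀ (f : D.V →+ D.W →+ D.M)
    (hf : ∀ (h : D.H) (v : D.V) (w : D.W), f (D.actV h v) (D.actW h w) = D.actM h (f v w)),
    f ≠ 0 → (D.withForm f hf).Comb D → D.Comb (D.withForm f hf)

end Pairing

/-- A finite crossed module `d : E → X`. -/
structure CrossedMod where
  E : Type
  X : Type
  [grpE : Group E]
  [finE : Finite E]
  [grpX : Group X]
  [finX : Finite X]
  act : X →* MulAut E
  d : E →* X
  equivariant : ∀ (x : X) (e : E), d (act x e) = x * d e * x⁻¹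
  peiffer : ∀ (e f : E), act (d e) f = e * f * e⁻¹

attribute [instance] CrossedMod.grpE CrossedMod.finE CrossedMod.grpX CrossedMod.finX

namespace CrossedMod

/-- The semidirect product of `E` by `X`. -/
abbrev Grp (D : CrossedMod) : Type := D.E ⋊[D.act] D.X

/-- The conditions of Family III: `p` is a prime, `E` is perfect, `X` is in the class `A` and acts
faithfully on `E`, the kernel of `d` (the centre of `E`) is a nontrivial group of exponent `p` that
is irreducible under `X` and on which all elements of `p`-power order of `X` act trivially, and the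
image of `d` is a minimal normal subgroup of `X`. -/
structure IsAdmissible (p : ℕ) (D : CrossedMod) : Prop where
  prime : p.Prime
  perfect : commutator D.E = ⊤
  memA : AClass D.X
  faithful : Function.Injective D.act
  ker_ne_bot : D.d.ker ≠ ⊥
  ker_exp : ∀ e ∈ D.d.ker, e ^ p = 1
  ker_irr : ∀ U : Subgroup D.E, U ≤ D.d.ker → (∀ (x : D.X), ∀ u ∈ U, D.act x u ∈ U) →
    U = ⊥ ∨ U = D.d.ker
  ker_triv : ∀ (x : D.X) (k : ℕ), x ^ p ^ k = 1 → ∀ e ∈ D.d.ker, D.act x e = e
  range_min : ∀ N : Subgroup D.X, N.Normal → N ≤ D.d.range → N = ⊥ ∨ N = D.d.range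

/-- The fibre product of copies of `D`, twisted by isomorphisms `μ i` from `D'.X` to `D.X`, over
the image of `D'.d`. -/
def Fib (D' D : CrossedMod) {n : ℕ} (μ : Fin n → (D'.X ≃* D.X)) :
    Subgroup (D'.X × (Fin n → D.E)) where
  carrier := {z | z.1 ∈ D'.d.range ∧ ∀ i, D.d (z.2 i) = μ i z.1}
  one_mem' := ⟨D'.d.range.one_mem, fun i => by simp⟩
  mul_mem' := fun {a b} ha hb => ⟨D'.d.range.mul_mem ha.1 hb.1, fun i => by
    simp [ha.2 i, hb.2 i]⟩
  inv_mem' := fun {a} ha => ⟨D'.d.range.inv_mem ha.1, fun i => by simp [ha.2 i]⟩

/-- `D'` is a combination of twists of `D`: the extension `D'.E` of the image of `D'.d` is an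
equivariant image of a fibre product of twisted copies of `D.E`. -/
def Comb (D' D : CrossedMod) : Prop :=
  ∃ (n : ℕ) (μ : Fin n → (D'.X ≃* D.X)) (ε : Fib D' D μ →* D'.E),
    (∀ z : Fib D' D μ, D'.d (ε z) = z.1.1) ∧
    ∀ (x : D'.X) (z z' : Fib D' D μ), z'.1.1 = x * z.1.1 * x⁻¹ →
      (∀ i, z'.1.2 i = D.act (μ i x) (z.1.2 i)) → ε z' = D'.act x (ε z)

/-- `D` is pure: every admissible combination `D'` of twists of `D` has `D` as a combination of
its twists. -/
def IsPure (D : CrossedMod) : Prop :=
  ∀ (q : ℕ) (D' : CrossedMod), IsAdmissible q D' → Comb D' D → Comb D D'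

end CrossedMod

end Pool.Agent.Helper75.MNA
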