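import Pool.Agent.Helper75.MNA.PresDefs

set_option autoImplicit false
set_option linter.style.haveILetI false

namespace Pool.Agent.Helper75.MNA

open Subgroup Pointwise

theorem e2_phi_aux {G : Type} [Group G] (M : Subgroup G) [M.Normal] :
    Subgroup.centralizer (M : Set G) ≤ (MulAut.conjNormal (H := M)).ker := by
  intro g hg
  rw [MonoidHom.mem_ker]
  ext m
  rw [Subgroup.mem_centralizer_iff] at hg
  have h1 := hg m m.2
  rw [MulAut.conjNormal_apply, MulAut.one_apply, ← h1, mul_inv_cancel_right]

/-- the action of `G / C` on `M` -/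
noncomputable def e2_phi {G : Type} [Group G] (M : Subgroup G) [M.Normal] :
    (G ⧸ Subgroup.centralizer (M : Set G)) →* MulAut M :=
  QuotientGroup.lift (Subgroup.centralizer (M : Set G)) (MulAut.conjNormal (H := M))
    (fun g hg => e2_phi_aux M hg)

theorem e2_phi_mk {G : Type} [Group G] (M : Subgroup G) [M.Normal] (g : G) :
    e2_phi M (QuotientGroup.mk g) = MulAut.conjNormal (H := M) g := rfl

theorem e2_phi_inj {G : Type} [Group G] (M : Subgroup G) [M.Normal]
    (q : G ⧸ Subgroup.centralizer (M : Set G)) (h : e2_phi M q = 1) : q = 1 := by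
  induction q using QuotientGroup.induction_on with
  | H g =>
    rw [e2_phi_mk] at h
    rw [QuotientGroup.eq_one_iff, Subgroup.mem_centralizer_iff]
    intro m hm
    have h1 : ((MulAut.conjNormal (H := M) g) ⟨m, hm⟩ : G) = m := by rw [h]; rfl
    rw [MulAut.conjNormal_apply] at h1
    calc m * g = (g * m * g⁻¹) * g := by rw [h1]
      _ = g * m := by group

theorem primitive_of_act {G : Type} [Group G] [Finite G] {M : Subgroup G} [M.Normal]
    (hM : IsMonolith M) (hA : AClass (G ⧸ M)) (hcomm : ∀ x ∈ M, ∀ y ∈ M, x * y = y * x)
    {p : ℕ} (hp : p.Prime) (hexp : ∀ x ∈ M, x ^ p = 1) (g : G) (k : ℕ) (hg : g ^ p ^ k = 1)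
    (hact : ∃ m ∈ M, g * m ≠ m * g) {F : GroupClass} (hF : IsFormation F) (h : F G) :
    ∃ (T : Type) (_ : Group T), F T ∧ IsPrimitiveType T := by
  classical
  have hfin : Finite (↥M ⋊[e2_phi M] (G ⧸ Subgroup.centralizer (M : Set G))) :=
    Finite.of_equiv _ SemidirectProduct.equivProd.symm
  have hMabel : ∀ x y : M, x * y = y * x := fun x y => Subtype.ext (hcomm x x.2 y y.2)
  refine ⟨↥M ⋊[e2_phi M] (G ⧸ Subgroup.centralizer (M : Set G)), inferInstance, ?_, ?_⟩
  · -- F T
    have h1 := hF.semidirect h M
    let f : (↥M ⋊[MulAut.conjNormal (H := M)] G) →*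
        (↥M ⋊[e2_phi M] (G ⧸ Subgroup.centralizer (M : Set G))) :=
      SemidirectProduct.map (MonoidHom.id M) (QuotientGroup.mk' _) (by
        intro g
        ext m
        rfl)
    refine hF.surj h1 f ?_
    rintro ⟨m, q⟩
    obtain ⟨g, rfl⟩ := QuotientGroup.mk'_surjective _ q
    exact ⟨⟨m, g⟩, rfl⟩
  · obtain ⟨m₀, hm₀, hgm₀⟩ := hact
    -- conjugation in T
    have hconj : ∀ (x : ↥M ⋊[e2_phi M] (G ⧸ Subgroup.centralizer (M : Set G))) (m : M),
        x * SemidirectProduct.inl m * x⁻¹ = SemidirectProduct.inl (e2_phi M x.right m) := by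
      intro x m
      ext
      · simp only [SemidirectProduct.mul_left, SemidirectProduct.mul_right,
          SemidirectProduct.left_inl, SemidirectProduct.right_inl, SemidirectProduct.inv_left,
          mul_one, map_inv]
        rw [MulAut.apply_inv_self, hMabel x.left]
        simp
      · simp
    refine ⟨hfin, ?_, (SemidirectProduct.rightHom :
        (↥M ⋊[e2_phi M] (G ⧸ Subgroup.centralizer (M : Set G))) →* _).ker, inferInstance,
        ⟨inferInstance, ?_, ?_⟩, ?_, Or.inr ⟨(SemidirectProduct.inr :
          _ →* (↥M ⋊[e2_phi M] (G ⧸ Subgroup.centralizer (M : Set G)))).range, ?_⟩⟩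
    · -- not AClass
      intro hT
      let P : Subgroup (↥M ⋊[e2_phi M] (G ⧸ Subgroup.centralizer (M : Set G))) :=
        (Subgroup.zpowers (QuotientGroup.mk g : G ⧸ Subgroup.centralizer (M : Set G))).comap
          SemidirectProduct.rightHom
      have hP : IsPGroup p P := by
        rintro ⟨x, hx⟩
        refine ⟨k + 1, ?_⟩
        apply Subtype.ext
        change x ^ p ^ (k + 1) = 1
        obtain ⟨n, hn⟩ := Subgroup.mem_zpowers_iff.1 (Subgroup.mem_comap.1 hx)
        have h1 : (x ^ p ^ k).right = 1 := by
          have h2 : SemidirectProduct.rightHom (x ^ p ^ k) = (SemidirectProduct.rightHom x) ^ p ^ k :=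
            map_pow _ _ _
          change SemidirectProduct.rightHom (x ^ p ^ k) = 1
          rw [h2, ← hn, ← zpow_natCast, ← zpow_mul, mul_comm, zpow_mul, zpow_natCast,
            ← QuotientGroup.mk_pow, hg]
          simp
        have h2 : x ^ p ^ k = SemidirectProduct.inl (x ^ p ^ k).left := by
          ext
          · simp
          · rw [h1]; simp
        rw [pow_succ, pow_mul, h2, ← map_pow]
        have h3 : (x ^ p ^ k).left ^ p = 1 := Subtype.ext (hexp _ (x ^ p ^ k).left.2)
        rw [h3, map_one]
      have h1 := hT.abP p hp P hP (SemidirectProduct.inr (QuotientGroup.mk g))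
        (by simp [P]) (SemidirectProduct.inl ⟨m₀, hm₀⟩) (by
          simp only [P, Subgroup.mem_comap, SemidirectProduct.rightHom_inl]
          exact Subgroup.one_mem _)
      apply hgm₀
      have h2 := hconj (SemidirectProduct.inr (QuotientGroup.mk g)) ⟨m₀, hm₀⟩
      rw [h1, mul_inv_cancel_right, SemidirectProduct.right_inr, e2_phi_mk] at h2
      have h3 := SemidirectProduct.inl_injective h2
      have h4 : m₀ = g * m₀ * g⁻¹ := congrArg Subtype.val h3
      calc g * m₀ = (g * m₀ * g⁻¹) * g := by group
        _ = m₀ * g := by rw [← h4]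
    · -- ker ≠ ⊥
      intro hbot
      apply hM.ne_bot
      rw [eq_bot_iff]
      intro m hm
      have h1 : (SemidirectProduct.inl ⟨m, hm⟩ :
          ↥M ⋊[e2_phi M] (G ⧸ Subgroup.centralizer (M : Set G))) ∈
          (SemidirectProduct.rightHom :
          (↥M ⋊[e2_phi M] (G ⧸ Subgroup.centralizer (M : Set G))) →* _).ker := by
        rw [MonoidHom.mem_ker, SemidirectProduct.rightHom_inl]
      rw [hbot, Subgroup.mem_bot] at h1
      have h2 := SemidirectProduct.inl_injective (h1.trans (map_one _).symm)
      exact Subgroup.mem_bot.2 (congrArg Subtype.val h2)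
    · -- minimality
      intro N hN hNbot
      -- elements of the kernel inside N
      have hne : ∃ m : M, m ≠ 1 ∧ (SemidirectProduct.inl m :
          ↥M ⋊[e2_phi M] (G ⧸ Subgroup.centralizer (M : Set G))) ∈ N := by
        by_contra hcon
        push Not at hcon
        apply hNbot
        rw [eq_bot_iff]
        intro x hx
        have h1 : e2_phi M x.right = 1 := by
          ext m
          have h2 : (SemidirectProduct.inl (e2_phi M x.right m * m⁻¹) :
              ↥M ⋊[e2_phi M] (G ⧸ Subgroup.centralizer (M : Set G))) ∈ N := by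
            rw [map_mul, ← hconj, map_inv]
            have h3 : x * SemidirectProduct.inl m * x⁻¹ * (SemidirectProduct.inl m)⁻¹ =
                x * (SemidirectProduct.inl m * x⁻¹ * (SemidirectProduct.inl m)⁻¹) := by group
            rw [h3]
            exact N.mul_mem hx (hN.conj_mem _ (N.inv_mem hx) _)
          by_contra hne
          refine hcon _ ?_ h2
          intro h4
          apply hne
          rw [mul_inv_eq_one.1 h4]
          rfl
        have h2 : x.right = 1 := e2_phi_inj M _ h1
        have h3 : x = SemidirectProduct.inl x.left := by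
          ext
          · simp
          · rw [h2]; simp
        by_contra hx1
        refine hcon x.left ?_ (h3 ▸ hx)
        intro h4
        apply hx1
        rw [Subgroup.mem_bot, h3, h4, map_one]
      obtain ⟨m, hm1, hmN⟩ := hne
      let L : Subgroup G := (N.comap (SemidirectProduct.inl :
        M →* (↥M ⋊[e2_phi M] (G ⧸ Subgroup.centralizer (M : Set G))))).map M.subtype
      have hL : L.Normal := by
        refine ⟨?_⟩
        rintro _ ⟨y, hy, rfl⟩ a
        refine ⟨MulAut.conjNormal (H := M) a y, ?_, ?_⟩
        · have h1 := hconj (SemidirectProduct.inr (QuotientGroup.mk a)) y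
          rw [SemidirectProduct.right_inr, e2_phi_mk] at h1
          change SemidirectProduct.inl (MulAut.conjNormal (H := M) a y) ∈ N
          rw [← h1]
          exact hN.conj_mem _ hy _
        · rfl
      have hLbot : L ≠ ⊥ := by
        intro h1
        apply hm1
        have h2 : (m : G) ∈ L := ⟨m, hmN, rfl⟩
        rw [h1, Subgroup.mem_bot] at h2
        exact Subtype.ext h2
      have hML := hM.le L hL hLbot
      intro x hx
      rw [MonoidHom.mem_ker] at hx
      have h3 : x = SemidirectProduct.inl x.left := by
        ext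
        · simp
        · simp only [SemidirectProduct.right_inl]; exact hx
      obtain ⟨y, hy, hyx⟩ := hML x.left.2
      have h4 : y = x.left := Subtype.ext hyx
      rw [h3, ← h4]
      exact hy
    · -- quotient
      have hMC : M ≤ Subgroup.centralizer (M : Set G) := by
        intro x hx
        rw [Subgroup.mem_centralizer_iff]
        intro y hy
        exact hcomm y hy x hx
      have h1 : AClass (G ⧸ Subgroup.centralizer (M : Set G)) :=
        hA.surj (QuotientGroup.map M (Subgroup.centralizer (M : Set G)) (MonoidHom.id G)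
          (by intro x hx; exact hMC hx)) (by
          intro q
          obtain ⟨g, rfl⟩ := QuotientGroup.mk'_surjective _ q
          exact ⟨QuotientGroup.mk g, rfl⟩)
      exact h1.surj (QuotientGroup.quotientKerEquivOfSurjective _
        SemidirectProduct.rightHom_surjective).symm.toMonoidHom (MulEquiv.surjective _)
    · -- complement
      rw [Subgroup.isComplement'_def, Subgroup.isComplement_iff_existsUnique]
      intro x
      refine ⟨⟨⟨SemidirectProduct.inl x.left, by
        simp [MonoidHom.mem_ker]⟩,
        ⟨SemidirectProduct.inr x.right, ⟨x.right, rfl⟩⟩⟩, ?_, ?_⟩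
      · exact SemidirectProduct.inl_left_mul_inr_right x
      · rintro ⟨⟨a, ha⟩, ⟨b, ⟨q, rfl⟩⟩⟩ hab
        simp only at hab
        have ha' : a.right = 1 := ha
        have e1 : a = SemidirectProduct.inl a.left := by
          ext
          · simp
          · simp [ha']
        have e2 : x.right = q := by rw [← hab]; simp [ha']
        have e3 : x.left = a.left := by rw [← hab]; simp
        apply Prod.ext
        · apply Subtype.ext
          change a = SemidirectProduct.inl x.left
          rw [e3, ← e1]
        · apply Subtype.ext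
          change SemidirectProduct.inr q = SemidirectProduct.inr x.right
          rw [e2]

end Pool.Agent.Helper75.MNA
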