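import Pool.Agent.Helper75.MNA.PresDefs
import Pool.Agent.Helper75.MNA.T0

set_option autoImplicit false
set_option linter.style.haveILetI false

namespace Pool.Agent.Helper75.MNA

open Subgroup Pointwise

theorem e3_conj {G : Type} [Group G] [Finite G] {p : ℕ} [Fact p.Prime] (S Q : Sylow p G) :
    ∃ c : G, ∀ x ∈ Q, c⁻¹ * x * c ∈ S := by
  obtain ⟨c, hc⟩ := MulAction.exists_smul_eq G S Q
  refine ⟨c, fun x hx => ?_⟩
  rw [← hc] at hx
  have h3 : x ∈ ((MulAut.conj c • (S : Subgroup G) : Subgroup G)) := hx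
  rw [Subgroup.mem_pointwise_smul_iff_inv_smul_mem] at h3
  have h4 : c⁻¹ * x * c ∈ (S : Subgroup G) := by
    simpa [MulAut.smul_def, MulAut.conj_inv_apply, mul_assoc] using h3
  exact h4

theorem e3_le_sylow {G : Type} [Group G] [Finite G] {p : ℕ} [Fact p.Prime] (U : Subgroup G)
    [hU : U.Normal] (hUp : IsPGroup p U) (S : Sylow p G) : U ≤ S := by
  obtain ⟨Q, hQ⟩ := hUp.exists_le_sylow
  obtain ⟨c, hc⟩ := e3_conj S Q
  intro x hx
  have h1 : c * x * c⁻¹ ∈ U := hU.conj_mem x hx c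
  have h2 := hc _ (hQ h1)
  have h3 : c⁻¹ * (c * x * c⁻¹) * c = x := by group
  rw [h3] at h2
  exact h2

theorem e3_elem {G : Type} [Group G] [Finite G] {p : ℕ} [Fact p.Prime] (g : G) (k : ℕ)
    (hg : g ^ p ^ k = 1) : ∃ Q : Sylow p G, g ∈ Q := by
  have h1 : IsPGroup p (Subgroup.zpowers g) := by
    rintro ⟨x, hx⟩
    obtain ⟨i, rfl⟩ := Subgroup.mem_zpowers_iff.1 hx
    refine ⟨k, ?_⟩
    apply Subtype.ext
    show (g ^ i) ^ p ^ k = 1
    rw [← zpow_natCast, ← zpow_mul, mul_comm, zpow_mul, zpow_natCast, hg, one_zpow]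
  obtain ⟨Q, hQ⟩ := h1.exists_le_sylow
  exact ⟨Q, hQ (Subgroup.mem_zpowers g)⟩

theorem e3_pow {G : Type} [Group G] {p : ℕ} {U : Subgroup G} (hU : IsPGroup p U) {x : G}
    (hx : x ∈ U) : ∃ k : ℕ, x ^ p ^ k = 1 := by
  obtain ⟨k, hk⟩ := hU ⟨x, hx⟩
  exact ⟨k, congrArg Subtype.val hk⟩

theorem e3_T {G : Type} [Group G] {p : ℕ} (N K : Subgroup G) [hN : N.Normal]
    [hKn : K.Normal] (hK : IsPGroup p K) (hKN : K ≤ N) (hc : ⁅N, N⁆ ≤ K) :
    ∃ T : Subgroup G, T.Normal ∧ IsPGroup p T ∧ K ≤ T ∧ T ≤ N ∧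
      ∀ x ∈ N, (∃ k : ℕ, x ^ p ^ k ∈ K) → x ∈ T := by
  have hq : ∀ x : G, (x : G ⧸ K) = 1 ↔ x ∈ K := fun x => QuotientGroup.eq_one_iff x
  have hcomm : ∀ x ∈ N, ∀ y ∈ N, Commute (x : G ⧸ K) (y : G ⧸ K) := by
    intro x hx y hy
    have h1 : x * y * x⁻¹ * y⁻¹ ∈ K := hc (Subgroup.commutator_mem_commutator hx hy)
    rw [← hq] at h1
    have h2 : (x : G ⧸ K) * (y : G ⧸ K) * (x : G ⧸ K)⁻¹ * (y : G ⧸ K)⁻¹ = 1 := h1
    have h3 := mul_inv_eq_one.1 h2
    exact mul_inv_eq_iff_eq_mul.1 h3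
  let T : Subgroup G :=
    { carrier := {x | x ∈ N ∧ ∃ k : ℕ, x ^ p ^ k ∈ K}
      one_mem' := ⟨N.one_mem, 0, by simp [K.one_mem]⟩
      mul_mem' := by
        rintro x y ⟨hx, a, ha⟩ ⟨hy, b, hb⟩
        refine ⟨N.mul_mem hx hy, a + b, ?_⟩
        rw [← hq] at ha hb ⊢
        have ha' : (x : G ⧸ K) ^ p ^ a = 1 := ha
        have hb' : (y : G ⧸ K) ^ p ^ b = 1 := hb
        show ((x : G ⧸ K) * (y : G ⧸ K)) ^ p ^ (a + b) = 1
        rw [(hcomm x hx y hy).mul_pow]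
        nth_rewrite 1 [pow_add]
        rw [pow_mul, ha', one_pow, one_mul, pow_add, mul_comm, pow_mul, hb', one_pow]
      inv_mem' := by
        rintro x ⟨hx, a, ha⟩
        refine ⟨N.inv_mem hx, a, ?_⟩
        rw [inv_pow]
        exact K.inv_mem ha }
  refine ⟨T, ⟨?_⟩, ?_, ?_, ?_, ?_⟩
  · rintro x ⟨hx, a, ha⟩ g
    refine ⟨hN.conj_mem x hx g, a, ?_⟩
    rw [conj_pow]
    exact hKn.conj_mem _ ha g
  · rintro ⟨x, hx, a, ha⟩
    obtain ⟨k, hk⟩ := e3_pow hK ha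
    refine ⟨a + k, ?_⟩
    apply Subtype.ext
    show x ^ p ^ (a + k) = 1
    rw [pow_add, pow_mul]
    exact hk
  · intro x hx
    exact ⟨hKN hx, 0, by simpa using hx⟩
  · rintro x ⟨hx, -⟩
    exact hx
  · intro x hx hk
    exact ⟨hx, hk⟩

theorem e3_CS {G : Type} [Group G] (A Z : Subgroup G) [A.Normal] [Z.Normal]
    (h : ∀ z ∈ Z, ∀ x ∈ A ⊔ Z, z * x = x * z) : ⁅A ⊔ Z, A ⊔ Z⁆ ≤ ⁅A, A⁆ := by
  rw [Subgroup.commutator_le]
  intro g₁ h₁ g₂ h₂
  obtain ⟨a, ha, z, hz, rfl⟩ := Subgroup.mem_sup_of_normal_right.1 h₁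
  obtain ⟨b, hb, w, hw, rfl⟩ := Subgroup.mem_sup_of_normal_right.1 h₂
  have hz1 : ∀ x ∈ A ⊔ Z, z * x = x * z := h z hz
  have hw1 : ∀ x ∈ A ⊔ Z, w * x = x * w := h w hw
  have haS : a ∈ A ⊔ Z := Subgroup.mem_sup_left ha
  have hbS : b ∈ A ⊔ Z := Subgroup.mem_sup_left hb
  have hzS : z ∈ A ⊔ Z := Subgroup.mem_sup_right hz
  have hwS : w ∈ A ⊔ Z := Subgroup.mem_sup_right hw
  have e : a * z * (b * w) * (a * z)⁻¹ * (b * w)⁻¹ = a * b * a⁻¹ * b⁻¹ := by
    have c1 : z * (b * w) = b * w * z := hz1 _ ((A ⊔ Z).mul_mem hbS hwS)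
    have c2 : w * a⁻¹ = a⁻¹ * w := hw1 _ ((A ⊔ Z).inv_mem haS)
    calc a * z * (b * w) * (a * z)⁻¹ * (b * w)⁻¹
        = a * (z * (b * w)) * z⁻¹ * a⁻¹ * w⁻¹ * b⁻¹ := by group
      _ = a * (b * w * z) * z⁻¹ * a⁻¹ * w⁻¹ * b⁻¹ := by rw [c1]
      _ = a * b * (w * a⁻¹) * w⁻¹ * b⁻¹ := by group
      _ = a * b * (a⁻¹ * w) * w⁻¹ * b⁻¹ := by rw [c2]
      _ = a * b * a⁻¹ * b⁻¹ := by group
  show a * z * (b * w) * (a * z)⁻¹ * (b * w)⁻¹ ∈ ⁅A, A⁆
  rw [e]
  exact Subgroup.commutator_mem_commutator ha hb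

theorem e3_perf {G : Type} [Group G] (J : Subgroup G) (h : ⁅J, J⁆ = J) : commutator J = ⊤ := by
  apply Subgroup.map_injective (Subgroup.subtype_injective J)
  rw [commutator_def, Subgroup.map_commutator, ← MonoidHom.range_eq_map, Subgroup.range_subtype]
  exact h

theorem e3_abP {G : Type} [Group G] [Finite G] {p : ℕ} [Fact p.Prime] (S : Sylow p G)
    (J : Subgroup G) [hJ : J.Normal]
    (h : ∀ x ∈ J, x ∈ S → ∀ y ∈ S, x * y = y * x) : AbP p J := by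
  intro P hP x hx y hy
  have h1 : IsPGroup p (P.map J.subtype) := hP.map J.subtype
  obtain ⟨Q, hQ⟩ := h1.exists_le_sylow
  obtain ⟨c, hc⟩ := e3_conj S Q
  have hx1 : (x : G) ∈ Q := hQ (Subgroup.mem_map_of_mem J.subtype hx)
  have hy1 : (y : G) ∈ Q := hQ (Subgroup.mem_map_of_mem J.subtype hy)
  have hxJ : c⁻¹ * (x : G) * c ∈ J := by
    have := hJ.conj_mem (x : G) x.2 c⁻¹
    rwa [inv_inv] at this
  have h2 := h _ hxJ (hc _ hx1) _ (hc _ hy1)
  apply Subtype.ext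
  show (x : G) * y = y * x
  have h7 : c⁻¹ * ((x : G) * y) * c = c⁻¹ * ((y : G) * x) * c := by
    calc c⁻¹ * ((x : G) * y) * c = (c⁻¹ * x * c) * (c⁻¹ * y * c) := by group
      _ = (c⁻¹ * y * c) * (c⁻¹ * x * c) := h2
      _ = c⁻¹ * ((y : G) * x) * c := by group
  exact mul_left_cancel (mul_right_cancel h7)

theorem e3_f1 {G : Type} [Group G] [Finite G] {M : Subgroup G} (hM : IsMonolith M)
    {p : ℕ} [hp : Fact p.Prime] (hexp : ∀ x ∈ M, x ^ p = 1) (J Z : Subgroup G) [hJ : J.Normal]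
    (hZn : Z.Normal) (hZ : IsPGroup p Z) (hZJ : Z ≤ J) (hne : J ≠ Z)
    (hcent : ∀ x ∈ Z, ∀ y ∈ J, x * y = y * x)
    (hall : ∀ x ∈ J, (∃ k : ℕ, x ^ p ^ k ∈ Z) → x ∈ Z) : False := by
  let Z' : Subgroup J := Z.subgroupOf J
  haveI hZ'n : Z'.Normal := hZn.subgroupOf J
  have hZ'p : IsPGroup p Z' := by
    rintro ⟨⟨x, hxJ⟩, hx⟩
    obtain ⟨k, hk⟩ := e3_pow hZ (Subgroup.mem_subgroupOf.1 hx)
    exact ⟨k, Subtype.ext (Subtype.ext hk)⟩
  obtain ⟨n, hn⟩ := IsPGroup.iff_card.1 hZ'p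
  have hidx : ¬ p ∣ Z'.index := by
    intro hdvd
    have h1 : p ∣ Nat.card (J ⧸ Z') := by
      rw [← Subgroup.index_eq_card]
      exact hdvd
    obtain ⟨q, hq⟩ := exists_prime_orderOf_dvd_card' p h1
    obtain ⟨x, rfl⟩ := QuotientGroup.mk_surjective q
    have h2 : ((x : J ⧸ Z')) ^ p = 1 := by
      rw [← hq]
      exact pow_orderOf_eq_one _
    have h3 : x ^ p ∈ Z' := (QuotientGroup.eq_one_iff (x ^ p)).1 h2
    have h4 : (x : G) ^ p ∈ Z := Subgroup.mem_subgroupOf.1 h3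
    have h5 : (x : G) ∈ Z := hall x x.2 ⟨1, by rwa [pow_one]⟩
    have h6 : (x : J ⧸ Z') = 1 := (QuotientGroup.eq_one_iff x).2 (Subgroup.mem_subgroupOf.2 h5)
    rw [h6, orderOf_one] at hq
    exact hp.out.one_lt.ne hq
  have hcop : Nat.Coprime (Nat.card Z') Z'.index := by
    rw [hn]
    exact Nat.Coprime.pow_left n ((Nat.Prime.coprime_iff_not_dvd hp.out).2 hidx)
  obtain ⟨H, hH⟩ := Subgroup.exists_right_complement'_of_coprime hcop
  have hHc : Nat.card H = Z'.index := hH.symm.index_eq_card.symm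
  set q := Nat.card H with hqdef
  have hqp : ¬ p ∣ q := by rw [hHc]; exact hidx
  have hHq : ∀ h ∈ H, h ^ q = 1 := by
    intro h hh
    have := pow_card_eq_one' (x := (⟨h, hh⟩ : H))
    exact congrArg Subtype.val this
  have hcq : ∀ x : G, (∃ k : ℕ, x ^ p ^ k = 1) → x ^ q = 1 → x = 1 := by
    rintro x ⟨k, hk⟩ hxq
    have h1 : x ^ (p ^ k).gcd q = 1 := pow_gcd_eq_one.2 ⟨hk, hxq⟩
    have h2 : (p ^ k).gcd q = 1 :=
      Nat.Coprime.pow_left k ((Nat.Prime.coprime_iff_not_dvd hp.out).2 hqp)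
    rwa [h2, pow_one] at h1
  let W : Subgroup G := H.map J.subtype
  have hWn : W.Normal := by
    constructor
    rintro _ ⟨h, hh, rfl⟩ g
    have hgJ : g * (h : G) * g⁻¹ ∈ J := hJ.conj_mem (h : G) h.2 g
    have hsup : (⟨g * (h : G) * g⁻¹, hgJ⟩ : J) ∈ Z' ⊔ H := by
      rw [hH.sup_eq_top]
      exact Subgroup.mem_top _
    obtain ⟨z, hz, h', hh', hzh⟩ := Subgroup.mem_sup_of_normal_left.1 hsup
    have hzh' : (z : G) * (h' : G) = g * (h : G) * g⁻¹ := congrArg Subtype.val hzh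
    have hzZ : (z : G) ∈ Z := Subgroup.mem_subgroupOf.1 hz
    have hc : Commute (z : G) (h' : G) := hcent _ hzZ _ h'.2
    have h1 : ((z : G) * (h' : G)) ^ q = 1 := by
      rw [hzh', conj_pow]
      have h2 : (h : G) ^ q = 1 := congrArg Subtype.val (hHq h hh)
      have h3 : (J.subtype h) ^ q = 1 := h2
      first
        | rw [h2, mul_one, mul_inv_cancel]
        | rw [h3, mul_one, mul_inv_cancel]
    rw [hc.mul_pow] at h1
    have h2 : (h' : G) ^ q = 1 := congrArg Subtype.val (hHq h' hh')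
    rw [h2, mul_one] at h1
    have h3 : (z : G) = 1 := hcq _ (e3_pow hZ hzZ) h1
    rw [h3, one_mul] at hzh'
    refine ⟨h', hh', ?_⟩
    exact hzh'
  have hWb : W ≠ ⊥ := by
    intro hWb
    have h1 : H = ⊥ := by
      rw [eq_bot_iff]
      intro h hh
      have h2 : J.subtype h ∈ W := Subgroup.mem_map_of_mem J.subtype hh
      rw [hWb, Subgroup.mem_bot] at h2
      rw [Subgroup.mem_bot]
      exact Subtype.ext h2
    apply hne
    apply le_antisymm _ hZJ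
    intro x hx
    have hsup : (⟨x, hx⟩ : J) ∈ Z' ⊔ H := by
      rw [hH.sup_eq_top]
      exact Subgroup.mem_top _
    rw [h1, sup_bot_eq] at hsup
    exact Subgroup.mem_subgroupOf.1 hsup
  have hMW : M ≤ W := hM.le W hWn hWb
  apply hM.ne_bot
  rw [eq_bot_iff]
  intro m hm
  rw [Subgroup.mem_bot]
  apply hcq m ⟨1, by rw [pow_one]; exact hexp m hm⟩
  obtain ⟨h, hh, rfl⟩ := hMW hm
  exact congrArg Subtype.val (hHq h hh)

theorem structure_lemma {G : Type} [Group G] [Finite G] {M : Subgroup G} [M.Normal]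
    (hM : IsMonolith M) (hA : AClass (G ⧸ M)) (hcomm : ∀ x ∈ M, ∀ y ∈ M, x * y = y * x)
    {p : ℕ} (hp : p.Prime) (hexp : ∀ x ∈ M, x ^ p = 1)
    (hcent : ∀ (g : G) (k : ℕ), g ^ p ^ k = 1 → ∀ m ∈ M, g * m = m * g)
    (hnonab : ¬ AbP p G) :
    (∃ N : Subgroup G, N.Normal ∧ M ≤ N ∧ ⁅N, N⁆ = N ∧ (∀ m ∈ M, ∀ n ∈ N, m * n = n * m) ∧
      (∀ J : Subgroup G, J.Normal → J ≤ N → J ≤ M ∨ J = N)) ∨
    (∃ N K : Subgroup G, N.Normal ∧ K.Normal ∧ IsPGroup p N ∧ M ≤ K ∧ K ≤ N ∧ K ≠ N ∧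
      (∀ J : Subgroup G, J.Normal → K ≤ J → J ≤ N → J = K ∨ J = N) ∧
      (∀ (g : G) (k : ℕ), g ^ p ^ k = 1 →
        (∀ x ∈ K, g * x = x * g) ∧ ∀ n ∈ N, n * g * n⁻¹ * g⁻¹ ∈ M) ∧
      ∃ (g : G) (k : ℕ), g ^ p ^ k = 1 ∧ ∃ n ∈ N, g * n ≠ n * g) := by
  classical
  haveI hpF : Fact p.Prime := ⟨hp⟩
  haveI hMn : M.Normal := hM.normal
  -- a Sylow subgroup that is not abelian
  rw [abP_iff_sylow] at hnonab
  push Not at hnonab
  obtain ⟨S, x₀, hx₀, y₀, hy₀, hxy₀⟩ := hnonab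
  have hSp : ∀ g ∈ S, ∃ k : ℕ, g ^ p ^ k = 1 := fun g hg => e3_pow S.isPGroup' hg
  -- the family
  let P : Subgroup G → Prop := fun N => N.Normal ∧ ∃ x ∈ N, x ∈ S ∧ ∃ s ∈ S, x * s ≠ s * x
  obtain ⟨N, hNP, hNmin⟩ := exists_minimal_of_wellFoundedLT P
    ⟨⊤, inferInstance, x₀, Subgroup.mem_top _, hx₀, y₀, hy₀, hxy₀⟩
  obtain ⟨hNn, x₁, hx₁N, hx₁S, s₁, hs₁, hxs₁⟩ := hNP
  have hNP : P N := ⟨hNn, x₁, hx₁N, hx₁S, s₁, hs₁, hxs₁⟩
  have hN' : ∀ J : Subgroup G, P J → J ≤ N → J = N := fun J hJ hJN =>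
    le_antisymm hJN (hNmin hJ hJN)
  -- (b)
  have hb : ∀ J : Subgroup G, J.Normal → (S : Subgroup G) ≤ J → N ≤ J := by
    intro J hJ hSJ
    have h1 : P (N ⊓ J) := by
      haveI := hJ
      exact ⟨inferInstance, x₁, ⟨hx₁N, hSJ hx₁S⟩, hx₁S, s₁, hs₁, hxs₁⟩
    have h2 := hN' _ h1 inf_le_left
    rw [← h2]
    exact inf_le_right
  -- subgroups centralised by `S`
  have hcU : ∀ U : Subgroup G, U.Normal → (∀ u ∈ U, ∀ s ∈ S, u * s = s * u) →
      ∀ u ∈ U, ∀ n ∈ N, u * n = n * u := by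
    intro U hU h u hu n hn
    haveI := hU
    have h1 : N ≤ Subgroup.centralizer (U : Set G) := by
      apply hb _ inferInstance
      intro s hs
      rw [Subgroup.mem_centralizer_iff]
      intro u hu
      exact h u hu s hs
    exact Subgroup.mem_centralizer_iff.1 (h1 hn) u hu
  -- (c)
  have hMS : ∀ m ∈ M, ∀ s ∈ S, m * s = s * m := by
    intro m hm s hs
    obtain ⟨k, hk⟩ := hSp s hs
    exact (hcent s k hk m hm).symm
  have hMN : ∀ m ∈ M, ∀ n ∈ N, m * n = n * m := hcU M hMn hMS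
  have hNbot : N ≠ ⊥ := by
    intro h
    rw [h, Subgroup.mem_bot] at hx₁N
    rw [hx₁N] at hxs₁
    exact hxs₁ (by rw [one_mul, mul_one])
  have hMleN : M ≤ N := hM.le N hNn hNbot
  -- (d)
  have hd : ∀ K : Subgroup G, K.Normal → K ≤ N → K ≠ N → ∀ x ∈ K, x ∈ S → ∀ s ∈ S,
      x * s = s * x := by
    intro K hK hKN hne x hx hxS s hs
    by_contra hcon
    exact hne (hN' K ⟨hK, x, hx, hxS, s, hs, hcon⟩ hKN)
  -- (e)
  have he : ∀ U : Subgroup G, U.Normal → IsPGroup p U → U ≤ N → U ≠ N →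
      ((∀ u ∈ U, ∀ s ∈ S, u * s = s * u) ∧ ∀ u ∈ U, ∀ n ∈ N, u * n = n * u) := by
    intro U hU hUp hUN hne
    haveI := hU
    have h1 : U ≤ S := e3_le_sylow U hUp S
    have h2 : ∀ u ∈ U, ∀ s ∈ S, u * s = s * u := fun u hu s hs =>
      hd U hU hUN hne u hu (h1 hu) s hs
    exact ⟨h2, hcU U hU h2⟩
  -- `K` maximal
  obtain ⟨K, ⟨hKn, hKN, hKne⟩, hKmax⟩ := exists_maximal_of_wellFoundedGT
    (fun K : Subgroup G => K.Normal ∧ K ≤ N ∧ K ≠ N) ⟨⊥, inferInstance, bot_le, hNbot.symm⟩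
  have hchief : ∀ J : Subgroup G, J.Normal → K ≤ J → J ≤ N → J = K ∨ J = N := by
    intro J hJ hKJ hJN
    by_cases h : J = N
    · exact Or.inr h
    · exact Or.inl (le_antisymm (hKmax ⟨hJ, hJN, h⟩ hKJ) hKJ)
  have hMneN : M ≠ N := by
    intro h
    rw [← h] at hx₁N
    exact hxs₁ (hMS x₁ hx₁N s₁ hs₁)
  have hKbot : K ≠ ⊥ := by
    intro h
    rcases hchief M hMn (by rw [h]; exact bot_le) hMleN with h1 | h1
    · exact hM.ne_bot (h1.trans h)
    · exact hMneN h1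
  have hMK : M ≤ K := hM.le K hKn hKbot
  have hexp' : ∀ m ∈ M, ∃ k : ℕ, m ^ p ^ k = 1 := fun m hm => ⟨1, by rw [pow_one]; exact hexp m hm⟩
  -- (f)
  have hKp : IsPGroup p K := by
    obtain ⟨Z, ⟨hZn, hZp, hZK⟩, hZmax⟩ := exists_maximal_of_wellFoundedGT
      (fun U : Subgroup G => U.Normal ∧ IsPGroup p U ∧ U ≤ K) ⟨⊥, inferInstance,
        IsPGroup.of_bot, bot_le⟩
    by_cases hZeq : Z = K
    · rw [← hZeq]
      exact hZp
    exfalso
    obtain ⟨J, ⟨hJn, hZJ, hJK, hJne⟩, hJmin⟩ := exists_minimal_of_wellFoundedLT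
      (fun J : Subgroup G => J.Normal ∧ Z ≤ J ∧ J ≤ K ∧ J ≠ Z)
      ⟨K, hKn, hZK, le_rfl, fun h => hZeq h.symm⟩
    have hZN : Z ≤ N := hZK.trans hKN
    have hZneN : Z ≠ N := by
      intro h
      exact hKne (le_antisymm hKN (h ▸ hZK))
    have hZc := (he Z hZn hZp hZN hZneN).2
    have hJN : J ≤ N := hJK.trans hKN
    have hJ'J : ⁅J, J⁆ ≤ J := Subgroup.commutator_le_left J J
    have hJ'n : (⁅J, J⁆ : Subgroup G).Normal := Subgroup.commutator_normal J J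
    by_cases hf1 : ⁅J, J⁆ ≤ Z
    · obtain ⟨T, hTn, hTp, hZT, hTJ, hTx⟩ := e3_T J Z hZp hZJ hf1
      have hTZ : T = Z := le_antisymm (hZmax ⟨hTn, hTp, hTJ.trans hJK⟩ hZT) hZT
      refine e3_f1 hM hexp J Z hZn hZp hZJ hJne (fun x hx y hy => hZc x hx y (hJN hy)) ?_
      intro x hx hk
      rw [← hTZ]
      exact hTx x hx hk
    · have hsup : ⁅J, J⁆ ⊔ Z = J := by
        by_contra hcon
        have h1 : ⁅J, J⁆ ⊔ Z ≤ J := sup_le hJ'J hZJ
        have h2 : ⁅J, J⁆ ⊔ Z ≠ Z := by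
          intro h
          apply hf1
          rw [← h]
          exact le_sup_left
        have h3 := hJmin (y := ⁅J, J⁆ ⊔ Z) ⟨inferInstance, le_sup_right, h1.trans hJK, h2⟩ h1
        exact hcon (le_antisymm h1 h3)
      have hJ'bot : ⁅J, J⁆ ≠ ⊥ := by
        intro h
        apply hf1
        rw [h]
        exact bot_le
      have hMJ' : M ≤ ⁅J, J⁆ := hM.le _ hJ'n hJ'bot
      have hJ'' : ⁅(⁅J, J⁆ : Subgroup G), (⁅J, J⁆ : Subgroup G)⁆ = ⁅J, J⁆ := by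
        apply le_antisymm (Subgroup.commutator_le_left _ _)
        have h1 := e3_CS (⁅J, J⁆ : Subgroup G) Z (by
          rw [hsup]
          intro z hz x hx
          exact hZc z hz x (hJN hx))
        rw [hsup] at h1
        exact h1
      have hab : AbP p (⁅J, J⁆ : Subgroup G) := by
        apply e3_abP S
        intro x hx hxS y hyS
        exact hd K hKn hKN hKne x (hJK (hJ'J hx)) hxS y hyS
      have hperf := e3_perf _ hJ''
      apply hM.ne_bot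
      rw [eq_bot_iff]
      intro m hm
      rw [Subgroup.mem_bot]
      obtain ⟨k, hk⟩ := hexp' m hm
      have h1 := transfer_center hp hab hperf ⟨m, hMJ' hm⟩ (by
        rintro ⟨x, hx⟩
        apply Subtype.ext
        exact (hMN m hm x (hJN (hJ'J hx))).symm) k (Subtype.ext hk)
      exact congrArg Subtype.val h1
  obtain ⟨hKS, hKcN⟩ := he K hKn hKp hKN hKne
  have hKleS : K ≤ S := e3_le_sylow K hKp S
  have hN'N : ⁅N, N⁆ ≤ N := Subgroup.commutator_le_left N N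
  have hN'n : (⁅N, N⁆ : Subgroup G).Normal := Subgroup.commutator_normal N N
  by_cases hg1 : ⁅N, N⁆ ≤ K
  · right
    obtain ⟨T, hTn, hTp, hKT, hTN, hTx⟩ := e3_T N K hKp hKN hg1
    have hNp : IsPGroup p N := by
      rcases hchief T hTn hKT hTN with h | h
      · exfalso
        have h1 : x₁ ∈ T := by
          obtain ⟨k, hk⟩ := hSp x₁ hx₁S
          exact hTx x₁ hx₁N ⟨k, by rw [hk]; exact K.one_mem⟩
        rw [h] at h1
        exact hxs₁ (hKS x₁ h1 s₁ hs₁)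
      · rw [← h]
        exact hTp
    refine ⟨N, K, hNn, hKn, hNp, hMK, hKN, hKne, hchief, ?_, ?_⟩
    · intro g k hg
      obtain ⟨Q, hQ⟩ := e3_elem g k hg
      refine ⟨?_, ?_⟩
      · intro x hx
        obtain ⟨c, hc⟩ := e3_conj S Q
        have h1 := hc g hQ
        have h2 : c⁻¹ * x * c ∈ K := by
          have := hKn.conj_mem x hx c⁻¹
          rwa [inv_inv] at this
        have h3 := hKS _ h2 _ h1
        have h7 : c⁻¹ * (x * g) * c = c⁻¹ * (g * x) * c := by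
          calc c⁻¹ * (x * g) * c = (c⁻¹ * x * c) * (c⁻¹ * g * c) := by group
            _ = (c⁻¹ * g * c) * (c⁻¹ * x * c) := h3
            _ = c⁻¹ * (g * x) * c := by group
        exact (mul_left_cancel (mul_right_cancel h7)).symm
      · intro n hn
        have h1 : n ∈ Q := e3_le_sylow N hNp Q hn
        have h2 : IsPGroup p ((Q : Subgroup G).map (QuotientGroup.mk' M)) :=
          Q.isPGroup'.map (QuotientGroup.mk' M)
        have h3 := hA.abP p hp _ h2 _ (Subgroup.mem_map_of_mem (QuotientGroup.mk' M) h1) _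
          (Subgroup.mem_map_of_mem (QuotientGroup.mk' M) hQ)
        rw [← QuotientGroup.eq_one_iff]
        have h4 : ((n : G ⧸ M)) * (g : G ⧸ M) = (g : G ⧸ M) * (n : G ⧸ M) := h3
        show (n : G ⧸ M) * (g : G ⧸ M) * (n : G ⧸ M)⁻¹ * (g : G ⧸ M)⁻¹ = 1
        rw [h4, mul_assoc (g : G ⧸ M), mul_inv_cancel, mul_one, mul_inv_cancel]
    · obtain ⟨k, hk⟩ := hSp s₁ hs₁
      exact ⟨s₁, k, hk, x₁, hx₁N, fun h => hxs₁ h.symm⟩
  · left
    have hsup : ⁅N, N⁆ ⊔ K = N := by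
      rcases hchief (⁅N, N⁆ ⊔ K) inferInstance le_sup_right (sup_le hN'N hKN) with h | h
      · exfalso
        apply hg1
        rw [← h]
        exact le_sup_left
      · exact h
    have hperf : ⁅N, N⁆ = N := by
      apply hN' _ _ hN'N
      refine ⟨hN'n, ?_⟩
      have h1 : x₁ ∈ ⁅N, N⁆ ⊔ K := by rw [hsup]; exact hx₁N
      obtain ⟨a, ha, b, hbK, hab⟩ := Subgroup.mem_sup_of_normal_right.1 h1
      refine ⟨a, ha, ?_, s₁, hs₁, ?_⟩
      · have h2 : a = x₁ * b⁻¹ := by rw [← hab]; group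
        rw [h2]
        exact mul_mem hx₁S (inv_mem (hKleS hbK))
      · intro h2
        apply hxs₁
        rw [← hab, mul_assoc, hKS b hbK s₁ hs₁, ← mul_assoc, h2, mul_assoc]
    -- `K = M`
    have hKM : K = M := by
      apply le_antisymm _ hMK
      intro x hx
      rw [← QuotientGroup.eq_one_iff]
      set π := QuotientGroup.mk' M with hπ
      have h1 : ⁅N.map π, N.map π⁆ = N.map π := by
        rw [← Subgroup.map_commutator, hperf]
      have h2 := e3_perf _ h1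
      have h3 : AbP p (N.map π) :=
        (hA.abP p hp).of_injective (N.map π).subtype (Subgroup.subtype_injective _)
      obtain ⟨k, hk⟩ := e3_pow hKp hx
      have h4 := transfer_center hp h3 h2 ⟨π x, Subgroup.mem_map_of_mem π (hKN hx)⟩ (by
        rintro ⟨_, n, hn, rfl⟩
        apply Subtype.ext
        show π n * π x = π x * π n
        rw [← map_mul, ← map_mul, hKcN x hx n hn]) k (by
        apply Subtype.ext
        show (π x) ^ p ^ k = 1
        rw [← map_pow, hk, map_one])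
      exact congrArg Subtype.val h4
    refine ⟨N, hNn, hMleN, hperf, hMN, ?_⟩
    intro J hJn hJN
    rcases hchief (J ⊔ K) inferInstance le_sup_right (sup_le hJN hKN) with h | h
    · left
      rw [← hKM, ← h]
      exact le_sup_left
    · right
      apply le_antisymm hJN
      have h1 := e3_CS J K (by
        rw [h]
        exact hKcN)
      rw [h, hperf] at h1
      exact h1.trans (Subgroup.commutator_le_left J J)

end Pool.Agent.Helper75.MNA
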