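import Pool.Agent.Helper75.MNA.PresDefs

set_option autoImplicit false
set_option linter.style.haveILetI false

namespace Pool.Agent.Helper75.MNA

open Subgroup Pointwise

/-- the action of `G / C_G(N)` on `N` -/
def e4_act {G : Type} [Group G] (N : Subgroup G) [N.Normal] :
    G ⧸ (Subgroup.centralizer (N : Set G)) →* MulAut ↥N :=
  QuotientGroup.lift _ (MulAut.conjNormal (H := N)) (by
    intro g hg
    ext n
    rw [Subgroup.mem_centralizer_iff] at hg
    have h1 := hg n n.2
    simp only [MulAut.conjNormal_apply, MulAut.one_apply]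
    rw [← h1, mul_inv_cancel_right])

/-- the map from `N` to `G / C_G(N)` -/
def e4_d {G : Type} [Group G] (N : Subgroup G) [N.Normal] :
    ↥N →* G ⧸ (Subgroup.centralizer (N : Set G)) :=
  (QuotientGroup.mk' (Subgroup.centralizer (N : Set G))).comp N.subtype

theorem e4_d_apply {G : Type} [Group G] (N : Subgroup G) [N.Normal] (n : ↥N) :
    e4_d N n = ((n : G) : G ⧸ (Subgroup.centralizer (N : Set G))) := rfl

theorem e4_act_mk {G : Type} [Group G] (N : Subgroup G) [N.Normal] (g : G) (n : ↥N) :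
    ((e4_act N (g : G ⧸ (Subgroup.centralizer (N : Set G))) n : ↥N) : G) = g * n * g⁻¹ := by
  change ((MulAut.conjNormal (H := N) g n : ↥N) : G) = _
  rw [MulAut.conjNormal_apply]

/-- the crossed module of a normal subgroup -/
def e4_D {G : Type} [Group G] [Finite G] (N : Subgroup G) [N.Normal] : CrossedMod where
  E := ↥N
  X := G ⧸ (Subgroup.centralizer (N : Set G))
  act := e4_act N
  d := e4_d N
  equivariant := by
    intro x e
    induction x using QuotientGroup.induction_on with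
    | H g =>
      rw [e4_d_apply, e4_act_mk, e4_d_apply]
      rfl
  peiffer := by
    intro e f
    apply Subtype.ext
    exact e4_act_mk N (e : G) f

theorem e4_F {G : Type} [Group G] [Finite G] (N : Subgroup G) [N.Normal]
    {F : GroupClass} (hF : IsFormation F) (h : F G) : F (e4_D N).Grp := by
  refine hF.surj (hF.semidirect h N) (SemidirectProduct.map (MonoidHom.id ↥N)
    (QuotientGroup.mk' (Subgroup.centralizer (N : Set G))) ?_) ?_
  · intro g
    rfl
  · rintro ⟨e, x⟩
    induction x using QuotientGroup.induction_on with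
    | H g => exact ⟨⟨e, g⟩, rfl⟩

section
variable {G : Type} [Group G] {M N : Subgroup G}

theorem e4_MC (hz : ∀ m ∈ M, ∀ n ∈ N, m * n = n * m) :
    M ≤ Subgroup.centralizer (N : Set G) := by
  intro m hm
  rw [Subgroup.mem_centralizer_iff]
  intro n hn
  exact (hz m hm n hn).symm

theorem e4_ZM [M.Normal] [N.Normal] (hM : IsMonolith M)
    (hMN : M ≤ N) (hperf : ⁅N, N⁆ = N)
    (hchief : ∀ J : Subgroup G, J.Normal → J ≤ N → J ≤ M ∨ J = N) :
    N ⊓ Subgroup.centralizer (N : Set G) ≤ M := by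
  rcases hchief (N ⊓ Subgroup.centralizer (N : Set G)) inferInstance inf_le_left with h1 | h1
  · exact h1
  · exfalso
    have h2 : N ≤ Subgroup.centralizer (N : Set G) := inf_eq_left.1 h1
    have h3 : ⁅N, N⁆ = ⊥ := by
      rw [Subgroup.commutator_eq_bot_iff_le_centralizer]
      exact h2
    rw [hperf] at h3
    rw [h3] at hMN
    exact hM.ne_bot (le_bot_iff.1 hMN)

theorem e4_ker [M.Normal] [N.Normal] (hM : IsMonolith M)
    (hMN : M ≤ N) (hperf : ⁅N, N⁆ = N) (hz : ∀ m ∈ M, ∀ n ∈ N, m * n = n * m)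
    (hchief : ∀ J : Subgroup G, J.Normal → J ≤ N → J ≤ M ∨ J = N) (e : ↥N) :
    e ∈ (e4_d N).ker ↔ (e : G) ∈ M := by
  rw [MonoidHom.mem_ker, e4_d_apply, QuotientGroup.eq_one_iff]
  constructor
  · intro h1
    exact e4_ZM hM hMN hperf hchief ⟨e.2, h1⟩
  · intro h1
    exact e4_MC hz h1

theorem e4_perf [N.Normal] (hperf : ⁅N, N⁆ = N) : commutator ↥N = ⊤ := by
  have h1 : (commutator ↥N).map N.subtype = (⊤ : Subgroup ↥N).map N.subtype := by
    rw [Subgroup.map_subtype_commutator, hperf]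
    rw [← MonoidHom.range_eq_map, Subgroup.range_subtype]
  exact Subgroup.map_injective N.subtype_injective h1

theorem e4_memA [M.Normal] [N.Normal] (hA : AClass (G ⧸ M))
    (hz : ∀ m ∈ M, ∀ n ∈ N, m * n = n * m) :
    AClass (G ⧸ (Subgroup.centralizer (N : Set G))) :=
  hA.surj (QuotientGroup.map M (Subgroup.centralizer (N : Set G)) (MonoidHom.id G) (e4_MC hz))
    (by
      intro x
      induction x using QuotientGroup.induction_on with
      | H g => exact ⟨(g : G ⧸ M), rfl⟩)

theorem e4_faith [N.Normal] : Function.Injective (e4_act N) := by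
  rw [injective_iff_map_eq_one]
  intro x
  induction x using QuotientGroup.induction_on with
  | H g =>
    intro h1
    rw [QuotientGroup.eq_one_iff, Subgroup.mem_centralizer_iff]
    intro n hn
    have h2 := e4_act_mk N g ⟨n, hn⟩
    rw [h1] at h2
    have h3 : n = g * n * g⁻¹ := h2
    calc n * g = (g * n * g⁻¹) * g := by rw [← h3]
      _ = g * n := by group

theorem e4_irr [M.Normal] [N.Normal] (hM : IsMonolith M)
    (hMN : M ≤ N) (hperf : ⁅N, N⁆ = N) (hz : ∀ m ∈ M, ∀ n ∈ N, m * n = n * m)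
    (hchief : ∀ J : Subgroup G, J.Normal → J ≤ N → J ≤ M ∨ J = N)
    (U : Subgroup ↥N) (hU : U ≤ (e4_d N).ker)
    (hinv : ∀ x, ∀ u ∈ U, e4_act N x u ∈ U) : U = ⊥ ∨ U = (e4_d N).ker := by
  rcases eq_or_ne U ⊥ with h0 | h0
  · exact Or.inl h0
  · right
    refine le_antisymm hU ?_
    have hn : (U.map N.subtype).Normal := by
      constructor
      rintro _ ⟨u, hu, rfl⟩ g
      refine ⟨e4_act N (g : G ⧸ (Subgroup.centralizer (N : Set G))) u, hinv _ u hu, ?_⟩
      exact e4_act_mk N g u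
    have hne : U.map N.subtype ≠ ⊥ := by
      intro h1
      apply h0
      rw [Subgroup.map_eq_bot_iff_of_injective _ N.subtype_injective] at h1
      exact h1
    have h2 := hM.le _ hn hne
    intro e he
    obtain ⟨u, hu, hue⟩ := h2 ((e4_ker hM hMN hperf hz hchief e).1 he)
    have : u = e := Subtype.ext hue
    rw [← this]
    exact hu

theorem e4_triv [Finite G] [M.Normal] [N.Normal]
    {p : ℕ} (hp : p.Prime)
    (hcent : ∀ (g : G) (k : ℕ), g ^ p ^ k = 1 → ∀ m ∈ M, g * m = m * g)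
    (x : G ⧸ (Subgroup.centralizer (N : Set G))) (k : ℕ) (hxk : x ^ p ^ k = 1) (e : ↥N)
    (he : (e : G) ∈ M) : e4_act N x e = e := by
  induction x using QuotientGroup.induction_on with
  | H g =>
    have hn0 : orderOf g ≠ 0 := (orderOf_pos g).ne'
    obtain ⟨a, m, hm, hnm⟩ := Nat.exists_eq_pow_mul_and_not_dvd hn0 p hp.ne_one
    have hco : Nat.Coprime (p ^ k) m :=
      Nat.Coprime.pow_left k ((Nat.Prime.coprime_iff_not_dvd hp).2 hm)
    obtain ⟨t, ht1, ht2⟩ := Nat.chineseRemainder hco 1 0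
    have h1 : ((g ^ t : G) : G ⧸ (Subgroup.centralizer (N : Set G))) = g := by
      have h2 : (g : G ⧸ (Subgroup.centralizer (N : Set G))) ^ t =
          (g : G ⧸ (Subgroup.centralizer (N : Set G))) ^ 1 := by
        rw [pow_eq_pow_iff_modEq]
        exact ht1.of_dvd (orderOf_dvd_of_pow_eq_one hxk)
      rw [pow_one] at h2
      exact h2
    have h3 : (g ^ t) ^ p ^ a = 1 := by
      rw [← pow_mul, ← orderOf_dvd_iff_pow_eq_one, hnm, mul_comm t]
      exact mul_dvd_mul_left _ ((Nat.modEq_zero_iff_dvd).1 ht2)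
    have h4 := hcent (g ^ t) a h3 _ he
    apply Subtype.ext
    rw [← h1, e4_act_mk, h4, mul_inv_cancel_right]

theorem e4_range [N.Normal]
    (hz : ∀ m ∈ M, ∀ n ∈ N, m * n = n * m)
    (hchief : ∀ J : Subgroup G, J.Normal → J ≤ N → J ≤ M ∨ J = N)
    (N1 : Subgroup (G ⧸ (Subgroup.centralizer (N : Set G)))) (hN1 : N1.Normal)
    (hle : N1 ≤ (e4_d N).range) : N1 = ⊥ ∨ N1 = (e4_d N).range := by
  have hJ : (N ⊓ N1.comap (QuotientGroup.mk' (Subgroup.centralizer (N : Set G)))).Normal :=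
    inferInstance
  rcases hchief _ hJ inf_le_left with h1 | h1
  · left
    rw [eq_bot_iff]
    intro x hx
    obtain ⟨n, hn⟩ := hle hx
    have h2 : (((n : G) : G ⧸ (Subgroup.centralizer (N : Set G)))) = x := hn
    have h3 : (n : G) ∈ M := h1 ⟨n.2, by
      change (((n : G) : G ⧸ (Subgroup.centralizer (N : Set G)))) ∈ N1
      rw [h2]; exact hx⟩
    rw [Subgroup.mem_bot, ← h2]
    exact (QuotientGroup.eq_one_iff _).2 (e4_MC hz h3)
  · right
    refine le_antisymm hle ?_
    rintro x ⟨n, rfl⟩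
    have h2 : (n : G) ∈ N ⊓ N1.comap (QuotientGroup.mk' (Subgroup.centralizer (N : Set G))) := by
      rw [h1]; exact n.2
    exact h2.2

end

theorem crossed_of_normal {G : Type} [Group G] [Finite G] {M N : Subgroup G} [M.Normal]
    [N.Normal] (hM : IsMonolith M) (hA : AClass (G ⧸ M))
    {p : ℕ} (hp : p.Prime) (hexp : ∀ x ∈ M, x ^ p = 1)
    (hcent : ∀ (g : G) (k : ℕ), g ^ p ^ k = 1 → ∀ m ∈ M, g * m = m * g)
    (hMN : M ≤ N) (hperf : ⁅N, N⁆ = N) (hz : ∀ m ∈ M, ∀ n ∈ N, m * n = n * m)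
    (hchief : ∀ J : Subgroup G, J.Normal → J ≤ N → J ≤ M ∨ J = N)
    {F : GroupClass} (hF : IsFormation F) (h : F G) :
    ∃ D : CrossedMod, D.IsAdmissible p ∧ F D.Grp := by
  have hker := e4_ker hM hMN hperf hz hchief
  refine ⟨e4_D N, ?_, e4_F N hF h⟩
  refine ⟨hp, e4_perf hperf, e4_memA hA hz, e4_faith, ?_, ?_, e4_irr hM hMN hperf hz hchief, ?_,
    e4_range hz hchief⟩
  · have h0 : (e4_d N).ker ≠ ⊥ := by
      intro h1
      apply hM.ne_bot
      rw [eq_bot_iff]
      intro m hm
      have h2 : (⟨m, hMN hm⟩ : ↥N) ∈ (e4_d N).ker := (hker _).2 hm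
      rw [h1, Subgroup.mem_bot] at h2
      exact congrArg Subtype.val h2
    exact h0
  · intro e he
    have h1 := hexp _ ((hker e).1 he)
    exact Subtype.ext h1
  · intro x k hxk e he
    exact e4_triv hp hcent x k hxk e ((hker e).1 he)

end Pool.Agent.Helper75.MNA
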