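import Pool.Agent.Helper75.MNA.PresDefs

set_option autoImplicit false
set_option linter.style.haveILetI false

namespace Pool.Agent.Helper75.MNA

open Subgroup Pointwise

/-- Elements centralizing `K` and centralizing `N` modulo `M`. -/
def e5_D {G : Type} [Group G] (M N K : Subgroup G) [M.Normal] : Subgroup G where
  carrier := {g | (∀ x ∈ K, g * x = x * g) ∧ ∀ n ∈ N, n * g * n⁻¹ * g⁻¹ ∈ M}
  one_mem' := ⟨fun x _ => by simp, fun n _ => by simpa using M.one_mem⟩
  mul_mem' := by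
    rintro g g' ⟨h1, h2⟩ ⟨h3, h4⟩
    refine ⟨fun x hx => ?_, fun n hn => ?_⟩
    · rw [mul_assoc, h3 x hx, ← mul_assoc, h1 x hx, mul_assoc]
    · have e : n * (g * g') * n⁻¹ * (g * g')⁻¹ =
          (n * g * n⁻¹ * g⁻¹) * (g * (n * g' * n⁻¹ * g'⁻¹) * g⁻¹) := by group
      rw [e]
      exact M.mul_mem (h2 n hn) (Subgroup.Normal.conj_mem inferInstance _ (h4 n hn) g)
  inv_mem' := by
    rintro g ⟨h1, h2⟩
    refine ⟨fun x hx => ?_, fun n hn => ?_⟩
    · have := h1 x hx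
      calc g⁻¹ * x = g⁻¹ * (x * g) * g⁻¹ := by group
        _ = g⁻¹ * (g * x) * g⁻¹ := by rw [this]
        _ = x * g⁻¹ := by group
    · have e : n * g⁻¹ * n⁻¹ * g⁻¹⁻¹ = g⁻¹ * (n * g * n⁻¹ * g⁻¹)⁻¹ * g⁻¹⁻¹ := by group
      rw [e]
      exact Subgroup.Normal.conj_mem inferInstance _ (M.inv_mem (h2 n hn)) g⁻¹

theorem e5_mem_D {G : Type} [Group G] {M N K : Subgroup G} [M.Normal] {g : G} :
    g ∈ e5_D M N K ↔ (∀ x ∈ K, g * x = x * g) ∧ ∀ n ∈ N, n * g * n⁻¹ * g⁻¹ ∈ M := Iff.rfl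

theorem e5_D_normal {G : Type} [Group G] (M N K : Subgroup G) [M.Normal] [N.Normal] [K.Normal] :
    (e5_D M N K).Normal := by
  constructor
  rintro g ⟨h1, h2⟩ c
  refine ⟨fun x hx => ?_, fun n hn => ?_⟩
  · have h3 : c⁻¹ * x * c ∈ K := by
      have := Subgroup.Normal.conj_mem (inferInstance : K.Normal) x hx c⁻¹
      simpa using this
    have h4 := h1 _ h3
    calc c * g * c⁻¹ * x = c * (g * (c⁻¹ * x * c)) * c⁻¹ := by group
      _ = c * ((c⁻¹ * x * c) * g) * c⁻¹ := by rw [h4]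
      _ = x * (c * g * c⁻¹) := by group
  · have h3 : c⁻¹ * n * c ∈ N := by
      have := Subgroup.Normal.conj_mem (inferInstance : N.Normal) n hn c⁻¹
      simpa using this
    have e : n * (c * g * c⁻¹) * n⁻¹ * (c * g * c⁻¹)⁻¹ =
        c * ((c⁻¹ * n * c) * g * (c⁻¹ * n * c)⁻¹ * g⁻¹) * c⁻¹ := by group
    rw [e]
    exact Subgroup.Normal.conj_mem inferInstance _ (h2 _ h3) c

/-- abstract data -/
structure e5_Dat (G : Type) [Group G] (M N K : Subgroup G) [M.Normal] (V Mv : Type)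
    [AddCommGroup V] [AddCommGroup Mv] where
  π : G → V
  ι : G → Mv
  aV : G →* AddMonoid.End V
  aM : G →* AddMonoid.End Mv
  w : G → V →+ Mv
  π_mul : ∀ n ∈ N, ∀ n' ∈ N, π (n * n') = π n + π n'
  π_surj : ∀ v, ∃ n ∈ N, π n = v
  π_ker : ∀ n ∈ N, (π n = 0 ↔ n ∈ K)
  π_act : ∀ g, ∀ n ∈ N, aV g (π n) = π (g * n * g⁻¹)
  ι_mul : ∀ m ∈ M, ∀ m' ∈ M, ι (m * m') = ι m + ι m'
  ι_surj : ∀ y, ∃ m ∈ M, ι m = y
  ι_inj : ∀ m ∈ M, ι m = 0 → m = 1
  ι_act : ∀ g, ∀ m ∈ M, aM g (ι m) = ι (g * m * g⁻¹)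
  w_π : ∀ x ∈ e5_D M N K, ∀ n ∈ N, w x (π n) = ι (n * x * n⁻¹ * x⁻¹)
  hNC : N ≤ e5_D M N K
  hMK : M ≤ K
  hKN : K ≤ N

namespace e5_Dat

variable {G : Type} [Group G] {M N K : Subgroup G} [M.Normal] [N.Normal] [K.Normal] {V Mv : Type}
    [AddCommGroup V] [AddCommGroup Mv] (d : e5_Dat G M N K V Mv)

include d in
theorem π_one : d.π 1 = 0 := by
  have := d.π_mul 1 N.one_mem 1 N.one_mem
  rw [mul_one] at this
  exact (left_eq_add.1 this)

include d in
theorem ι_one : d.ι 1 = 0 := by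
  have := d.ι_mul 1 M.one_mem 1 M.one_mem
  rw [mul_one] at this
  exact (left_eq_add.1 this)

theorem π_inv (n : G) (hn : n ∈ N) : d.π n⁻¹ = - d.π n := by
  have := d.π_mul n hn n⁻¹ (N.inv_mem hn)
  rw [mul_inv_cancel, d.π_one] at this
  exact (neg_eq_of_add_eq_zero_right this.symm).symm

theorem ι_inv (n : G) (hn : n ∈ M) : d.ι n⁻¹ = - d.ι n := by
  have := d.ι_mul n hn n⁻¹ (M.inv_mem hn)
  rw [mul_inv_cancel, d.ι_one] at this
  exact (neg_eq_of_add_eq_zero_right this.symm).symm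

theorem π_eq (n n' : G) (hn : n ∈ N) (hn' : n' ∈ N) (h : n * n'⁻¹ ∈ K) : d.π n = d.π n' := by
  have h1 := d.π_mul n hn n'⁻¹ (N.inv_mem hn')
  rw [(d.π_ker _ (N.mul_mem hn (N.inv_mem hn'))).2 h, d.π_inv n' hn'] at h1
  exact (sub_eq_zero.1 (by rw [sub_eq_add_neg]; exact h1.symm))

theorem D_V {x : G} (hx : x ∈ e5_D M N K) (v : V) : d.aV x v = v := by
  obtain ⟨n, hn, rfl⟩ := d.π_surj v
  rw [d.π_act x n hn]
  refine d.π_eq _ _ (Subgroup.Normal.conj_mem inferInstance n hn x) hn (d.hMK ?_)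
  have h1 := M.inv_mem (hx.2 n hn)
  have e : (n * x * n⁻¹ * x⁻¹)⁻¹ = x * n * x⁻¹ * n⁻¹ := by group
  rwa [e] at h1

theorem D_M {x : G} (hx : x ∈ e5_D M N K) (y : Mv) : d.aM x y = y := by
  obtain ⟨m, hm, rfl⟩ := d.ι_surj y
  rw [d.ι_act x m hm]
  congr 1
  rw [hx.1 m (d.hMK hm)]
  group

theorem ext_w {f g : V →+ Mv} (h : ∀ n ∈ N, f (d.π n) = g (d.π n)) : f = g := by
  ext v
  obtain ⟨n, hn, rfl⟩ := d.π_surj v
  exact h n hn

theorem w_mul {x y : G} (hx : x ∈ e5_D M N K) (hy : y ∈ e5_D M N K) :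
    d.w (x * y) = d.w x + d.w y := by
  refine d.ext_w fun n hn => ?_
  rw [AddMonoidHom.add_apply, d.w_π _ (mul_mem hx hy) n hn, d.w_π _ hx n hn, d.w_π _ hy n hn]
  have e : n * (x * y) * n⁻¹ * (x * y)⁻¹ =
      (n * x * n⁻¹ * x⁻¹) * (x * (n * y * n⁻¹ * y⁻¹) * x⁻¹) := by group
  have h1 := hy.2 n hn
  have h2 : x * (n * y * n⁻¹ * y⁻¹) * x⁻¹ = n * y * n⁻¹ * y⁻¹ := by
    rw [hx.1 _ (d.hMK h1)]; group
  rw [e, h2, d.ι_mul _ (hx.2 n hn) _ h1]

theorem w_one : d.w 1 = 0 := by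
  have := d.w_mul (one_mem (e5_D M N K)) (one_mem (e5_D M N K))
  rw [mul_one] at this
  exact left_eq_add.1 this

theorem w_inv {x : G} (hx : x ∈ e5_D M N K) : d.w x⁻¹ = - d.w x := by
  have := d.w_mul hx (inv_mem hx)
  rw [mul_inv_cancel, d.w_one] at this
  exact (neg_eq_of_add_eq_zero_right this.symm).symm

/-- action on homomorphisms -/
def aH : G →* AddMonoid.End (V →+ Mv) where
  toFun g :=
    { toFun := fun f => (d.aM g : Mv →+ Mv).comp (f.comp (d.aV g⁻¹ : V →+ V))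
      map_zero' := by
        ext v
        show d.aM g 0 = 0
        exact map_zero _
      map_add' := fun f f' => by
        ext v
        show d.aM g (f (d.aV g⁻¹ v) + f' (d.aV g⁻¹ v)) =
          d.aM g (f (d.aV g⁻¹ v)) + d.aM g (f' (d.aV g⁻¹ v))
        exact map_add _ _ _ }
  map_one' := by
    ext f v
    show d.aM 1 (f (d.aV 1⁻¹ v)) = f v
    rw [inv_one, map_one, map_one]
    rfl
  map_mul' g g' := by
    ext f v
    show d.aM (g * g') (f (d.aV (g * g')⁻¹ v)) =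
      d.aM g (d.aM g' (f (d.aV g'⁻¹ (d.aV g⁻¹ v))))
    rw [mul_inv_rev, map_mul, map_mul]
    rfl

theorem aH_apply (g : G) (f : V →+ Mv) (v : V) : d.aH g f v = d.aM g (f (d.aV g⁻¹ v)) := rfl

theorem aH_apply' (g : G) (f : V →+ Mv) (v : V) : d.aH g f (d.aV g v) = d.aM g (f v) := by
  rw [aH_apply]
  congr 2
  exact Pairing.inv_act d.aV g v

theorem aH_w (g : G) {x : G} (hx : x ∈ e5_D M N K) : d.aH g (d.w x) = d.w (g * x * g⁻¹) := by
  refine d.ext_w fun n hn => ?_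
  have h3 : g⁻¹ * n * g ∈ N := by
    have := Subgroup.Normal.conj_mem (inferInstance : N.Normal) n hn g⁻¹
    simpa using this
  have h4 : g⁻¹ * n * g⁻¹⁻¹ ∈ N := by simpa using h3
  rw [aH_apply, d.π_act _ n hn, d.w_π _ hx _ h4, d.ι_act _ _ (hx.2 _ h4),
    d.w_π _ ((e5_D_normal M N K).conj_mem x hx g) n hn]
  congr 1
  group

theorem D_H {x : G} (hx : x ∈ e5_D M N K) (f : V →+ Mv) : d.aH x f = f := by
  ext v
  rw [aH_apply, d.D_M hx, d.D_V (inv_mem hx)]

end e5_Dat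
namespace e5_Dat

variable {G : Type} [Group G] {M N K : Subgroup G} [M.Normal] [N.Normal] [K.Normal] {V Mv : Type}
    [AddCommGroup V] [AddCommGroup Mv] (d : e5_Dat G M N K V Mv)

/-- all the `w x` -/
def Wall : AddSubgroup (V →+ Mv) where
  carrier := {f | ∃ x ∈ e5_D M N K, f = d.w x}
  zero_mem' := ⟨1, one_mem _, d.w_one.symm⟩
  add_mem' := by
    rintro _ _ ⟨x, hx, rfl⟩ ⟨y, hy, rfl⟩
    exact ⟨x * y, mul_mem hx hy, (d.w_mul hx hy).symm⟩
  neg_mem' := by
    rintro _ ⟨x, hx, rfl⟩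
    exact ⟨x⁻¹, inv_mem hx, (d.w_inv hx).symm⟩

theorem mem_Wall {f : V →+ Mv} : f ∈ d.Wall ↔ ∃ x ∈ e5_D M N K, f = d.w x := Iff.rfl

theorem Wall_inv (g : G) {f : V →+ Mv} (hf : f ∈ d.Wall) : d.aH g f ∈ d.Wall := by
  obtain ⟨x, hx, rfl⟩ := hf
  exact ⟨g * x * g⁻¹, (e5_D_normal M N K).conj_mem x hx g, d.aH_w g hx⟩

theorem exists_W [Finite V] [Finite Mv] (hne : d.Wall ≠ ⊥) :
    ∃ W : AddSubgroup (V →+ Mv), W ≤ d.Wall ∧ W ≠ ⊥ ∧ (∀ g, ∀ f ∈ W, d.aH g f ∈ W) ∧
      ∀ U : AddSubgroup (V →+ Mv), U ≤ W → (∀ g, ∀ f ∈ U, d.aH g f ∈ U) → U = ⊥ ∨ U = W := by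
  classical
  haveI : Finite (V →+ Mv) := Finite.of_injective (fun f : V →+ Mv => (f : V → Mv))
    DFunLike.coe_injective
  haveI : Finite (AddSubgroup (V →+ Mv)) := Finite.of_injective
    (fun U : AddSubgroup (V →+ Mv) => (U : Set (V →+ Mv))) SetLike.coe_injective
  let S : Set (AddSubgroup (V →+ Mv)) :=
    {U | U ≤ d.Wall ∧ U ≠ ⊥ ∧ ∀ g, ∀ f ∈ U, d.aH g f ∈ U}
  obtain ⟨W, hW⟩ := (Set.toFinite S).exists_minimal
    ⟨d.Wall, le_refl _, hne, fun g f hf => d.Wall_inv g hf⟩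
  refine ⟨W, hW.prop.1, hW.prop.2.1, hW.prop.2.2, fun U hU hU2 => ?_⟩
  by_cases h0 : U = ⊥
  · exact Or.inl h0
  · right
    exact le_antisymm hU (hW.le_of_le ⟨hU.trans hW.prop.1, h0, hU2⟩ hU)

/-- action on `W` -/
def aW (W : AddSubgroup (V →+ Mv)) (hW : ∀ g, ∀ f ∈ W, d.aH g f ∈ W) : G →* AddMonoid.End W where
  toFun g :=
    { toFun := fun f => ⟨d.aH g f, hW g f f.2⟩
      map_zero' := by
        apply Subtype.ext
        show d.aH g 0 = 0
        exact map_zero _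
      map_add' := fun f f' => by
        apply Subtype.ext
        show d.aH g (f + f') = d.aH g f + d.aH g f'
        exact map_add _ _ _ }
  map_one' := by
    ext f : 1
    apply Subtype.ext
    show d.aH 1 f = f
    rw [map_one]
    rfl
  map_mul' g g' := by
    ext f : 1
    apply Subtype.ext
    show d.aH (g * g') f = d.aH g (d.aH g' f)
    rw [map_mul]
    rfl

theorem aW_coe (W : AddSubgroup (V →+ Mv)) (hW : ∀ g, ∀ f ∈ W, d.aH g f ∈ W) (g : G) (f : W) :
    ((d.aW W hW g f : W) : V →+ Mv) = d.aH g f := rfl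

/-- the kernel of all actions -/
def C (W : AddSubgroup (V →+ Mv)) (hW : ∀ g, ∀ f ∈ W, d.aH g f ∈ W) : Subgroup G :=
  (d.aV.ker ⊓ (d.aW W hW).ker) ⊓ d.aM.ker

instance C_normal (W : AddSubgroup (V →+ Mv)) (hW : ∀ g, ∀ f ∈ W, d.aH g f ∈ W) :
    (d.C W hW).Normal := by
  unfold C
  infer_instance

theorem D_le_C (W : AddSubgroup (V →+ Mv)) (hW : ∀ g, ∀ f ∈ W, d.aH g f ∈ W) :
    e5_D M N K ≤ d.C W hW := by
  intro x hx
  refine ⟨⟨?_, ?_⟩, ?_⟩
  · show x ∈ d.aV.ker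
    rw [MonoidHom.mem_ker]
    ext v
    exact d.D_V hx v
  · show x ∈ (d.aW W hW).ker
    rw [MonoidHom.mem_ker]
    ext f : 1
    apply Subtype.ext
    exact d.D_H hx f
  · show x ∈ d.aM.ker
    rw [MonoidHom.mem_ker]
    ext v
    exact d.D_M hx v

/-- the pairing -/
abbrev P [Finite G] [Finite V] [Finite Mv] (W : AddSubgroup (V →+ Mv))
    (hW : ∀ g, ∀ f ∈ W, d.aH g f ∈ W) : Pairing where
  H := G ⧸ d.C W hW
  V := V
  W := W
  M := Mv
  finW := by
    haveI : Finite (V →+ Mv) := Finite.of_injective (fun f : V →+ Mv => (f : V → Mv))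
      DFunLike.coe_injective
    infer_instance
  actV := QuotientGroup.lift (d.C W hW) d.aV (fun x hx => hx.1.1)
  actW := QuotientGroup.lift (d.C W hW) (d.aW W hW) (fun x hx => hx.1.2)
  actM := QuotientGroup.lift (d.C W hW) d.aM (fun x hx => hx.2)
  β := W.subtype.flip
  equivariant := by
    intro h v w
    induction h using QuotientGroup.induction_on with
    | H g => exact d.aH_apply' g w v

end e5_Dat
namespace e5_Dat

variable {G : Type} [Group G] {M N K : Subgroup G} [M.Normal] [N.Normal] [K.Normal] {V Mv : Type}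
    [AddCommGroup V] [AddCommGroup Mv] (d : e5_Dat G M N K V Mv)
    (W : AddSubgroup (V →+ Mv)) (hW : ∀ g, ∀ f ∈ W, d.aH g f ∈ W)

/-- the elements of `D` whose homomorphism is in `W` -/
def DW : Subgroup G where
  carrier := {x | x ∈ e5_D M N K ∧ d.w x ∈ W}
  one_mem' := ⟨one_mem _, by rw [d.w_one]; exact W.zero_mem⟩
  mul_mem' := by
    rintro x y ⟨h1, h2⟩ ⟨h3, h4⟩
    exact ⟨mul_mem h1 h3, by rw [d.w_mul h1 h3]; exact W.add_mem h2 h4⟩
  inv_mem' := by
    rintro x ⟨h1, h2⟩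
    exact ⟨inv_mem h1, by rw [d.w_inv h1]; exact W.neg_mem h2⟩

include hW in
theorem DW_conj (g : G) {x : G} (hx : x ∈ d.DW W) : g * x * g⁻¹ ∈ d.DW W :=
  ⟨(e5_D_normal M N K).conj_mem x hx.1 g, by
    rw [← d.aH_w g hx.1]
    exact hW g _ hx.2⟩

/-- the normal subgroup `N2` of `N ⋊ G` -/
def N2 : Subgroup (↥N ⋊[MulAut.conjNormal] G) where
  carrier := {z | (z.left : G) ∈ M ∧ z.right ∈ d.DW W}
  one_mem' := ⟨M.one_mem, one_mem _⟩
  mul_mem' := by
    rintro x y ⟨h1, h2⟩ ⟨h3, h4⟩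
    refine ⟨?_, mul_mem h2 h4⟩
    show (x.left : G) * (x.right * (y.left : G) * x.right⁻¹) ∈ M
    exact M.mul_mem h1 (Subgroup.Normal.conj_mem inferInstance _ h3 _)
  inv_mem' := by
    rintro x ⟨h1, h2⟩
    refine ⟨?_, inv_mem h2⟩
    show (x.right⁻¹ * (x.left : G)⁻¹ * x.right⁻¹⁻¹) ∈ M
    exact Subgroup.Normal.conj_mem inferInstance _ (M.inv_mem h1) _

theorem N2_left (c y : ↥N ⋊[MulAut.conjNormal] G) :
    ((c * y * c⁻¹).left : G) = (c.left : G) * (c.right * (y.left : G) * c.right⁻¹) *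
      ((c.right * y.right * c.right⁻¹) * (c.left : G)⁻¹ * (c.right * y.right * c.right⁻¹)⁻¹) := by
  have h1 : ((c * y * c⁻¹).left : G) = ((c.left : G) * (c.right * (y.left : G) * c.right⁻¹)) *
      ((c.right * y.right) * ((c.right⁻¹) * (c.left : G)⁻¹ * c.right⁻¹⁻¹) *
        (c.right * y.right)⁻¹) := rfl
  rw [h1]
  group

theorem N2_right (c y : ↥N ⋊[MulAut.conjNormal] G) :
    (c * y * c⁻¹).right = c.right * y.right * c.right⁻¹ := rfl

include hW in
theorem N2_normal : (d.N2 W).Normal := by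
  constructor
  rintro y ⟨h1, h2⟩ c
  have h3 := d.DW_conj W hW c.right h2
  refine ⟨?_, h3⟩
  rw [N2_left]
  have h4 := h3.1.2 c.left c.left.2
  have h5 : c.right * (y.left : G) * c.right⁻¹ ∈ M :=
    Subgroup.Normal.conj_mem inferInstance _ h1 _
  have e : (c.left : G) * (c.right * (y.left : G) * c.right⁻¹) *
      ((c.right * y.right * c.right⁻¹) * (c.left : G)⁻¹ * (c.right * y.right * c.right⁻¹)⁻¹) =
      ((c.left : G) * (c.right * (y.left : G) * c.right⁻¹) * (c.left : G)⁻¹) *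
      ((c.left : G) * (c.right * y.right * c.right⁻¹) * (c.left : G)⁻¹ *
        (c.right * y.right * c.right⁻¹)⁻¹) := by group
  rw [e]
  exact M.mul_mem (Subgroup.Normal.conj_mem inferInstance _ h5 _) h4

variable [Finite G] [Finite V] [Finite Mv]

/-- `j1` -/
def j1 : ↥(d.N2 W) →* (d.P W hW).Grp where
  toFun z := ⟨⟨0, ⟨d.w z.1.right, z.2.2.2⟩, d.ι z.1.left⟩, 1⟩
  map_one' := by
    have h1 : (⟨d.w (1 : G), by rw [d.w_one]; exact W.zero_mem⟩ : W) = 0 :=
      Subtype.ext d.w_one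
    have h2 : d.ι (1 : G) = 0 := d.ι_one
    apply SemidirectProduct.ext
    · apply Heis.ext
      · rfl
      · exact h1
      · exact h2
    · rfl
  map_mul' := by
    rintro ⟨x, hx1, hx2⟩ ⟨y, hy1, hy2⟩
    have h0 : ((x * y).left : G) = x.left * y.left := by
      show (x.left : G) * (x.right * (y.left : G) * x.right⁻¹) = x.left * y.left
      rw [hx2.1.1 _ (d.hMK hy1)]
      group
    apply SemidirectProduct.ext
    · apply Heis.ext
      · show (0 : V) = 0 + _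
        rw [zero_add]
        exact (map_zero _).symm
      · apply Subtype.ext
        show d.w (x.right * y.right) = d.w x.right + d.aH 1 (d.w y.right)
        rw [d.w_mul hx2.1 hy2.1, map_one]
        rfl
      · show d.ι ((x * y).left : G) = d.ι x.left + d.aM 1 (d.ι y.left) +
          (d.aH 1 (d.w y.right)) 0
        rw [h0, d.ι_mul _ hx1 _ hy1, map_one, map_zero, add_zero]
        rfl
    · show (1 : G ⧸ d.C W hW) = 1 * 1
      rw [one_mul]

/-- `j2` -/
def j2 : (↥N ⋊[MulAut.conjNormal] G) →* (d.P W hW).Grp where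
  toFun c := ⟨⟨d.π c.left, 0, 0⟩, (c.right : G ⧸ d.C W hW)⟩
  map_one' := by
    apply SemidirectProduct.ext
    · apply Heis.ext
      · exact d.π_one
      · rfl
      · rfl
    · rfl
  map_mul' := by
    intro x y
    apply SemidirectProduct.ext
    · apply Heis.ext
      · show d.π ((x.left : G) * (x.right * (y.left : G) * x.right⁻¹)) =
          d.π x.left + d.aV x.right (d.π y.left)
        rw [d.π_act _ _ y.left.2, d.π_mul _ x.left.2 _
          (Subgroup.Normal.conj_mem inferInstance _ y.left.2 _)]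
      · show (0 : W) = 0 + d.aW W hW x.right 0
        rw [map_zero, add_zero]
      · show (0 : Mv) = 0 + d.aM x.right 0 + (d.aH x.right 0) (d.π x.left)
        rw [map_zero, map_zero, add_zero, zero_add]
        rfl
    · rfl

theorem j_comm (c : ↥N ⋊[MulAut.conjNormal] G) (y z : d.N2 W)
    (h : (z : ↥N ⋊[MulAut.conjNormal] G) = c * y * c⁻¹) :
    d.j1 W hW z * d.j2 W hW c = d.j2 W hW c * d.j1 W hW y := by
  obtain ⟨y, hy1, hy2⟩ := y
  obtain ⟨z, hz1, hz2⟩ := z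
  change z = c * y * c⁻¹ at h
  have hr : z.right = c.right * y.right * c.right⁻¹ := by rw [h]; rfl
  have hl : (z.left : G) = (c.right * (y.left : G) * c.right⁻¹) *
      (c.left * z.right * (c.left : G)⁻¹ * z.right⁻¹) := by
    have h5 : c.right * (y.left : G) * c.right⁻¹ ∈ M :=
      Subgroup.Normal.conj_mem inferInstance _ hy1 _
    have h6 := (d.hNC c.left.2).1 _ (d.hMK h5)
    rw [h, N2_left, N2_right, h6]
    group
  have h5 : c.right * (y.left : G) * c.right⁻¹ ∈ M :=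
    Subgroup.Normal.conj_mem inferInstance _ hy1 _
  apply SemidirectProduct.ext
  · apply Heis.ext
    · show 0 + d.aV 1 (d.π c.left) = d.π c.left + d.aV c.right 0
      rw [map_one, map_zero, add_zero, zero_add]
      rfl
    · apply Subtype.ext
      show d.w z.right + d.aH 1 0 = 0 + d.aH c.right (d.w y.right)
      rw [d.aH_w c.right hy2.1, map_zero, add_zero, zero_add, hr]
    · show d.ι z.left + d.aM 1 0 + (d.aH 1 0) 0 =
        0 + d.aM c.right (d.ι y.left) + d.aH c.right (d.w y.right) (d.π c.left)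
      rw [d.aH_w c.right hy2.1, map_zero, map_zero, add_zero, add_zero, zero_add,
        d.ι_act _ _ hy1, ← hr, d.w_π _ hz2.1 _ c.left.2, hl,
        d.ι_mul _ h5 _ (hz2.1.2 _ c.left.2)]
  · show (1 : G ⧸ d.C W hW) * (c.right : G ⧸ d.C W hW) = (c.right : G ⧸ d.C W hW) * 1
    rw [one_mul, mul_one]

include hW in
theorem F_Grp (hWall : W ≤ d.Wall) {F : GroupClass} (hF : IsFormation F) (h : F G) :
    F (d.P W hW).Grp := by
  haveI := d.N2_normal W hW
  have h1 := hF.semidirect h N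
  have h2 := hF.semidirect h1 (d.N2 W)
  let Ψ : (↥(d.N2 W) ⋊[MulAut.conjNormal] (↥N ⋊[MulAut.conjNormal (H := N)] G)) →*
      (d.P W hW).Grp :=
    SemidirectProduct.lift (d.j1 W hW) (d.j2 W hW) (by
      intro c
      ext y : 1
      show d.j1 W hW (MulAut.conjNormal c y) = d.j2 W hW c * d.j1 W hW y * (d.j2 W hW c)⁻¹
      rw [eq_mul_inv_iff_mul_eq]
      exact d.j_comm W hW c y _ (MulAut.conjNormal_apply c y))
  refine hF.surj h2 Ψ ?_
  rintro ⟨⟨v, w, m⟩, h⟩
  obtain ⟨n, hn, rfl⟩ := d.π_surj v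
  obtain ⟨m0, hm0, rfl⟩ := d.ι_surj m
  obtain ⟨w, hw⟩ := w
  obtain ⟨x, hx, rfl⟩ := hWall hw
  obtain ⟨g, rfl⟩ := QuotientGroup.mk_surjective h
  have hm0N : m0 ∈ N := d.hKN (d.hMK hm0)
  refine ⟨⟨⟨⟨⟨m0, hm0N⟩, x⟩, hm0, hx, hw⟩, ⟨⟨n, hn⟩, g⟩⟩, ?_⟩
  apply SemidirectProduct.ext
  · apply Heis.ext
    · show 0 + d.aV 1 (d.π n) = d.π n
      rw [map_one, zero_add]
      rfl
    · apply Subtype.ext
      show d.w x + d.aH 1 0 = d.w x
      rw [map_zero, add_zero]
    · show d.ι m0 + d.aM 1 0 + (d.aH 1 0) 0 = d.ι m0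
      rw [map_zero, map_zero, add_zero, add_zero]
  · show (1 : G ⧸ d.C W hW) * (g : G ⧸ d.C W hW) = (g : G ⧸ d.C W hW)
    rw [one_mul]

end e5_Dat
namespace e5_Dat

variable {G : Type} [Group G] {M N K : Subgroup G} [M.Normal] [N.Normal] [K.Normal] {V Mv : Type}
    [AddCommGroup V] [AddCommGroup Mv] (d : e5_Dat G M N K V Mv)
    (W : AddSubgroup (V →+ Mv)) (hW : ∀ g, ∀ f ∈ W, d.aH g f ∈ W)

theorem π_pow (n : G) (hn : n ∈ N) (k : ℕ) : d.π (n ^ k) = k • d.π n := by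
  induction k with
  | zero => rw [pow_zero, zero_smul, d.π_one]
  | succ k ih => rw [pow_succ, d.π_mul _ (pow_mem hn k) _ hn, ih, succ_nsmul]

theorem ι_pow (n : G) (hn : n ∈ M) (k : ℕ) : d.ι (n ^ k) = k • d.ι n := by
  induction k with
  | zero => rw [pow_zero, zero_smul, d.ι_one]
  | succ k ih => rw [pow_succ, d.ι_mul _ (pow_mem hn k) _ hn, ih, succ_nsmul]

include d in
theorem exists_nK (hne : K ≠ N) : ∃ n ∈ N, n ∉ K := by
  by_contra hcon
  push Not at hcon
  exact hne (le_antisymm d.hKN hcon)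

theorem irrV_G (hchief : ∀ J : Subgroup G, J.Normal → K ≤ J → J ≤ N → J = K ∨ J = N)
    (U : AddSubgroup V) (hU : ∀ g, ∀ u ∈ U, d.aV g u ∈ U) : U = ⊥ ∨ U = ⊤ := by
  let J : Subgroup G :=
    { carrier := {n | n ∈ N ∧ d.π n ∈ U}
      one_mem' := ⟨one_mem _, by rw [d.π_one]; exact U.zero_mem⟩
      mul_mem' := by
        rintro x y ⟨h1, h2⟩ ⟨h3, h4⟩
        exact ⟨mul_mem h1 h3, by rw [d.π_mul _ h1 _ h3]; exact U.add_mem h2 h4⟩
      inv_mem' := by
        rintro x ⟨h1, h2⟩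
        exact ⟨inv_mem h1, by rw [d.π_inv _ h1]; exact U.neg_mem h2⟩ }
  have hJ : J.Normal := by
    constructor
    rintro n ⟨h1, h2⟩ g
    refine ⟨Subgroup.Normal.conj_mem inferInstance _ h1 g, ?_⟩
    rw [← d.π_act g n h1]
    exact hU g _ h2
  have h1 : K ≤ J := fun x hx => ⟨d.hKN hx, by
    rw [(d.π_ker x (d.hKN hx)).2 hx]; exact U.zero_mem⟩
  have h2 : J ≤ N := fun x hx => hx.1
  rcases hchief J hJ h1 h2 with h | h
  · left
    rw [eq_bot_iff]
    intro u hu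
    obtain ⟨n, hn, rfl⟩ := d.π_surj u
    have h3 : n ∈ J := ⟨hn, hu⟩
    rw [h] at h3
    rw [AddSubgroup.mem_bot]
    exact (d.π_ker n hn).2 h3
  · right
    rw [eq_top_iff]
    intro u _
    obtain ⟨n, hn, rfl⟩ := d.π_surj u
    have h3 : n ∈ J := by rw [h]; exact hn
    exact h3.2

theorem irrM_G (hM : IsMonolith M)
    (U : AddSubgroup Mv) (hU : ∀ g, ∀ u ∈ U, d.aM g u ∈ U) : U = ⊥ ∨ U = ⊤ := by
  let J : Subgroup G :=
    { carrier := {n | n ∈ M ∧ d.ι n ∈ U}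
      one_mem' := ⟨one_mem _, by rw [d.ι_one]; exact U.zero_mem⟩
      mul_mem' := by
        rintro x y ⟨h1, h2⟩ ⟨h3, h4⟩
        exact ⟨mul_mem h1 h3, by rw [d.ι_mul _ h1 _ h3]; exact U.add_mem h2 h4⟩
      inv_mem' := by
        rintro x ⟨h1, h2⟩
        exact ⟨inv_mem h1, by rw [d.ι_inv _ h1]; exact U.neg_mem h2⟩ }
  have hJ : J.Normal := by
    constructor
    rintro n ⟨h1, h2⟩ g
    refine ⟨Subgroup.Normal.conj_mem inferInstance _ h1 g, ?_⟩
    rw [← d.ι_act g n h1]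
    exact hU g _ h2
  by_cases h : J = ⊥
  · left
    rw [eq_bot_iff]
    intro u hu
    obtain ⟨n, hn, rfl⟩ := d.ι_surj u
    have h3 : n ∈ J := ⟨hn, hu⟩
    rw [h, Subgroup.mem_bot] at h3
    rw [AddSubgroup.mem_bot, h3]
    exact d.ι_one
  · right
    rw [eq_top_iff]
    intro u _
    obtain ⟨n, hn, rfl⟩ := d.ι_surj u
    exact (hM.le J hJ h hn).2

include d in
theorem nontrivial_V (hne : K ≠ N) : Nontrivial V := by
  obtain ⟨n, hn, hnK⟩ := d.exists_nK hne
  exact ⟨d.π n, 0, fun h => hnK ((d.π_ker n hn).1 h)⟩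

include d in
theorem nontrivial_M (hM : IsMonolith M) : Nontrivial Mv := by
  obtain ⟨m, hm1⟩ := (Subgroup.ne_bot_iff_exists_ne_one).1 hM.ne_bot
  exact ⟨d.ι m, 0, fun h => hm1 (Subtype.ext (d.ι_inj _ m.2 h))⟩

include d in
theorem exp_M {p : ℕ} (hexp : ∀ x ∈ M, x ^ p = 1) (y : Mv) : p • y = 0 := by
  obtain ⟨m, hm, rfl⟩ := d.ι_surj y
  rw [← d.ι_pow m hm, hexp m hm, d.ι_one]

include d in
theorem exp_V {p : ℕ} (hp : p.Prime) (hNp : IsPGroup p N) (hne : K ≠ N)
    (hchief : ∀ J : Subgroup G, J.Normal → K ≤ J → J ≤ N → J = K ∨ J = N) (v : V) :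
    p • v = 0 := by
  let U : AddSubgroup V := (nsmulAddMonoidHom (α := V) p).ker
  have hU : ∀ g, ∀ u ∈ U, d.aV g u ∈ U := by
    intro g u hu
    have h1 : p • u = 0 := hu
    show p • d.aV g u = 0
    rw [← map_nsmul, h1, map_zero]
  rcases d.irrV_G hchief U hU with h | h
  · exfalso
    have hinj : ∀ u : V, p • u = 0 → u = 0 := by
      intro u hu
      have : u ∈ U := hu
      rw [h] at this
      exact this
    have hinj2 : ∀ k : ℕ, ∀ u : V, p ^ k • u = 0 → u = 0 := by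
      intro k
      induction k with
      | zero => intro u hu; simpa using hu
      | succ k ih =>
        intro u hu
        refine ih u (hinj _ ?_)
        rw [← mul_smul, mul_comm, ← pow_succ]
        exact hu
    obtain ⟨n, hn, hnK⟩ := d.exists_nK hne
    obtain ⟨k, hk⟩ := hNp ⟨n, hn⟩
    have hk2 : n ^ p ^ k = 1 := congrArg Subtype.val hk
    have h3 := d.π_pow n hn (p ^ k)
    rw [hk2, d.π_one] at h3
    exact hnK ((d.π_ker n hn).1 (hinj2 k _ h3.symm))
  · have : v ∈ U := by rw [h]; trivial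
    exact this

variable [Finite G] [Finite V] [Finite Mv]

theorem admissible (hW0 : W ≠ ⊥)
    (hWmin : ∀ U : AddSubgroup (V →+ Mv), U ≤ W → (∀ g, ∀ f ∈ U, d.aH g f ∈ U) → U = ⊥ ∨ U = W)
    (hM : IsMonolith M) (hA : AClass (G ⧸ M))
    {p : ℕ} (hp : p.Prime) (hexp : ∀ x ∈ M, x ^ p = 1) (hNp : IsPGroup p N)
    (hne : K ≠ N)
    (hchief : ∀ J : Subgroup G, J.Normal → K ≤ J → J ≤ N → J = K ∨ J = N)
    (hact : ∀ (g : G) (k : ℕ), g ^ p ^ k = 1 → g ∈ e5_D M N K) :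
    (d.P W hW).IsAdmissible p := by
  have hex : ∃ w ∈ W, ∃ v, w v ≠ 0 := by
    by_contra hcon
    push Not at hcon
    refine hW0 (eq_bot_iff.2 fun w hw => ?_)
    rw [AddSubgroup.mem_bot]
    ext v
    exact hcon w hw v
  refine
    { prime := hp
      coprime := ?_
      memA := ?_
      expV := d.exp_V hp hNp hne hchief
      expW := ?_
      expM := d.exp_M hexp
      irrV := ⟨d.nontrivial_V hne, fun U hU =>
        d.irrV_G hchief U (fun g u hu => hU (g : G ⧸ d.C W hW) u hu)⟩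
      irrW := ⟨?_, ?_⟩
      irrM := ⟨d.nontrivial_M hM, fun U hU =>
        d.irrM_G hM U (fun g u hu => hU (g : G ⧸ d.C W hW) u hu)⟩
      nonzero := ?_
      faithful := ?_ }
  · intro hdvd
    haveI : Fact p.Prime := ⟨hp⟩
    obtain ⟨x, hx⟩ := exists_prime_orderOf_dvd_card' (G := G ⧸ d.C W hW) p hdvd
    obtain ⟨g, rfl⟩ := QuotientGroup.mk_surjective x
    have hn0 : orderOf g ≠ 0 := (isOfFinOrder_of_finite g).orderOf_pos.ne'
    obtain ⟨a, m, hm, ham⟩ := Nat.exists_eq_pow_mul_and_not_dvd hn0 p hp.ne_one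
    have h1 : (g ^ m) ^ p ^ a = 1 := by
      rw [← pow_mul, mul_comm, ← ham]
      exact pow_orderOf_eq_one g
    have h2 : g ^ m ∈ d.C W hW := d.D_le_C W hW (hact _ a h1)
    have h3 : (g : G ⧸ d.C W hW) ^ m = 1 := by
      rw [← QuotientGroup.mk_pow, QuotientGroup.eq_one_iff]
      exact h2
    exact hm (hx ▸ orderOf_dvd_of_pow_eq_one h3)
  · have hMC : M ≤ d.C W hW := (d.hMK.trans (d.hKN.trans d.hNC)).trans (d.D_le_C W hW)
    refine hA.surj (QuotientGroup.map M (d.C W hW) (MonoidHom.id G) hMC) ?_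
    intro y
    obtain ⟨g, rfl⟩ := QuotientGroup.mk_surjective y
    exact ⟨(g : G ⧸ M), rfl⟩
  · rintro ⟨w, hw⟩
    apply Subtype.ext
    ext v
    exact d.exp_M hexp (w v)
  · obtain ⟨w, hw, v, hv⟩ := hex
    refine ⟨⟨w, hw⟩, 0, fun h => hv ?_⟩
    have : w = 0 := congrArg Subtype.val h
    rw [this]
    rfl
  · intro U hU
    have h1 := hWmin (U.map W.subtype) (by
      rintro _ ⟨w, _, rfl⟩
      exact w.2) (by
      rintro g _ ⟨w, hw, rfl⟩
      exact ⟨d.aW W hW g w, hU (g : G ⧸ d.C W hW) w hw, rfl⟩)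
    rcases h1 with h1 | h1
    · left
      rw [eq_bot_iff]
      intro u hu
      have h2 : (u : V →+ Mv) ∈ U.map W.subtype := ⟨u, hu, rfl⟩
      rw [h1, AddSubgroup.mem_bot] at h2
      rw [AddSubgroup.mem_bot]
      exact Subtype.ext h2
    · right
      rw [eq_top_iff]
      intro u _
      have h2 : (u : V →+ Mv) ∈ U.map W.subtype := by rw [h1]; exact u.2
      obtain ⟨u', hu', he⟩ := h2
      have h3 : u' = u := Subtype.ext he
      rw [← h3]
      exact hu'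
  · intro h0
    obtain ⟨w, hw, v, hv⟩ := hex
    apply hv
    have h1 : (d.P W hW).β v ⟨w, hw⟩ = 0 := by rw [h0]; rfl
    exact h1
  · intro h hV hWt
    obtain ⟨g, rfl⟩ := QuotientGroup.mk_surjective h
    have hV' : ∀ v, d.aV g v = v := hV
    have hW' : ∀ w, d.aW W hW g w = w := hWt
    let S : AddSubgroup Mv := AddSubgroup.closure {y | ∃ w ∈ W, ∃ v, y = w v}
    have hS : S = ⊥ ∨ S = ⊤ := by
      refine d.irrM_G hM S (fun g' u hu => ?_)
      refine AddSubgroup.closure_induction (p := fun u _ => d.aM g' u ∈ S) ?_ ?_ ?_ ?_ hu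
      · rintro _ ⟨w, hw, v, rfl⟩
        refine AddSubgroup.subset_closure ⟨d.aH g' w, hW g' w hw, d.aV g' v, ?_⟩
        exact (d.aH_apply' g' w v).symm
      · rw [map_zero]; exact S.zero_mem
      · intro x y _ _ hx hy
        rw [map_add]; exact S.add_mem hx hy
      · intro x _ hx
        rw [map_neg]; exact S.neg_mem hx
    have hS2 : S = ⊤ := by
      rcases hS with hS | hS
      · exfalso
        obtain ⟨w, hw, v, hv⟩ := hex
        have h1 : w v ∈ S := AddSubgroup.subset_closure ⟨w, hw, v, rfl⟩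
        rw [hS] at h1
        exact hv h1
      · exact hS
    rw [QuotientGroup.eq_one_iff]
    refine ⟨⟨?_, ?_⟩, ?_⟩
    · show g ∈ d.aV.ker
      rw [MonoidHom.mem_ker]
      ext v
      exact hV' v
    · show g ∈ (d.aW W hW).ker
      rw [MonoidHom.mem_ker]
      ext w : 1
      exact hW' w
    · show g ∈ d.aM.ker
      rw [MonoidHom.mem_ker]
      ext y
      show d.aM g y = y
      have hy : y ∈ S := by rw [hS2]; trivial
      refine AddSubgroup.closure_induction (p := fun u _ => d.aM g u = u) ?_ ?_ ?_ ?_ hy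
      · rintro _ ⟨w, hw, v, rfl⟩
        have h1 := d.aH_apply' g w v
        have h2 : d.aH g w = w := congrArg Subtype.val (hW' ⟨w, hw⟩)
        rw [hV' v, h2] at h1
        exact h1.symm
      · exact map_zero _
      · intro x y _ _ hx hy
        rw [map_add, hx, hy]
      · intro x _ hx
        rw [map_neg, hx]

end e5_Dat

/-- `M` is commutative -/
@[reducible] def e5_cM {G : Type} [Group G] (M : Subgroup G)
    (hcomm : ∀ x ∈ M, ∀ y ∈ M, x * y = y * x) : CommGroup ↥M :=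
  { (inferInstance : Group ↥M) with
    mul_comm := fun x y => Subtype.ext (hcomm x x.2 y y.2) }

/-- `N / K` is commutative -/
@[reducible] def e5_cV {G : Type} [Group G] (N K : Subgroup G) [N.Normal] [K.Normal]
    (hc : ∀ x ∈ N, ∀ y ∈ N, x⁻¹ * y⁻¹ * x * y ∈ K) : CommGroup (↥N ⧸ K.subgroupOf N) :=
  { (inferInstance : Group (↥N ⧸ K.subgroupOf N)) with
    mul_comm := fun x y => by
      induction x using QuotientGroup.induction_on with
      | H x =>
        induction y using QuotientGroup.induction_on with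
        | H y =>
          rw [← QuotientGroup.mk_mul, ← QuotientGroup.mk_mul, QuotientGroup.eq,
            Subgroup.mem_subgroupOf]
          have h := hc y y.2 x x.2
          have e : (((x * y)⁻¹ * (y * x) : ↥N) : G) = (y : G)⁻¹ * (x : G)⁻¹ * y * x := by
            simp [mul_assoc]
          rw [e]
          exact h }

/-- the homomorphism on `N` attached to `x` -/
def e5_wN {G : Type} [Group G] {M N K : Subgroup G} [M.Normal] (hNC : N ≤ e5_D M N K)
    (hMK : M ≤ K) (hcomm : ∀ x ∈ M, ∀ y ∈ M, x * y = y * x) (x : G) (hx : x ∈ e5_D M N K) :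
    ↥N →* ↥M where
  toFun n := ⟨n * x * (n : G)⁻¹ * x⁻¹, hx.2 n n.2⟩
  map_one' := by
    apply Subtype.ext
    show (1 : G) * x * (1 : G)⁻¹ * x⁻¹ = 1
    group
  map_mul' n n' := by
    apply Subtype.ext
    show ((n : G) * n') * x * ((n : G) * n')⁻¹ * x⁻¹ =
      (n * x * (n : G)⁻¹ * x⁻¹) * (n' * x * (n' : G)⁻¹ * x⁻¹)
    have h1 := hx.2 n' n'.2
    have h2 := hx.2 n n.2
    have h3 := (hNC n.2).1 _ (hMK h1)
    rw [hcomm _ h2 _ h1]
    calc ((n : G) * n') * x * ((n : G) * n')⁻¹ * x⁻¹ =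
        (n * (n' * x * (n' : G)⁻¹ * x⁻¹)) * (x * (n : G)⁻¹ * x⁻¹) := by group
      _ = ((n' * x * (n' : G)⁻¹ * x⁻¹) * n) * (x * (n : G)⁻¹ * x⁻¹) := by rw [h3]
      _ = _ := by group

theorem e5_exists {G : Type} [Group G] [Finite G] {M N K : Subgroup G} [M.Normal]
    [N.Normal] [K.Normal] (hcomm : ∀ x ∈ M, ∀ y ∈ M, x * y = y * x) (hMK : M ≤ K) (hKN : K ≤ N)
    (hNC : N ≤ e5_D M N K) :
    ∃ (V Mv : Type) (_ : AddCommGroup V) (_ : AddCommGroup Mv) (_ : Finite V) (_ : Finite Mv),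
      Nonempty (e5_Dat G M N K V Mv) := by
  classical
  have hc : ∀ x ∈ N, ∀ y ∈ N, x⁻¹ * y⁻¹ * x * y ∈ K := by
    intro x hx y hy
    have h1 := (hNC (inv_mem hy)).2 _ (inv_mem hx)
    rw [inv_inv, inv_inv] at h1
    exact hMK h1
  letI iM : CommGroup ↥M := e5_cM M hcomm
  letI iV : CommGroup (↥N ⧸ K.subgroupOf N) := e5_cV N K hc
  let cN : G →* MulAut ↥N := MulAut.conjNormal
  let cM : G →* MulAut ↥M := MulAut.conjNormal
  have hcN : ∀ g (n : ↥N), ((cN g n : ↥N) : G) = g * n * g⁻¹ := fun g n => rfl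
  have hcM : ∀ g (n : ↥M), ((cM g n : ↥M) : G) = g * n * g⁻¹ := fun g n => rfl
  have hle : ∀ g, K.subgroupOf N ≤ (K.subgroupOf N).comap (cN g).toMonoidHom := by
    intro g n hn
    rw [Subgroup.mem_subgroupOf] at hn
    show g * (n : G) * g⁻¹ ∈ K
    exact Subgroup.Normal.conj_mem inferInstance _ hn g
  let aV : G →* AddMonoid.End (Additive (↥N ⧸ K.subgroupOf N)) :=
    { toFun := fun g => MonoidHom.toAdditive
        (QuotientGroup.map (K.subgroupOf N) (K.subgroupOf N) (cN g).toMonoidHom (hle g))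
      map_one' := by
        ext v
        induction v using Additive.rec with
        | _ v =>
          induction v using QuotientGroup.induction_on with
          | H n =>
            show Additive.ofMul (((cN 1 n : ↥N) : ↥N ⧸ K.subgroupOf N)) = Additive.ofMul _
            rw [map_one]
            rfl
      map_mul' := by
        intro g g'
        ext v
        induction v using Additive.rec with
        | _ v =>
          induction v using QuotientGroup.induction_on with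
          | H n =>
            show Additive.ofMul (((cN (g * g') n : ↥N) : ↥N ⧸ K.subgroupOf N)) =
              Additive.ofMul (((cN g (cN g' n) : ↥N) : ↥N ⧸ K.subgroupOf N))
            rw [map_mul]
            rfl }
  let aM : G →* AddMonoid.End (Additive ↥M) :=
    { toFun := fun g => MonoidHom.toAdditive (cM g).toMonoidHom
      map_one' := by
        refine DFunLike.ext _ _ fun v => ?_
        show Additive.ofMul (cM 1 v.toMul) = v
        rw [map_one]
        rfl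
      map_mul' := by
        intro g g'
        refine DFunLike.ext _ _ fun v => ?_
        show Additive.ofMul (cM (g * g') v.toMul) = Additive.ofMul (cM g (cM g' v.toMul))
        rw [map_mul]
        rfl }
  let π : G → Additive (↥N ⧸ K.subgroupOf N) := fun g =>
    if h : g ∈ N then Additive.ofMul ((⟨g, h⟩ : ↥N) : ↥N ⧸ K.subgroupOf N) else 0
  have hπ : ∀ g (h : g ∈ N), π g = Additive.ofMul ((⟨g, h⟩ : ↥N) : ↥N ⧸ K.subgroupOf N) :=
    fun g h => dif_pos h
  let ι : G → Additive ↥M := fun g => if h : g ∈ M then Additive.ofMul (⟨g, h⟩ : ↥M) else 0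
  have hι : ∀ g (h : g ∈ M), ι g = Additive.ofMul (⟨g, h⟩ : ↥M) := fun g h => dif_pos h
  let w : G → Additive (↥N ⧸ K.subgroupOf N) →+ Additive ↥M := fun x =>
    if hx : x ∈ e5_D M N K then MonoidHom.toAdditive
      (QuotientGroup.lift (K.subgroupOf N) (e5_wN hNC hMK hcomm x hx) (by
        intro n hn
        rw [Subgroup.mem_subgroupOf] at hn
        apply Subtype.ext
        show (n : G) * x * (n : G)⁻¹ * x⁻¹ = 1
        rw [← hx.1 _ hn]
        group)) else 0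
  refine ⟨Additive (↥N ⧸ K.subgroupOf N), Additive ↥M, inferInstance, inferInstance, ?_, ?_,
    ⟨{ π := π, ι := ι, aV := aV, aM := aM, w := w, π_mul := ?_, π_surj := ?_, π_ker := ?_
       π_act := ?_, ι_mul := ?_, ι_surj := ?_, ι_inj := ?_, ι_act := ?_, w_π := ?_
       hNC := hNC, hMK := hMK, hKN := hKN }⟩⟩
  · exact (inferInstance : Finite (↥N ⧸ K.subgroupOf N))
  · exact (inferInstance : Finite ↥M)
  · intro n hn n' hn'
    rw [hπ n hn, hπ n' hn', hπ _ (mul_mem hn hn')]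
    rfl
  · intro v
    obtain ⟨n, hn⟩ := QuotientGroup.mk_surjective v.toMul
    refine ⟨n, n.2, ?_⟩
    rw [hπ n n.2]
    exact congrArg Additive.ofMul hn
  · intro n hn
    rw [hπ n hn]
    have h1 : Additive.ofMul ((⟨n, hn⟩ : ↥N) : ↥N ⧸ K.subgroupOf N) = 0 ↔
        ((⟨n, hn⟩ : ↥N) : ↥N ⧸ K.subgroupOf N) = 1 := Iff.rfl
    rw [h1, QuotientGroup.eq_one_iff, Subgroup.mem_subgroupOf]
  · intro g n hn
    rw [hπ n hn, hπ _ (Subgroup.Normal.conj_mem inferInstance _ hn g)]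
    rfl
  · intro n hn n' hn'
    rw [hι n hn, hι n' hn', hι _ (mul_mem hn hn')]
    rfl
  · intro v
    refine ⟨(v.toMul : ↥M), (v.toMul).2, ?_⟩
    rw [hι _ (v.toMul).2]
    rfl
  · intro m hm h
    rw [hι m hm] at h
    have h1 : (⟨m, hm⟩ : ↥M) = 1 := h
    exact congrArg Subtype.val h1
  · intro g m hm
    rw [hι m hm, hι _ (Subgroup.Normal.conj_mem inferInstance _ hm g)]
    rfl
  · intro x hx n hn
    rw [hπ n hn, hι _ (hx.2 n hn)]
    have h1 : w x = _ := dif_pos hx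
    rw [h1]
    rfl

theorem pairing_of_normal {G : Type} [Group G] [Finite G] {M N K : Subgroup G} [M.Normal]
    [N.Normal] [K.Normal] (hM : IsMonolith M) (hA : AClass (G ⧸ M))
    (hcomm : ∀ x ∈ M, ∀ y ∈ M, x * y = y * x)
    {p : ℕ} (hp : p.Prime) (hexp : ∀ x ∈ M, x ^ p = 1) (hNp : IsPGroup p N)
    (hMK : M ≤ K) (hKN : K ≤ N) (hne : K ≠ N)
    (hchief : ∀ J : Subgroup G, J.Normal → K ≤ J → J ≤ N → J = K ∨ J = N)
    (hact : ∀ (g : G) (k : ℕ), g ^ p ^ k = 1 →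
        (∀ x ∈ K, g * x = x * g) ∧ ∀ n ∈ N, n * g * n⁻¹ * g⁻¹ ∈ M)
    (hnon : ∃ (g : G) (k : ℕ), g ^ p ^ k = 1 ∧ ∃ n ∈ N, g * n ≠ n * g)
    {F : GroupClass} (hF : IsFormation F) (h : F G) :
    ∃ D : Pairing, D.IsAdmissible p ∧ F D.Grp := by
  have hNC : N ≤ e5_D M N K := by
    intro n hn
    obtain ⟨k, hk⟩ := hNp ⟨n, hn⟩
    exact hact n k (congrArg Subtype.val hk)
  obtain ⟨V, Mv, _, _, _, _, ⟨d⟩⟩ := e5_exists hcomm hMK hKN hNC
  have hWne : d.Wall ≠ ⊥ := by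
    intro h0
    obtain ⟨g, k, hg, n, hn, hgn⟩ := hnon
    have hD : g ∈ e5_D M N K := hact g k hg
    have h1 : d.w g ∈ d.Wall := ⟨g, hD, rfl⟩
    rw [h0, AddSubgroup.mem_bot] at h1
    have h2 := d.w_π g hD n hn
    rw [h1] at h2
    have h3 := d.ι_inj _ (hD.2 n hn) h2.symm
    apply hgn
    have h4 : n * g = g * n := by
      calc n * g = (n * g * n⁻¹ * g⁻¹) * (g * n) := by group
        _ = g * n := by rw [h3, one_mul]
    exact h4.symm
  obtain ⟨W, hW1, hW0, hW, hWmin⟩ := d.exists_W hWne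
  exact ⟨d.P W hW, d.admissible W hW hW0 hWmin hM hA hp hexp hNp hne hchief hact,
    d.F_Grp W hW hW1 hF h⟩

end Pool.Agent.Helper75.MNA
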