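import Pool.Agent.Helper75.MNA.Main

set_option autoImplicit false
set_option linter.style.haveILetI false

namespace Pool.Agent.Helper75.MNA

open Subgroup

/-- The multiplication of the integers modulo `p` as a pairing, with trivial `H`. -/
def mulPairing (p : ℕ) [Fact p.Prime] : Pairing where
  H := Unit
  V := ZMod p
  W := ZMod p
  M := ZMod p
  actV := 1
  actW := 1
  actM := 1
  β := AddMonoidHom.mul
  equivariant := fun _ _ _ => rfl

theorem isIrred_zmod (p : ℕ) [Fact p.Prime] :
    IsIrred (1 : Unit →* AddMonoid.End (ZMod p)) := by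
  refine ⟨inferInstance, fun U _ => ?_⟩
  by_cases h : U = ⊥
  · exact Or.inl h
  right
  obtain ⟨⟨u, hu⟩, hu0⟩ := exists_ne_of_ne_bot h
  rw [eq_top_iff]
  intro x _
  have hu1 : u ≠ 0 := fun h0 => hu0 (Subtype.ext h0)
  have h1 : x = (x * u⁻¹).val • u := by
    rw [nsmul_eq_mul, ZMod.natCast_val, ZMod.cast_id', id, mul_assoc, inv_mul_cancel₀ hu1, mul_one]
  rw [h1]
  exact U.nsmul_mem hu _
where
  exists_ne_of_ne_bot {U : AddSubgroup (ZMod p)} (h : U ≠ ⊥) : ∃ u : U, u ≠ 0 := by
    by_contra hcon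
    apply h
    rw [eq_bot_iff]
    intro x hx
    by_contra hx0
    exact hcon ⟨⟨x, hx⟩, fun h0 => hx0 (by
      rw [AddSubgroup.mem_bot]
      exact congrArg Subtype.val h0)⟩

theorem zmod_nsmul (p : ℕ) (v : ZMod p) : p • v = 0 := by simp

theorem mulPairing_admissible (p : ℕ) [Fact p.Prime] : (mulPairing p).IsAdmissible p where
  prime := Fact.out
  coprime := by
    have h1 : Nat.card (mulPairing p).H = 1 := Nat.card_unique (α := Unit)
    rw [h1]
    exact Nat.Prime.not_dvd_one Fact.out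
  memA := ⟨(mulPairing p).finH, fun _ _ _ _ _ _ _ => rfl⟩
  expV := zmod_nsmul p
  expW := zmod_nsmul p
  expM := zmod_nsmul p
  irrV := isIrred_zmod p
  irrW := isIrred_zmod p
  irrM := isIrred_zmod p
  nonzero := by
    intro h
    have h1 : ((1 : ZMod p) * (1 : ZMod p)) = 0 :=
      congrArg (fun F : ZMod p →+ ZMod p →+ ZMod p => F 1 1) h
    rw [mul_one] at h1
    exact one_ne_zero h1
  faithful := fun _ _ _ => rfl

theorem zmod_form (p : ℕ) [Fact p.Prime] (f : ZMod p →+ ZMod p →+ ZMod p) (hne : f ≠ 0) :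
    ∃ c : ZMod p, c ≠ 0 ∧ ∀ v w, f v w = v * w * c := by
  have key : ∀ (v w : ZMod p), f v w = v * w * f 1 1 := by
    intro v w
    have h1 : ∀ (g : ZMod p →+ ZMod p) (x : ZMod p), g x = x * g 1 := by
      intro g x
      have h2 : g x = g (x.val • (1 : ZMod p)) := by
        rw [nsmul_eq_mul, mul_one, ZMod.natCast_val, ZMod.cast_id', id]
      rw [h2, map_nsmul, nsmul_eq_mul, ZMod.natCast_val, ZMod.cast_id', id]
    have h3 : f v w = w * f v 1 := h1 (f v) w
    have h4 : f v 1 = v * f 1 1 := h1 (f.flip 1) v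
    rw [h3, h4]
    ring
  refine ⟨f 1 1, ?_, key⟩
  intro h0
  apply hne
  refine AddMonoidHom.ext fun v => AddMonoidHom.ext fun w => ?_
  rw [key v w, h0, mul_zero]
  rfl

theorem zmod_scale (p : ℕ) [Fact p.Prime] (c : ZMod p) (hc : c ≠ 0) :
    ∃ t : ZMod p ≃+ ZMod p, ∀ x, t (x * c) = x :=
  ⟨{ toFun := fun x => x * c⁻¹
     invFun := fun x => x * c
     left_inv := fun x => by
       show x * c⁻¹ * c = x
       rw [mul_assoc, inv_mul_cancel₀ hc, mul_one]
     right_inv := fun x => by
       show x * c * c⁻¹ = x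
       rw [mul_assoc, mul_inv_cancel₀ hc, mul_one]
     map_add' := fun x y => add_mul x y _ }, fun x => by
       show x * c * c⁻¹ = x
       rw [mul_assoc, mul_inv_cancel₀ hc, mul_one]⟩

theorem mulPairing_simple (p : ℕ) [Fact p.Prime] : (mulPairing p).IsSimple := by
  intro f hf hne _
  obtain ⟨c, hc, hcf⟩ := zmod_form p f hne
  obtain ⟨t, ht⟩ := zmod_scale p c hc
  refine AddSubgroup.subset_closure ?_
  have hfin : ∀ v w : ZMod p, v * w = t ((f : ZMod p →+ ZMod p →+ ZMod p) v w) := by
    intro v w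
    exact (ht (v * w)).symm.trans (congrArg t (hcf v w).symm)
  exact Pairing.IsTwist.straight (D := (mulPairing p).withForm f hf) _ (MulEquiv.refl _)
    (AddEquiv.refl _) (AddEquiv.refl _) t (fun _ _ => rfl) (fun _ _ => rfl) (fun _ _ => rfl) hfin

/-- Sanity check: the Heisenberg group modulo `p` (the dihedral group of order `8` for `p = 2`)
generates a minimal non-A-formation. -/
theorem mulPairing_minimal (p : ℕ) [Fact p.Prime] :
    IsMinimalNonA (form (mulPairing p).Grp) :=
  (main _).2 (Or.inr (Or.inl ⟨p, _, mulPairing_admissible p,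
    (Pairing.isPure_iff (mulPairing_admissible p)).2 (mulPairing_simple p), rfl⟩))

end Pool.Agent.Helper75.MNA
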