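import Pool.Agent.Helper75.MNA.CanDefs
import Pool.Agent.Helper75.MNA.Example
import Pool.Agent.Helper75.MNA.N4

set_option autoImplicit false
set_option linter.style.haveILetI false

namespace Pool.Agent.Helper75.MNA

theorem zmod_bilin (p : ℕ) [Fact p.Prime] (f : ZMod p →+ ZMod p →+ ZMod p) (v w : ZMod p) :
    f v w = v * w * f 1 1 := by
  have h1 : ∀ (g : ZMod p →+ ZMod p) (x : ZMod p), g x = x * g 1 := by
    intro g x
    have h2 : g x = g (x.val • (1 : ZMod p)) := by
      rw [nsmul_eq_mul, mul_one, ZMod.natCast_val, ZMod.cast_id', id]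
    rw [h2, map_nsmul, nsmul_eq_mul, ZMod.natCast_val, ZMod.cast_id', id]
  have h3 : f v w = w * f v 1 := h1 (f v) w
  have h4 : f v 1 = v * f 1 1 := h1 (f.flip 1) v
  rw [h3, h4]
  ring

theorem mulPairing_canon (p : ℕ) [Fact p.Prime] : (mulPairing p).IsCanon p where
  pre := (mulPairing_admissible p).pre
  lifts := by
    intro γ
    let g : ZMod p →+ ZMod p →+ ZMod p := γ.pull (mulPairing p).β
    refine ⟨AddMonoidHom.mulLeft (g 1 1), ?_⟩
    have key : ∀ v w : ZMod p, g 1 1 * (v * w) = g v w := by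
      intro v w
      rw [zmod_bilin p g v w, mul_comm]
    exact key
  irr := fun U _ => (isIrred_zmod p).2 U (fun _ _ hu => hu)

end Pool.Agent.Helper75.MNA
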