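import Pool.Agent.Helper75.MNA.Trans2
import Pool.Agent.Helper75.MNA.Example

set_option autoImplicit false
set_option linter.style.haveILetI false

namespace Pool.Agent.Helper75.MNA.Trans

open Pool.Agent.Helper75

theorem form_eq_pairing {p q : ℕ} (D D' : MNA.Pairing) (hD : D.IsAdmissible p)
    (hD' : D'.IsAdmissible q) :
    MNA.form D.Grp = MNA.form D'.Grp ↔ D'.Comb D ∧ D.Comb D' := by
  constructor
  · intro h
    refine ⟨MNA.Pairing.comb_of_form hD hD' ?_, MNA.Pairing.comb_of_form hD' hD ?_⟩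
    · rw [h]
      exact MNA.self_mem_form _
    · rw [← h]
      exact MNA.self_mem_form _
  · rintro ⟨h1, h2⟩
    funext H _
    refine propext ⟨?_, ?_⟩
    · exact MNA.form_le (MNA.form_isFormation _) (MNA.Pairing.form_of_comb hD' hD h2) H
    · exact MNA.form_le (MNA.form_isFormation _) (MNA.Pairing.form_of_comb hD hD' h1) H

theorem form_eq_crossed {p q : ℕ} (D D' : MNA.CrossedMod) (hD : D.IsAdmissible p)
    (hD' : D'.IsAdmissible q) :
    MNA.form D.Grp = MNA.form D'.Grp ↔ D'.Comb D ∧ D.Comb D' := by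
  constructor
  · intro h
    refine ⟨MNA.CrossedMod.comb_of_form hD hD' ?_, MNA.CrossedMod.comb_of_form hD' hD ?_⟩
    · rw [h]
      exact MNA.self_mem_form _
    · rw [← h]
      exact MNA.self_mem_form _
  · rintro ⟨h1, h2⟩
    funext H _
    refine propext ⟨?_, ?_⟩
    · exact MNA.form_le (MNA.form_isFormation _) (MNA.CrossedMod.form_of_comb hD' hD h2) H
    · exact MNA.form_le (MNA.form_isFormation _) (MNA.CrossedMod.form_of_comb hD hD' h1) H

theorem final1 (F : MNA.GroupClass) : MNA.Lite.IsMinimalNonA F ↔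
      (∃ (G : Type) (_ : Group G), MNA.Lite.IsPrimitiveType G ∧ F = MNA.Lite.form G) ∨
      (∃ (p : ℕ) (D : MNA.Lite.Pairing), D.IsAdmissible p ∧ D.IsSimple ∧
        F = MNA.Lite.form D.Grp) ∨
      (∃ (p : ℕ) (D : MNA.Lite.CrossedMod), D.IsAdmissible p ∧ D.IsPure ∧
        F = MNA.Lite.form D.Grp) := by
  rw [isMinimalNonA_iff, MNA.main F]
  constructor
  · rintro (⟨G, _, h1, h2⟩ | ⟨p, D, h1, h2, h3⟩ | ⟨p, D, h1, h2, h3⟩)
    · exact Or.inl ⟨G, _, (isPrimitiveType_iff G).2 h1, by rw [form_eq]; exact h2⟩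
    · refine Or.inr (Or.inl ⟨p, lite D, (adm_iff (lite D) (lite_fin D)).2 h1,
        (simple_iff (lite D) (lite_fin D) ((adm_iff (lite D) (lite_fin D)).2 h1)).2
          ((MNA.Pairing.isPure_iff h1).1 h2), ?_⟩)
      rw [form_old (lite D) (lite_fin D), old_lite]
      exact h3
    · refine Or.inr (Or.inr ⟨p, liteX D, ?_, ?_, ?_⟩)
      · rw [admX_iff _ (liteX_fin D), oldX_liteX]
        exact h1
      · rw [pureX_iff _ (liteX_fin D), oldX_liteX]
        exact h2
      · rw [form_oldX (liteX D) (liteX_fin D), oldX_liteX]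
        exact h3
  · rintro (⟨G, _, h1, h2⟩ | ⟨p, D, h1, h2, h3⟩ | ⟨p, D, h1, h2, h3⟩)
    · exact Or.inl ⟨G, _, (isPrimitiveType_iff G).1 h1, by rw [← form_eq]; exact h2⟩
    · have hf := pfin_of_adm h1
      have h4 := (adm_iff D hf).1 h1
      refine Or.inr (Or.inl ⟨p, old D hf, h4, (MNA.Pairing.isPure_iff h4).2
        ((simple_iff D hf h1).1 h2), ?_⟩)
      rw [← form_old D hf]
      exact h3
    · have hf := xfin_of_adm h1
      refine Or.inr (Or.inr ⟨p, oldX D hf, (admX_iff D hf).1 h1, (pureX_iff D hf).1 h2, ?_⟩)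
      rw [← form_oldX D hf]
      exact h3

theorem final2 (G K : Type) [Group G] [Group K] (hG : MNA.Lite.IsPrimitiveType G)
    (hK : MNA.Lite.IsPrimitiveType K) :
    (MNA.Lite.form G = MNA.Lite.form K ↔ Nonempty (G ≃* K)) := by
  rw [form_eq, form_eq]
  have hG' := (isPrimitiveType_iff G).1 hG
  have hK' := (isPrimitiveType_iff K).1 hK
  haveI := hG'.finite
  haveI := hK'.finite
  constructor
  · intro h
    refine MNA.primitive_unique hG' hK' ?_
    rw [h]
    exact MNA.self_mem_form K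
  · rintro ⟨e⟩
    exact form_congr e

theorem final3 (p q : ℕ) (D D' : MNA.Lite.Pairing) (hD : D.IsAdmissible p)
    (hD' : D'.IsAdmissible q) :
    (MNA.Lite.form D.Grp = MNA.Lite.form D'.Grp ↔ D'.Comb D ∧ D.Comb D') := by
  have hf := pfin_of_adm hD
  have hf' := pfin_of_adm hD'
  rw [form_old D hf, form_old D' hf', comb_iff D' D hf' hf hD', comb_iff D D' hf hf' hD]
  exact form_eq_pairing _ _ ((adm_iff D hf).1 hD) ((adm_iff D' hf').1 hD')

theorem final4 (p q : ℕ) (D D' : MNA.Lite.CrossedMod) (hD : D.IsAdmissible p)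
    (hD' : D'.IsAdmissible q) :
    (MNA.Lite.form D.Grp = MNA.Lite.form D'.Grp ↔ D'.Comb D ∧ D.Comb D') := by
  have hf := xfin_of_adm hD
  have hf' := xfin_of_adm hD'
  rw [form_oldX D hf, form_oldX D' hf', combX_iff D' D hf' hf, combX_iff D D' hf hf']
  exact form_eq_crossed _ _ ((admX_iff D hf).1 hD) ((admX_iff D' hf').1 hD')

theorem final5 (G : Type) [Group G] (p q : ℕ) (D : MNA.Lite.Pairing) (D' : MNA.Lite.CrossedMod)
    (hG : MNA.Lite.IsPrimitiveType G) (hD : D.IsAdmissible p) (hD' : D'.IsAdmissible q) :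
    MNA.Lite.form G ≠ MNA.Lite.form D.Grp ∧ MNA.Lite.form G ≠ MNA.Lite.form D'.Grp ∧
      MNA.Lite.form D.Grp ≠ MNA.Lite.form D'.Grp := by
  have hf := pfin_of_adm hD
  have hf' := xfin_of_adm hD'
  have h1 := (adm_iff D hf).1 hD
  have h2 := (admX_iff D' hf').1 hD'
  have hG' := (isPrimitiveType_iff G).1 hG
  haveI := hG'.finite
  rw [form_eq G, form_old D hf, form_oldX D' hf']
  refine ⟨?_, ?_, ?_⟩
  · intro h
    exact MNA.pairing_no_primitive h1 hG' (by rw [← h]; exact MNA.self_mem_form G)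
  · intro h
    exact MNA.crossed_no_primitive h2 hG' (by rw [← h]; exact MNA.self_mem_form G)
  · intro h
    exact MNA.crossed_not_in_pairing h1 h2 (by rw [h]; exact MNA.self_mem_form _)

/-- The multiplication of the integers modulo `p` as a pairing, with trivial `H`. -/
def mulPairing (p : ℕ) [Fact p.Prime] : MNA.Lite.Pairing := lite (MNA.mulPairing p)

theorem mulPairing_minimal (p : ℕ) [Fact p.Prime] :
    (mulPairing p).IsAdmissible p ∧ (mulPairing p).IsSimple ∧
      MNA.Lite.IsMinimalNonA (MNA.Lite.form (mulPairing p).Grp) := by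
  have h1 : (mulPairing p).IsAdmissible p :=
    (adm_iff _ (lite_fin _)).2 (MNA.mulPairing_admissible p)
  refine ⟨h1, (simple_iff _ (lite_fin _) h1).2 (MNA.mulPairing_simple p), ?_⟩
  have h2 := form_old (mulPairing p) (lite_fin (MNA.mulPairing p))
  rw [isMinimalNonA_iff, h2]
  exact MNA.mulPairing_minimal p

end Pool.Agent.Helper75.MNA.Trans
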