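import Pool.Agent.Helper75.MNA.K3
import Pool.Agent.Helper75.MNA.K0

set_option autoImplicit false
set_option linter.style.haveILetI false

namespace Pool.Agent.Helper75.MNA

open Subgroup Pointwise

theorem CrossedMod.k4_map (D : CrossedMod) (K : Subgroup D.E)
    (hK : K ≤ D.d.ker) (hinv : ∀ x, ∀ k ∈ K, D.act x k ∈ K) (μ : D.X ≃* D.X) (ε : D.E →* D.E)
    (hε : D.Lift D μ.toMonoidHom ε) (hst : ∀ k ∈ K, ε k ∈ K) :
    ∃ ε' : (D.quot K hK hinv).E →* (D.quot K hK hinv).E,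
      (∀ e, ε' (D.quotMk K hK hinv e) = D.quotMk K hK hinv (ε e)) ∧
      (D.quot K hK hinv).Lift (D.quot K hK hinv) (MulEquiv.toMonoidHom μ) ε' := by
  haveI : K.Normal := CrossedMod.sub_normal hK
  refine ⟨QuotientGroup.map K K ε (fun k hk => hst k hk), fun e => rfl, ?_⟩
  intro e'
  obtain ⟨e, rfl⟩ := D.quotMk_surj K hK hinv e'
  exact hε e

theorem CrossedMod.IsPre.exists_canon {p : ℕ} {D : CrossedMod} (hD : D.IsPre p)
    (hl : D.HasLifts) :
    ∃ (K : Subgroup D.E) (hK : K ≤ D.d.ker) (hinv : ∀ x, ∀ k ∈ K, D.act x k ∈ K),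
      (D.quot K hK hinv).IsCanon p := by
  let P : Set (Subgroup D.E) := {K | K ≤ D.d.ker ∧ K ≠ D.d.ker ∧
    ∀ (μ : D.X ≃* D.X) (ε : D.E →* D.E), D.Lift D μ.toMonoidHom ε → ∀ k ∈ K, ε k ∈ K}
  have hbot : (⊥ : Subgroup D.E) ∈ P := by
    refine ⟨bot_le, fun h => hD.ker_ne_bot h.symm, ?_⟩
    intro μ ε _ k hk
    rw [Subgroup.mem_bot] at hk ⊢
    rw [hk, map_one]
  obtain ⟨K, -, hmax⟩ := (Set.toFinite P).exists_le_maximal hbot
  obtain ⟨hK, hne, hst⟩ := hmax.prop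
  have hinv : ∀ x, ∀ k ∈ K, D.act x k ∈ K := by
    intro x k hk
    exact hst (MulAut.conj x) (D.act x).toMonoidHom (fun e => D.equivariant x e) k hk
  refine ⟨K, hK, hinv, hD.quot K hK hinv hne, ?_, ?_⟩
  · intro μ
    obtain ⟨ε, hε⟩ := hl μ
    obtain ⟨ε', -, h'⟩ := CrossedMod.k4_map D K hK hinv μ ε hε (hst μ ε hε)
    exact ⟨ε', h'⟩
  · intro U hU hUst
    have hle : U.comap (D.quotMk K hK hinv) ≤ D.d.ker := by
      intro e he
      exact hU he
    have hKU : K ≤ U.comap (D.quotMk K hK hinv) := by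
      intro k hk
      rw [Subgroup.mem_comap, (D.quotMk_eq_one K hK hinv k).2 hk]
      exact U.one_mem
    by_cases hc : U.comap (D.quotMk K hK hinv) = D.d.ker
    · right
      apply le_antisymm hU
      intro u hu
      obtain ⟨e, rfl⟩ := D.quotMk_surj K hK hinv u
      have h1 : e ∈ D.d.ker := hu
      rw [← hc] at h1
      exact h1
    · left
      have hmem : U.comap (D.quotMk K hK hinv) ∈ P := by
        refine ⟨hle, hc, ?_⟩
        intro μ ε hε k hk
        obtain ⟨ε', h1, h2⟩ := CrossedMod.k4_map D K hK hinv μ ε hε (hst μ ε hε)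
        rw [Subgroup.mem_comap, ← h1]
        exact hUst μ ε' h2 _ hk
      have h3 := hmax.le_of_ge hmem hKU
      rw [eq_bot_iff]
      intro u hu
      obtain ⟨e, rfl⟩ := D.quotMk_surj K hK hinv u
      rw [Subgroup.mem_bot]
      exact (D.quotMk_eq_one K hK hinv e).2 (h3 hu)

end Pool.Agent.Helper75.MNA
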