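import Pool.Agent.Helper75.MNA.LiteBase

set_option autoImplicit false

/-! Combinations of twists: definitions for the first form of the classification. -/

namespace Pool.Agent.Helper75.MNA.Lite

/-- The conditions of Family II: `p` is a prime, `H` is a group in the class `A` of order prime to
`p`, the groups `V`, `W`, `M` have exponent `p` and are irreducible under `H`, the pairing is not
zero, and `H` acts faithfully on `V × W`. -/
structure Pairing.IsAdmissible (p : ℕ) (D : Pairing) : Prop where
  prime : p.Prime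
  coprime : ¬ p ∣ Nat.card D.H
  memA : AClass D.H
  expV : ∀ v : D.V, p • v = 0
  expW : ∀ w : D.W, p • w = 0
  expM : ∀ m : D.M, p • m = 0
  irrV : IsIrred D.actV
  irrW : IsIrred D.actW
  irrM : IsIrred D.actM
  nonzero : ∃ v w, D.β v w ≠ 0
  faithful : ∀ h : D.H, (∀ v, D.actV h v = v) → (∀ w, D.actW h w = w) → h = 1

/-- `f : D'.V × D'.W → D'.M` is a twist of `g : D.V × D.W → D.M`: it is obtained from `g` by
transport along compatible isomorphisms, possibly after exchanging the two arguments. -/
inductive Pairing.IsTwist (D' D : Pairing) (g : D.V → D.W → D.M) (f : D'.V → D'.W → D'.M) : Prop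
  | straight (l : D'.H → D.H) (a : D'.V → D.V) (b : D'.W → D.W) (t : D'.M → D.M)
      (hl : IsGrpIso l) (ha : IsModIso l D'.actV D.actV a) (hb : IsModIso l D'.actW D.actW b)
      (ht : IsModIso l D'.actM D.actM t) (hf : ∀ v w, t (f v w) = g (a v) (b w))
  | swapped (l : D'.H → D.H) (a : D'.V → D.W) (b : D'.W → D.V) (t : D'.M → D.M)
      (hl : IsGrpIso l) (ha : IsModIso l D'.actV D.actW a) (hb : IsModIso l D'.actW D.actV b)
      (ht : IsModIso l D'.actM D.actM t) (hf : ∀ v w, t (f v w) = g (b w) (a v))

/-- The span of the twists of `g`. -/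
inductive Pairing.Span (D' D : Pairing) (g : D.V → D.W → D.M) : (D'.V → D'.W → D'.M) → Prop
  | twist (f : D'.V → D'.W → D'.M) (hf : Pairing.IsTwist D' D g f) : Span D' D g f
  | add (f₁ f₂ : D'.V → D'.W → D'.M) (h₁ : Span D' D g f₁) (h₂ : Span D' D g f₂) :
      Span D' D g (fun v w => f₁ v w + f₂ v w)

/-- `D'` is a combination of twists of `D`. -/
def Pairing.Comb (D' D : Pairing) : Prop := Pairing.Span D' D D.β D'.β

/-- The span of the twists of the biadditive map of `D` is minimal: every nonzero map in this span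
has the biadditive map of `D` in the span of its twists. -/
def Pairing.IsSimple (D : Pairing) : Prop :=
  ∀ f : D.V → D.W → D.M, Pairing.Span D D D.β f → (∃ v w, f v w ≠ 0) → Pairing.Span D D f D.β

/-- The conditions of Family III: `p` is a prime, `E` is finite and perfect, `X` is in the class
`A` and acts faithfully on `E`, the kernel of `d` is a nontrivial group of exponent `p` that is
irreducible under `X` and on which the elements of `p`-power order of `X` act trivially, and the
image of `d` is a minimal normal subgroup of `X`. -/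
structure CrossedMod.IsAdmissible (p : ℕ) (D : CrossedMod) : Prop where
  prime : p.Prime
  finE : Finite D.E
  perfect : commutator D.E = ⊤
  memA : AClass D.X
  faithful : ∀ x : D.X, (∀ e, D.act x e = e) → x = 1
  ker_ne_one : ∃ e, D.d e = 1 ∧ e ≠ 1
  ker_exp : ∀ e, D.d e = 1 → e ^ p = 1
  ker_irr : ∀ U : Subgroup D.E, (∀ e ∈ U, D.d e = 1) → (∀ x, ∀ e ∈ U, D.act x e ∈ U) →
    U = ⊥ ∨ ∀ e, D.d e = 1 → e ∈ U
  ker_triv : ∀ (x : D.X) (k : ℕ), x ^ p ^ k = 1 → ∀ e, D.d e = 1 → D.act x e = e
  range_min : ∀ N : Subgroup D.X, N.Normal → (∀ x ∈ N, ∃ e, D.d e = x) →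
    N = ⊥ ∨ ∀ e, D.d e ∈ N

/-- `(l, e)` lies in the fibre product, over the image of `D'.d`, of copies of `D.E` twisted by
isomorphisms `μ i` from `D'.X` to `D.X`. -/
def CrossedMod.InFib (D' D : CrossedMod) {n : ℕ} (μ : Fin n → D'.X → D.X) (l : D'.X)
    (e : Fin n → D.E) : Prop :=
  (∃ f, D'.d f = l) ∧ ∀ i, D.d (e i) = μ i l

/-- `D'` is a combination of twists of `D`: there are isomorphisms `μ i` from `D'.X` to `D.X` and
a homomorphism `ε` from the fibre product of the corresponding copies of `D.E` to `D'.E` that lies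
over the image of `D'.d` and is `D'.X`-equivariant. -/
def CrossedMod.Comb (D' D : CrossedMod) : Prop :=
  ∃ (n : ℕ) (μ : Fin n → D'.X → D.X) (ε : D'.X → (Fin n → D.E) → D'.E),
    (∀ i, IsGrpIso (μ i)) ∧
    (∀ l e, D'.InFib D μ l e → D'.d (ε l e) = l) ∧
    (∀ l e l' e', D'.InFib D μ l e → D'.InFib D μ l' e' →
      ε (l * l') (fun i => e i * e' i) = ε l e * ε l' e') ∧
    ∀ x l e, D'.InFib D μ l e →
      ε (x * l * x⁻¹) (fun i => D.act (μ i x) (e i)) = D'.act x (ε l e)

/-- `D` is pure: every admissible combination of twists of `D` has `D` as a combination of its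
twists. -/
def CrossedMod.IsPure (D : CrossedMod) : Prop :=
  ∀ (q : ℕ) (D' : CrossedMod), IsAdmissible q D' → D'.Comb D → D.Comb D'

end Pool.Agent.Helper75.MNA.Lite
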