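import Mathlib

set_option autoImplicit false

/-! Definitions for the statement of the classification of the minimal non-A-formations. -/

namespace Pool.Agent.Helper75.MNA.Lite

/-- A class of groups. -/
abbrev GroupClass : Type 1 := (G : Type) → [Group G] → Prop

/-- A formation: a nonempty class of finite groups closed under isomorphic images and quotients,
and containing `G / (M ∩ N)` whenever it contains `G / M` and `G / N`. -/
structure IsFormation (F : GroupClass) : Prop where
  finite : ∀ (G : Type) [Group G], F G → Finite G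
  nonempty : ∃ (G : Type) (_ : Group G), F G
  iso : ∀ (G H : Type) [Group G] [Group H], Nonempty (G ≃* H) → F G → F H
  quotient : ∀ (G : Type) [Group G] (N : Subgroup G) [N.Normal], F G → F (G ⧸ N)
  subdirect : ∀ (G : Type) [Group G] [Finite G] (M N : Subgroup G) [M.Normal] [N.Normal],
    F (G ⧸ M) → F (G ⧸ N) → F (G ⧸ (M ⊓ N))

/-- `form G` is the smallest formation containing the finite group `G`. -/
def form (G : Type) [Group G] : GroupClass :=
  fun H _ => ∀ F : GroupClass, IsFormation F → F G → F H

/-- The class of finite groups all of whose Sylow subgroups are abelian. -/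
def AClass : GroupClass :=
  fun G _ => Finite G ∧
    ∀ (p : ℕ), p.Prime → ∀ P : Sylow p G, ∀ x ∈ P, ∀ y ∈ P, x * y = y * x

/-- A minimal non-A-formation: a formation that is not contained in the class of finite groups
with abelian Sylow subgroups, although each of its proper subformations is. -/
structure IsMinimalNonA (F : GroupClass) : Prop where
  formation : IsFormation F
  not_le : ¬ ∀ (G : Type) [Group G], F G → AClass G
  proper : ∀ E : GroupClass, IsFormation E → (∀ (G : Type) [Group G], E G → F G) → E ≠ F →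
    ∀ (G : Type) [Group G], E G → AClass G

/-- `M` is the monolith of `G`: a nontrivial normal subgroup that is contained in every
nontrivial normal subgroup. -/
structure IsMonolith {G : Type} [Group G] (M : Subgroup G) : Prop where
  normal : M.Normal
  ne_bot : M ≠ ⊥
  le : ∀ N : Subgroup G, N.Normal → N ≠ ⊥ → M ≤ N

/-- Family I: the finite groups `G` outside the class `A` that have a monolith `M` with `G / M`
in the class `A`, where `M` is nonabelian or `M` has a complement in `G`. -/
structure IsPrimitiveType (G : Type) [Group G] : Prop where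
  finite : Finite G
  not_mem : ¬ AClass G
  monolith : ∃ (M : Subgroup G) (_ : M.Normal), IsMonolith M ∧ AClass (G ⧸ M) ∧
    ((∃ x ∈ M, ∃ y ∈ M, x * y ≠ y * x) ∨ ∃ H : Subgroup G, M.IsComplement' H)

/-- `act` is an action of the group `H` on the abelian group `V` by automorphisms. -/
structure IsAct {H V : Type} [Group H] [AddCommGroup V] (act : H → V → V) : Prop where
  one : ∀ v, act 1 v = v
  mul : ∀ h k v, act (h * k) v = act h (act k v)
  add : ∀ h v w, act h (v + w) = act h v + act h w

/-- `β` is biadditive. -/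
structure IsBiadd {V W M : Type} [AddCommGroup V] [AddCommGroup W] [AddCommGroup M]
    (β : V → W → M) : Prop where
  left : ∀ v v' w, β (v + v') w = β v w + β v' w
  right : ∀ v w w', β v (w + w') = β v w + β v w'

/-- A pairing: a group `H` acting on abelian groups `V`, `W`, `M`, and an `H`-equivariant
biadditive map `β : V × W → M`. -/
structure Pairing where
  H : Type
  V : Type
  W : Type
  M : Type
  [grpH : Group H]
  [addV : AddCommGroup V]
  [addW : AddCommGroup W]
  [addM : AddCommGroup M]
  actV : H → V → V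
  actW : H → W → W
  actM : H → M → M
  β : V → W → M
  isActV : IsAct actV
  isActW : IsAct actW
  isActM : IsAct actM
  biadd : IsBiadd β
  equivariant : ∀ h v w, β (actV h v) (actW h w) = actM h (β v w)

attribute [instance] Pairing.grpH Pairing.addV Pairing.addW Pairing.addM

namespace Pairing

/-- The elements `(v, w, m, h)` of the semidirect product of the Heisenberg group of the pairing
by `H`. -/
@[ext]
structure Grp (D : Pairing) where
  v : D.V
  w : D.W
  m : D.M
  h : D.H

variable {D : Pairing}

instance : Mul D.Grp := ⟨fun x y => ⟨x.v + D.actV x.h y.v, x.w + D.actW x.h y.w,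
  x.m + D.actM x.h y.m + D.β x.v (D.actW x.h y.w), x.h * y.h⟩⟩
instance : One D.Grp := ⟨⟨0, 0, 0, 1⟩⟩
instance : Inv D.Grp := ⟨fun x => ⟨D.actV x.h⁻¹ (-x.v), D.actW x.h⁻¹ (-x.w),
  D.actM x.h⁻¹ (-x.m + D.β x.v x.w), x.h⁻¹⟩⟩

theorem act_zero {H V : Type} [Group H] [AddCommGroup V] {act : H → V → V} (h : IsAct act)
    (x : H) : act x 0 = 0 := by
  have h1 := h.add x 0 0
  rw [add_zero] at h1
  exact left_eq_add.1 h1

theorem act_neg {H V : Type} [Group H] [AddCommGroup V] {act : H → V → V} (h : IsAct act)
    (x : H) (v : V) : act x (-v) = -act x v := by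
  have h1 := h.add x (-v) v
  rw [neg_add_cancel, act_zero h] at h1
  exact eq_neg_of_add_eq_zero_left h1.symm

theorem biadd_zero_left {V W M : Type} [AddCommGroup V] [AddCommGroup W] [AddCommGroup M]
    {β : V → W → M} (h : IsBiadd β) (w : W) : β 0 w = 0 := by
  have h1 := h.left 0 0 w
  rw [add_zero] at h1
  exact left_eq_add.1 h1

theorem biadd_neg_left {V W M : Type} [AddCommGroup V] [AddCommGroup W] [AddCommGroup M]
    {β : V → W → M} (h : IsBiadd β) (v : V) (w : W) : β (-v) w = -β v w := by
  have h1 := h.left (-v) v w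
  rw [neg_add_cancel, biadd_zero_left h] at h1
  exact eq_neg_of_add_eq_zero_left h1.symm

theorem grp_assoc (x y z : D.Grp) : x * y * z = x * (y * z) := by
  have hV := D.isActV
  have hW := D.isActW
  have hM := D.isActM
  apply Grp.ext
  · show x.v + D.actV x.h y.v + D.actV (x.h * y.h) z.v = x.v + D.actV x.h (y.v + D.actV y.h z.v)
    rw [hV.add, hV.mul, add_assoc]
  · show x.w + D.actW x.h y.w + D.actW (x.h * y.h) z.w = x.w + D.actW x.h (y.w + D.actW y.h z.w)
    rw [hW.add, hW.mul, add_assoc]
  · show x.m + D.actM x.h y.m + D.β x.v (D.actW x.h y.w) + D.actM (x.h * y.h) z.m +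
        D.β (x.v + D.actV x.h y.v) (D.actW (x.h * y.h) z.w) =
      x.m + D.actM x.h (y.m + D.actM y.h z.m + D.β y.v (D.actW y.h z.w)) +
        D.β x.v (D.actW x.h (y.w + D.actW y.h z.w))
    rw [hM.add, hM.add, hM.mul, hW.add, D.biadd.left, D.biadd.right, hW.mul, D.equivariant]
    abel
  · show x.h * y.h * z.h = x.h * (y.h * z.h)
    rw [mul_assoc]

theorem grp_one_mul (x : D.Grp) : 1 * x = x := by
  apply Grp.ext
  · show 0 + D.actV 1 x.v = x.v
    rw [D.isActV.one, zero_add]
  · show 0 + D.actW 1 x.w = x.w
    rw [D.isActW.one, zero_add]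
  · show 0 + D.actM 1 x.m + D.β 0 (D.actW 1 x.w) = x.m
    rw [D.isActM.one, biadd_zero_left D.biadd, zero_add, add_zero]
  · show 1 * x.h = x.h
    rw [one_mul]

theorem grp_inv_mul (x : D.Grp) : x⁻¹ * x = 1 := by
  apply Grp.ext
  · show D.actV x.h⁻¹ (-x.v) + D.actV x.h⁻¹ x.v = 0
    rw [act_neg D.isActV, neg_add_cancel]
  · show D.actW x.h⁻¹ (-x.w) + D.actW x.h⁻¹ x.w = 0
    rw [act_neg D.isActW, neg_add_cancel]
  · show D.actM x.h⁻¹ (-x.m + D.β x.v x.w) + D.actM x.h⁻¹ x.m +
      D.β (D.actV x.h⁻¹ (-x.v)) (D.actW x.h⁻¹ x.w) = 0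
    rw [D.equivariant, biadd_neg_left D.biadd, D.isActM.add, act_neg D.isActM, act_neg D.isActM]
    abel
  · show x.h⁻¹ * x.h = 1
    rw [inv_mul_cancel]

instance : Group D.Grp := Group.ofLeftAxioms grp_assoc grp_one_mul grp_inv_mul

end Pairing

/-- The action of `H` on a finite abelian group `V` is irreducible. -/
def IsIrred {H V : Type} [AddCommGroup V] (act : H → V → V) : Prop :=
  Finite V ∧ (∃ v : V, v ≠ 0) ∧
    ∀ U : AddSubgroup V, (∀ (h : H), ∀ u ∈ U, act h u ∈ U) → U = ⊥ ∨ U = ⊤

/-- `l` is an isomorphism of groups. -/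
structure IsGrpIso {H H' : Type} [Group H] [Group H'] (l : H → H') : Prop where
  bij : Function.Bijective l
  mul : ∀ x y, l (x * y) = l x * l y

/-- `a` is an isomorphism of abelian groups, compatible with the actions along `l`. -/
structure IsModIso {H H' V V' : Type} [AddCommGroup V] [AddCommGroup V'] (l : H → H')
    (act : H → V → V) (act' : H' → V' → V') (a : V → V') : Prop where
  bij : Function.Bijective a
  add : ∀ x y, a (x + y) = a x + a y
  comm : ∀ h x, a (act h x) = act' (l h) (a x)

/-- A crossed module `d : E → X`. -/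
structure CrossedMod where
  E : Type
  X : Type
  [grpE : Group E]
  [grpX : Group X]
  act : X → E → E
  d : E → X
  act_one : ∀ e, act 1 e = e
  act_mul : ∀ x y e, act (x * y) e = act x (act y e)
  act_hom : ∀ x e f, act x (e * f) = act x e * act x f
  d_mul : ∀ e f, d (e * f) = d e * d f
  equivariant : ∀ x e, d (act x e) = x * d e * x⁻¹
  peiffer : ∀ e f, act (d e) f = e * f * e⁻¹

attribute [instance] CrossedMod.grpE CrossedMod.grpX

namespace CrossedMod

/-- The elements `(e, x)` of the semidirect product of `E` by `X`. -/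
@[ext]
structure Grp (D : CrossedMod) where
  e : D.E
  x : D.X

variable {D : CrossedMod}

instance : Mul D.Grp := ⟨fun g k => ⟨g.e * D.act g.x k.e, g.x * k.x⟩⟩
instance : One D.Grp := ⟨⟨1, 1⟩⟩
instance : Inv D.Grp := ⟨fun g => ⟨D.act g.x⁻¹ g.e⁻¹, g.x⁻¹⟩⟩

theorem act_e_one (x : D.X) : D.act x 1 = 1 := by
  have h1 := D.act_hom x 1 1
  rw [mul_one] at h1
  exact left_eq_mul.1 h1

theorem grp_assoc (x y z : D.Grp) : x * y * z = x * (y * z) := by
  apply Grp.ext
  · show x.e * D.act x.x y.e * D.act (x.x * y.x) z.e = x.e * D.act x.x (y.e * D.act y.x z.e)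
    rw [D.act_hom, D.act_mul, mul_assoc]
  · show x.x * y.x * z.x = x.x * (y.x * z.x)
    rw [mul_assoc]

theorem grp_one_mul (x : D.Grp) : 1 * x = x := by
  apply Grp.ext
  · show 1 * D.act 1 x.e = x.e
    rw [D.act_one, one_mul]
  · show 1 * x.x = x.x
    rw [one_mul]

theorem grp_inv_mul (x : D.Grp) : x⁻¹ * x = 1 := by
  apply Grp.ext
  · show D.act x.x⁻¹ x.e⁻¹ * D.act x.x⁻¹ x.e = 1
    rw [← D.act_hom, inv_mul_cancel, act_e_one]
  · show x.x⁻¹ * x.x = 1
    rw [inv_mul_cancel]

instance : Group D.Grp := Group.ofLeftAxioms grp_assoc grp_one_mul grp_inv_mul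

end CrossedMod

end Pool.Agent.Helper75.MNA.Lite
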