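import Pool.Agent.Helper75.MNA.PresDefs
import Pool.Agent.Helper75.MNA.A1
import Pool.Agent.Helper75.MNA.A2

set_option autoImplicit false
set_option linter.style.haveILetI false

namespace Pool.Agent.Helper75.MNA

open Subgroup Pointwise

/-- projection along a complemented normal subgroup -/
theorem p1_proj {G : Type} [Group G] (M : Subgroup G) [M.Normal] (H : Subgroup G)
    (h : M.IsComplement' H) : ∃ q : G →* G, (∀ m ∈ M, q m = 1) ∧ (∀ x ∈ H, q x = x) ∧
      (∀ g, q g ∈ H) ∧ ∀ g, g * (q g)⁻¹ ∈ M := by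
  let e : G ⧸ M ≃* H := h.symm.QuotientMulEquiv
  have he : ∀ x : H, e ((x : G) : G ⧸ M) = x := by
    intro x
    rw [← MulEquiv.eq_symm_apply]
    rfl
  let q : G →* G := H.subtype.comp (e.toMonoidHom.comp (QuotientGroup.mk' M))
  have h1 : ∀ m ∈ M, q m = 1 := by
    intro m hm
    show (e (m : G ⧸ M) : G) = 1
    rw [(QuotientGroup.eq_one_iff m).2 hm, map_one]
    rfl
  have h2 : ∀ x ∈ H, q x = x := by
    intro x hx
    show (e (x : G ⧸ M) : G) = x
    exact congrArg Subtype.val (he ⟨x, hx⟩)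
  have h3 : ∀ g, q g ∈ H := fun g => (e (g : G ⧸ M)).2
  refine ⟨q, h1, h2, h3, ?_⟩
  intro g
  have h4 : q (g * (q g)⁻¹) = 1 := by
    rw [map_mul, map_inv, h2 _ (h3 g), mul_inv_cancel]
  have h5 : e ((g * (q g)⁻¹ : G) : G ⧸ M) = 1 := Subtype.ext h4
  rw [← QuotientGroup.eq_one_iff]
  exact e.injective (h5.trans (map_one e).symm)

/-- the `i`-th piece of the monolith in a presentation -/
def p1_piece {G K : Type} [Group G] [Group K] {n : ℕ} (P : Pres G K n) (M : Subgroup G)
    (i : Fin n) : Subgroup P.R where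
  carrier := {r | P.π i r ∈ M ∧ ∀ j, j ≠ i → P.π j r = 1}
  one_mem' := ⟨by simp [M.one_mem], fun j _ => map_one _⟩
  mul_mem' := by
    rintro a b ⟨h1, h2⟩ ⟨h3, h4⟩
    refine ⟨by rw [map_mul]; exact mul_mem h1 h3, fun j hj => ?_⟩
    rw [map_mul, h2 j hj, h4 j hj, one_mul]
  inv_mem' := by
    rintro a ⟨h1, h2⟩
    refine ⟨by rw [map_inv]; exact inv_mem h1, fun j hj => ?_⟩
    rw [map_inv, h2 j hj, inv_one]

theorem p1_piece_normal {G K : Type} [Group G] [Group K] {n : ℕ} (P : Pres G K n)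
    (M : Subgroup G) [M.Normal] (i : Fin n) : (p1_piece P M i).Normal := by
  refine ⟨?_⟩
  rintro a ⟨h1, h2⟩ g
  refine ⟨?_, fun j hj => ?_⟩
  · rw [map_mul, map_mul, map_inv]
    exact Subgroup.Normal.conj_mem inferInstance _ h1 _
  · rw [map_mul, map_mul, map_inv, h2 j hj, mul_one, mul_inv_cancel]

/-- some piece of the monolith survives in `K` -/
theorem p1_survive {G K : Type} [Group G] [Group K] {n : ℕ} (P : Pres G K n) (hP : P.IsMin)
    {M : Subgroup G} [M.Normal] (hM : IsMonolith M) (hA : AClass (G ⧸ M)) (hK : ¬ AClass K) :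
    ∃ i, ∃ d ∈ p1_piece P M i, P.ρ d ≠ 1 := by
  by_contra hcon
  push Not at hcon
  apply hK
  -- elements with all coordinates in `M` are killed
  have key : ∀ (s : Finset (Fin n)) (r : P.R), (∀ i, P.π i r ∈ M) → (∀ i, i ∉ s → P.π i r = 1) →
      P.ρ r = 1 := by
    intro s
    induction s using Finset.induction_on with
    | empty =>
      intro r _ h
      rw [P.inj r (fun i => h i (Finset.notMem_empty i)), map_one]
    | insert i s his ih =>
      intro r h1 h2
      obtain ⟨d, hd1, hd2⟩ := P.full hP hM i (P.π i r) (h1 i)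
      have hd3 : P.ρ d = 1 := hcon i d ⟨by rw [hd1]; exact h1 i, hd2⟩
      have h3 : P.ρ (r * d⁻¹) = 1 := by
        apply ih
        · intro j
          by_cases hj : j = i
          · subst hj
            rw [map_mul, map_inv, hd1, mul_inv_cancel]
            exact one_mem _
          · rw [map_mul, map_inv, hd2 j hj, inv_one, mul_one]
            exact h1 j
        · intro j hj
          by_cases hji : j = i
          · subst hji
            rw [map_mul, map_inv, hd1, mul_inv_cancel]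
          · rw [map_mul, map_inv, hd2 j hji, inv_one, mul_one]
            apply h2
            rw [Finset.mem_insert]
            push Not
            exact ⟨hji, hj⟩
      rw [map_mul, map_inv, hd3, inv_one, mul_one] at h3
      exact h3
  let A : Subgroup P.R := ⨅ i, (M.comap (P.π i))
  haveI hAn : A.Normal := Subgroup.normal_iInf_normal (fun i => inferInstance)
  have hmem : ∀ r, r ∈ A ↔ ∀ i, P.π i r ∈ M := by
    intro r
    simp only [A, Subgroup.mem_iInf, Subgroup.mem_comap]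
  have hAle : A ≤ P.ρ.ker := by
    intro r hr
    exact key Finset.univ r ((hmem r).1 hr) (fun i hi => absurd (Finset.mem_univ i) hi)
  have hRA : AClass (P.R ⧸ A) := by
    refine AClass.joint (ι := Fin n) (A := fun _ => G ⧸ M)
      (fun i => QuotientGroup.map A M (P.π i) (fun r hr => (hmem r).1 hr i)) (fun _ => hA) ?_
    intro x
    induction x using QuotientGroup.induction_on with
    | H x =>
      intro hx
      rw [QuotientGroup.eq_one_iff]
      refine (hmem x).2 (fun i => ?_)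
      have := hx i
      exact (QuotientGroup.eq_one_iff (N := M) (P.π i x)).1 this
  exact hRA.surj (QuotientGroup.lift A P.ρ hAle) (fun k => by
    obtain ⟨r, hr⟩ := P.onto k
    exact ⟨(r : P.R ⧸ A), hr⟩)

theorem p1_piece_inj {G K : Type} [Group G] [Group K] {n : ℕ} (P : Pres G K n)
    {i : Fin n} {a b : P.R} (ha : ∀ j, j ≠ i → P.π j a = 1)
    (hb : ∀ j, j ≠ i → P.π j b = 1) (h : P.π i a = P.π i b) : a = b := by
  have h1 : a * b⁻¹ = 1 := by
    apply P.inj
    intro j
    by_cases hj : j = i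
    · subst hj
      rw [map_mul, map_inv, h, mul_inv_cancel]
    · rw [map_mul, map_inv, ha j hj, hb j hj, inv_one, mul_one]
  exact mul_inv_eq_one.1 h1

/-- a piece is a minimal normal subgroup -/
theorem p1_piece_min {G K : Type} [Group G] [Group K] {n : ℕ} (P : Pres G K n)
    {M : Subgroup G} (hM : IsMonolith M) (i : Fin n) (N : Subgroup P.R) (hN : N.Normal)
    (hle : N ≤ p1_piece P M i) (hne : N ≠ ⊥) : N = p1_piece P M i := by
  have h1 : (N.map (P.π i)).Normal := hN.map _ (P.surj i)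
  have h2 : N.map (P.π i) ≠ ⊥ := by
    intro h
    apply hne
    rw [eq_bot_iff]
    intro r hr
    have h3 : P.π i r = 1 := by
      have : P.π i r ∈ N.map (P.π i) := Subgroup.mem_map_of_mem _ hr
      rwa [h, Subgroup.mem_bot] at this
    rw [Subgroup.mem_bot]
    apply P.inj
    intro j
    by_cases hj : j = i
    · subst hj; exact h3
    · exact (hle hr).2 j hj
  have h3 := hM.le _ h1 h2
  refine le_antisymm hle ?_
  intro r hr
  obtain ⟨s, hs, hs2⟩ := h3 hr.1
  have : s = r := p1_piece_inj P (hle hs).2 hr.2 hs2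
  rw [← this]
  exact hs

/-- the surviving piece is mapped isomorphically onto the monolith of `K` -/
theorem p1_core {G K : Type} [Group G] [Group K] {n : ℕ} (P : Pres G K n) (hP : P.IsMin)
    {M : Subgroup G} [hMn : M.Normal] (hM : IsMonolith M) (hA : AClass (G ⧸ M)) (hK : ¬ AClass K)
    {M' : Subgroup K} (hM' : IsMonolith M') :
    ∃ i, (∀ d ∈ p1_piece P M i, P.ρ d = 1 → d = 1) ∧ (p1_piece P M i).map P.ρ = M' := by
  obtain ⟨i, d0, hd0, hd1⟩ := p1_survive P hP hM hA hK
  haveI hPn : (p1_piece P M i).Normal := p1_piece_normal P M i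
  haveI hMn' : M'.Normal := hM'.normal
  have hinj : ∀ d ∈ p1_piece P M i, P.ρ d = 1 → d = 1 := by
    by_contra hcon
    push Not at hcon
    obtain ⟨d, hd, hd2, hd3⟩ := hcon
    have h1 : (P.ρ.ker ⊓ p1_piece P M i) = p1_piece P M i := by
      refine p1_piece_min P hM i _ inferInstance inf_le_right ?_
      intro h
      apply hd3
      have h2 : d ∈ P.ρ.ker ⊓ p1_piece P M i := ⟨hd2, hd⟩
      rwa [h, Subgroup.mem_bot] at h2
    apply hd1
    have h2 : d0 ∈ P.ρ.ker ⊓ p1_piece P M i := by rw [h1]; exact hd0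
    exact h2.1
  have hle : M' ≤ (p1_piece P M i).map P.ρ := by
    refine hM'.le _ (hPn.map _ P.onto) ?_
    intro h
    apply hd1
    have h2 : P.ρ d0 ∈ (p1_piece P M i).map P.ρ := Subgroup.mem_map_of_mem _ hd0
    rwa [h, Subgroup.mem_bot] at h2
  refine ⟨i, hinj, le_antisymm ?_ hle⟩
  have h1 : (M'.comap P.ρ ⊓ p1_piece P M i) = p1_piece P M i := by
    refine p1_piece_min P hM i _ inferInstance inf_le_right ?_
    intro h
    obtain ⟨⟨m, hm⟩, hm1⟩ := (Subgroup.ne_bot_iff_exists_ne_one (H := M')).1 hM'.ne_bot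
    obtain ⟨d, hd, hd2⟩ := hle hm
    have h2 : d ∈ M'.comap P.ρ ⊓ p1_piece P M i := ⟨by
      show P.ρ d ∈ M'
      rw [hd2]
      exact hm, hd⟩
    rw [h, Subgroup.mem_bot] at h2
    apply hm1
    apply Subtype.ext
    show m = 1
    rw [← hd2, h2, map_one]
  rintro _ ⟨d, hd, rfl⟩
  have h2 : d ∈ M'.comap P.ρ ⊓ p1_piece P M i := by rw [h1]; exact hd
  exact h2.1

/-- the case of one factor -/
theorem p1_one {G K : Type} [Group G] [Group K] {n : ℕ} (P : Pres G K n)
    {M : Subgroup G} [hMn : M.Normal] (hM : IsMonolith M) (hA : AClass (G ⧸ M)) (hK : ¬ AClass K)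
    (i : Fin n) (hi : ∀ j, j = i) : Nonempty (K ≃* G) := by
  have hinj : Function.Injective (P.π i) := by
    intro a b h
    exact p1_piece_inj P (fun j hj => absurd (hi j) hj) (fun j hj => absurd (hi j) hj) h
  let e : P.R ≃* G := MulEquiv.ofBijective (P.π i) ⟨hinj, P.surj i⟩
  let f : G →* K := P.ρ.comp e.symm.toMonoidHom
  have hf : Function.Surjective f := P.onto.comp e.symm.surjective
  by_cases h : f.ker = ⊥
  · exact ⟨(MulEquiv.ofBijective f ⟨(MonoidHom.ker_eq_bot_iff f).1 h, hf⟩).symm⟩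
  · exfalso
    apply hK
    have h1 : M ≤ f.ker := hM.le _ inferInstance h
    exact hA.surj (QuotientGroup.lift M f h1) (fun k => by
      obtain ⟨r, hr⟩ := hf k
      exact ⟨(r : G ⧸ M), hr⟩)

/-- with at least two factors the monolith of `K` is abelian -/
theorem p1_abelian {G K : Type} [Group G] [Group K] {n : ℕ} (P : Pres G K n) (hP : P.IsMin)
    {M' : Subgroup K} (hM' : IsMonolith M') {i j : Fin n} (hij : i ≠ j) :
    ∀ x ∈ M', ∀ y ∈ M', x * y = y * x := by
  have key : ∀ i : Fin n, ∀ x ∈ M', ∃ d : P.R, (∀ j, j ≠ i → P.π j d = 1) ∧ P.ρ d = x := by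
    intro i
    let D : Subgroup P.R := ⨅ j : {j : Fin n // j ≠ i}, (P.π j.1).ker
    haveI hD : D.Normal := Subgroup.normal_iInf_normal (fun i => inferInstance)
    have hmem : ∀ r, r ∈ D ↔ ∀ j, j ≠ i → P.π j r = 1 := by
      intro r
      simp only [D, Subgroup.mem_iInf, MonoidHom.mem_ker, Subtype.forall]
    have h1 : M' ≤ D.map P.ρ := by
      refine hM'.le _ (hD.map _ P.onto) ?_
      intro h
      obtain ⟨d, hd1, hd2⟩ := P.sep hP i
      apply hd2
      have h2 : P.ρ d ∈ D.map P.ρ := Subgroup.mem_map_of_mem _ ((hmem d).2 hd1)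
      rwa [h, Subgroup.mem_bot] at h2
    intro x hx
    obtain ⟨d, hd, hd2⟩ := h1 hx
    exact ⟨d, (hmem d).1 hd, hd2⟩
  intro x hx y hy
  obtain ⟨d, hd, rfl⟩ := key i x hx
  obtain ⟨e, he, rfl⟩ := key j y hy
  rw [← map_mul, ← map_mul]
  congr 1
  have h1 : (d * e) * (e * d)⁻¹ = 1 := by
    apply P.inj
    intro k
    rw [map_mul, map_inv, map_mul, map_mul]
    by_cases hk : k = i
    · subst hk
      rw [he k hij]
      simp
    · rw [hd k hk]
      simp
  exact mul_inv_eq_one.1 h1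

theorem primitive_min {G : Type} [Group G] (hG : IsPrimitiveType G) {E : GroupClass}
    (hE : IsFormation E) (hle : ∀ (H : Type) [Group H], E H → form G H)
    (hne : ∃ (K : Type) (_ : Group K), E K ∧ ¬ AClass K) : E G := by
  haveI := hG.finite
  obtain ⟨M, hMn, hM, hA, hcase⟩ := hG.monolith
  obtain ⟨K, _, M', hMn', hEK, hK, hM', hA'⟩ := exists_monolithic hE hne
  obtain ⟨n, P, hP⟩ := exists_min_pres (hle K hEK)
  obtain ⟨i, hinj, hmap⟩ := p1_core P hP hM hA hK hM'
  by_cases hone : ∀ j, j = i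
  · obtain ⟨e⟩ := p1_one P hM hA hK i hone
    exact hE.iso K G ⟨e⟩ hEK
  push Not at hone
  obtain ⟨j, hj⟩ := hone
  have hab' := p1_abelian P hP hM' hj
  haveI hPn : (p1_piece P M i).Normal := p1_piece_normal P M i
  -- `M` is abelian
  have hlift : ∀ m ∈ M, ∃ d ∈ p1_piece P M i, P.π i d = m := by
    intro m hm
    obtain ⟨d, hd1, hd2⟩ := P.full hP hM i m hm
    exact ⟨d, ⟨by rw [hd1]; exact hm, hd2⟩, hd1⟩
  have hmem : ∀ d ∈ p1_piece P M i, P.ρ d ∈ M' := by
    intro d hd
    rw [← hmap]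
    exact Subgroup.mem_map_of_mem _ hd
  have hab : ∀ x ∈ M, ∀ y ∈ M, x * y = y * x := by
    intro x hx y hy
    obtain ⟨d, hd, rfl⟩ := hlift x hx
    obtain ⟨e, he, rfl⟩ := hlift y hy
    have h1 : (d * e) * (e * d)⁻¹ = 1 := by
      apply hinj
      · exact mul_mem (mul_mem hd he) (inv_mem (mul_mem he hd))
      · rw [map_mul, map_inv, map_mul, map_mul, hab' _ (hmem d hd) _ (hmem e he), mul_inv_cancel]
    rw [← map_mul, ← map_mul, mul_inv_eq_one.1 h1]
  rcases hcase with ⟨x, hx, y, hy, hxy⟩ | ⟨H, hH⟩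
  · exact absurd (hab x hx y hy) hxy
  obtain ⟨q, hq1, hq2, hq3, hq4⟩ := p1_proj M H hH
  -- elements centralizing `M` are in `M`
  have hcent : ∀ c : G, (∀ m ∈ M, c * m = m * c) → q c = 1 := by
    intro c hc
    by_contra hne1
    let C : Subgroup G := Subgroup.centralizer (M : Set G) ⊓ H
    have hqc : q c ∈ C := by
      refine ⟨?_, hq3 c⟩
      refine Subgroup.mem_centralizer_iff.2 ?_
      intro m hm
      have h1 := hq4 c
      have h2 : q c = (c * (q c)⁻¹)⁻¹ * c := by group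
      rw [h2]
      have h3 := hc m hm
      have h4 := hab _ (inv_mem h1) m hm
      rw [← mul_assoc, ← h4, mul_assoc, ← h3, mul_assoc]
    have hCn : C.Normal := by
      refine ⟨?_⟩
      intro x hx g
      have hxc : ∀ m ∈ M, m * x = x * m := Subgroup.mem_centralizer_iff.1 hx.1
      -- conjugate by the `H`-part
      have h1 : (q g) * x * (q g)⁻¹ ∈ H := mul_mem (mul_mem (hq3 g) hx.2) (inv_mem (hq3 g))
      have h2 : ∀ m ∈ M, m * (q g * x * (q g)⁻¹) = (q g * x * (q g)⁻¹) * m := by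
        intro m hm
        have h3 : (q g)⁻¹ * m * q g ∈ M := by
          have := hMn.conj_mem m hm (q g)⁻¹
          rwa [inv_inv] at this
        have h4 := hxc _ h3
        calc m * (q g * x * (q g)⁻¹) = q g * (((q g)⁻¹ * m * q g) * x) * (q g)⁻¹ := by group
          _ = q g * (x * ((q g)⁻¹ * m * q g)) * (q g)⁻¹ := by rw [h4]
          _ = (q g * x * (q g)⁻¹) * m := by group
      have h5 : g * x * g⁻¹ = q g * x * (q g)⁻¹ := by
        have h6 := h2 _ (hq4 g)
        calc g * x * g⁻¹ = ((g * (q g)⁻¹) * (q g * x * (q g)⁻¹)) * (g * (q g)⁻¹)⁻¹ := by group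
          _ = ((q g * x * (q g)⁻¹) * (g * (q g)⁻¹)) * (g * (q g)⁻¹)⁻¹ := by rw [h6]
          _ = q g * x * (q g)⁻¹ := by group
      rw [h5]
      exact ⟨Subgroup.mem_centralizer_iff.2 h2, h1⟩
    have h1 : M ≤ C := hM.le C hCn (by
      intro h
      rw [h, Subgroup.mem_bot] at hqc
      exact hne1 hqc)
    apply hM.ne_bot
    rw [eq_bot_iff]
    intro m hm
    have h2 := hH.disjoint.le_bot (⟨hm, (h1 hm).2⟩ : m ∈ M ⊓ H)
    exact h2
  -- the homomorphism `K → G` with values in `H`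
  have hker : P.ρ.ker ≤ (q.comp (P.π i)).ker := by
    intro r hr
    rw [MonoidHom.mem_ker, MonoidHom.comp_apply]
    apply hcent
    intro m hm
    obtain ⟨d, hd, rfl⟩ := hlift m hm
    have h1 : (r * d * r⁻¹) * d⁻¹ = 1 := by
      apply hinj
      · exact mul_mem (hPn.conj_mem d hd r) (inv_mem hd)
      · rw [MonoidHom.mem_ker] at hr
        rw [map_mul, map_mul, map_mul, map_inv, map_inv, hr]
        simp
    have h2 : r * d = d * r := by
      have := mul_inv_eq_one.1 h1
      exact (mul_inv_eq_iff_eq_mul.1 this)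
    rw [← map_mul, ← map_mul, h2]
  let s : K →* G := P.ρ.liftOfSurjective P.onto ⟨q.comp (P.π i), hker⟩
  have hs : ∀ r, s (P.ρ r) = q (P.π i r) := by
    intro r
    exact MonoidHom.liftOfRightInverse_comp_apply _ _ _ _ r
  -- the isomorphism between the monoliths
  let ρ' : p1_piece P M i →* M' := (P.ρ.comp (p1_piece P M i).subtype).codRestrict M'
    (fun d => hmem d.1 d.2)
  have hρ' : Function.Bijective ρ' := by
    refine ⟨?_, ?_⟩
    · rw [injective_iff_map_eq_one]
      intro d hd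
      exact Subtype.ext (hinj d.1 d.2 (congrArg Subtype.val hd))
    · rintro ⟨m, hm⟩
      have hm2 := hm
      rw [← hmap] at hm2
      obtain ⟨d, hd, hd2⟩ := hm2
      exact ⟨⟨d, hd⟩, Subtype.ext hd2⟩
  let e : p1_piece P M i ≃* M' := MulEquiv.ofBijective ρ' hρ'
  let θ : M' →* G := ((P.π i).comp (p1_piece P M i).subtype).comp e.symm.toMonoidHom
  have hθ : ∀ (d : P.R) (hd : d ∈ p1_piece P M i) (hm : P.ρ d ∈ M'), θ ⟨P.ρ d, hm⟩ = P.π i d := by
    intro d hd hm
    have h1 : e.symm ⟨P.ρ d, hm⟩ = ⟨d, hd⟩ := by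
      rw [MulEquiv.symm_apply_eq]
      rfl
    show P.π i (e.symm ⟨P.ρ d, hm⟩ : P.R) = P.π i d
    rw [h1]
  haveI := hMn'
  have hcompat : ∀ k : K, θ.comp (MulAut.conjNormal (H := M') k).toMonoidHom =
      (MulAut.conj (s k)).toMonoidHom.comp θ := by
    intro k
    obtain ⟨r, rfl⟩ := P.onto k
    ext ⟨m, hm⟩
    have hm2 := hm
    rw [← hmap] at hm2
    obtain ⟨d, hd, rfl⟩ := hm2
    have h1 : (MulAut.conjNormal (H := M') (P.ρ r)) ⟨P.ρ d, hm⟩ =
        ⟨P.ρ (r * d * r⁻¹), hmem _ (hPn.conj_mem d hd r)⟩ := by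
      apply Subtype.ext
      rw [MulAut.conjNormal_apply]
      simp
    show θ ((MulAut.conjNormal (H := M') (P.ρ r)) ⟨P.ρ d, hm⟩) = MulAut.conj (s (P.ρ r)) (θ ⟨P.ρ d, hm⟩)
    rw [h1, hθ _ (hPn.conj_mem d hd r), hθ d hd, hs, MulAut.conj_apply, map_mul, map_mul, map_inv]
    have h2 := hq4 (P.π i r)
    have h3 : q (P.π i r) * P.π i d * (q (P.π i r))⁻¹ ∈ M :=
      hMn.conj_mem _ hd.1 _
    have h4 := hab _ h2 _ h3
    calc P.π i r * P.π i d * (P.π i r)⁻¹
        = ((P.π i r * (q (P.π i r))⁻¹) * (q (P.π i r) * P.π i d * (q (P.π i r))⁻¹)) *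
          (P.π i r * (q (P.π i r))⁻¹)⁻¹ := by group
      _ = ((q (P.π i r) * P.π i d * (q (P.π i r))⁻¹) * (P.π i r * (q (P.π i r))⁻¹)) *
          (P.π i r * (q (P.π i r))⁻¹)⁻¹ := by rw [h4]
      _ = q (P.π i r) * P.π i d * (q (P.π i r))⁻¹ := by group
  have hsd : E (↥M' ⋊[MulAut.conjNormal] K) := hE.semidirect hEK M'
  refine hE.surj hsd (SemidirectProduct.lift θ s hcompat) ?_
  intro g
  obtain ⟨d, hd, hd2⟩ := hlift _ (hq4 g)
  obtain ⟨r, hr⟩ := P.surj i (q g)
  refine ⟨⟨⟨P.ρ d, hmem d hd⟩, P.ρ r⟩, ?_⟩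
  show θ ⟨P.ρ d, hmem d hd⟩ * s (P.ρ r) = g
  rw [hθ d hd, hs, hd2, hr, hq2 _ (hq3 g)]
  group

end Pool.Agent.Helper75.MNA
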