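import Pool.Agent.Helper75.MNA.PresDefs

set_option autoImplicit false
set_option linter.style.haveILetI false

namespace Pool.Agent.Helper75.MNA

open Subgroup

theorem Pairing.IsAdmissible.withForm {p : ℕ} {D : Pairing} (h : D.IsAdmissible p)
    (f : D.V →+ D.W →+ D.M)
    (hf : ∀ (h : D.H) (v : D.V) (w : D.W), f (D.actV h v) (D.actW h w) = D.actM h (f v w))
    (hne : f ≠ 0) : (D.withForm f hf).IsAdmissible p where
  prime := h.prime
  coprime := h.coprime
  memA := h.memA
  expV := h.expV
  expW := h.expW
  expM := h.expM
  irrV := h.irrV
  irrW := h.irrW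
  irrM := h.irrM
  nonzero := hne
  faithful := h.faithful

/-- twists of a twist -/
theorem Pairing.IsTwist.neg {D' D : Pairing} {f : D'.V →+ D'.W →+ D'.M} (h : IsTwist D' D f) :
    IsTwist D' D (-f) := by
  cases h with
  | straight l a b t ha hb ht hf =>
    refine IsTwist.straight _ l a b (t.trans (AddEquiv.neg D'.M)) ha hb ?_ ?_
    · intro h m
      simp [ht]
    · intro v w
      simp [hf]
  | swapped l a b t ha hb ht hf =>
    refine IsTwist.swapped _ l a b (t.trans (AddEquiv.neg D'.M)) ha hb ?_ ?_
    · intro h m
      simp [ht]
    · intro v w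
      simp [hf]

/-- A twist can be inverted: if `g` is a twist of the map of `D` along `D'`, then transporting
back an arbitrary equivariant map `f'` on `D'` gives a map `f` on `D` such that each is a
twist of the other, and combinations are transported. -/
theorem Pairing.transport {D' D : Pairing} (h : ∃ g, IsTwist D' D g) :
    ∃ (T : (D'.V →+ D'.W →+ D'.M) →+ (D.V →+ D.W →+ D.M)),
      (∀ f' : D'.V →+ D'.W →+ D'.M,
        (∀ (h : D'.H) (v : D'.V) (w : D'.W),
          f' (D'.actV h v) (D'.actW h w) = D'.actM h (f' v w)) →
        ∀ (h : D.H) (v : D.V) (w : D.W), T f' (D.actV h v) (D.actW h w) = D.actM h (T f' v w)) ∧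
      (∀ f' : D'.V →+ D'.W →+ D'.M, T f' = 0 → f' = 0) ∧
      (∀ (Q : Pairing) (f' : D'.V →+ D'.W →+ D'.M), IsTwist D' Q f' → IsTwist D Q (T f')) ∧
      (∀ (f' : D'.V →+ D'.W →+ D'.M)
        (hf' : ∀ (h : D'.H) (v : D'.V) (w : D'.W),
          f' (D'.actV h v) (D'.actW h w) = D'.actM h (f' v w))
        (hf : ∀ (h : D.H) (v : D.V) (w : D.W),
          T f' (D.actV h v) (D.actW h w) = D.actM h (T f' v w))
        (g : D.V →+ D.W →+ D.M), IsTwist D (D.withForm (T f') hf) g →
          IsTwist D (D'.withForm f' hf') g) := by
  obtain ⟨g, hg⟩ := h
  cases hg with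
  | straight l a b t ha hb ht hf =>
    have ha' : ∀ (h : D.H) (v : D.V), a.symm (D.actV h v) = D'.actV (l.symm h) (a.symm v) := by
      intro h v
      apply a.injective
      rw [ha]
      simp
    have hb' : ∀ (h : D.H) (w : D.W), b.symm (D.actW h w) = D'.actW (l.symm h) (b.symm w) := by
      intro h v
      apply b.injective
      rw [hb]
      simp
    have ht' : ∀ (h : D.H) (m : D'.M), t.symm (D'.actM (l.symm h) m) = D.actM h (t.symm m) := by
      intro h m
      apply t.injective
      have h1 := ht (l.symm h) (t.symm m)
      simp only [MulEquiv.apply_symm_apply, AddEquiv.apply_symm_apply] at h1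
      rw [h1]
      simp
    let T : (D'.V →+ D'.W →+ D'.M) →+ (D.V →+ D.W →+ D.M) :=
      { toFun := fun f' =>
          { toFun := fun v => (t.symm.toAddMonoidHom.comp (f' (a.symm v))).comp
              b.symm.toAddMonoidHom
            map_zero' := by ext w; simp
            map_add' := fun v v' => by ext w; simp }
        map_zero' := by ext v w; simp
        map_add' := fun f1 f2 => by ext v w; simp }
    have hT : ∀ f' v w, T f' v w = t.symm (f' (a.symm v) (b.symm w)) := fun f' v w => rfl
    refine ⟨T, ?_, ?_, ?_, ?_⟩
    · intro f' hf' h v w
      rw [hT, hT, ha', hb', hf', ht']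
    · intro f' h0
      ext v w
      have h1 := congrArg (fun F => F (a v) (b w)) h0
      simp only [hT, AddEquiv.symm_apply_apply, AddMonoidHom.zero_apply] at h1
      have h2 := congrArg t h1
      simpa using h2
    · intro Q f' hQ
      cases hQ with
      | straight l2 a2 b2 t2 ha2 hb2 ht2 hf2 =>
        refine IsTwist.straight _ (l.symm.trans l2) (a.symm.trans a2) (b.symm.trans b2)
          (t2.trans t.symm) ?_ ?_ ?_ ?_
        · intro h v
          simp [ha', ha2]
        · intro h v
          simp [hb', hb2]
        · intro h m
          have := ht2 (l.symm h) m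
          simp only [MulEquiv.trans_apply, AddEquiv.trans_apply, this, ht']
        · intro v w
          rw [hT, hf2]
          simp
      | swapped l2 a2 b2 t2 ha2 hb2 ht2 hf2 =>
        refine IsTwist.swapped _ (l.symm.trans l2) (a.symm.trans a2) (b.symm.trans b2)
          (t2.trans t.symm) ?_ ?_ ?_ ?_
        · intro h v
          simp [ha', ha2]
        · intro h v
          simp [hb', hb2]
        · intro h m
          have := ht2 (l.symm h) m
          simp only [MulEquiv.trans_apply, AddEquiv.trans_apply, this, ht']
        · intro v w
          rw [hT, hf2]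
          simp
    · intro f' hf' hfT g hg
      cases hg with
      | straight l2 a2 b2 t2 ha2 hb2 ht2 hf2 =>
        refine IsTwist.straight (D := D'.withForm f' hf') _ (l2.trans l.symm)
          (a2.trans a.symm) (b2.trans b.symm)
          (t.symm.trans t2) ?_ ?_ ?_ ?_
        · intro h v
          have h1 := ha2 h v
          exact (congrArg a.symm h1).trans (ha' _ _)
        · intro h v
          have h1 := hb2 h v
          exact (congrArg b.symm h1).trans (hb' _ _)
        · intro h m
          have h1 := ht' (l2 h) m
          have h2 := ht2 h (t.symm m)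
          exact (congrArg t2 h1).trans h2
        · intro v w
          exact hf2 v w
      | swapped l2 a2 b2 t2 ha2 hb2 ht2 hf2 =>
        refine IsTwist.swapped (D := D'.withForm f' hf') _ (l2.trans l.symm)
          (a2.trans b.symm) (b2.trans a.symm)
          (t.symm.trans t2) ?_ ?_ ?_ ?_
        · intro h v
          have h1 := ha2 h v
          exact (congrArg b.symm h1).trans (hb' _ _)
        · intro h v
          have h1 := hb2 h v
          exact (congrArg a.symm h1).trans (ha' _ _)
        · intro h m
          have h1 := ht' (l2 h) m
          have h2 := ht2 h (t.symm m)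
          exact (congrArg t2 h1).trans h2
        · intro v w
          exact hf2 v w
  | swapped l a b t ha hb ht hf =>
    -- a : D'.V ≃+ D.W, b : D'.W ≃+ D.V
    have ha' : ∀ (h : D.H) (v : D.W), a.symm (D.actW h v) = D'.actV (l.symm h) (a.symm v) := by
      intro h v
      apply a.injective
      rw [ha]
      simp
    have hb' : ∀ (h : D.H) (w : D.V), b.symm (D.actV h w) = D'.actW (l.symm h) (b.symm w) := by
      intro h v
      apply b.injective
      rw [hb]
      simp
    have ht' : ∀ (h : D.H) (m : D'.M), t.symm (D'.actM (l.symm h) m) = D.actM h (t.symm m) := by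
      intro h m
      apply t.injective
      have h1 := ht (l.symm h) (t.symm m)
      simp only [MulEquiv.apply_symm_apply, AddEquiv.apply_symm_apply] at h1
      rw [h1]
      simp
    let T : (D'.V →+ D'.W →+ D'.M) →+ (D.V →+ D.W →+ D.M) :=
      { toFun := fun f' =>
          { toFun := fun v =>
              { toFun := fun w => t.symm (f' (a.symm w) (b.symm v))
                map_zero' := by simp
                map_add' := fun w w' => by simp }
            map_zero' := by ext w; simp
            map_add' := fun v v' => by ext w; simp }
        map_zero' := by ext v w; simp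
        map_add' := fun f1 f2 => by ext v w; simp }
    have hT : ∀ f' v w, T f' v w = t.symm (f' (a.symm w) (b.symm v)) := fun f' v w => rfl
    refine ⟨T, ?_, ?_, ?_, ?_⟩
    · intro f' hf' h v w
      rw [hT, hT, ha', hb', hf', ht']
    · intro f' h0
      ext v w
      have h1 := congrArg (fun F => F (b w) (a v)) h0
      simp only [hT, AddEquiv.symm_apply_apply, AddMonoidHom.zero_apply] at h1
      have h2 := congrArg t h1
      simpa using h2
    · intro Q f' hQ
      cases hQ with
      | straight l2 a2 b2 t2 ha2 hb2 ht2 hf2 =>
        refine IsTwist.swapped _ (l.symm.trans l2) (b.symm.trans b2) (a.symm.trans a2)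
          (t2.trans t.symm) ?_ ?_ ?_ ?_
        · intro h v
          simp [hb', hb2]
        · intro h v
          simp [ha', ha2]
        · intro h m
          have := ht2 (l.symm h) m
          simp only [MulEquiv.trans_apply, AddEquiv.trans_apply, this, ht']
        · intro v w
          rw [hT, hf2]
          simp
      | swapped l2 a2 b2 t2 ha2 hb2 ht2 hf2 =>
        refine IsTwist.straight _ (l.symm.trans l2) (b.symm.trans b2) (a.symm.trans a2)
          (t2.trans t.symm) ?_ ?_ ?_ ?_
        · intro h v
          simp [hb', hb2]
        · intro h v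
          simp [ha', ha2]
        · intro h m
          have := ht2 (l.symm h) m
          simp only [MulEquiv.trans_apply, AddEquiv.trans_apply, this, ht']
        · intro v w
          rw [hT, hf2]
          simp
    · intro f' hf' hfT g hg
      cases hg with
      | straight l2 a2 b2 t2 ha2 hb2 ht2 hf2 =>
        refine IsTwist.swapped (D := D'.withForm f' hf') _ (l2.trans l.symm)
          (a2.trans b.symm) (b2.trans a.symm)
          (t.symm.trans t2) ?_ ?_ ?_ ?_
        · intro h v
          have h1 := ha2 h v
          exact (congrArg b.symm h1).trans (hb' _ _)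
        · intro h v
          have h1 := hb2 h v
          exact (congrArg a.symm h1).trans (ha' _ _)
        · intro h m
          have h1 := ht' (l2 h) m
          have h2 := ht2 h (t.symm m)
          exact (congrArg t2 h1).trans h2
        · intro v w
          exact hf2 v w
      | swapped l2 a2 b2 t2 ha2 hb2 ht2 hf2 =>
        refine IsTwist.straight (D := D'.withForm f' hf') _ (l2.trans l.symm)
          (a2.trans a.symm) (b2.trans b.symm)
          (t.symm.trans t2) ?_ ?_ ?_ ?_
        · intro h v
          have h1 := ha2 h v
          exact (congrArg a.symm h1).trans (ha' _ _)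
        · intro h v
          have h1 := hb2 h v
          exact (congrArg b.symm h1).trans (hb' _ _)
        · intro h m
          have h1 := ht' (l2 h) m
          have h2 := ht2 h (t.symm m)
          exact (congrArg t2 h1).trans h2
        · intro v w
          exact hf2 v w

theorem Pairing.isPure_iff {p : ℕ} {D : Pairing} (hD : D.IsAdmissible p) :
    D.IsPure ↔ D.IsSimple := by
  constructor
  · intro h f hf hne hc
    exact h p _ (hD.withForm f hf hne) hc
  · intro h q D' hD' hc
    have hex : ∃ g, IsTwist D' D g := by
      by_contra hcon
      have h1 : {f : D'.V →+ D'.W →+ D'.M | IsTwist D' D f} = ∅ := by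
        ext f
        simp only [Set.mem_ofPred_eq, Set.mem_empty_iff_false, iff_false]
        exact fun hf => hcon ⟨f, hf⟩
      unfold Pairing.Comb at hc
      rw [h1, AddSubgroup.closure_empty, AddSubgroup.mem_bot] at hc
      exact hD'.nonzero hc
    obtain ⟨T, hT1, hT2, hT3, hT4⟩ := Pairing.transport hex
    have h2 := hT1 D'.β D'.equivariant
    have h3 : T D'.β ≠ 0 := fun h0 => hD'.nonzero (hT2 _ h0)
    have h4 : (D.withForm (T D'.β) h2).Comb D := by
      have h5 : D'.β ∈ (AddSubgroup.closure {g : D.V →+ D.W →+ D.M | IsTwist D D g}).comap T := by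
        refine (AddSubgroup.closure_le _).2 ?_ hc
        intro f hf
        exact AddSubgroup.subset_closure (hT3 D f hf)
      have h6 : T D'.β ∈ AddSubgroup.closure {g : D.V →+ D.W →+ D.M | IsTwist D D g} := h5
      have h7 : {g : D.V →+ D.W →+ D.M | IsTwist D D g} =
          {g : D.V →+ D.W →+ D.M | IsTwist (D.withForm (T D'.β) h2) D g} := by
        ext g
        constructor
        · intro hg
          cases hg with
          | straight l a b t ha hb ht hf => exact IsTwist.straight _ l a b t ha hb ht hf
          | swapped l a b t ha hb ht hf => exact IsTwist.swapped _ l a b t ha hb ht hf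
        · intro hg
          cases hg with
          | straight l a b t ha hb ht hf => exact IsTwist.straight _ l a b t ha hb ht hf
          | swapped l a b t ha hb ht hf => exact IsTwist.swapped _ l a b t ha hb ht hf
      rw [h7] at h6
      exact h6
    have h8 : D.Comb (D.withForm (T D'.β) h2) := h _ h2 h3 h4
    have h9 : {g : D.V →+ D.W →+ D.M | IsTwist D (D.withForm (T D'.β) h2) g} ⊆
        {g : D.V →+ D.W →+ D.M | IsTwist D D' g} := by
      intro g hg
      exact hT4 D'.β D'.equivariant h2 g hg
    exact AddSubgroup.closure_mono h9 h8

end Pool.Agent.Helper75.MNA
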