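import Pool.Agent.Helper75.MNA.PresDefs
import Pool.Agent.Helper75.MNA.A1

set_option autoImplicit false
set_option linter.style.haveILetI false

namespace Pool.Agent.Helper75.MNA

open Subgroup Pointwise

theorem x1_lift {R K : Type} [Group R] [Finite R] [Group K] (ρ : R →* K)
    (hρ : Function.Surjective ρ) {p : ℕ} (hp : p.Prime) (x : K) (k : ℕ) (hx : x ^ p ^ k = 1) :
    ∃ (r : R) (a : ℕ), r ^ p ^ a = 1 ∧ ρ r = x := by
  obtain ⟨r0, hr0⟩ := hρ x
  have hN : orderOf r0 ≠ 0 := (orderOf_pos r0).ne'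
  obtain ⟨a, m, hm, hNm⟩ := Nat.exists_eq_pow_mul_and_not_dvd hN p hp.ne_one
  have hco : Nat.Coprime (p ^ k) m :=
    Nat.Coprime.pow_left k ((Nat.Prime.coprime_iff_not_dvd hp).2 hm)
  obtain ⟨t, ht1, ht2⟩ := Nat.chineseRemainder hco 1 0
  refine ⟨r0 ^ t, a, ?_, ?_⟩
  · rw [← pow_mul]
    apply orderOf_dvd_iff_pow_eq_one.1
    rw [hNm, mul_comm]
    exact Nat.mul_dvd_mul ((Nat.modEq_zero_iff_dvd).1 ht2) (dvd_refl _)
  · rw [map_pow, hr0]
    have h1 : orderOf x ∣ p ^ k := orderOf_dvd_of_pow_eq_one hx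
    have h2 : x ^ t = x ^ 1 := pow_eq_pow_iff_modEq.2 (ht1.of_dvd h1)
    rw [h2, pow_one]

theorem no_primitive {G : Type} [Group G] [Finite G] {M : Subgroup G} [M.Normal]
    (hM : IsMonolith M) (hA : AClass (G ⧸ M)) (hcomm : ∀ x ∈ M, ∀ y ∈ M, x * y = y * x)
    {p : ℕ} (hp : p.Prime) (hexp : ∀ x ∈ M, x ^ p = 1)
    (hcent : ∀ (g : G) (k : ℕ), g ^ p ^ k = 1 → ∀ m ∈ M, g * m = m * g)
    (hq : ∀ q : ℕ, q.Prime → q ≠ p → AbP q G)
    {K : Type} [Group K] (hK : IsPrimitiveType K) : ¬ form G K := by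
  intro hform
  obtain ⟨n, ⟨P⟩⟩ := exists_pres hform
  haveI : Finite K := hK.finite
  have hqK : ∀ q : ℕ, q.Prime → q ≠ p → AbP q K := by
    intro q hq1 hq2
    haveI : Fact q.Prime := ⟨hq1⟩
    exact (AbP.joint P.π (fun _ => hq q hq1 hq2) P.inj).surj P.ρ P.onto
  have hpK : ¬ AbP p K := by
    intro h
    apply hK.not_mem
    rw [AClass_iff]
    refine ⟨hK.finite, fun q hq1 => ?_⟩
    by_cases hqp : q = p
    · rw [hqp]; exact h
    · exact hqK q hq1 hqp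
  obtain ⟨MK, hMKn, hMK, hKM, hor⟩ := hK.monolith
  let A : Subgroup P.R := ⨅ i, M.comap (P.π i)
  have hmemA : ∀ r : P.R, r ∈ A ↔ ∀ i, P.π i r ∈ M := by
    intro r
    simp only [A, Subgroup.mem_iInf, Subgroup.mem_comap]
  haveI hAn : A.Normal := Subgroup.normal_iInf_normal (fun i => inferInstance)
  have hAcomm : ∀ a ∈ A, ∀ b ∈ A, a * b = b * a := by
    intro a ha b hb
    have h1 : (a * b) * (b * a)⁻¹ = 1 := by
      apply P.inj
      intro i
      rw [map_mul, map_inv, map_mul, map_mul,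
        hcomm _ ((hmemA a).1 ha i) _ ((hmemA b).1 hb i), mul_inv_cancel]
    exact mul_inv_eq_one.1 h1
  have hRA : AClass (P.R ⧸ A) := by
    refine AClass.joint (ι := Fin n) (A := fun _ => G ⧸ M)
      (fun i => QuotientGroup.map A M (P.π i) (fun x hx => (hmemA x).1 hx i))
      (fun _ => hA) ?_
    intro x
    induction x using QuotientGroup.induction_on with
    | H x =>
      intro hx
      rw [QuotientGroup.eq_one_iff]
      rw [hmemA]
      intro i
      exact (QuotientGroup.eq_one_iff (N := M) _).1 (hx i)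
  have hBn : (A.map P.ρ).Normal := hAn.map P.ρ P.onto
  have hBne : A.map P.ρ ≠ ⊥ := by
    intro hB
    apply hK.not_mem
    refine hRA.surj (QuotientGroup.lift A P.ρ (fun x hx => ?_)) ?_
    · have h1 : P.ρ x ∈ A.map P.ρ := Subgroup.mem_map_of_mem _ hx
      rw [hB] at h1
      exact Subgroup.mem_bot.1 h1
    · intro y
      obtain ⟨x, hx⟩ := P.onto y
      exact ⟨(x : P.R ⧸ A), hx⟩
  have hMKB : MK ≤ A.map P.ρ := hMK.le _ hBn hBne
  have hMKcomm : ∀ x ∈ MK, ∀ y ∈ MK, x * y = y * x := by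
    intro x hx y hy
    obtain ⟨a, ha, rfl⟩ := hMKB hx
    obtain ⟨b, hb, rfl⟩ := hMKB hy
    rw [← map_mul, hAcomm a ha b hb, map_mul]
  rcases hor with ⟨x, hx, y, hy, hxy⟩ | ⟨H, hH⟩
  · exact hxy (hMKcomm x hx y hy)
  have hdec : ∀ g : K, ∃ m ∈ MK, ∃ h ∈ H, m * h = g := by
    intro g
    obtain ⟨⟨m, h⟩, hmh⟩ := hH.2 g
    exact ⟨m, m.2, h, h.2, hmh⟩
  have hdisj : ∀ x, x ∈ MK → x ∈ H → x = 1 := by
    intro x hx1 hx2
    have h1 := hH.disjoint
    exact Subgroup.disjoint_def.1 h1 hx1 hx2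
  let C : Subgroup K := Subgroup.centralizer (MK : Set K)
  have hCmem : ∀ c : K, c ∈ C ↔ ∀ m ∈ MK, m * c = c * m := by
    intro c
    exact Subgroup.mem_centralizer_iff
  have hCconj : ∀ c ∈ C, ∀ g : K, g * c * g⁻¹ ∈ C := by
    intro c hc g
    rw [hCmem]
    intro m hm
    have h1 : g⁻¹ * m * g ∈ MK := by
      have := hMKn.conj_mem m hm g⁻¹
      simpa using this
    have h2 := (hCmem c).1 hc _ h1
    calc m * (g * c * g⁻¹) = g * ((g⁻¹ * m * g) * c) * g⁻¹ := by group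
      _ = g * (c * (g⁻¹ * m * g)) * g⁻¹ := by rw [h2]
      _ = g * c * g⁻¹ * m := by group
  have hCHn : (C ⊓ H).Normal := by
    constructor
    intro c hc g
    obtain ⟨m, hm, h, hh, rfl⟩ := hdec g
    have h1 : h * c * h⁻¹ ∈ C := hCconj c hc.1 h
    have h2 : h * c * h⁻¹ ∈ H := H.mul_mem (H.mul_mem hh hc.2) (H.inv_mem hh)
    have h3 : m * h * c * (m * h)⁻¹ = h * c * h⁻¹ := by
      have h4 := (hCmem _).1 h1 m hm
      calc m * h * c * (m * h)⁻¹ = (m * (h * c * h⁻¹)) * m⁻¹ := by group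
        _ = ((h * c * h⁻¹) * m) * m⁻¹ := by rw [h4]
        _ = h * c * h⁻¹ := by group
    rw [h3]
    exact ⟨h1, h2⟩
  have hCH : C ⊓ H = ⊥ := by
    by_contra hne
    have h1 := hMK.le _ hCHn hne
    apply hMK.ne_bot
    rw [eq_bot_iff]
    intro x hx
    exact Subgroup.mem_bot.2 (hdisj x hx (h1 hx).2)
  have hCM : ∀ c ∈ C, c ∈ MK := by
    intro c hc
    obtain ⟨m, hm, h, hh, hmh⟩ := hdec c
    have hmC : m ∈ C := (hCmem m).2 (fun y hy => hMKcomm y hy m hm)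
    have hhC : h ∈ C := by
      have h1 : h = m⁻¹ * c := by rw [← hmh]; group
      rw [h1]
      exact C.mul_mem (C.inv_mem hmC) hc
    have h2 : h ∈ C ⊓ H := ⟨hhC, hh⟩
    rw [hCH, Subgroup.mem_bot] at h2
    rw [← hmh, h2, mul_one]
    exact hm
  have hpel : ∀ (x : K) (k : ℕ), x ^ p ^ k = 1 → x ∈ MK := by
    intro x k hx
    apply hCM
    obtain ⟨r, a, hr, rfl⟩ := x1_lift P.ρ P.onto hp x k hx
    rw [hCmem]
    intro m hm
    obtain ⟨b, hb, rfl⟩ := hMKB hm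
    have h1 : (r * b) * (b * r)⁻¹ = 1 := by
      apply P.inj
      intro i
      have h2 : (P.π i r) ^ p ^ a = 1 := by rw [← map_pow, hr, map_one]
      rw [map_mul, map_inv, map_mul, map_mul, hcent _ a h2 _ ((hmemA b).1 hb i), mul_inv_cancel]
    have h3 : r * b = b * r := mul_inv_eq_one.1 h1
    rw [← map_mul, ← map_mul, h3]
  apply hpK
  intro Q hQ x hx y hy
  obtain ⟨k, hk⟩ := hQ ⟨x, hx⟩
  obtain ⟨l, hl⟩ := hQ ⟨y, hy⟩
  have hk' : x ^ p ^ k = 1 := by
    have := congrArg Subtype.val hk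
    simpa using this
  have hl' : y ^ p ^ l = 1 := by
    have := congrArg Subtype.val hl
    simpa using this
  exact hMKcomm x (hpel x k hk') y (hpel y l hl')

end Pool.Agent.Helper75.MNA
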