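import Pool.Agent.Helper75.MNA.PresDefs
import Pool.Agent.Helper75.MNA.A1
import Pool.Agent.Helper75.MNA.M1
import Pool.Agent.Helper75.MNA.M2

set_option autoImplicit false
set_option linter.style.haveILetI false

namespace Pool.Agent.Helper75.MNA

open Subgroup Pointwise

/-- lifting of `p`-elements -/
theorem x2_lift {R K : Type} [Group R] [Finite R] [Group K] {p : ℕ} (hp : p.Prime) (ρ : R →* K)
    (hρ : Function.Surjective ρ) (x : K) (k : ℕ) (hx : x ^ p ^ k = 1) :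
    ∃ r : R, ρ r = x ∧ ∃ a : ℕ, r ^ p ^ a = 1 := by
  obtain ⟨r, hr⟩ := hρ x
  have hN : orderOf r ≠ 0 := (orderOf_pos r).ne'
  obtain ⟨a, m, hm, hN2⟩ := Nat.exists_eq_pow_mul_and_not_dvd hN p hp.ne_one
  have hco : Nat.Coprime (p ^ k) m := Nat.Coprime.pow_left _ ((Nat.Prime.coprime_iff_not_dvd hp).2 hm)
  obtain ⟨t, ht1, ht2⟩ := Nat.chineseRemainder hco 1 0
  refine ⟨r ^ t, ?_, a, ?_⟩
  · rw [map_pow, hr]
    have h1 : x ^ t = x ^ 1 := by
      rw [pow_eq_pow_iff_modEq]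
      exact Nat.ModEq.of_dvd (orderOf_dvd_of_pow_eq_one hx) ht1
    rw [h1, pow_one]
  · rw [← pow_mul, ← orderOf_dvd_iff_pow_eq_one, hN2, mul_comm t]
    exact mul_dvd_mul_left _ ((Nat.modEq_zero_iff_dvd).1 ht2)

theorem crossed_not_in_pairing {p q : ℕ} {D : Pairing} (hD : D.IsAdmissible p)
    {D' : CrossedMod} (hD' : D'.IsAdmissible q) : ¬ form D.Grp D'.Grp := by
  intro h
  obtain ⟨n, ⟨P⟩⟩ := exists_pres h
  have hqp : q = p := by
    by_contra hne
    haveI : Fact q.Prime := ⟨hD'.prime⟩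
    have h1 : AbP q D.Grp := hD.abP_of_ne hD'.prime hne
    have h2 : AbP q P.R := AbP.joint (A := fun _ : Fin n => D.Grp) (fun i => P.π i) (fun _ => h1) P.inj
    exact hD'.not_abP (h2.surj P.ρ P.onto)
  subst hqp
  haveI : Fact q.Prime := ⟨hD'.prime⟩
  -- products of `p`-elements of `R`
  have hR : ∀ r s : P.R, (∃ a : ℕ, r ^ q ^ a = 1) → (∃ b : ℕ, s ^ q ^ b = 1) →
      (r * s) ^ q ^ 2 = 1 := by
    rintro r s ⟨a, ha⟩ ⟨b, hb⟩
    apply P.inj
    intro i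
    rw [map_pow]
    apply hD.pow_eq_one
    have h1 : (P.π i r).right = 1 := hD.right_eq_one _ a (by rw [← map_pow, ha, map_one])
    have h2 : (P.π i s).right = 1 := hD.right_eq_one _ b (by rw [← map_pow, hb, map_one])
    rw [map_mul, SemidirectProduct.mul_right, h1, h2, one_mul]
  have hK : ∀ x y : D'.Grp, (∃ a : ℕ, x ^ q ^ a = 1) → (∃ b : ℕ, y ^ q ^ b = 1) →
      (x * y) ^ q ^ 2 = 1 := by
    rintro x y ⟨a, ha⟩ ⟨b, hb⟩
    obtain ⟨r, hr, hr2⟩ := x2_lift hD'.prime P.ρ P.onto x a ha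
    obtain ⟨s, hs, hs2⟩ := x2_lift hD'.prime P.ρ P.onto y b hb
    rw [← hr, ← hs, ← map_mul, ← map_pow, hR r s hr2 hs2, map_one]
  have hE : ∀ x y : D'.E, (∃ a : ℕ, x ^ q ^ a = 1) → (∃ b : ℕ, y ^ q ^ b = 1) →
      (∃ c : ℕ, (x * y) ^ q ^ c = 1) := by
    rintro x y ⟨a, ha⟩ ⟨b, hb⟩
    refine ⟨2, ?_⟩
    have h1 := hK (SemidirectProduct.inl x) (SemidirectProduct.inl y)
      ⟨a, by rw [← map_pow, ha, map_one]⟩ ⟨b, by rw [← map_pow, hb, map_one]⟩
    rw [← map_mul, ← map_pow] at h1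
    exact (map_eq_one_iff _ SemidirectProduct.inl_injective).1 h1
  let T : Subgroup D'.E :=
    { carrier := {x | ∃ a : ℕ, x ^ q ^ a = 1}
      one_mem' := ⟨0, by simp⟩
      mul_mem' := fun {x y} hx hy => hE x y hx hy
      inv_mem' := fun {x} hx => by
        obtain ⟨a, ha⟩ := hx
        exact ⟨a, by rw [inv_pow, ha, inv_one]⟩ }
  have hT : ∀ x : D'.E, x ∈ T ↔ ∃ a : ℕ, x ^ q ^ a = 1 := fun x => Iff.rfl
  have hTn : (T.map D'.d).Normal := by
    refine ⟨?_⟩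
    rintro _ ⟨e, he, rfl⟩ g
    refine ⟨D'.act g e, ?_, D'.equivariant g e⟩
    obtain ⟨a, ha⟩ := he
    exact ⟨a, by rw [← map_pow, ha, map_one]⟩
  have hTle : T.map D'.d ≤ D'.d.range := by
    rintro _ ⟨e, _, rfl⟩
    exact ⟨e, rfl⟩
  rcases hD'.range_min _ hTn hTle with h0 | h0
  · -- `T` is central
    apply hD'.not_abP_E
    intro Q hQ x hx y _
    have hxT : x ∈ T := by
      obtain ⟨a, ha⟩ := hQ ⟨x, hx⟩
      refine ⟨a, ?_⟩
      have := congrArg Subtype.val ha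
      simpa using this
    have h1 : D'.d x = 1 := by
      have h2 : D'.d x ∈ T.map D'.d := ⟨x, hxT, rfl⟩
      rw [h0, Subgroup.mem_bot] at h2
      exact h2
    exact (hD'.ker_central x).1 h1 y
  · -- `E` is a `p`-group
    have hall : ∀ e : D'.E, e ∈ T := by
      intro e
      have h2 : D'.d e ∈ T.map D'.d := by rw [h0]; exact ⟨e, rfl⟩
      obtain ⟨t, ht, hte⟩ := h2
      have h3 : t⁻¹ * e ∈ D'.d.ker := by
        rw [MonoidHom.mem_ker, map_mul, map_inv, hte, inv_mul_cancel]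
      have h4 : t⁻¹ * e ∈ T := ⟨1, by rw [pow_one]; exact hD'.ker_exp _ h3⟩
      have h5 := T.mul_mem ht h4
      rw [mul_inv_cancel_left] at h5
      exact h5
    have hPG : IsPGroup q D'.E := fun e => hall e
    haveI : Group.IsNilpotent D'.E := hPG.isNilpotent
    haveI : Nontrivial D'.E := by
      obtain ⟨x, _, hx1⟩ := (Subgroup.ne_bot_iff_exists_ne_one.1 hD'.ker_ne_bot).elim
        (fun x hx => (⟨x.1, x.2, fun h => hx (Subtype.ext h)⟩ : ∃ y : D'.E, y ∈ D'.d.ker ∧ y ≠ 1))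
      exact ⟨x, 1, hx1⟩
    have h6 := IsSolvable.commutator_lt_top_of_nontrivial D'.E
    rw [hD'.perfect] at h6
    exact lt_irrefl _ h6

end Pool.Agent.Helper75.MNA
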