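import Pool.Agent.Helper75.MNA.PresDefs
import Pool.Agent.Helper75.MNA.A1
import Pool.Agent.Helper75.MNA.M1
import Pool.Agent.Helper75.MNA.M2
import Pool.Agent.Helper75.MNA.C8

set_option autoImplicit false
set_option linter.style.haveILetI false

namespace Pool.Agent.Helper75.MNA

open Subgroup Pointwise

theorem x3_Y_normal {D : CrossedMod} {K : Type} [Group K] {n : ℕ} (P : Pres D.Grp K n)
    (k : Fin n × Bool) : (P.Y k).Normal := by
  have hL : D.d.range.Normal := by
    refine ⟨?_⟩
    rintro _ ⟨e, rfl⟩ x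
    exact ⟨D.act x e, D.equivariant x e⟩
  refine ⟨fun a ha g k' => ⟨fun h => ?_, fun h => ?_⟩⟩
  · rw [map_mul, map_mul, map_inv]
    exact hL.conj_mem _ ((ha k').1 h) _
  · rw [map_mul, map_mul, map_inv, (ha k').2 h, mul_one, mul_inv_cancel]

theorem x3_chi_surj {D : CrossedMod} {K : Type} [Group K] {n : ℕ} (P : Pres D.Grp K n)
    (k : Fin n × Bool) : Function.Surjective (P.chi k) := by
  intro x
  obtain ⟨r, hr⟩ := P.surj k.1 (SemidirectProduct.inr x)
  refine ⟨r, ?_⟩
  unfold Pres.chi
  rw [MonoidHom.comp_apply, hr]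
  split_ifs
  · rw [CrossedMod.snd_apply]; simp
  · rw [CrossedMod.fst_apply]; simp

theorem x3_chi_fst {D : CrossedMod} {K : Type} [Group K] {n : ℕ} (P : Pres D.Grp K n)
    (i : Fin n) (r : P.R) : P.chi (i, false) r = (P.π i r).right := by
  simp [Pres.chi, CrossedMod.fst_apply]

theorem x3_chi_snd {D : CrossedMod} {K : Type} [Group K] {n : ℕ} (P : Pres D.Grp K n)
    (i : Fin n) (r : P.R) : P.chi (i, true) r = D.d (P.π i r).left * (P.π i r).right := by
  simp [Pres.chi, CrossedMod.snd_apply]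

/-- elements killed by all `chi` commute with all `p`-elements. -/
theorem x3_A_comm {p : ℕ} {D : CrossedMod} (h : D.IsAdmissible p) {K : Type} [Group K] {n : ℕ}
    (P : Pres D.Grp K n) (a : P.R) (ha : ∀ k, P.chi k a = 1) (s : P.R) (j : ℕ)
    (hs : s ^ p ^ j = 1) : s * a = a * s := by
  have key : ∀ i, P.π i s * P.π i a = P.π i a * P.π i s := by
    intro i
    have h1 : (P.π i a).right = 1 := by rw [← x3_chi_fst]; exact ha _
    have h2 : D.d (P.π i a).left = 1 := by
      have := ha (i, true)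
      rw [x3_chi_snd, h1, mul_one] at this
      exact this
    have h3 : (P.π i s).right ^ p ^ j = 1 := by
      have h4 : (SemidirectProduct.rightHom (P.π i s)) ^ p ^ j = 1 := by
        rw [← map_pow, ← map_pow, hs, map_one, map_one]
      exact h4
    have h5 := h.ker_triv _ j h3 (P.π i a).left (MonoidHom.mem_ker.2 h2)
    have h6 := (h.ker_central (P.π i a).left).1 h2 (P.π i s).left
    ext
    · rw [SemidirectProduct.mul_left, SemidirectProduct.mul_left, h5, h1, map_one]
      exact h6.symm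
    · rw [SemidirectProduct.mul_right, SemidirectProduct.mul_right, h1, one_mul, mul_one]
  have h7 : s * a * (a * s)⁻¹ = 1 := by
    apply P.inj
    intro i
    rw [map_mul, map_mul, map_inv, map_mul, key i, mul_inv_cancel]
  exact mul_inv_eq_one.1 h7

/-- the image of `d` contains a nontrivial `p`-element. -/
theorem x3_exists_pelt {p : ℕ} {D : CrossedMod} (h : D.IsAdmissible p) :
    ∃ l ∈ D.d.range, l ≠ 1 ∧ ∃ j, l ^ p ^ j = 1 := by
  by_contra hcon
  push Not at hcon
  apply h.not_abP_E
  intro Q hQ x hx y hy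
  have h1 : D.d x = 1 := by
    by_contra h2
    obtain ⟨j, hj⟩ := hQ ⟨x, hx⟩
    have h3 : x ^ p ^ j = 1 := by
      have := congrArg Subtype.val hj
      simpa using this
    exact hcon (D.d x) ⟨x, rfl⟩ h2 j (by rw [← map_pow, h3, map_one])
  exact (h.ker_central x).1 h1 y

/-- powers that are `p`-elements. -/
theorem x3_power {p : ℕ} (hp : p.Prime) {R X : Type} [Group R] [Finite R] [Group X] (f : R →* X)
    (y : R) (h1 : f y ≠ 1) (j : ℕ) (h2 : f y ^ p ^ j = 1) :
    ∃ m : ℕ, f (y ^ m) ≠ 1 ∧ ∃ a : ℕ, (y ^ m) ^ p ^ a = 1 := by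
  have h0 : orderOf y ≠ 0 := (orderOf_pos y).ne'
  obtain ⟨a, m, hm, hm2⟩ := Nat.exists_eq_pow_mul_and_not_dvd h0 p hp.ne_one
  refine ⟨m, ?_, a, ?_⟩
  · intro h3
    rw [map_pow] at h3
    apply h1
    have h4 : orderOf (f y) ∣ m := orderOf_dvd_of_pow_eq_one h3
    have h5 : orderOf (f y) ∣ p ^ j := orderOf_dvd_of_pow_eq_one h2
    have h6 : Nat.Coprime (p ^ j) m := Nat.Coprime.pow_left _ ((Nat.Prime.coprime_iff_not_dvd hp).2 hm)
    have h7 : orderOf (f y) = 1 := Nat.eq_one_of_dvd_coprimes h6 h5 h4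
    exact orderOf_eq_one_iff.1 h7
  · rw [← pow_mul, mul_comm, ← hm2, pow_orderOf_eq_one]

theorem x3_not_pgroup {p : ℕ} [Fact p.Prime] {D : CrossedMod} (h : D.IsAdmissible p)
    (hL : IsPGroup p D.d.range) : False := by
  obtain ⟨h1, h2⟩ := h.range_perfect
  haveI : Group.IsNilpotent D.d.range := hL.isNilpotent
  have h3 : Group.IsSolvable D.d.range := IsNilpotent.to_isSolvable
  have h4 : ∀ m, derivedSeries D.d.range m = ⊤ := by
    intro m
    induction m with
    | zero => rfl
    | succ m ih =>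
      rw [derivedSeries_succ, ih]
      have h5 : (commutator D.d.range).map D.d.range.subtype = D.d.range := by
        rw [_root_.commutator_def, Subgroup.map_commutator, ← MonoidHom.range_eq_map,
          Subgroup.range_subtype]
        exact h1
      rw [← _root_.commutator_def, eq_top_iff]
      intro x _
      have h6 : (x : D.X) ∈ (commutator D.d.range).map D.d.range.subtype := by
        rw [h5]; exact x.2
      obtain ⟨y, hy, hy2⟩ := h6
      have : y = x := Subtype.ext hy2
      rw [← this]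
      exact hy
  obtain ⟨m, hm⟩ := h3.solvable
  rw [h4 m] at hm
  apply h2
  rw [eq_bot_iff]
  intro x hx
  have h7 : (⟨x, hx⟩ : D.d.range) ∈ (⊤ : Subgroup D.d.range) := Subgroup.mem_top _
  rw [hm, Subgroup.mem_bot] at h7
  exact Subgroup.mem_bot.2 (congrArg Subtype.val h7)

theorem pairing_not_in_crossed {p q : ℕ} {D : CrossedMod} (hD : D.IsAdmissible p)
    {D' : Pairing} (hD' : D'.IsAdmissible q) : ¬ form D.Grp D'.Grp := by
  intro hform
  obtain ⟨n, ⟨P⟩⟩ := exists_pres hform
  have hqp : q = p := by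
    by_contra hne
    haveI : Fact q.Prime := ⟨hD'.prime⟩
    have h1 : AbP q D.Grp := hD.abP_of_ne hD'.prime hne
    have h2 : AbP q P.R := AbP.joint P.π (fun _ => h1) P.inj
    exact hD'.not_abP (h2.surj P.ρ P.onto)
  subst hqp
  haveI : Fact q.Prime := ⟨hD.prime⟩
  let S : Sylow q P.R := default
  have hSp : ∀ s ∈ S, ∃ j, s ^ q ^ j = 1 := by
    intro s hs
    obtain ⟨j, hj⟩ := S.isPGroup' ⟨s, hs⟩
    refine ⟨j, ?_⟩
    have := congrArg Subtype.val hj
    simpa using this
  -- `N'` is the Heisenberg part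
  let N' : Subgroup D'.Grp := (SemidirectProduct.rightHom : D'.Grp →* D'.H).ker
  have hN' : ∀ x : D'.Grp, x ∈ N' ↔ x.right = 1 := fun x => Iff.rfl
  have hN'p : IsPGroup q N' := by
    intro x
    refine ⟨2, ?_⟩
    apply Subtype.ext
    have := hD'.pow_eq_one x.1 ((hN' _).1 x.2)
    simpa using this
  have hN'lift : ∀ x ∈ N', ∃ s ∈ S, P.ρ s = x := by
    intro x hx
    have h1 : N' ≤ (S.mapSurjective P.onto : Subgroup D'.Grp) := by
      exact hN'p.le_sylow_of_normal _
    have h2 := h1 hx
    obtain ⟨s, hs, hs2⟩ := h2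
    exact ⟨s, hs, hs2⟩
  let C : Subgroup P.R := (Subgroup.centralizer (N' : Set D'.Grp)).comap P.ρ
  have hC : ∀ r : P.R, r ∈ C ↔ ∀ x ∈ N', x * P.ρ r = P.ρ r * x := by
    intro r
    simp only [C, Subgroup.mem_comap, Subgroup.mem_centralizer_iff, SetLike.mem_coe]
  have hC2 : ∀ r : P.R, (∀ s ∈ S, s * r = r * s) → r ∈ C := by
    intro r hr
    rw [hC]
    intro x hx
    obtain ⟨s, hs, rfl⟩ := hN'lift x hx
    rw [← map_mul, hr s hs, map_mul]
  have hA : ∀ a : P.R, (∀ k, P.chi k a = 1) → a ∈ C := by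
    intro a ha
    apply hC2
    intro s hs
    obtain ⟨j, hj⟩ := hSp s hs
    exact x3_A_comm hD P a ha s j hj
  have hY : ∀ k, P.Y k ≤ C := by
    intro k
    have hYn : (P.Y k).Normal := x3_Y_normal P k
    have hYL : ∀ y ∈ P.Y k, P.chi k y ∈ D.d.range := fun y hy => (hy k).1 rfl
    have hdiff : ∀ y ∈ P.Y k, P.chi k y = 1 → y ∈ C := by
      intro y hy h1
      apply hA
      intro k'
      by_cases h2 : (P.chi k').ker = (P.chi k).ker
      · have h3 : y ∈ (P.chi k).ker := MonoidHom.mem_ker.2 h1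
        rw [← h2] at h3
        exact MonoidHom.mem_ker.1 h3
      · exact (hy k').2 h2
    have himg : ∀ N : Subgroup P.R, N.Normal → N ≤ P.Y k →
        (N.map (P.chi k) = ⊥ ∨ N.map (P.chi k) = D.d.range) := by
      intro N hN hNY
      apply hD.range_min
      · exact hN.map _ (x3_chi_surj P k)
      · rintro _ ⟨y, hy, rfl⟩
        exact hYL y (hNY hy)
    rcases himg (P.Y k) hYn le_rfl with h1 | h1
    · intro y hy
      apply hdiff y hy
      have h2 : P.chi k y ∈ (P.Y k).map (P.chi k) := ⟨y, hy, rfl⟩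
      rw [h1] at h2
      exact Subgroup.mem_bot.1 h2
    · let B : Subgroup P.R := P.Y k ⊓ P.ρ.ker
      haveI : P.ρ.ker.Normal := inferInstance
      haveI : B.Normal := Subgroup.normal_inf_normal _ _
      rcases himg B inferInstance inf_le_left with h2 | h2
      · exfalso
        obtain ⟨l, hl, hl1, j, hj⟩ := x3_exists_pelt hD
        have hl2 : l ∈ (P.Y k).map (P.chi k) := by rw [h1]; exact hl
        obtain ⟨y, hy, rfl⟩ := hl2
        obtain ⟨m, hm, a, ha⟩ := x3_power hD.prime (P.chi k) y hl1 j hj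
        haveI : N'.Normal := inferInstance
        let N : Subgroup P.R := P.Y k ⊓ N'.comap P.ρ
        haveI : (N'.comap P.ρ).Normal := inferInstance
        haveI : N.Normal := Subgroup.normal_inf_normal _ _
        have hyN : y ^ m ∈ N := by
          refine Subgroup.mem_inf.2 ⟨pow_mem hy m, ?_⟩
          rw [Subgroup.mem_comap, hN']
          exact hD'.right_eq_one _ a (by rw [← map_pow, ha, map_one])
        rcases himg N inferInstance inf_le_left with h3 | h3
        · have h4 : P.chi k (y ^ m) ∈ N.map (P.chi k) := ⟨_, hyN, rfl⟩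
          rw [h3] at h4
          exact hm (Subgroup.mem_bot.1 h4)
        · apply x3_not_pgroup hD
          rintro ⟨x, hx⟩
          refine ⟨2, ?_⟩
          apply Subtype.ext
          rw [← h3] at hx
          obtain ⟨u, hu, rfl⟩ := hx
          have hu1 := (Subgroup.mem_inf.1 hu).1
          have hu2 := (Subgroup.mem_inf.1 hu).2
          rw [Subgroup.mem_comap, hN'] at hu2
          have h5 := hD'.pow_eq_one _ hu2
          have h6 : u ^ q ^ 2 ∈ B := by
            refine Subgroup.mem_inf.2 ⟨pow_mem hu1 _, ?_⟩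
            rw [MonoidHom.mem_ker, map_pow]
            exact h5
          have h7 : P.chi k (u ^ q ^ 2) ∈ B.map (P.chi k) := ⟨_, h6, rfl⟩
          rw [h2] at h7
          have h8 := Subgroup.mem_bot.1 h7
          rw [map_pow] at h8
          simpa using h8
      · intro y hy
        have h3 : P.chi k y ∈ B.map (P.chi k) := by rw [h2]; exact hYL y hy
        obtain ⟨b, hb, hb2⟩ := h3
        have hb3 := (Subgroup.mem_inf.1 hb).1
        have hb4 := (Subgroup.mem_inf.1 hb).2
        have h4 : b⁻¹ * y ∈ C := by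
          apply hdiff _ (mul_mem (inv_mem hb3) hy)
          rw [map_mul, map_inv, hb2, inv_mul_cancel]
        have h5 : P.ρ (b⁻¹ * y) = P.ρ y := by
          rw [map_mul, map_inv, MonoidHom.mem_ker.1 hb4, inv_one, one_mul]
        rw [hC] at h4 ⊢
        rw [h5] at h4
        exact h4
  have hS : ∀ s ∈ S, s ∈ C := by
    intro s hs
    obtain ⟨y, hy, z, rfl, hz⟩ := lemmaZ hD P S s hs
    exact mul_mem ((iSup_le hY) hy) (hC2 z hz)
  apply hD'.not_abP
  intro Q hQ x hx y hy
  have hQN : ∀ x ∈ Q, x ∈ N' := by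
    intro x hx
    obtain ⟨j, hj⟩ := hQ ⟨x, hx⟩
    rw [hN']
    refine hD'.right_eq_one x j ?_
    have := congrArg Subtype.val hj
    simpa using this
  obtain ⟨s, hs, rfl⟩ := hN'lift y (hQN y hy)
  exact (hC s).1 (hS s hs) x (hQN x hx)

end Pool.Agent.Helper75.MNA
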