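import Pool.Agent.Helper75.MNA.A1
import Pool.Agent.Helper75.MNA.A2
import Pool.Agent.Helper75.MNA.T0
import Pool.Agent.Helper75.MNA.P1
import Pool.Agent.Helper75.MNA.E2
import Pool.Agent.Helper75.MNA.E3
import Pool.Agent.Helper75.MNA.E4
import Pool.Agent.Helper75.MNA.E5
import Pool.Agent.Helper75.MNA.M1
import Pool.Agent.Helper75.MNA.M2
import Pool.Agent.Helper75.MNA.C1
import Pool.Agent.Helper75.MNA.C2
import Pool.Agent.Helper75.MNA.C3
import Pool.Agent.Helper75.MNA.C4
import Pool.Agent.Helper75.MNA.C5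
import Pool.Agent.Helper75.MNA.C6
import Pool.Agent.Helper75.MNA.C7
import Pool.Agent.Helper75.MNA.C8
import Pool.Agent.Helper75.MNA.X1
import Pool.Agent.Helper75.MNA.X2
import Pool.Agent.Helper75.MNA.X3
import Pool.Agent.Helper75.MNA.Pure

set_option autoImplicit false
set_option linter.style.haveILetI false

namespace Pool.Agent.Helper75.MNA

open Subgroup

theorem extraction {F : GroupClass} (hF : IsFormation F)
    (h : ∃ (G : Type) (_ : Group G), F G ∧ ¬ AClass G) :
    (∃ (G : Type) (_ : Group G), F G ∧ IsPrimitiveType G) ∨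
    (∃ (p : ℕ) (D : Pairing), D.IsAdmissible p ∧ F D.Grp) ∨
    (∃ (p : ℕ) (D : CrossedMod), D.IsAdmissible p ∧ F D.Grp) := by
  obtain ⟨G, _, M, hMn, hFG, hnA, hM, hA⟩ := exists_monolithic hF h
  haveI : Finite G := hF.finite G hFG
  by_cases hcomm : ∀ x ∈ M, ∀ y ∈ M, x * y = y * x
  swap
  · left
    refine ⟨G, inferInstance, hFG, inferInstance, hnA, M, hMn, hM, hA, Or.inl ?_⟩
    push Not at hcomm
    exact hcomm
  -- a prime with nonabelian Sylow subgroups
  have h1 : ∃ p : ℕ, p.Prime ∧ ¬ AbP p G := by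
    by_contra hcon
    push Not at hcon
    exact hnA (AClass_iff.2 ⟨inferInstance, hcon⟩)
  obtain ⟨p, hp, hab⟩ := h1
  haveI : Fact p.Prime := ⟨hp⟩
  -- `M` has exponent `p`
  have hexp : ∀ x ∈ M, x ^ p = 1 := by
    let U : Subgroup G :=
      { carrier := {x | x ∈ M ∧ x ^ p = 1}
        one_mem' := ⟨M.one_mem, one_pow p⟩
        mul_mem' := by
          rintro a b ⟨ha, ha2⟩ ⟨hb, hb2⟩
          refine ⟨M.mul_mem ha hb, ?_⟩
          have : Commute a b := hcomm a ha b hb
          rw [this.mul_pow, ha2, hb2, one_mul]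
        inv_mem' := by
          rintro a ⟨ha, ha2⟩
          exact ⟨M.inv_mem ha, by rw [inv_pow, ha2, inv_one]⟩ }
    have hU : U.Normal := by
      refine ⟨fun x hx g => ⟨hMn.conj_mem x hx.1 g, ?_⟩⟩
      rw [conj_pow, hx.2, mul_one, mul_inv_cancel]
    have hU1 : U ≠ ⊥ := by
      unfold AbP at hab
      push Not at hab
      obtain ⟨P, hP, x, hx, y, hy, hxy⟩ := hab
      have h2 : x * y * x⁻¹ * y⁻¹ ∈ M := by
        have h3 := hA.abP p hp (P.map (QuotientGroup.mk' M)) (hP.map _) _
          (Subgroup.mem_map_of_mem _ hx) _ (Subgroup.mem_map_of_mem _ hy)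
        have h4 : QuotientGroup.mk' M (x * y * x⁻¹ * y⁻¹) = 1 := by
          rw [map_mul, map_mul, map_mul, h3, map_inv, map_inv]
          group
        exact (QuotientGroup.eq_one_iff _).1 h4
      have h5 : x * y * x⁻¹ * y⁻¹ ∈ P :=
        P.mul_mem (P.mul_mem (P.mul_mem hx hy) (P.inv_mem hx)) (P.inv_mem hy)
      have h6 : x * y * x⁻¹ * y⁻¹ ≠ 1 := by
        intro h7
        apply hxy
        have h8 := mul_inv_eq_one.1 h7
        calc x * y = (x * y * x⁻¹) * x := by group
          _ = y * x := by rw [h8]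
      set c := x * y * x⁻¹ * y⁻¹ with hc
      obtain ⟨k, hk⟩ := hP ⟨c, h5⟩
      have hk' : c ^ p ^ k = 1 := by
        have := congrArg (fun z : P => (z : G)) hk
        simpa using this
      have hord : ∃ j : ℕ, orderOf c = p ^ j := by
        obtain ⟨j, _, hj⟩ := (Nat.dvd_prime_pow hp).1 (orderOf_dvd_of_pow_eq_one hk')
        exact ⟨j, hj⟩
      obtain ⟨j, hj⟩ := hord
      have hj0 : j ≠ 0 := by
        rintro rfl
        rw [pow_zero, orderOf_eq_one_iff] at hj
        exact h6 hj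
      intro hbot
      have h9 : c ^ p ^ (j - 1) ∈ U := by
        refine ⟨M.pow_mem h2 _, ?_⟩
        rw [← pow_mul, ← pow_succ, Nat.sub_add_cancel (Nat.one_le_iff_ne_zero.2 hj0), ← hj]
        exact pow_orderOf_eq_one c
      rw [hbot, Subgroup.mem_bot] at h9
      have h10 := orderOf_dvd_of_pow_eq_one h9
      rw [hj] at h10
      have h11 := (Nat.pow_dvd_pow_iff_le_right hp.one_lt).1 h10
      omega
    intro x hx
    exact (hM.le U hU hU1 hx).2
  by_cases hcent : ∀ (g : G) (k : ℕ), g ^ p ^ k = 1 → ∀ m ∈ M, g * m = m * g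
  swap
  · left
    push Not at hcent
    obtain ⟨g, k, hg, m, hm, hgm⟩ := hcent
    obtain ⟨T, _, hT⟩ := primitive_of_act hM hA hcomm hp hexp g k hg ⟨m, hm, hgm⟩ hF hFG
    exact ⟨T, _, hT⟩
  right
  rcases structure_lemma hM hA hcomm hp hexp hcent hab with
    ⟨N, hN, hMN, hperf, hz, hchief⟩ | ⟨N, K, hN, hK, hNp, hMK, hKN, hne, hchief, hact, hnon⟩
  · right
    haveI := hN
    obtain ⟨D, hD1, hD2⟩ := crossed_of_normal hM hA hp hexp hcent hMN hperf hz hchief hF hFG
    exact ⟨p, D, hD1, hD2⟩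
  · left
    haveI := hN
    haveI := hK
    obtain ⟨D, hD1, hD2⟩ := pairing_of_normal hM hA hcomm hp hexp hNp hMK hKN hne hchief hact
      hnon hF hFG
    exact ⟨p, D, hD1, hD2⟩

theorem form_le {G : Type} [Group G] {E : GroupClass} (hE : IsFormation E) (h : E G) :
    ∀ (H : Type) [Group H], form G H → E H := fun _ _ hH => hH E hE h

theorem Pairing.IsAdmissible.not_memA {p : ℕ} {D : Pairing} (h : D.IsAdmissible p) :
    ¬ AClass D.Grp := fun hA => h.not_abP (hA.abP p h.prime)

theorem CrossedMod.IsAdmissible.not_memA {p : ℕ} {D : CrossedMod} (h : D.IsAdmissible p) :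
    ¬ AClass D.Grp := fun hA => h.not_abP (hA.abP p h.prime)

/-- A minimal formation is generated by each of its groups outside `A`. -/
theorem IsMinimalNonA.eq_form {F : GroupClass} (hF : IsMinimalNonA F) {G : Type} [Group G]
    (h : F G) (hG : ¬ AClass G) : F = form G := by
  haveI : Finite G := hF.formation.finite G h
  by_contra hne
  exact hG (hF.proper (form G) (form_isFormation G)
    (fun H _ hH => form_le hF.formation h H hH) (fun he => hne he.symm) G (self_mem_form G))

/-- A criterion for minimality. -/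
theorem isMinimalNonA_form {G : Type} [Group G] [Finite G] (hG : ¬ AClass G)
    (h : ∀ E : GroupClass, IsFormation E → (∀ (H : Type) [Group H], E H → form G H) →
      (∃ (K : Type) (_ : Group K), E K ∧ ¬ AClass K) → E G) : IsMinimalNonA (form G) where
  formation := form_isFormation G
  not_le := fun hle => hG (hle G (self_mem_form G))
  proper := by
    intro E hE hle hne H _ hH
    by_contra hHA
    apply hne
    have h1 : E G := h E hE hle ⟨H, inferInstance, hH, hHA⟩
    funext K _
    exact propext ⟨hle K, form_le hE h1 K⟩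

theorem pairing_no_primitive {p : ℕ} {D : Pairing} (hD : D.IsAdmissible p) {K : Type} [Group K]
    (hK : IsPrimitiveType K) : ¬ form D.Grp K := by
  haveI : D.zM.Normal := hD.monolith.normal
  refine no_primitive (M := D.zM) hD.monolith hD.quotient ?_ hD.prime ?_ ?_
    (fun q hq hqp => hD.abP_of_ne hq hqp) hK
  · rintro ⟨⟨v, w, m⟩, a⟩ ⟨h1, h2, h3⟩ ⟨⟨v', w', m'⟩, a'⟩ ⟨h4, h5, h6⟩
    simp only at h1 h2 h3 h4 h5 h6
    subst h1 h2 h3 h4 h5 h6
    ext <;> simp [add_comm]
  · rintro ⟨⟨v, w, m⟩, a⟩ ⟨h1, h2, h3⟩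
    simp only at h1 h2 h3
    subst h1 h2 h3
    have h7 : ∀ n : ℕ, (⟨⟨0, 0, m⟩, 1⟩ : D.Grp) ^ n = ⟨⟨0, 0, n • m⟩, 1⟩ := by
      intro n
      induction n with
      | zero =>
        rw [pow_zero, zero_smul]
        rfl
      | succ n ih =>
        rw [pow_succ, ih]
        ext <;> simp [add_smul]
    rw [h7, hD.expM]
    rfl
  · intro g k hg m hm
    have h1 := hD.right_eq_one g k hg
    obtain ⟨⟨v, w, m⟩, a⟩ := m
    obtain ⟨h2, h3, h4⟩ := hm
    obtain ⟨⟨v', w', m'⟩, a'⟩ := g
    simp only at h1 h2 h3 h4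
    subst h1 h2 h3 h4
    ext <;> simp [add_comm]

theorem crossed_no_primitive {p : ℕ} {D : CrossedMod} (hD : D.IsAdmissible p) {K : Type}
    [Group K] (hK : IsPrimitiveType K) : ¬ form D.Grp K := by
  haveI : D.zM.Normal := hD.monolith.normal
  refine no_primitive (M := D.zM) hD.monolith hD.quotient ?_ hD.prime ?_ ?_
    (fun q hq hqp => hD.abP_of_ne hq hqp) hK
  · rintro ⟨e, a⟩ ⟨h1, h2⟩ ⟨e', a'⟩ ⟨h3, h4⟩
    simp only at h1 h2 h3 h4
    subst h2 h4
    have h5 := (hD.ker_central e).1 h1 e'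
    ext
    · simp [h5]
    · simp
  · rintro ⟨e, a⟩ ⟨h1, h2⟩
    simp only at h1 h2
    subst h2
    have h7 : (SemidirectProduct.inl e : D.Grp) ^ p = 1 := by
      rw [← map_pow, hD.ker_exp e h1, map_one]
    exact h7
  · intro g k hg m hm
    obtain ⟨e, a⟩ := m
    obtain ⟨h1, h2⟩ := hm
    obtain ⟨f, b⟩ := g
    simp only at h1 h2
    subst h2
    have h3 : b ^ p ^ k = 1 := by
      have h4 := congrArg D.fst hg
      rw [map_pow, map_one] at h4
      exact h4
    have h5 := hD.ker_triv b k h3 e h1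
    have h6 := (hD.ker_central e).1 h1 f
    ext
    · simp [h5, h6]
    · simp

theorem main (F : GroupClass) :
    IsMinimalNonA F ↔
      (∃ (G : Type) (_ : Group G), IsPrimitiveType G ∧ F = form G) ∨
      (∃ (p : ℕ) (D : Pairing), D.IsAdmissible p ∧ D.IsPure ∧ F = form D.Grp) ∨
      (∃ (p : ℕ) (D : CrossedMod), D.IsAdmissible p ∧ D.IsPure ∧ F = form D.Grp) := by
  constructor
  · intro hF
    have hne : ∃ (G : Type) (_ : Group G), F G ∧ ¬ AClass G := by
      by_contra hcon
      push Not at hcon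
      exact hF.not_le (fun G _ hG => hcon G _ hG)
    rcases extraction hF.formation hne with ⟨G, _, hG, hG2⟩ | ⟨p, D, hD, hD2⟩ | ⟨p, D, hD, hD2⟩
    · exact Or.inl ⟨G, _, hG2, hF.eq_form hG hG2.not_mem⟩
    · refine Or.inr (Or.inl ⟨p, D, hD, ?_, hF.eq_form hD2 hD.not_memA⟩)
      intro q D' hD' hc
      have h1 : F = form D.Grp := hF.eq_form hD2 hD.not_memA
      have h2 : F D'.Grp := by
        rw [h1]
        exact Pairing.form_of_comb hD hD' hc
      have h3 : F = form D'.Grp := hF.eq_form h2 hD'.not_memA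
      exact Pairing.comb_of_form hD' hD (by rw [← h3]; exact hD2)
    · refine Or.inr (Or.inr ⟨p, D, hD, ?_, hF.eq_form hD2 hD.not_memA⟩)
      intro q D' hD' hc
      have h1 : F = form D.Grp := hF.eq_form hD2 hD.not_memA
      have h2 : F D'.Grp := by
        rw [h1]
        exact CrossedMod.form_of_comb hD hD' hc
      have h3 : F = form D'.Grp := hF.eq_form h2 hD'.not_memA
      exact CrossedMod.comb_of_form hD' hD (by rw [← h3]; exact hD2)
  · rintro (⟨G, _, hG, rfl⟩ | ⟨p, D, hD, hpure, rfl⟩ | ⟨p, D, hD, hpure, rfl⟩)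
    · haveI := hG.finite
      exact isMinimalNonA_form hG.not_mem (fun E hE hle hne => primitive_min hG hE hle hne)
    · refine isMinimalNonA_form hD.not_memA (fun E hE hle hne => ?_)
      rcases extraction hE hne with ⟨K, _, hK, hK2⟩ | ⟨q, D', hD', hD2⟩ | ⟨q, D', hD', hD2⟩
      · exact absurd (hle K hK) (pairing_no_primitive hD hK2)
      · have h1 : D'.Comb D := Pairing.comb_of_form hD hD' (hle _ hD2)
        have h2 : D.Comb D' := hpure q D' hD' h1
        exact form_le hE hD2 _ (Pairing.form_of_comb hD' hD h2)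
      · exact absurd (hle _ hD2) (crossed_not_in_pairing hD hD')
    · refine isMinimalNonA_form hD.not_memA (fun E hE hle hne => ?_)
      rcases extraction hE hne with ⟨K, _, hK, hK2⟩ | ⟨q, D', hD', hD2⟩ | ⟨q, D', hD', hD2⟩
      · exact absurd (hle K hK) (crossed_no_primitive hD hK2)
      · exact absurd (hle _ hD2) (pairing_not_in_crossed hD hD')
      · have h1 : D'.Comb D := CrossedMod.comb_of_form hD hD' (hle _ hD2)
        have h2 : D.Comb D' := hpure q D' hD' h1
        exact form_le hE hD2 _ (CrossedMod.form_of_comb hD' hD h2)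

end Pool.Agent.Helper75.MNA
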