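import Pool.Agent.Helper75.MNA.ACl

set_option autoImplicit false
set_option linter.style.haveILetI false

namespace Pool.Agent.Helper75.MNA

open Subgroup

/-- `K` presented as a quotient of a subdirect subgroup of the `n`-th power of `G`. -/
structure Pres (G K : Type) [Group G] [Group K] (n : ℕ) where
  R : Type
  [grp : Group R]
  [fin : Finite R]
  π : Fin n → R →* G
  ρ : R →* K
  surj : ∀ i, Function.Surjective (π i)
  inj : ∀ r, (∀ i, π i r = 1) → r = 1
  onto : Function.Surjective ρ

attribute [instance] Pres.grp Pres.fin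

/-- The presentation uses the least possible number of factors. -/
def Pres.IsMin {G K : Type} [Group G] [Group K] {n : ℕ} (_ : Pres G K n) : Prop :=
  ∀ m, m < n → IsEmpty (Pres G K m)

/-- The canonical complement of `L ∩ P` in `P`. -/
def CC {X : Type} [Group X] (L P : Subgroup X) : Subgroup X :=
  P ⊓ Subgroup.centralizer ((Subgroup.normalizer (P : Set X) ⊓ (L ⊔ P) : Subgroup X) : Set X)

/-- The subgroup `M` of the group of a pairing. -/
def Pairing.zM (D : Pairing) : Subgroup D.Grp where
  carrier := {x | x.left.v = 0 ∧ x.left.w = 0 ∧ x.right = 1}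
  one_mem' := ⟨rfl, rfl, rfl⟩
  mul_mem' := by
    rintro a b ⟨h1, h2, h3⟩ ⟨h4, h5, h6⟩
    refine ⟨?_, ?_, ?_⟩
    · simp [h1, h3, h4]
    · simp [h2, h3, h5]
    · simp [h3, h6]
  inv_mem' := by
    rintro a ⟨h1, h2, h3⟩
    refine ⟨?_, ?_, ?_⟩
    · simp [h1, h3]
    · simp [h2, h3]
    · simp [h3]

/-- The subgroup `ker d` of the group of a crossed module. -/
def CrossedMod.zM (D : CrossedMod) : Subgroup D.Grp where
  carrier := {x | D.d x.left = 1 ∧ x.right = 1}
  one_mem' := ⟨by simp, rfl⟩
  mul_mem' := by
    rintro a b ⟨h1, h2⟩ ⟨h3, h4⟩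
    refine ⟨?_, ?_⟩
    · simp [h1, h2, h3]
    · simp [h2, h4]
  inv_mem' := by
    rintro a ⟨h1, h2⟩
    refine ⟨?_, ?_⟩
    · simp [h1, h2]
    · simp [h2]

/-- The second projection to `X`: `(e, x) ↦ d e * x`. -/
def CrossedMod.snd (D : CrossedMod) : D.Grp →* D.X :=
  SemidirectProduct.lift D.d (MonoidHom.id D.X) (by
    intro x
    ext e
    simp [D.equivariant])

/-- The first projection to `X`: `(e, x) ↦ x`. -/
def CrossedMod.fst (D : CrossedMod) : D.Grp →* D.X := SemidirectProduct.rightHom

theorem CrossedMod.snd_apply (D : CrossedMod) (g : D.Grp) : D.snd g = D.d g.left * g.right := by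
  rfl

theorem CrossedMod.fst_apply (D : CrossedMod) (g : D.Grp) : D.fst g = g.right := rfl

instance (D : Pairing) : Finite (Heis D.β) :=
  Finite.of_injective (fun x : Heis D.β => (x.v, x.w, x.m)) (by
    intro x y h
    simp only [Prod.mk.injEq] at h
    ext
    · exact h.1
    · exact h.2.1
    · exact h.2.2)

instance (D : Pairing) : Finite D.Grp := Finite.of_equiv _ SemidirectProduct.equivProd.symm

instance (D : CrossedMod) : Finite D.Grp := Finite.of_equiv _ SemidirectProduct.equivProd.symm

/-- The homomorphisms to `D.X` attached to a presentation over the group of a crossed module. -/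
def Pres.chi {D : CrossedMod} {K : Type} [Group K] {n : ℕ} (P : Pres D.Grp K n)
    (k : Fin n × Bool) : P.R →* D.X :=
  (if k.2 then D.snd else D.fst).comp (P.π k.1)

/-- The elements of `R` that map into the image of `d` under the homomorphisms with the same
kernel as the `k`-th one, and to `1` under all other ones. -/
def Pres.Y {D : CrossedMod} {K : Type} [Group K] {n : ℕ} (P : Pres D.Grp K n)
    (k : Fin n × Bool) : Subgroup P.R where
  carrier := {r | ∀ k', ((P.chi k').ker = (P.chi k).ker → P.chi k' r ∈ D.d.range) ∧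
    ((P.chi k').ker ≠ (P.chi k).ker → P.chi k' r = 1)}
  one_mem' := fun k' => ⟨fun _ => by rw [map_one]; exact one_mem _, fun _ => map_one _⟩
  mul_mem' := by
    intro a b ha hb k'
    refine ⟨fun h => ?_, fun h => ?_⟩
    · rw [map_mul]
      exact mul_mem ((ha k').1 h) ((hb k').1 h)
    · rw [map_mul, (ha k').2 h, (hb k').2 h, one_mul]
  inv_mem' := by
    intro a ha k'
    refine ⟨fun h => ?_, fun h => ?_⟩
    · rw [map_inv]
      exact inv_mem ((ha k').1 h)
    · rw [map_inv, (ha k').2 h, inv_one]

end Pool.Agent.Helper75.MNA
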