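import Pool.Agent.Helper75.MNA.P1

set_option autoImplicit false
set_option linter.style.haveILetI false

namespace Pool.Agent.Helper75.MNA

open Subgroup Pointwise

/-- elements centralizing an abelian complemented monolith are in the monolith -/
theorem u1_cent {G : Type} [Group G] {M : Subgroup G} [hMn : M.Normal] (hM : IsMonolith M)
    (hab : ∀ x ∈ M, ∀ y ∈ M, x * y = y * x) {H : Subgroup G} (hH : M.IsComplement' H)
    {q : G →* G} (hq3 : ∀ g, q g ∈ H) (hq4 : ∀ g, g * (q g)⁻¹ ∈ M) :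
    ∀ c : G, (∀ m ∈ M, c * m = m * c) → q c = 1 := by
  intro c hc
  by_contra hne1
  let C : Subgroup G := Subgroup.centralizer (M : Set G) ⊓ H
  have hqc : q c ∈ C := by
    refine ⟨?_, hq3 c⟩
    refine Subgroup.mem_centralizer_iff.2 ?_
    intro m hm
    have h1 := hq4 c
    have h2 : q c = (c * (q c)⁻¹)⁻¹ * c := by group
    rw [h2]
    have h3 := hc m hm
    have h4 := hab _ (inv_mem h1) m hm
    rw [← mul_assoc, ← h4, mul_assoc, ← h3, mul_assoc]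
  have hCn : C.Normal := by
    refine ⟨?_⟩
    intro x hx g
    have hxc : ∀ m ∈ M, m * x = x * m := Subgroup.mem_centralizer_iff.1 hx.1
    -- conjugate by the `H`-part
    have h1 : (q g) * x * (q g)⁻¹ ∈ H := mul_mem (mul_mem (hq3 g) hx.2) (inv_mem (hq3 g))
    have h2 : ∀ m ∈ M, m * (q g * x * (q g)⁻¹) = (q g * x * (q g)⁻¹) * m := by
      intro m hm
      have h3 : (q g)⁻¹ * m * q g ∈ M := by
        have := hMn.conj_mem m hm (q g)⁻¹
        rwa [inv_inv] at this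
      have h4 := hxc _ h3
      calc m * (q g * x * (q g)⁻¹) = q g * (((q g)⁻¹ * m * q g) * x) * (q g)⁻¹ := by group
        _ = q g * (x * ((q g)⁻¹ * m * q g)) * (q g)⁻¹ := by rw [h4]
        _ = (q g * x * (q g)⁻¹) * m := by group
    have h5 : g * x * g⁻¹ = q g * x * (q g)⁻¹ := by
      have h6 := h2 _ (hq4 g)
      calc g * x * g⁻¹ = ((g * (q g)⁻¹) * (q g * x * (q g)⁻¹)) * (g * (q g)⁻¹)⁻¹ := by group
        _ = ((q g * x * (q g)⁻¹) * (g * (q g)⁻¹)) * (g * (q g)⁻¹)⁻¹ := by rw [h6]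
        _ = q g * x * (q g)⁻¹ := by group
    rw [h5]
    exact ⟨Subgroup.mem_centralizer_iff.2 h2, h1⟩
  have h1 : M ≤ C := hM.le C hCn (by
    intro h
    rw [h, Subgroup.mem_bot] at hqc
    exact hne1 hqc)
  apply hM.ne_bot
  rw [eq_bot_iff]
  intro m hm
  have h2 := hH.disjoint.le_bot (⟨hm, (h1 hm).2⟩ : m ∈ M ⊓ H)
  exact h2

/-- Groups of family I are determined by the formation they generate. -/
theorem primitive_unique {G K : Type} [Group G] [Group K] (hG : IsPrimitiveType G)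
    (hK : IsPrimitiveType K) (h : form G K) : Nonempty (G ≃* K) := by
  haveI := hG.finite
  obtain ⟨M, hMn, hM, hA, hcase⟩ := hG.monolith
  obtain ⟨M', hMn', hM', hA', hcase'⟩ := hK.monolith
  obtain ⟨n, P, hP⟩ := exists_min_pres h
  obtain ⟨i, hinj, hmap⟩ := p1_core P hP hM hA hK.not_mem hM'
  by_cases hone : ∀ j, j = i
  · obtain ⟨e⟩ := p1_one P hM hA hK.not_mem i hone
    exact ⟨e.symm⟩
  push Not at hone
  obtain ⟨j, hj⟩ := hone
  have hab' := p1_abelian P hP hM' hj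
  haveI hPn : (p1_piece P M i).Normal := p1_piece_normal P M i
  -- `M` is abelian
  have hlift : ∀ m ∈ M, ∃ d ∈ p1_piece P M i, P.π i d = m := by
    intro m hm
    obtain ⟨d, hd1, hd2⟩ := P.full hP hM i m hm
    exact ⟨d, ⟨by rw [hd1]; exact hm, hd2⟩, hd1⟩
  have hmem : ∀ d ∈ p1_piece P M i, P.ρ d ∈ M' := by
    intro d hd
    rw [← hmap]
    exact Subgroup.mem_map_of_mem _ hd
  have hab : ∀ x ∈ M, ∀ y ∈ M, x * y = y * x := by
    intro x hx y hy
    obtain ⟨d, hd, rfl⟩ := hlift x hx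
    obtain ⟨e, he, rfl⟩ := hlift y hy
    have h1 : (d * e) * (e * d)⁻¹ = 1 := by
      apply hinj
      · exact mul_mem (mul_mem hd he) (inv_mem (mul_mem he hd))
      · rw [map_mul, map_inv, map_mul, map_mul, hab' _ (hmem d hd) _ (hmem e he), mul_inv_cancel]
    rw [← map_mul, ← map_mul, mul_inv_eq_one.1 h1]
  rcases hcase with ⟨x, hx, y, hy, hxy⟩ | ⟨H, hH⟩
  · exact absurd (hab x hx y hy) hxy
  rcases hcase' with ⟨x, hx, y, hy, hxy⟩ | ⟨H', hH'⟩
  · exact absurd (hab' x hx y hy) hxy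
  obtain ⟨q, hq1, hq2, hq3, hq4⟩ := p1_proj M H hH
  obtain ⟨q', hq1', hq2', hq3', hq4'⟩ := p1_proj M' H' hH'
  have hcent := u1_cent hM hab hH hq3 hq4
  have hcent' := u1_cent hM' hab' hH' hq3' hq4'
  -- the homomorphism `K → G` with values in `H`
  have hker : P.ρ.ker ≤ (q.comp (P.π i)).ker := by
    intro r hr
    rw [MonoidHom.mem_ker, MonoidHom.comp_apply]
    apply hcent
    intro m hm
    obtain ⟨d, hd, rfl⟩ := hlift m hm
    have h1 : (r * d * r⁻¹) * d⁻¹ = 1 := by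
      apply hinj
      · exact mul_mem (hPn.conj_mem d hd r) (inv_mem hd)
      · rw [MonoidHom.mem_ker] at hr
        rw [map_mul, map_mul, map_mul, map_inv, map_inv, hr]
        simp
    have h2 : r * d = d * r := by
      have := mul_inv_eq_one.1 h1
      exact (mul_inv_eq_iff_eq_mul.1 this)
    rw [← map_mul, ← map_mul, h2]
  let s : K →* G := P.ρ.liftOfSurjective P.onto ⟨q.comp (P.π i), hker⟩
  have hs : ∀ r, s (P.ρ r) = q (P.π i r) := by
    intro r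
    exact MonoidHom.liftOfRightInverse_comp_apply _ _ _ _ r
  have hsH : ∀ k, s k ∈ H := by
    intro k
    obtain ⟨r, rfl⟩ := P.onto k
    rw [hs]
    exact hq3 _
  -- the isomorphism between the monoliths
  let ρ' : p1_piece P M i →* M' := (P.ρ.comp (p1_piece P M i).subtype).codRestrict M'
    (fun d => hmem d.1 d.2)
  have hρ' : Function.Bijective ρ' := by
    refine ⟨?_, ?_⟩
    · rw [injective_iff_map_eq_one]
      intro d hd
      exact Subtype.ext (hinj d.1 d.2 (congrArg Subtype.val hd))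
    · rintro ⟨m, hm⟩
      have hm2 := hm
      rw [← hmap] at hm2
      obtain ⟨d, hd, hd2⟩ := hm2
      exact ⟨⟨d, hd⟩, Subtype.ext hd2⟩
  let e : p1_piece P M i ≃* M' := MulEquiv.ofBijective ρ' hρ'
  let θ : M' →* G := ((P.π i).comp (p1_piece P M i).subtype).comp e.symm.toMonoidHom
  have hθ : ∀ (d : P.R) (hd : d ∈ p1_piece P M i) (hm : P.ρ d ∈ M'), θ ⟨P.ρ d, hm⟩ = P.π i d := by
    intro d hd hm
    have h1 : e.symm ⟨P.ρ d, hm⟩ = ⟨d, hd⟩ := by
      rw [MulEquiv.symm_apply_eq]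
      rfl
    show P.π i (e.symm ⟨P.ρ d, hm⟩ : P.R) = P.π i d
    rw [h1]
  have hM'lift : ∀ m ∈ M', ∃ d ∈ p1_piece P M i, P.ρ d = m := by
    intro m hm
    rw [← hmap] at hm
    obtain ⟨d, hd, hd2⟩ := hm
    exact ⟨d, hd, hd2⟩
  have hθM : ∀ x : M', θ x ∈ M := by
    rintro ⟨m, hm⟩
    obtain ⟨d, hd, rfl⟩ := hM'lift m hm
    rw [hθ d hd]
    exact hd.1
  have hθinj : ∀ x y : M', θ x = θ y → x = y := by
    rintro ⟨m, hm⟩ ⟨m2, hm2⟩ hxy
    obtain ⟨d, hd, rfl⟩ := hM'lift m hm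
    obtain ⟨d2, hd2, rfl⟩ := hM'lift m2 hm2
    rw [hθ d hd, hθ d2 hd2] at hxy
    have : d = d2 := p1_piece_inj P hd.2 hd2.2 hxy
    subst this
    rfl
  have hcompat : ∀ (k : K) (m : K) (hm : m ∈ M') (hm2 : k * m * k⁻¹ ∈ M'),
      θ ⟨k * m * k⁻¹, hm2⟩ = s k * θ ⟨m, hm⟩ * (s k)⁻¹ := by
    intro k m hm hm2
    obtain ⟨r, rfl⟩ := P.onto k
    obtain ⟨d, hd, rfl⟩ := hM'lift m hm
    have h1 : (⟨P.ρ r * P.ρ d * (P.ρ r)⁻¹, hm2⟩ : M') =
        ⟨P.ρ (r * d * r⁻¹), hmem _ (hPn.conj_mem d hd r)⟩ := by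
      apply Subtype.ext
      simp
    rw [h1, hθ _ (hPn.conj_mem d hd r), hθ d hd, hs, map_mul, map_mul, map_inv]
    have h2 := hq4 (P.π i r)
    have h3 : q (P.π i r) * P.π i d * (q (P.π i r))⁻¹ ∈ M :=
      hMn.conj_mem _ hd.1 _
    have h4 := hab _ h2 _ h3
    calc P.π i r * P.π i d * (P.π i r)⁻¹
        = ((P.π i r * (q (P.π i r))⁻¹) * (q (P.π i r) * P.π i d * (q (P.π i r))⁻¹)) *
          (P.π i r * (q (P.π i r))⁻¹)⁻¹ := by group
      _ = ((q (P.π i r) * P.π i d * (q (P.π i r))⁻¹) * (P.π i r * (q (P.π i r))⁻¹)) *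
          (P.π i r * (q (P.π i r))⁻¹)⁻¹ := by rw [h4]
      _ = q (P.π i r) * P.π i d * (q (P.π i r))⁻¹ := by group
  have hsM : ∀ m ∈ M', s m = 1 := by
    intro m hm
    obtain ⟨d, hd, rfl⟩ := hM'lift m hm
    rw [hs]
    exact hq1 _ hd.1
  clear_value s θ
  -- the homomorphism
  let f : K →* G := MonoidHom.mk' (fun k => θ ⟨k * (q' k)⁻¹, hq4' k⟩ * s (q' k)) (by
    intro k1 k2
    have hm2 : q' k1 * (k2 * (q' k2)⁻¹) * (q' k1)⁻¹ ∈ M' := hMn'.conj_mem _ (hq4' k2) _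
    have e1 : (⟨k1 * k2 * (q' (k1 * k2))⁻¹, hq4' (k1 * k2)⟩ : M') =
        ⟨k1 * (q' k1)⁻¹, hq4' k1⟩ * ⟨q' k1 * (k2 * (q' k2)⁻¹) * (q' k1)⁻¹, hm2⟩ := by
      apply Subtype.ext
      show k1 * k2 * (q' (k1 * k2))⁻¹ = (k1 * (q' k1)⁻¹) * (q' k1 * (k2 * (q' k2)⁻¹) * (q' k1)⁻¹)
      rw [map_mul]
      group
    show θ ⟨k1 * k2 * (q' (k1 * k2))⁻¹, hq4' (k1 * k2)⟩ * s (q' (k1 * k2)) =
      (θ ⟨k1 * (q' k1)⁻¹, hq4' k1⟩ * s (q' k1)) * (θ ⟨k2 * (q' k2)⁻¹, hq4' k2⟩ * s (q' k2))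
    rw [e1, map_mul, hcompat (q' k1) _ (hq4' k2) hm2, map_mul q', map_mul s]
    group)
  have hf : ∀ k, f k = θ ⟨k * (q' k)⁻¹, hq4' k⟩ * s (q' k) := fun k => rfl
  have hfinj : Function.Injective f := by
    rw [injective_iff_map_eq_one]
    intro k hk
    rw [hf] at hk
    have h1 : θ ⟨k * (q' k)⁻¹, hq4' k⟩ = (s (q' k))⁻¹ := eq_inv_of_mul_eq_one_left hk
    have h2 : θ ⟨k * (q' k)⁻¹, hq4' k⟩ = 1 := by
      have h3 : θ ⟨k * (q' k)⁻¹, hq4' k⟩ ∈ M ⊓ H :=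
        ⟨hθM _, by rw [h1]; exact H.inv_mem (hsH _)⟩
      exact hH.disjoint.le_bot h3
    have h4 : s (q' k) = 1 := by
      rw [h2, one_mul] at hk
      exact hk
    have h5 : (⟨k * (q' k)⁻¹, hq4' k⟩ : M') = 1 := by
      apply hθinj
      rw [h2, map_one]
    have h6 : k * (q' k)⁻¹ = 1 := congrArg Subtype.val h5
    have h7 : q' (q' k) = 1 := by
      apply hcent'
      intro m hm
      have hm2 : q' k * m * (q' k)⁻¹ ∈ M' := hMn'.conj_mem _ hm _
      have h8 := hcompat (q' k) m hm hm2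
      rw [h4, one_mul, inv_one, mul_one] at h8
      have h9 : q' k * m * (q' k)⁻¹ = m := congrArg Subtype.val (hθinj _ _ h8)
      exact mul_inv_eq_iff_eq_mul.1 h9
    rw [hq2' _ (hq3' k)] at h7
    rw [h7, inv_one, mul_one] at h6
    exact h6
  have hfsurj : Function.Surjective f := by
    intro g
    obtain ⟨d, hd, hd2⟩ := hlift _ (hq4 g)
    obtain ⟨r, hr⟩ := P.surj i (q g)
    have hsk : s (P.ρ r) = q g := by rw [hs, hr, hq2 _ (hq3 g)]
    have hsh : s (q' (P.ρ r)) = q g := by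
      have h1 := hsM _ (hq4' (P.ρ r))
      rw [map_mul, map_inv, mul_inv_eq_one] at h1
      rw [← h1, hsk]
    refine ⟨P.ρ d * q' (P.ρ r), ?_⟩
    have h2 : q' (P.ρ d * q' (P.ρ r)) = q' (P.ρ r) := by
      rw [map_mul, hq1' _ (hmem d hd), one_mul, hq2' _ (hq3' _)]
    have h3 : (⟨P.ρ d * q' (P.ρ r) * (q' (P.ρ d * q' (P.ρ r)))⁻¹, hq4' _⟩ : M') =
        ⟨P.ρ d, hmem d hd⟩ := by
      apply Subtype.ext
      show P.ρ d * q' (P.ρ r) * (q' (P.ρ d * q' (P.ρ r)))⁻¹ = P.ρ d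
      rw [h2, mul_inv_cancel_right]
    rw [hf, h3, h2, hθ d hd, hsh, hd2]
    group
  exact ⟨(MulEquiv.ofBijective f ⟨hfinj, hfsurj⟩).symm⟩

end Pool.Agent.Helper75.MNA
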