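import Pool.Agent.Helper75.MNA.Lite
import Pool.Agent.Helper75.MNA.Main
import Pool.Agent.Helper75.MNA.U1

set_option autoImplicit false
set_option linter.style.haveILetI false

namespace Pool.Agent.Helper75.MNA.Trans

open Pool.Agent.Helper75

theorem isFormation_iff (F : MNA.GroupClass) : MNA.Lite.IsFormation F ↔ MNA.IsFormation F :=
  ⟨fun h => ⟨h.finite, h.nonempty, h.iso, h.quotient, h.subdirect⟩,
    fun h => ⟨h.finite, h.nonempty, h.iso, h.quotient, h.subdirect⟩⟩

theorem form_eq (G : Type) [Group G] : MNA.Lite.form G = MNA.form G := by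
  funext H _
  refine propext ⟨fun h F hF hG => h F ((isFormation_iff F).2 hF) hG,
    fun h F hF hG => h F ((isFormation_iff F).1 hF) hG⟩

theorem aClass_eq : MNA.Lite.AClass = MNA.AClass := rfl

theorem isMinimalNonA_iff (F : MNA.GroupClass) :
    MNA.Lite.IsMinimalNonA F ↔ MNA.IsMinimalNonA F :=
  ⟨fun h => ⟨(isFormation_iff F).1 h.formation, h.not_le,
      fun E hE => h.proper E ((isFormation_iff E).2 hE)⟩,
    fun h => ⟨(isFormation_iff F).2 h.formation, h.not_le,
      fun E hE => h.proper E ((isFormation_iff E).1 hE)⟩⟩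

theorem isPrimitiveType_iff (G : Type) [Group G] :
    MNA.Lite.IsPrimitiveType G ↔ MNA.IsPrimitiveType G :=
  ⟨fun h => ⟨h.finite, h.not_mem, by
      obtain ⟨M, hM, h1, h2⟩ := h.monolith
      exact ⟨M, hM, ⟨h1.normal, h1.ne_bot, h1.le⟩, h2⟩⟩,
    fun h => ⟨h.finite, h.not_mem, by
      obtain ⟨M, hM, h1, h2⟩ := h.monolith
      exact ⟨M, hM, ⟨h1.normal, h1.ne_bot, h1.le⟩, h2⟩⟩⟩

theorem form_congr {G K : Type} [Group G] [Group K] [Finite G] [Finite K] (e : G ≃* K) :
    MNA.form G = MNA.form K := by
  funext H _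
  refine propext ⟨?_, ?_⟩
  · exact MNA.form_le (MNA.form_isFormation K)
      ((MNA.form_isFormation K).iso K G ⟨e.symm⟩ (MNA.self_mem_form K)) H
  · exact MNA.form_le (MNA.form_isFormation G)
      ((MNA.form_isFormation G).iso G K ⟨e⟩ (MNA.self_mem_form G)) H

/-! ### Pairings -/

section Pairing

theorem biadd_zero_right {V W M : Type} [AddCommGroup V] [AddCommGroup W] [AddCommGroup M]
    {β : V → W → M} (h : MNA.Lite.IsBiadd β) (v : V) : β v 0 = 0 := by
  have h1 := h.right v 0 0
  rw [add_zero] at h1
  exact left_eq_add.1 h1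

/-- a biadditive function as a bundled map -/
def bi {V W M : Type} [AddCommGroup V] [AddCommGroup W] [AddCommGroup M]
    (β : V → W → M) (h : MNA.Lite.IsBiadd β) : V →+ W →+ M where
  toFun v := { toFun := β v, map_zero' := biadd_zero_right h v, map_add' := h.right v }
  map_zero' := by
    ext w
    exact MNA.Lite.Pairing.biadd_zero_left h w
  map_add' v v' := by
    ext w
    exact h.left v v' w

theorem bi_isBiadd {V W M : Type} [AddCommGroup V] [AddCommGroup W] [AddCommGroup M]
    (F : V →+ W →+ M) : MNA.Lite.IsBiadd (fun v w => F v w) :=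
  ⟨fun v v' w => by simp, fun v w w' => by simp⟩

/-- an action as a bundled map -/
def ac {H V : Type} [Group H] [AddCommGroup V] (act : H → V → V) (h : MNA.Lite.IsAct act) :
    H →* AddMonoid.End V where
  toFun x := { toFun := act x, map_zero' := MNA.Lite.Pairing.act_zero h x, map_add' := h.add x }
  map_one' := by
    ext v
    exact h.one v
  map_mul' x y := by
    ext v
    exact h.mul x y v

theorem ac_isAct {H V : Type} [Group H] [AddCommGroup V] (a : H →* AddMonoid.End V) :
    MNA.Lite.IsAct (fun h v => a h v) :=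
  ⟨fun v => by simp, fun h k v => by simp, fun h v w => by simp⟩

/-- finiteness of all four groups -/
structure PFin (D : MNA.Lite.Pairing) : Prop where
  H : Finite D.H
  V : Finite D.V
  W : Finite D.W
  M : Finite D.M

/-- translation to bundled data -/
def old (D : MNA.Lite.Pairing) (hf : PFin D) : MNA.Pairing where
  H := D.H
  V := D.V
  W := D.W
  M := D.M
  finH := hf.H
  finV := hf.V
  finW := hf.W
  finM := hf.M
  actV := ac D.actV D.isActV
  actW := ac D.actW D.isActW
  actM := ac D.actM D.isActM
  β := bi D.β D.biadd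
  equivariant := D.equivariant

/-- translation from bundled data -/
def lite (D : MNA.Pairing) : MNA.Lite.Pairing where
  H := D.H
  V := D.V
  W := D.W
  M := D.M
  actV := fun h v => D.actV h v
  actW := fun h v => D.actW h v
  actM := fun h v => D.actM h v
  β := fun v w => D.β v w
  isActV := ac_isAct _
  isActW := ac_isAct _
  isActM := ac_isAct _
  biadd := bi_isBiadd _
  equivariant := D.equivariant

theorem lite_fin (D : MNA.Pairing) : PFin (lite D) := ⟨D.finH, D.finV, D.finW, D.finM⟩

theorem old_lite (D : MNA.Pairing) : old (lite D) (lite_fin D) = D := rfl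

/-- the groups agree -/
def grpEquiv (D : MNA.Lite.Pairing) (hf : PFin D) : D.Grp ≃* (old D hf).Grp where
  toFun x := ⟨⟨x.v, x.w, x.m⟩, x.h⟩
  invFun x := ⟨x.left.v, x.left.w, x.left.m, x.right⟩
  left_inv _ := rfl
  right_inv _ := rfl
  map_mul' _ _ := rfl

theorem grp_finite (D : MNA.Lite.Pairing) (hf : PFin D) : Finite D.Grp :=
  Finite.of_equiv _ (grpEquiv D hf).symm.toEquiv

theorem form_old (D : MNA.Lite.Pairing) (hf : PFin D) :
    MNA.Lite.form D.Grp = MNA.form (old D hf).Grp := by
  haveI := grp_finite D hf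
  rw [form_eq]
  exact form_congr (grpEquiv D hf)

theorem isIrred_iff {H V : Type} [Group H] [AddCommGroup V] (act : H → V → V)
    (h : MNA.Lite.IsAct act) (hV : Finite V) :
    MNA.Lite.IsIrred act ↔ MNA.IsIrred (ac act h) := by
  constructor
  · rintro ⟨_, ⟨v, hv⟩, h2⟩
    exact ⟨⟨v, 0, hv⟩, h2⟩
  · rintro ⟨h1, h2⟩
    obtain ⟨v, hv⟩ := exists_ne (0 : V)
    exact ⟨hV, ⟨v, hv⟩, h2⟩

theorem pfin_of_adm {p : ℕ} {D : MNA.Lite.Pairing} (h : D.IsAdmissible p) : PFin D :=
  ⟨h.memA.1, h.irrV.1, h.irrW.1, h.irrM.1⟩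

theorem adm_iff {p : ℕ} (D : MNA.Lite.Pairing) (hf : PFin D) :
    D.IsAdmissible p ↔ (old D hf).IsAdmissible p := by
  constructor
  · intro h
    refine ⟨h.prime, h.coprime, h.memA, h.expV, h.expW, h.expM,
      (isIrred_iff _ D.isActV hf.V).1 h.irrV, (isIrred_iff _ D.isActW hf.W).1 h.irrW,
      (isIrred_iff _ D.isActM hf.M).1 h.irrM, ?_, h.faithful⟩
    intro h0
    obtain ⟨v, w, hvw⟩ := h.nonzero
    apply hvw
    have h1 : (old D hf).β v w = 0 := by
      rw [h0]
      rfl
    exact h1
  · intro h
    refine ⟨h.prime, h.coprime, h.memA, h.expV, h.expW, h.expM,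
      (isIrred_iff _ D.isActV hf.V).2 h.irrV, (isIrred_iff _ D.isActW hf.W).2 h.irrW,
      (isIrred_iff _ D.isActM hf.M).2 h.irrM, ?_, h.faithful⟩
    by_contra hcon
    apply h.nonzero
    ext v w
    by_contra h1
    exact hcon ⟨v, w, h1⟩

/-- bundled isomorphism -/
noncomputable def modEquiv {V V' : Type} [AddCommGroup V] [AddCommGroup V'] (a : V → V')
    (hb : Function.Bijective a) (ha : ∀ x y, a (x + y) = a x + a y) : V ≃+ V' :=
  AddEquiv.ofBijective (AddMonoidHom.mk' a ha) hb

/-- bundled isomorphism -/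
noncomputable def grpIso {H H' : Type} [Group H] [Group H'] (l : H → H')
    (hl : MNA.Lite.IsGrpIso l) : H ≃* H' :=
  MulEquiv.ofBijective (MonoidHom.mk' l hl.mul) hl.bij

theorem isGrpIso_of {H H' : Type} [Group H] [Group H'] (l : H ≃* H') :
    MNA.Lite.IsGrpIso (fun x => l x) := ⟨l.bijective, fun x y => map_mul l x y⟩

/-- a lite twist is an old twist -/
theorem twist_old (D' D : MNA.Lite.Pairing) (hf' : PFin D') (hf : PFin D)
    (f : D'.V → D'.W → D'.M) (h : MNA.Lite.Pairing.IsTwist D' D D.β f) :
    ∃ F : D'.V →+ D'.W →+ D'.M, (∀ v w, F v w = f v w) ∧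
      MNA.Pairing.IsTwist (old D' hf') (old D hf) F := by
  cases h with
  | straight l a b t hl ha hb ht hff =>
    have hbi : MNA.Lite.IsBiadd f := by
      constructor
      · intro v v' w
        apply ht.bij.1
        rw [hff, ha.add, D.biadd.left, ht.add, hff, hff]
      · intro v w w'
        apply ht.bij.1
        rw [hff, hb.add, D.biadd.right, ht.add, hff, hff]
    refine ⟨bi f hbi, fun v w => rfl, ?_⟩
    refine MNA.Pairing.IsTwist.straight (D' := old D' hf') (D := old D hf) _ (grpIso l hl)
      (modEquiv a ha.bij ha.add) (modEquiv b hb.bij hb.add) (modEquiv t ht.bij ht.add).symm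
      ?_ ?_ ?_ ?_
    · exact ha.comm
    · exact hb.comm
    · intro h m
      have h1 := ht.comm h ((modEquiv t ht.bij ht.add).symm m)
      have h2 : t ((modEquiv t ht.bij ht.add).symm m) = m :=
        (modEquiv t ht.bij ht.add).apply_symm_apply m
      rw [h2] at h1
      exact (AddEquiv.symm_apply_eq (modEquiv t ht.bij ht.add)).2 h1.symm
    · intro v w
      exact (AddEquiv.eq_symm_apply (modEquiv t ht.bij ht.add)).2 (hff v w)
  | swapped l a b t hl ha hb ht hff =>
    have hbi : MNA.Lite.IsBiadd f := by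
      constructor
      · intro v v' w
        apply ht.bij.1
        rw [hff, ha.add, D.biadd.right, ht.add, hff, hff]
      · intro v w w'
        apply ht.bij.1
        rw [hff, hb.add, D.biadd.left, ht.add, hff, hff]
    refine ⟨bi f hbi, fun v w => rfl, ?_⟩
    refine MNA.Pairing.IsTwist.swapped (D' := old D' hf') (D := old D hf) _ (grpIso l hl)
      (modEquiv a ha.bij ha.add) (modEquiv b hb.bij hb.add) (modEquiv t ht.bij ht.add).symm
      ?_ ?_ ?_ ?_
    · exact ha.comm
    · exact hb.comm
    · intro h m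
      have h1 := ht.comm h ((modEquiv t ht.bij ht.add).symm m)
      have h2 : t ((modEquiv t ht.bij ht.add).symm m) = m :=
        (modEquiv t ht.bij ht.add).apply_symm_apply m
      rw [h2] at h1
      exact (AddEquiv.symm_apply_eq (modEquiv t ht.bij ht.add)).2 h1.symm
    · intro v w
      exact (AddEquiv.eq_symm_apply (modEquiv t ht.bij ht.add)).2 (hff v w)

/-- an old twist is a lite twist -/
theorem twist_lite (D' D : MNA.Lite.Pairing) (hf' : PFin D') (hf : PFin D)
    (F : D'.V →+ D'.W →+ D'.M) (h : MNA.Pairing.IsTwist (old D' hf') (old D hf) F) :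
    MNA.Lite.Pairing.IsTwist D' D D.β (fun v w => F v w) := by
  cases h with
  | straight l a b t ha hb ht hff =>
    refine MNA.Lite.Pairing.IsTwist.straight (fun x => l x) (fun x => a x) (fun x => b x)
      (fun x => t.symm x) (isGrpIso_of l) ⟨a.bijective, fun x y => map_add a x y, ha⟩
      ⟨b.bijective, fun x y => map_add b x y, hb⟩
      ⟨t.symm.bijective, fun x y => map_add t.symm x y, ?_⟩ ?_
    · intro h m
      have h1 := ht h (t.symm m)
      have h2 : t (t.symm m) = m := t.apply_symm_apply m
      rw [h2] at h1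
      exact (AddEquiv.symm_apply_eq t).2 h1.symm
    · intro v w
      exact (AddEquiv.symm_apply_eq t).2 (hff v w)
  | swapped l a b t ha hb ht hff =>
    refine MNA.Lite.Pairing.IsTwist.swapped (fun x => l x) (fun x => a x) (fun x => b x)
      (fun x => t.symm x) (isGrpIso_of l) ⟨a.bijective, fun x y => map_add a x y, ha⟩
      ⟨b.bijective, fun x y => map_add b x y, hb⟩
      ⟨t.symm.bijective, fun x y => map_add t.symm x y, ?_⟩ ?_
    · intro h m
      have h1 := ht h (t.symm m)
      have h2 : t (t.symm m) = m := t.apply_symm_apply m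
      rw [h2] at h1
      exact (AddEquiv.symm_apply_eq t).2 h1.symm
    · intro v w
      exact (AddEquiv.symm_apply_eq t).2 (hff v w)

theorem span_old (D' D : MNA.Lite.Pairing) (hf' : PFin D') (hf : PFin D)
    (f : D'.V → D'.W → D'.M) (h : MNA.Lite.Pairing.Span D' D D.β f) :
    ∃ F : D'.V →+ D'.W →+ D'.M, (∀ v w, F v w = f v w) ∧
      F ∈ AddSubgroup.closure {F : D'.V →+ D'.W →+ D'.M |
        MNA.Pairing.IsTwist (old D' hf') (old D hf) F} := by
  induction h with
  | twist f hff =>
    obtain ⟨F, h1, h2⟩ := twist_old D' D hf' hf f hff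
    exact ⟨F, h1, AddSubgroup.subset_closure h2⟩
  | add f₁ f₂ _ _ ih1 ih2 =>
    obtain ⟨F1, h1, h2⟩ := ih1
    obtain ⟨F2, h3, h4⟩ := ih2
    refine ⟨F1 + F2, fun v w => ?_, add_mem h2 h4⟩
    rw [AddMonoidHom.add_apply, AddMonoidHom.add_apply, h1, h3]

theorem span_lite (D' D : MNA.Lite.Pairing) (hf' : PFin D') (hf : PFin D)
    (F : D'.V →+ D'.W →+ D'.M)
    (h : F ∈ AddSubgroup.closure {F : D'.V →+ D'.W →+ D'.M |
        MNA.Pairing.IsTwist (old D' hf') (old D hf) F}) :
    F = 0 ∨ (MNA.Lite.Pairing.Span D' D D.β (fun v w => F v w) ∧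
      MNA.Lite.Pairing.Span D' D D.β (fun v w => -F v w)) := by
  induction h using AddSubgroup.closure_induction with
  | mem F hF =>
    right
    refine ⟨MNA.Lite.Pairing.Span.twist _ (twist_lite D' D hf' hf F hF), ?_⟩
    exact MNA.Lite.Pairing.Span.twist _ (twist_lite D' D hf' hf (-F) hF.neg)
  | zero => exact Or.inl rfl
  | add F1 F2 _ _ ih1 ih2 =>
    rcases ih1 with rfl | ⟨h1, h1'⟩
    · rw [zero_add]
      exact ih2
    rcases ih2 with rfl | ⟨h2, h2'⟩
    · rw [add_zero]
      exact Or.inr ⟨h1, h1'⟩
    right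
    refine ⟨MNA.Lite.Pairing.Span.add _ _ h1 h2, ?_⟩
    have h3 := MNA.Lite.Pairing.Span.add _ _ h1' h2'
    have h4 : (fun v w => -(F1 + F2) v w) = (fun v w => -F1 v w + -F2 v w) := by
      funext v w
      rw [AddMonoidHom.add_apply, AddMonoidHom.add_apply, neg_add]
    rw [h4]
    exact h3
  | neg F _ ih =>
    rcases ih with rfl | ⟨h1, h2⟩
    · exact Or.inl neg_zero
    · right
      refine ⟨h2, ?_⟩
      have h4 : (fun v w => -(-F) v w) = (fun v w => F v w) := by
        funext v w
        rw [AddMonoidHom.neg_apply, AddMonoidHom.neg_apply, neg_neg]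
      rw [h4]
      exact h1

theorem comb_iff {p : ℕ} (D' D : MNA.Lite.Pairing) (hf' : PFin D') (hf : PFin D)
    (h : D'.IsAdmissible p) : D'.Comb D ↔ (old D' hf').Comb (old D hf) := by
  constructor
  · intro hc
    obtain ⟨F, h1, h2⟩ := span_old D' D hf' hf _ hc
    have h3 : F = (old D' hf').β := by
      ext v w
      exact h1 v w
    rw [h3] at h2
    exact h2
  · intro hc
    rcases span_lite D' D hf' hf _ hc with h0 | ⟨h1, _⟩
    · exact absurd h0 ((adm_iff D' hf').1 h).nonzero
    · exact h1

/-- changing the form -/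
def wf (D : MNA.Lite.Pairing) (f : D.V → D.W → D.M) (hbi : MNA.Lite.IsBiadd f)
    (heq : ∀ h v w, f (D.actV h v) (D.actW h w) = D.actM h (f v w)) : MNA.Lite.Pairing :=
  { D with
    β := f
    biadd := hbi
    equivariant := heq }

theorem twist_wf (D' D : MNA.Lite.Pairing) (g : D.V → D.W → D.M) (hbi : MNA.Lite.IsBiadd g)
    (heq : ∀ h v w, g (D.actV h v) (D.actW h w) = D.actM h (g v w))
    (f : D'.V → D'.W → D'.M) :
    MNA.Lite.Pairing.IsTwist D' D g f ↔
      MNA.Lite.Pairing.IsTwist D' (wf D g hbi heq) (wf D g hbi heq).β f := by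
  constructor
  · intro h
    cases h with
    | straight l a b t hl ha hb ht hf => exact .straight l a b t hl ha hb ht hf
    | swapped l a b t hl ha hb ht hf => exact .swapped l a b t hl ha hb ht hf
  · intro h
    cases h with
    | straight l a b t hl ha hb ht hf => exact .straight l a b t hl ha hb ht hf
    | swapped l a b t hl ha hb ht hf => exact .swapped l a b t hl ha hb ht hf

theorem span_wf (D' D : MNA.Lite.Pairing) (g : D.V → D.W → D.M) (hbi : MNA.Lite.IsBiadd g)
    (heq : ∀ h v w, g (D.actV h v) (D.actW h w) = D.actM h (g v w))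
    (f : D'.V → D'.W → D'.M) :
    MNA.Lite.Pairing.Span D' D g f ↔
      MNA.Lite.Pairing.Span D' (wf D g hbi heq) (wf D g hbi heq).β f := by
  constructor
  · intro h
    induction h with
    | twist f hf => exact .twist f ((twist_wf D' D g hbi heq f).1 hf)
    | add f₁ f₂ _ _ h1 h2 => exact .add f₁ f₂ h1 h2
  · intro h
    induction h with
    | twist f hf => exact .twist f ((twist_wf D' D g hbi heq f).2 hf)
    | add f₁ f₂ _ _ h1 h2 => exact .add f₁ f₂ h1 h2

/-- elements of the span are biadditive and equivariant -/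
theorem span_equivariant (D' D : MNA.Lite.Pairing) (f : D'.V → D'.W → D'.M)
    (h : MNA.Lite.Pairing.Span D' D D.β f) :
    MNA.Lite.IsBiadd f ∧ ∀ h v w, f (D'.actV h v) (D'.actW h w) = D'.actM h (f v w) := by
  induction h with
  | twist f hff =>
    cases hff with
    | straight l a b t hl ha hb ht hff =>
      refine ⟨⟨?_, ?_⟩, ?_⟩
      · intro v v' w
        apply ht.bij.1
        rw [hff, ha.add, D.biadd.left, ht.add, hff, hff]
      · intro v w w'
        apply ht.bij.1
        rw [hff, hb.add, D.biadd.right, ht.add, hff, hff]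
      · intro h v w
        apply ht.bij.1
        rw [hff, ha.comm, hb.comm, D.equivariant, ht.comm, hff]
    | swapped l a b t hl ha hb ht hff =>
      refine ⟨⟨?_, ?_⟩, ?_⟩
      · intro v v' w
        apply ht.bij.1
        rw [hff, ha.add, D.biadd.right, ht.add, hff, hff]
      · intro v w w'
        apply ht.bij.1
        rw [hff, hb.add, D.biadd.left, ht.add, hff, hff]
      · intro h v w
        apply ht.bij.1
        rw [hff, ha.comm, hb.comm, D.equivariant, ht.comm, hff]
  | add f₁ f₂ _ _ ih1 ih2 =>
    refine ⟨⟨?_, ?_⟩, ?_⟩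
    · intro v v' w
      show f₁ (v + v') w + f₂ (v + v') w = f₁ v w + f₂ v w + (f₁ v' w + f₂ v' w)
      rw [ih1.1.left, ih2.1.left]
      abel
    · intro v w w'
      show f₁ v (w + w') + f₂ v (w + w') = f₁ v w + f₂ v w + (f₁ v w' + f₂ v w')
      rw [ih1.1.right, ih2.1.right]
      abel
    · intro h v w
      show f₁ _ _ + f₂ _ _ = D'.actM h (f₁ v w + f₂ v w)
      rw [ih1.2, ih2.2, D'.isActM.add]

theorem wf_fin {D : MNA.Lite.Pairing} (hf : PFin D) (f : D.V → D.W → D.M)
    (hbi : MNA.Lite.IsBiadd f)
    (heq : ∀ h v w, f (D.actV h v) (D.actW h w) = D.actM h (f v w)) : PFin (wf D f hbi heq) :=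
  ⟨hf.H, hf.V, hf.W, hf.M⟩

theorem simple_iff {p : ℕ} (D : MNA.Lite.Pairing) (hf : PFin D) (h : D.IsAdmissible p) :
    D.IsSimple ↔ (old D hf).IsSimple := by
  have hadm := (adm_iff D hf).1 h
  constructor
  · intro hs F hF hne hc
    have h0 : (old D hf).withForm F hF =
        old (wf D (fun v w => F v w) (bi_isBiadd F) hF) (wf_fin hf _ _ _) := rfl
    have h1 : MNA.Lite.Pairing.Span D D D.β (fun v w => F v w) := by
      rcases span_lite D D hf hf F (by
        have h2 := hc
        unfold MNA.Pairing.Comb at h2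
        have h3 : {g : D.V →+ D.W →+ D.M | MNA.Pairing.IsTwist (old D hf) (old D hf) g} =
            {g : D.V →+ D.W →+ D.M |
              MNA.Pairing.IsTwist ((old D hf).withForm F hF) (old D hf) g} := by
          ext g
          constructor
          · intro hg
            cases hg with
            | straight l a b t ha hb ht hf =>
              exact MNA.Pairing.IsTwist.straight _ l a b t ha hb ht hf
            | swapped l a b t ha hb ht hf =>
              exact MNA.Pairing.IsTwist.swapped _ l a b t ha hb ht hf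
          · intro hg
            cases hg with
            | straight l a b t ha hb ht hf =>
              exact MNA.Pairing.IsTwist.straight _ l a b t ha hb ht hf
            | swapped l a b t ha hb ht hf =>
              exact MNA.Pairing.IsTwist.swapped _ l a b t ha hb ht hf
        rw [h3]
        exact h2) with h4 | ⟨h4, _⟩
      · exact absurd h4 hne
      · exact h4
    have h2 : ∃ v w, F v w ≠ 0 := by
      by_contra hcon
      apply hne
      ext v w
      by_contra h3
      exact hcon ⟨v, w, h3⟩
    have h3 := hs _ h1 h2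
    have h4 := (span_wf D D (fun v w => F v w) (bi_isBiadd F) hF D.β).1 h3
    rw [h0]
    exact (comb_iff D (wf D (fun v w => F v w) (bi_isBiadd F) hF) hf (wf_fin hf _ _ _) h).1 h4
  · intro hs f hspan hne
    obtain ⟨hbi, heq⟩ := span_equivariant D D f hspan
    obtain ⟨F, h1, h2⟩ := span_old D D hf hf f hspan
    have hFf : F = bi f hbi := by
      ext v w
      exact h1 v w
    subst hFf
    have h0 : (old D hf).withForm (bi f hbi) heq =
        old (wf D f hbi heq) (wf_fin hf _ _ _) := rfl
    have hne' : bi f hbi ≠ 0 := by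
      intro h3
      obtain ⟨v, w, hvw⟩ := hne
      apply hvw
      rw [← h1 v w, h3]
      rfl
    have h3 := hs (bi f hbi) heq hne' (by
      have h4 : {g : D.V →+ D.W →+ D.M | MNA.Pairing.IsTwist (old D hf) (old D hf) g} =
            {g : D.V →+ D.W →+ D.M |
              MNA.Pairing.IsTwist ((old D hf).withForm (bi f hbi) heq) (old D hf) g} := by
          ext g
          constructor
          · intro hg
            cases hg with
            | straight l a b t ha hb ht hf =>
              exact MNA.Pairing.IsTwist.straight _ l a b t ha hb ht hf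
            | swapped l a b t ha hb ht hf =>
              exact MNA.Pairing.IsTwist.swapped _ l a b t ha hb ht hf
          · intro hg
            cases hg with
            | straight l a b t ha hb ht hf =>
              exact MNA.Pairing.IsTwist.straight _ l a b t ha hb ht hf
            | swapped l a b t ha hb ht hf =>
              exact MNA.Pairing.IsTwist.swapped _ l a b t ha hb ht hf
      rw [h4] at h2
      exact h2)
    rw [h0] at h3
    exact (span_wf D D f hbi heq D.β).2
      ((comb_iff D (wf D f hbi heq) hf (wf_fin hf _ _ _) h).2 h3)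

end Pairing

end Pool.Agent.Helper75.MNA.Trans
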