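import Pool.Agent.Helper75.MNA.Trans

set_option autoImplicit false
set_option linter.style.haveILetI false

namespace Pool.Agent.Helper75.MNA.Trans

open Pool.Agent.Helper75

/-! ### Crossed modules -/

section Crossed

/-- finiteness of both groups -/
structure XFin (D : MNA.Lite.CrossedMod) : Prop where
  E : Finite D.E
  X : Finite D.X

/-- the bundled action -/
def xact (D : MNA.Lite.CrossedMod) : D.X →* MulAut D.E where
  toFun x :=
    { toFun := D.act x
      invFun := D.act x⁻¹
      left_inv := fun e => by rw [← D.act_mul, inv_mul_cancel, D.act_one]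
      right_inv := fun e => by rw [← D.act_mul, mul_inv_cancel, D.act_one]
      map_mul' := D.act_hom x }
  map_one' := by
    apply MulEquiv.ext
    intro e
    exact D.act_one e
  map_mul' x y := by
    apply MulEquiv.ext
    intro e
    exact D.act_mul x y e

/-- translation to bundled data -/
def oldX (D : MNA.Lite.CrossedMod) (hf : XFin D) : MNA.CrossedMod where
  E := D.E
  X := D.X
  finE := hf.E
  finX := hf.X
  act := xact D
  d := MonoidHom.mk' D.d D.d_mul
  equivariant := D.equivariant
  peiffer := D.peiffer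

/-- translation from bundled data -/
def liteX (D : MNA.CrossedMod) : MNA.Lite.CrossedMod where
  E := D.E
  X := D.X
  act := fun x e => D.act x e
  d := fun e => D.d e
  act_one := fun e => by rw [map_one]; rfl
  act_mul := fun x y e => by rw [map_mul]; rfl
  act_hom := fun x e f => map_mul _ _ _
  d_mul := fun e f => map_mul _ _ _
  equivariant := D.equivariant
  peiffer := D.peiffer

theorem liteX_fin (D : MNA.CrossedMod) : XFin (liteX D) := ⟨D.finE, D.finX⟩

theorem oldX_liteX (D : MNA.CrossedMod) : oldX (liteX D) (liteX_fin D) = D := by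
  have h : xact (liteX D) = D.act := by
    apply MonoidHom.ext
    intro x
    apply MulEquiv.ext
    intro e
    rfl
  obtain ⟨E, X, act, d, he, hp⟩ := D
  unfold oldX
  congr

/-- the groups agree -/
def grpEquivX (D : MNA.Lite.CrossedMod) (hf : XFin D) : D.Grp ≃* (oldX D hf).Grp where
  toFun x := ⟨x.e, x.x⟩
  invFun x := ⟨x.left, x.right⟩
  left_inv _ := rfl
  right_inv _ := rfl
  map_mul' _ _ := rfl

theorem grpX_finite (D : MNA.Lite.CrossedMod) (hf : XFin D) : Finite D.Grp := by
  haveI := hf.E
  haveI := hf.X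
  exact Finite.of_injective (fun g : D.Grp => (g.e, g.x)) (by
    intro a b h
    exact MNA.Lite.CrossedMod.Grp.ext (congrArg Prod.fst h) (congrArg Prod.snd h))

theorem form_oldX (D : MNA.Lite.CrossedMod) (hf : XFin D) :
    MNA.Lite.form D.Grp = MNA.form (oldX D hf).Grp := by
  haveI := grpX_finite D hf
  rw [form_eq]
  exact form_congr (grpEquivX D hf)

theorem xfin_of_adm {p : ℕ} {D : MNA.Lite.CrossedMod} (h : D.IsAdmissible p) : XFin D :=
  ⟨h.finE, h.memA.1⟩

theorem admX_iff {p : ℕ} (D : MNA.Lite.CrossedMod) (hf : XFin D) :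
    D.IsAdmissible p ↔ (oldX D hf).IsAdmissible p := by
  constructor
  · intro h
    refine ⟨h.prime, h.perfect, h.memA, ?_, ?_, h.ker_exp, ?_, h.ker_triv, ?_⟩
    · refine (injective_iff_map_eq_one _).2 (fun x hx => h.faithful x (fun e => ?_))
      have h1 : xact D x e = e := by
        have h2 : xact D x = 1 := hx
        rw [h2]
        rfl
      exact h1
    · intro hbot
      obtain ⟨e, he, hne⟩ := h.ker_ne_one
      apply hne
      have h1 : e ∈ (oldX D hf).d.ker := he
      rw [hbot] at h1
      exact Subgroup.mem_bot.1 h1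
    · intro U hU hinv
      rcases h.ker_irr U (fun e he => hU he) (fun x e he => hinv x e he) with h1 | h1
      · exact Or.inl h1
      · exact Or.inr (le_antisymm hU (fun e he => h1 e he))
    · intro N hN hle
      rcases h.range_min N hN (fun x hx => hle hx) with h1 | h1
      · exact Or.inl h1
      · refine Or.inr (le_antisymm hle ?_)
        rintro x ⟨e, rfl⟩
        exact h1 e
  · intro h
    refine ⟨h.prime, hf.E, h.perfect, h.memA, ?_, ?_, h.ker_exp, ?_, h.ker_triv, ?_⟩
    · intro x hx
      refine (injective_iff_map_eq_one _).1 h.faithful x ?_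
      apply MulEquiv.ext
      intro e
      exact hx e
    · by_contra hcon
      apply h.ker_ne_bot
      rw [eq_bot_iff]
      intro e he
      rw [Subgroup.mem_bot]
      by_contra hne
      exact hcon ⟨e, he, hne⟩
    · intro U hU hinv
      rcases h.ker_irr U (fun e he => hU e he) (fun x e he => hinv x e he) with h1 | h1
      · exact Or.inl h1
      · right
        intro e he
        rw [h1]
        exact he
    · intro N hN hle
      rcases h.range_min N hN (fun x hx => hle x hx) with h1 | h1
      · exact Or.inl h1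
      · right
        intro e
        rw [h1]
        exact ⟨e, rfl⟩

theorem combX_iff (D' D : MNA.Lite.CrossedMod) (hf' : XFin D') (hf : XFin D) :
    D'.Comb D ↔ (oldX D' hf').Comb (oldX D hf) := by
  constructor
  · rintro ⟨n, μ, ε, hμ, h1, h2, h3⟩
    refine ⟨n, fun i => grpIso (μ i) (hμ i), MonoidHom.mk' (fun z => ε z.1.1 z.1.2) ?_, ?_, ?_⟩
    · intro z z'
      exact h2 z.1.1 z.1.2 z'.1.1 z'.1.2 z.2 z'.2
    · intro z
      exact h1 z.1.1 z.1.2 z.2
    · intro x z z' hz hz'
      have h4 := h3 x z.1.1 z.1.2 z.2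
      have h5 : z'.1.2 = fun i => D.act (μ i x) (z.1.2 i) := funext hz'
      show ε z'.1.1 z'.1.2 = _
      rw [hz, h5]
      exact h4
  · rintro ⟨n, μ, ε, h1, h2⟩
    classical
    refine ⟨n, fun i x => μ i x, fun l e =>
      if h : D'.InFib D (fun i x => μ i x) l e then ε ⟨(l, e), h⟩ else 1,
      fun i => isGrpIso_of (μ i), ?_, ?_, ?_⟩
    · intro l e h
      show D'.d (if h : D'.InFib D (fun i x => μ i x) l e then ε ⟨(l, e), h⟩ else 1) = l
      rw [dif_pos h]
      exact h1 ⟨(l, e), h⟩
    · intro l e l' e' h h'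
      have hm : D'.InFib D (fun i x => μ i x) (l * l') (fun i => e i * e' i) :=
        (MNA.CrossedMod.Fib (oldX D' hf') (oldX D hf) μ).mul_mem
          (x := (l, e)) (y := (l', e')) h h'
      show (if h : D'.InFib D (fun i x => μ i x) (l * l') (fun i => e i * e' i) then
        ε ⟨(l * l', fun i => e i * e' i), h⟩ else 1) =
        (if h : D'.InFib D (fun i x => μ i x) l e then ε ⟨(l, e), h⟩ else 1) *
        (if h : D'.InFib D (fun i x => μ i x) l' e' then ε ⟨(l', e'), h⟩ else 1)
      rw [dif_pos h, dif_pos h', dif_pos hm]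
      exact map_mul ε ⟨(l, e), h⟩ ⟨(l', e'), h'⟩
    · intro x l e h
      have hm : D'.InFib D (fun i x => μ i x) (x * l * x⁻¹)
          (fun i => D.act (μ i x) (e i)) := by
        obtain ⟨⟨f, hf1⟩, he⟩ := h
        refine ⟨⟨D'.act x f, by rw [D'.equivariant, hf1]⟩, fun i => ?_⟩
        show D.d (D.act (μ i x) (e i)) = μ i (x * l * x⁻¹)
        rw [D.equivariant, he i]
        exact ((map_mul (μ i) (x * l) x⁻¹).trans (by rw [map_mul, map_inv]; rfl)).symm
      show (if h : D'.InFib D (fun i x => μ i x) (x * l * x⁻¹)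
          (fun i => D.act (μ i x) (e i)) then
        ε ⟨(x * l * x⁻¹, fun i => D.act (μ i x) (e i)), h⟩ else 1) = D'.act x
        (if h : D'.InFib D (fun i x => μ i x) l e then ε ⟨(l, e), h⟩ else 1)
      rw [dif_pos h, dif_pos hm]
      exact h2 x ⟨(l, e), h⟩ ⟨(x * l * x⁻¹, fun i => D.act (μ i x) (e i)), hm⟩ rfl
        (fun i => rfl)

theorem pureX_iff (D : MNA.Lite.CrossedMod) (hf : XFin D) :
    D.IsPure ↔ (oldX D hf).IsPure := by
  constructor
  · intro h q D' hD' hc
    have h1 : (liteX D').IsAdmissible q := by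
      rw [admX_iff _ (liteX_fin D'), oldX_liteX]
      exact hD'
    have h2 : (liteX D').Comb D := by
      rw [combX_iff _ _ (liteX_fin D') hf, oldX_liteX]
      exact hc
    have h3 := h q (liteX D') h1 h2
    rw [combX_iff _ _ hf (liteX_fin D'), oldX_liteX] at h3
    exact h3
  · intro h q D' hD' hc
    have hf' := xfin_of_adm hD'
    exact (combX_iff _ _ hf hf').2 (h q (oldX D' hf') ((admX_iff D' hf').1 hD')
      ((combX_iff _ _ hf' hf).1 hc))

end Crossed

end Pool.Agent.Helper75.MNA.Trans
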