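import Pool.Agent.Helper75.MNA.Canon
import Pool.Agent.Helper75.MNA.Trans2
import Pool.Agent.Helper75.MNA.CanMain
import Pool.Agent.Helper75.MNA.Example2

set_option autoImplicit false
set_option linter.style.haveILetI false

namespace Pool.Agent.Helper75.MNA.Trans

open Pool.Agent.Helper75

section Pairing

variable {D D' : MNA.Lite.Pairing} (hf : PFin D) (hf' : PFin D')

theorem pull_of_isPull (g : D.V → D.W → D'.M) (h : D.IsPull D' g) :
    ∃ γ : MNA.Tri (old D hf).base (old D' hf').base, ∀ v w, g v w = γ.pull (old D' hf').β v w := by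
  cases h with
  | straight l a b hl ha hb hg =>
    exact ⟨MNA.Tri.straight (B := (old D hf).base) (B' := (old D' hf').base) (grpIso l hl)
      (modEquiv a ha.bij ha.add) (modEquiv b hb.bij hb.add) ha.comm hb.comm, hg⟩
  | swapped l a b hl ha hb hg =>
    exact ⟨MNA.Tri.swapped (B := (old D hf).base) (B' := (old D' hf').base) (grpIso l hl)
      (modEquiv a ha.bij ha.add) (modEquiv b hb.bij hb.add) ha.comm hb.comm, hg⟩

theorem isPull_of_pull (γ : MNA.Tri (old D hf).base (old D' hf').base) (g : D.V → D.W → D'.M)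
    (hg : ∀ v w, g v w = γ.pull (old D' hf').β v w) : D.IsPull D' g := by
  cases γ with
  | straight l a b ha hb =>
    exact .straight (fun x => l x) (fun x => a x) (fun x => b x) (isGrpIso_of l)
      ⟨a.bijective, fun x y => map_add a x y, ha⟩ ⟨b.bijective, fun x y => map_add b x y, hb⟩ hg
  | swapped l a b ha hb =>
    exact .swapped (fun x => l x) (fun x => a x) (fun x => b x) (isGrpIso_of l)
      ⟨a.bijective, fun x y => map_add a x y, ha⟩ ⟨b.bijective, fun x y => map_add b x y, hb⟩ hg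

theorem isLift_iff (t : D.M → D'.M) : D.IsLift D' t ↔
    ∃ (T : D.M →+ D'.M) (γ : MNA.Tri (old D hf).base (old D' hf').base),
      (∀ m, T m = t m) ∧ (old D hf).Lift (old D' hf') γ T := by
  constructor
  · rintro ⟨h1, h2⟩
    obtain ⟨γ, hγ⟩ := pull_of_isPull hf hf' _ h2
    exact ⟨AddMonoidHom.mk' t h1, γ, fun m => rfl, hγ⟩
  · rintro ⟨T, γ, h1, h2⟩
    have h3 : (fun m => T m) = t := funext h1
    subst h3
    exact ⟨fun x y => map_add T x y, isPull_of_pull hf hf' γ _ h2⟩

theorem iso_iff : D.Iso D' ↔ (old D hf).Iso (old D' hf') := by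
  constructor
  · rintro ⟨t, hb, hl⟩
    obtain ⟨T, γ, h1, h2⟩ := (isLift_iff hf hf' t).1 hl
    have hT : Function.Bijective T := by
      have h3 : (fun m => T m) = t := funext h1
      rw [← h3] at hb
      exact hb
    exact ⟨γ, AddEquiv.ofBijective T hT, h2⟩
  · rintro ⟨γ, t, h⟩
    exact ⟨fun m => t m, t.bijective, (isLift_iff hf hf' _).2
      ⟨t.toAddMonoidHom, γ, fun m => rfl, h⟩⟩

theorem pfin_of_canon {p : ℕ} {D : MNA.Lite.Pairing} (h : D.IsCanonical p) : PFin D :=
  ⟨h.memA.1, h.irrV.1, h.irrW.1, h.finM⟩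

theorem canon_iff {p : ℕ} (D : MNA.Lite.Pairing) (hf : PFin D) :
    D.IsCanonical p ↔ (old D hf).IsCanon p := by
  constructor
  · intro h
    refine ⟨⟨h.prime, h.coprime, h.memA, h.expV, h.expW, h.expM,
      (isIrred_iff _ D.isActV hf.V).1 h.irrV, (isIrred_iff _ D.isActW hf.W).1 h.irrW,
      ?_, h.faithful, h.span⟩, ?_, ?_⟩
    · intro h0
      obtain ⟨v, w, hvw⟩ := h.nonzero
      apply hvw
      have h1 : (old D hf).β v w = 0 := by
        rw [h0]
        rfl
      exact h1
    · intro γ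
      obtain ⟨t, h1, h2⟩ := h.lifts _ (isPull_of_pull hf hf γ _ (fun v w => rfl))
      exact ⟨AddMonoidHom.mk' t h1, h2⟩
    · intro U hU
      refine h.irr U (fun t ht u hu => ?_)
      obtain ⟨T, γ, h1, h2⟩ := (isLift_iff hf hf t).1 ht
      rw [← h1]
      exact hU γ T h2 u hu
  · intro h
    refine ⟨h.pre.prime, h.pre.coprime, h.pre.memA, hf.M, h.pre.expV, h.pre.expW, h.pre.expM,
      (isIrred_iff _ D.isActV hf.V).2 h.pre.irrV, (isIrred_iff _ D.isActW hf.W).2 h.pre.irrW,
      h.pre.faithful, ?_, h.pre.span, ?_, ?_⟩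
    · by_contra hcon
      apply h.pre.nonzero
      ext v w
      by_contra h1
      exact hcon ⟨v, w, h1⟩
    · intro g hg
      obtain ⟨γ, hγ⟩ := pull_of_isPull hf hf g hg
      obtain ⟨t, ht⟩ := h.lifts γ
      refine ⟨fun m => t m, fun x y => map_add t x y, fun v w => ?_⟩
      rw [hγ]
      exact ht v w
    · intro U hU
      refine h.irr U (fun γ t ht u hu => ?_)
      exact hU (fun m => t m) ((isLift_iff hf hf _).2 ⟨t, γ, fun m => rfl, ht⟩) u hu

end Pairing

section Crossed

variable {D D' : MNA.Lite.CrossedMod} (hf : XFin D) (hf' : XFin D')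

theorem isLiftX_iff (ε : D.E → D'.E) (μ : D.X → D'.X) : D.IsLift D' ε μ ↔
    ∃ (T : D.E →* D'.E) (ν : D.X ≃* D'.X),
      (∀ e, T e = ε e) ∧ (∀ x, ν x = μ x) ∧
        (oldX D hf).Lift (oldX D' hf') ν.toMonoidHom T := by
  constructor
  · rintro ⟨h1, h2, h3⟩
    exact ⟨MonoidHom.mk' ε h2, grpIso μ h1, fun e => rfl, fun x => rfl, h3⟩
  · rintro ⟨T, ν, h1, h2, h3⟩
    have h4 : (fun e => T e) = ε := funext h1
    have h5 : (fun x => ν x) = μ := funext h2
    subst h4 h5
    exact ⟨isGrpIso_of ν, fun e f => map_mul T e f, h3⟩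

theorem isoX_iff (hp : commutator D.E = ⊤) : D.Iso D' ↔ (oldX D hf).Iso (oldX D' hf') := by
  constructor
  · rintro ⟨ε, μ, hl, hb, _⟩
    obtain ⟨T, ν, h1, h2, h3⟩ := (isLiftX_iff hf hf' ε μ).1 hl
    have hT : Function.Bijective T := by
      have h4 : (fun m => T m) = ε := funext h1
      rw [← h4] at hb
      exact hb
    exact ⟨ν, MulEquiv.ofBijective T hT, h3⟩
  · rintro ⟨μ, ε, h⟩
    refine ⟨fun e => ε e, fun x => μ x, (isLiftX_iff hf hf' _ _).2
      ⟨ε.toMonoidHom, μ, fun e => rfl, fun x => rfl, h⟩, ε.bijective, ?_⟩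
    intro x e
    exact MNA.CrossedMod.lift_equivariant (D := oldX D hf) (D' := oldX D' hf') hp
      μ.toMonoidHom ε.toMonoidHom h x e

theorem xfin_of_canon {p : ℕ} {D : MNA.Lite.CrossedMod} (h : D.IsCanonical p) : XFin D :=
  ⟨h.finE, h.memA.1⟩

theorem canonX_iff {p : ℕ} (D : MNA.Lite.CrossedMod) (hf : XFin D) :
    D.IsCanonical p ↔ (oldX D hf).IsCanon p := by
  constructor
  · intro h
    refine ⟨⟨h.prime, h.perfect, h.memA, ?_, ?_, h.ker_exp, h.ker_triv, ?_⟩, ?_, ?_⟩
    · refine (injective_iff_map_eq_one _).2 (fun x hx => h.faithful x (fun e => ?_))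
      have h1 : xact D x e = e := by
        have h2 : xact D x = 1 := hx
        rw [h2]
        rfl
      exact h1
    · intro hbot
      obtain ⟨e, he, hne⟩ := h.ker_ne_one
      apply hne
      have h1 : e ∈ (oldX D hf).d.ker := he
      rw [hbot] at h1
      exact Subgroup.mem_bot.1 h1
    · intro N hN hle
      rcases h.range_min N hN (fun x hx => hle hx) with h1 | h1
      · exact Or.inl h1
      · refine Or.inr (le_antisymm hle ?_)
        rintro x ⟨e, rfl⟩
        exact h1 e
    · intro μ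
      obtain ⟨ε, hε⟩ := h.lifts (fun x => μ x) (isGrpIso_of μ)
      exact ⟨MonoidHom.mk' ε hε.mul, hε.comm⟩
    · intro U hU hinv
      rcases h.irr U (fun e he => hU he) (fun ε μ hl e he => by
        obtain ⟨T, ν, h1, h2, h3⟩ := (isLiftX_iff hf hf ε μ).1 hl
        rw [← h1]
        exact hinv ν T h3 e he) with h1 | h1
      · exact Or.inl h1
      · exact Or.inr (le_antisymm hU (fun e he => h1 e he))
  · intro h
    refine ⟨h.pre.prime, hf.E, h.pre.perfect, h.pre.memA, ?_, ?_, ?_, h.pre.ker_exp,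
      h.pre.ker_triv, ?_, ?_⟩
    · intro x hx
      refine (injective_iff_map_eq_one _).1 h.pre.faithful x ?_
      apply MulEquiv.ext
      intro e
      exact hx e
    · intro N hN hle
      rcases h.pre.range_min N hN (fun x hx => hle x hx) with h1 | h1
      · exact Or.inl h1
      · right
        intro e
        rw [h1]
        exact ⟨e, rfl⟩
    · by_contra hcon
      apply h.pre.ker_ne_bot
      rw [eq_bot_iff]
      intro e he
      rw [Subgroup.mem_bot]
      by_contra hne
      exact hcon ⟨e, he, hne⟩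
    · intro μ hμ
      obtain ⟨T, hT⟩ := h.lifts (grpIso μ hμ)
      exact ⟨fun e => T e, hμ, fun e f => map_mul T e f, hT⟩
    · intro U hU hinv
      rcases h.irr U (fun e he => hU e he) (fun ν T hT e he =>
        hinv (fun e => T e) (fun x => ν x) ((isLiftX_iff hf hf _ _).2
          ⟨T, ν, fun e => rfl, fun x => rfl, hT⟩) e he) with h1 | h1
      · exact Or.inl h1
      · right
        intro e he
        rw [h1]
        exact he

end Crossed

theorem canon1 (F : MNA.GroupClass) : MNA.Lite.IsMinimalNonA F ↔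
      (∃ (G : Type) (_ : Group G), MNA.Lite.IsPrimitiveType G ∧ F = MNA.Lite.form G) ∨
      (∃ (p : ℕ) (D : MNA.Lite.Pairing), D.IsCanonical p ∧ F = MNA.Lite.form D.Grp) ∨
      (∃ (p : ℕ) (D : MNA.Lite.CrossedMod), D.IsCanonical p ∧ F = MNA.Lite.form D.Grp) := by
  rw [isMinimalNonA_iff, MNA.main_canon F]
  constructor
  · rintro (⟨G, _, h1, h2⟩ | ⟨p, D, h1, h3⟩ | ⟨p, D, h1, h3⟩)
    · exact Or.inl ⟨G, _, (isPrimitiveType_iff G).2 h1, by rw [form_eq]; exact h2⟩
    · refine Or.inr (Or.inl ⟨p, lite D, (canon_iff (lite D) (lite_fin D)).2 h1, ?_⟩)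
      rw [form_old (lite D) (lite_fin D), old_lite]
      exact h3
    · refine Or.inr (Or.inr ⟨p, liteX D, ?_, ?_⟩)
      · rw [canonX_iff _ (liteX_fin D), oldX_liteX]
        exact h1
      · rw [form_oldX (liteX D) (liteX_fin D), oldX_liteX]
        exact h3
  · rintro (⟨G, _, h1, h2⟩ | ⟨p, D, h1, h3⟩ | ⟨p, D, h1, h3⟩)
    · exact Or.inl ⟨G, _, (isPrimitiveType_iff G).1 h1, by rw [← form_eq]; exact h2⟩
    · have hf := pfin_of_canon h1
      refine Or.inr (Or.inl ⟨p, old D hf, (canon_iff D hf).1 h1, ?_⟩)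
      rw [← form_old D hf]
      exact h3
    · have hf := xfin_of_canon h1
      refine Or.inr (Or.inr ⟨p, oldX D hf, (canonX_iff D hf).1 h1, ?_⟩)
      rw [← form_oldX D hf]
      exact h3

theorem canon2 (G K : Type) [Group G] [Group K] (hG : MNA.Lite.IsPrimitiveType G)
    (hK : MNA.Lite.IsPrimitiveType K) :
    (MNA.Lite.form G = MNA.Lite.form K ↔ Nonempty (G ≃* K)) := by
  rw [form_eq, form_eq]
  have hG' := (isPrimitiveType_iff G).1 hG
  have hK' := (isPrimitiveType_iff K).1 hK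
  haveI := hG'.finite
  haveI := hK'.finite
  constructor
  · intro h
    refine MNA.primitive_unique hG' hK' ?_
    rw [h]
    exact MNA.self_mem_form K
  · rintro ⟨e⟩
    exact form_congr e

theorem canon3 (p q : ℕ) (D D' : MNA.Lite.Pairing) (hD : D.IsCanonical p)
    (hD' : D'.IsCanonical q) :
    (MNA.Lite.form D.Grp = MNA.Lite.form D'.Grp ↔ D.Iso D') := by
  have hf := pfin_of_canon hD
  have hf' := pfin_of_canon hD'
  rw [form_old D hf, form_old D' hf', iso_iff hf hf']
  exact MNA.canon_pairing_eq ((canon_iff D hf).1 hD) ((canon_iff D' hf').1 hD')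

theorem canon4 (p q : ℕ) (D D' : MNA.Lite.CrossedMod) (hD : D.IsCanonical p)
    (hD' : D'.IsCanonical q) :
    (MNA.Lite.form D.Grp = MNA.Lite.form D'.Grp ↔ D.Iso D') := by
  have hf := xfin_of_canon hD
  have hf' := xfin_of_canon hD'
  rw [form_oldX D hf, form_oldX D' hf', isoX_iff hf hf' hD.perfect]
  exact MNA.canon_crossed_eq ((canonX_iff D hf).1 hD) ((canonX_iff D' hf').1 hD')

theorem canon5 (G : Type) [Group G] (p q : ℕ) (D : MNA.Lite.Pairing) (D' : MNA.Lite.CrossedMod)
    (hG : MNA.Lite.IsPrimitiveType G) (hD : D.IsCanonical p) (hD' : D'.IsCanonical q) :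
    MNA.Lite.form G ≠ MNA.Lite.form D.Grp ∧ MNA.Lite.form G ≠ MNA.Lite.form D'.Grp ∧
      MNA.Lite.form D.Grp ≠ MNA.Lite.form D'.Grp := by
  have hf := pfin_of_canon hD
  have hf' := xfin_of_canon hD'
  rw [form_eq G, form_old D hf, form_oldX D' hf']
  exact MNA.canon_exclusion ((canon_iff D hf).1 hD) ((canonX_iff D' hf').1 hD') G
    ((isPrimitiveType_iff G).1 hG)

theorem exists_canonical (p : ℕ) (hp : p.Prime) : ∃ D : MNA.Lite.Pairing, D.IsCanonical p := by
  have hp' : Fact p.Prime := ⟨hp⟩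
  exact ⟨lite (MNA.mulPairing p), (canon_iff _ (lite_fin _)).2 (MNA.mulPairing_canon p)⟩

end Pool.Agent.Helper75.MNA.Trans
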